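import Mathlib

/-!
# Alexander-Spanier cohomology with compact supports of the open subsets of a compact space

`X` is a topological space (compact in the applications), `R` a commutative ring, `V` an open subset of `X`.
The Alexander-Spanier cohomology `H^p_c(V; R) = H^p(X, X \ V; R)` consists of the cocycles of degree `p` with support in `V`
(`IsCocycle R p V c`; supports are closed, so compact if `X` is compact) modulo the coboundaries (`IsCob R p V c`); for `W ⊆ V` the
homomorphism `H^p_c(W; R) → H^p_c(V; R)` sends the class of `c` to the class of `c`.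
-/

set_option autoImplicit false

namespace AlexanderSpanier

section

variable (R : Type) {X : Type} [CommRing R]

/-- Cochains of degree `p`: arbitrary functions of `p + 1` points of `X` with values in `R`. -/
abbrev Coch (X : Type) (p : ℕ) : Type := (Fin (p + 1) → X) → R

/-- The coboundary `(δ c)(x₀, …, x_{p+1}) = ∑ (-1)^i c(x₀, …, x_{p+1} without x_i)`. -/
def delta (p : ℕ) (c : Coch R X p) : Coch R X (p + 1) :=
  fun x => ∑ i : Fin (p + 2), (-1) ^ (i : ℕ) * c (fun j => x (i.succAbove j))

variable [TopologicalSpace X]

/-- The support of a cochain: `x` is not in the support if and only if `x` has an open neighbourhood `U` such that the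
cochain is zero on all tuples of points of `U`. The cochain is locally zero if its support is empty. -/
def supp (p : ℕ) (c : Coch R X p) : Set X :=
  {x | ¬ ∃ U : Set X, IsOpen U ∧ x ∈ U ∧ ∀ y : Fin (p + 1) → X, (∀ i, y i ∈ U) → c y = 0}

/-- Cocycles of degree `p` with support in `V`: `supp c ⊆ V` and `δ c` is locally zero. -/
def IsCocycle (p : ℕ) (V : Set X) (c : Coch R X p) : Prop :=
  supp R p c ⊆ V ∧ supp R (p + 1) (delta R p c) = ∅

/-- Coboundaries of degree `p` with support in `V`: `c` is, up to a locally zero cochain, equal to `δ b` for a cochain `b` with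
`supp b ⊆ V` (in degree `0`: `c` is locally zero). -/
def IsCob : (p : ℕ) → Set X → Coch R X p → Prop
  | 0, _, c => supp R 0 c = ∅
  | p + 1, V, c => ∃ b : Coch R X p, supp R p b ⊆ V ∧ supp R (p + 1) (c - delta R p b) = ∅

/-- The class of the cocycle `g` generates `H^p_c(V; R)` freely: every cocycle `c` of degree `p` with support in `V` is
cohomologous to `t • g` for exactly one `t : R`. So `H^p_c(V; R) ≅ R`, with generator the class of `g`. -/
def IsGenerator (p : ℕ) (V : Set X) (g : Coch R X p) : Prop :=
  IsCocycle R p V g ∧ ∀ c : Coch R X p, IsCocycle R p V c → ∃! t : R, IsCob R p V (c - t • g)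

end

/-- Cohomology `n`-manifolds over `R` (Borel, Bredon), for a compact space `X`. Every open neighbourhood `N` of a point `x`
contains
* an open neighbourhood `V` of `x` such that `H^p_c(V; R) → H^p_c(N; R)` is zero for all `p ≠ n` (there is local cohomology only in
  degree `n`), and
* a connected open neighbourhood `B` of `x` such that `H^n_c(V; R) ≅ R` for all connected open `V ⊆ B` (in particular for `V = B`),
  and `H^n_c(W; R) → H^n_c(V; R)` is an isomorphism (it sends generators to generators) for all connected open `W ⊆ V ⊆ B` (local
  orientability).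
(Connected sets are nonempty here. As `B` exists in every `N`, such a space is locally connected.) -/
def CohomologyManifold (R : Type) [CommRing R] (n : ℕ) (X : Type) [TopologicalSpace X] : Prop :=
  ∀ (x : X) (N : Set X), IsOpen N → x ∈ N →
    (∃ V ⊆ N, IsOpen V ∧ x ∈ V ∧
      ∀ p ≠ n, ∀ c : Coch R X p, IsCocycle R p V c → IsCob R p N c) ∧
    ∃ B ⊆ N, IsOpen B ∧ IsConnected B ∧ x ∈ B ∧ ∀ V ⊆ B, IsOpen V → IsConnected V →
      (∃ g, IsGenerator R n V g) ∧
      ∀ W ⊆ V, IsOpen W → IsConnected W → ∀ g, IsGenerator R n W g → IsGenerator R n V g

end AlexanderSpanier
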