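import Pool.Agent.BBH.StmtsB

/-!
# Module ARC: closed subsets of arcs, finite unions of arcs
-/

set_option autoImplicit false

namespace BBH

open Set Topology

namespace ARC

variable {M X : Type} [AddCommGroup M] [MetricSpace X]

/-- Mayer-Vietoris, vanishing -/
theorem mv (hM : S_MVC) {p : ℤ} {A B : Set X} (hA : IsCompact A) (hB : IsClosed B)
    (h : Van M (p - 1) (A ∩ B) ∅) (h1 : Van M p A ∅) (h2 : Van M p B ∅) :
    Van M p (A ∪ B) ∅ := by
  intro c hc
  obtain ⟨e, he, h3⟩ := hM M X p A B c hA hB (h1 c (hc.mono subset_union_left Subset.rfl))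
    (h2 c (hc.mono subset_union_right Subset.rfl))
  refine h3 0 0 Cyc.zero Cyc.zero ?_
  rw [sub_zero, sub_zero]
  exact h e he

theorem arc_compact {A : Set X} {a b : X} (h : BBP.Arc A a b) : IsCompact A := by
  obtain ⟨α, hc, -, -, -, rfl⟩ := h
  exact isCompact_Icc.image_of_continuousOn hc

/-- the inverse of the parametrisation -/
theorem arc_inv {A : Set X} {a b : X} (h : BBP.Arc A a b) :
    ∃ f : X → ℝ, ContinuousOn f A ∧ InjOn f A := by
  obtain ⟨α, hc, hi, -, -, rfl⟩ := h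
  have hl : ∀ t ∈ Icc (0 : ℝ) 1, Function.invFunOn α (Icc 0 1) (α t) = t := fun t ht =>
    hi.leftInvOn_invFunOn ht
  refine ⟨Function.invFunOn α (Icc 0 1), ?_, ?_⟩
  · rw [continuousOn_iff_isClosed]
    intro C hC
    refine ⟨α '' (Icc 0 1 ∩ C), ((isCompact_Icc.inter_right hC).image_of_continuousOn
      (hc.mono inter_subset_left)).isClosed, ?_⟩
    ext x
    constructor
    · rintro ⟨hx, t, ht, rfl⟩
      have hx' : Function.invFunOn α (Icc 0 1) (α t) ∈ C := hx
      rw [hl t ht] at hx'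
      exact ⟨⟨t, ⟨ht, hx'⟩, rfl⟩, ⟨t, ht, rfl⟩⟩
    · rintro ⟨⟨t, ⟨ht, htC⟩, rfl⟩, -⟩
      refine ⟨?_, ⟨t, ht, rfl⟩⟩
      show Function.invFunOn α (Icc 0 1) (α t) ∈ C
      rw [hl t ht]
      exact htC
  · rintro _ ⟨s, hs, rfl⟩ _ ⟨t, ht, rfl⟩ he
    rw [hl s hs, hl t ht] at he
    rw [he]

theorem closed (hV : S_VA1) {A F : Set X} {a b : X} (h : BBP.Arc A a b) (hF : IsClosed F)
    (hFA : F ⊆ A) {p : ℤ} (hp : 1 ≤ p) : Van M p F ∅ := by
  obtain ⟨f, hc, hi⟩ := arc_inv h
  exact hV M X F f ((arc_compact h).of_isClosed_subset hF hFA) (hc.mono hFA) (hi.mono hFA) p hp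

theorem fin (hM : S_MVC) (hV : S_VA1) (n : ℕ) : ∀ (A : Fin n → Set X) (a b : Fin n → X),
    (∀ i, BBP.Arc (A i) (a i) (b i)) → ∀ p : ℤ, 2 ≤ p → Van M p (⋃ i, A i) ∅ := by
  induction n with
  | zero =>
    intro A a b _ p _
    have e : (⋃ i, A i) = (∅ : Set X) := by
      rw [iUnion_eq_empty]
      exact fun i => i.elim0
    rw [e]
    exact Van.empty p ∅
  | succ n ih =>
    intro A a b h p hp
    have e : (⋃ i, A i) = A (Fin.last n) ∪ ⋃ i : Fin n, A i.castSucc := by
      ext x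
      rw [mem_union, mem_iUnion, mem_iUnion]
      constructor
      · rintro ⟨i, hi⟩
        refine Fin.lastCases (motive := fun i => x ∈ A i → x ∈ A (Fin.last n) ∨
          ∃ i : Fin n, x ∈ A i.castSucc) (fun hx => Or.inl hx) (fun i hx => Or.inr ⟨i, hx⟩) i hi
      · rintro (hx | ⟨i, hx⟩)
        · exact ⟨_, hx⟩
        · exact ⟨_, hx⟩
    have hcl : IsClosed (⋃ i : Fin n, A i.castSucc) :=
      isClosed_iUnion_of_finite fun i => (arc_compact (h i.castSucc)).isClosed
    rw [e]
    refine mv hM (arc_compact (h (Fin.last n))) hcl ?_ ?_ ?_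
    · exact closed hV (h (Fin.last n)) ((arc_compact (h (Fin.last n))).isClosed.inter hcl)
        inter_subset_left (by omega)
    · exact closed hV (h (Fin.last n)) (arc_compact (h (Fin.last n))).isClosed Subset.rfl
        (by omega)
    · exact ih (fun i => A i.castSucc) (fun i => a i.castSucc) (fun i => b i.castSucc)
        (fun i => h i.castSucc) p hp

end ARC

theorem t_ARC : M_ARC := by
  intro hM hV
  refine ⟨?_, ?_, ?_⟩
  · intro M X _ _ A F a b h hF hFA p hp
    exact ARC.closed hV h hF hFA hp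
  · intro M X _ _ n A a b h p hp
    exact ARC.fin hM hV n A a b h p hp
  · intro M X _ _ D A a b hD h p hp hDv
    have hA := (ARC.arc_compact h).isClosed
    refine ARC.mv hM hD hA ?_ hDv ?_
    · exact ARC.closed hV h (hD.isClosed.inter hA) inter_subset_right (by omega)
    · exact ARC.closed hV h hA Subset.rfl (by omega)

end BBH
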