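import Pool.Agent.BBH.StmtsB

/-!
# BBH, module CMB: complexes of small dimension
-/

set_option autoImplicit false

namespace BBH

open Set

namespace CMB

variable {M V : Type} [AddCommGroup M]

theorem cl_shift {K : Set (List V)} (h : Cl K) (v : V) : Cl {l | v :: l ∈ K} := h.shift v

theorem cl_inter {K L : Set (List V)} (h : Cl K) (h' : Cl L) : Cl (K ∩ L) :=
  fun l hl l' hl' => ⟨h l hl.1 l' hl', h' l hl.2 l' hl'⟩

theorem cl_avoid (v : V) : Cl {l : List V | v ∉ l} := fun _ hl _ hl' h => hl (hl' h)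

theorem dd_sub_dd (b e : Cc M V) : dd (b - dd e) = dd b := by
  rw [dd_sub, dd_dd, sub_zero]

theorem dd_add_dd (b e : Cc M V) : dd (b + dd e) = dd b := by
  rw [dd_add, dd_dd, add_zero]

theorem step [DecidableEq V] (m : ℕ)
    (ihm : ∀ (s : Finset V) (K L : Set (List V)), Cl K → Cl L → L ⊆ K →
      (∀ l ∈ K, l.toFinset.card ≤ m ∧ ∀ v ∈ l, v ∈ s) → ∀ q : ℤ, m ≤ q → ∀ c : Cc M V,
      Dg V q c → (∀ l ∈ K, dd c l = 0) → (∀ l ∈ L, c l = 0) →
      ∃ b : Cc M V, Dg V (q - 1) b ∧ (∀ l ∈ L, b l = 0) ∧ ∀ l ∈ K, c l = dd b l)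
    (s : Finset V) : ∀ (K L : Set (List V)), Cl K → Cl L → L ⊆ K →
      (∀ l ∈ K, l.toFinset.card ≤ m + 1 ∧ ∀ v ∈ l, v ∈ s) → ∀ q : ℤ, (m + 1 : ℕ) ≤ q →
      ∀ c : Cc M V, Dg V q c → (∀ l ∈ K, dd c l = 0) → (∀ l ∈ L, c l = 0) →
      ∃ b : Cc M V, Dg V (q - 1) b ∧ (∀ l ∈ L, b l = 0) ∧ ∀ l ∈ K, c l = dd b l := by
  classical
  induction s using Finset.induction_on with
  | empty =>
    intro K L hK hL hLK hs q hq c hc hd hz
    refine ⟨0, Dg.zero, fun l _ => rfl, fun l hl => ?_⟩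
    have h1 : l = [] := by
      rcases l with _ | ⟨x, l⟩
      · rfl
      · exact absurd ((hs _ hl).2 x (by simp)) (by simp)
    subst h1
    rw [hc.nil, dd_nil]
  | insert v s hv ihs =>
    intro K L hK hL hLK hs q hq c hc hd hz
    have hq' : (m : ℤ) ≤ q - 1 := by
      push_cast at hq
      omega
    have hq1 : (0 : ℤ) < q := by
      push_cast at hq
      omega
    -- the families
    have hKv : Cl {l | v :: l ∈ K} := hK.shift v
    have hLv : Cl {l | v :: l ∈ L} := hL.shift v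
    have hav : Cl {l : List V | v ∉ l} := cl_avoid v
    have hK' : Cl (K ∩ {l | v ∉ l}) := cl_inter hK hav
    have hL' : Cl (L ∩ {l | v ∉ l}) := cl_inter hL hav
    have hLk : Cl ({l | v :: l ∈ K} ∩ {l | v ∉ l}) := cl_inter hKv hav
    have hQ : Cl ((L ∩ {l | v ∉ l}) ∩ {l | v :: l ∈ K}) := cl_inter hL' hKv
    have hLkL : Cl ({l | v :: l ∈ L} ∩ {l | v ∉ l}) := cl_inter hLv hav
    have sub1 : ∀ l, v :: l ∈ K → l ∈ K := fun l h => hK _ h _ (List.subset_cons_self v l)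
    have sub2 : ∀ l, v :: l ∈ L → l ∈ L := fun l h => hL _ h _ (List.subset_cons_self v l)
    have dup : ∀ l, v ∈ l → l ∈ L → v :: l ∈ L := fun l h h' => hL _ h' _ (by
      intro x hx
      rcases List.mem_cons.1 hx with rfl | hx
      · exact h
      · exact hx)
    have dupK : ∀ l, v ∈ l → l ∈ K → v :: l ∈ K := fun l h h' => hK _ h' _ (by
      intro x hx
      rcases List.mem_cons.1 hx with rfl | hx
      · exact h
      · exact hx)
    -- small number of members in the link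
    have small : ∀ l, v :: l ∈ K → v ∉ l → l.toFinset.card ≤ m ∧ ∀ w ∈ l, w ∈ insert v s := by
      intro l h1 h2
      have h3 := hs _ h1
      refine ⟨?_, fun w hw => h3.2 w (List.mem_cons_of_mem _ hw)⟩
      have h4 := h3.1
      rw [List.toFinset_cons, Finset.card_insert_of_notMem (by simpa using h2)] at h4
      omega
    -- (i)
    have hb1 : Dg V (q - 1) (sh c v) := by
      intro l hl
      have h1 := (hc _ hl).2
      simp only [List.length_cons] at h1
      push_cast at h1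
      refine ⟨?_, by omega⟩
      rintro rfl
      simp only [List.length_nil] at h1
      push_cast at h1
      omega
    have hcb : ∀ l, v :: l ∈ K → c l = dd (sh c v) l := by
      intro l hl
      have h1 := hd _ hl
      rw [dd_cons, sub_eq_zero] at h1
      exact h1
    obtain ⟨e, he1, he2, he3⟩ := ihm (insert v s) ((L ∩ {l | v ∉ l}) ∩ {l | v :: l ∈ K})
      ({l | v :: l ∈ L} ∩ {l | v ∉ l}) hQ hLkL
      (fun l hl => ⟨⟨sub2 l hl.1, hl.2⟩, hLK hl.1⟩)
      (fun l hl => small l hl.2 hl.1.2) (q - 1) hq' (sh c v) hb1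
      (fun l hl => by rw [← hcb l hl.2]; exact hz l hl.1.1)
      (fun l hl => hz _ hl.1)
    obtain ⟨e', he'⟩ : ∃ e', e' = ind ((L ∩ {l | v ∉ l}) ∩ {l | v :: l ∈ K}) e := ⟨_, rfl⟩
    have he'd : Dg V (q - 1 - 1) e' := by
      rw [he']
      exact he1.ind
    have he'Q : ∀ l ∈ (L ∩ {l | v ∉ l}) ∩ {l | v :: l ∈ K}, dd e' l = dd e l := by
      refine dd_congr hQ (fun l hl => ?_)
      rw [he', ind_of_mem hl]
    have he'L : ∀ l ∈ {l | v :: l ∈ L}, e' l = 0 := by
      intro l hl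
      rw [he']
      by_cases h1 : l ∈ (L ∩ {l | v ∉ l}) ∩ {l | v :: l ∈ K}
      · exact ind_van (he2 l ⟨hl, h1.1.2⟩)
      · exact ind_of_notMem h1
    have hddL := dd_van hLv he'L
    obtain ⟨b1, hb1e⟩ : ∃ b1, b1 = sh c v - dd e' := ⟨_, rfl⟩
    have hb1d : Dg V (q - 1) b1 := by
      rw [hb1e]
      exact hb1.sub he'd.dd'
    have hb1L : ∀ l ∈ L, v :: l ∈ K → b1 l = 0 := by
      intro l hl hlK
      rw [hb1e, Pi.sub_apply, sub_eq_zero]
      by_cases h1 : v ∈ l
      · have h2 := dup l h1 hl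
        rw [hddL l h2]
        exact hz _ h2
      · have h2 : l ∈ (L ∩ {l | v ∉ l}) ∩ {l | v :: l ∈ K} := ⟨⟨hl, h1⟩, hlK⟩
        rw [he'Q l h2]
        exact he3 l h2
    have hb1K : ∀ l, v :: l ∈ K → c l = dd b1 l := by
      intro l hl
      rw [hb1e, dd_sub_dd]
      exact hcb l hl
    -- (ii)
    obtain ⟨b2, hb2d, hb2L, hb2K⟩ := ihs (K ∩ {l | v ∉ l}) (L ∩ {l | v ∉ l}) hK' hL'
      (fun l hl => ⟨hLK hl.1, hl.2⟩)
      (fun l hl => ⟨(hs l hl.1).1, fun w hw => by
        rcases Finset.mem_insert.1 ((hs l hl.1).2 w hw) with rfl | h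
        · exact absurd hw hl.2
        · exact h⟩) q hq c hc (fun l hl => hd l hl.1) (fun l hl => hz l hl.1)
    -- (iii)
    obtain ⟨e2, he21, he22, he23⟩ := ihm (insert v s) ({l | v :: l ∈ K} ∩ {l | v ∉ l})
      ((L ∩ {l | v ∉ l}) ∩ {l | v :: l ∈ K}) hLk hQ
      (fun l hl => ⟨hl.2, hl.1.2⟩)
      (fun l hl => small l hl.1 hl.2) (q - 1) hq' (b1 - b2) (hb1d.sub hb2d)
      (fun l hl => by
        rw [dd_sub, Pi.sub_apply, ← hb1K l hl.1, ← hb2K l ⟨sub1 l hl.1, hl.2⟩, sub_self])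
      (fun l hl => by
        rw [Pi.sub_apply, hb1L l hl.1.1 hl.2, hb2L l hl.1, sub_zero])
    obtain ⟨f, hf⟩ : ∃ f, f = ind ({l | v :: l ∈ K} ∩ {l | v ∉ l}) e2 := ⟨_, rfl⟩
    have hfd : Dg V (q - 1 - 1) f := by
      rw [hf]
      exact he21.ind
    have hfK : ∀ l ∈ {l | v :: l ∈ K} ∩ {l | v ∉ l}, dd f l = dd e2 l := by
      refine dd_congr hLk (fun l hl => ?_)
      rw [hf, ind_of_mem hl]
    have hfL : ∀ l ∈ L ∩ {l | v ∉ l}, f l = 0 := by
      intro l hl
      rw [hf]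
      by_cases h1 : l ∈ {l | v :: l ∈ K} ∩ {l | v ∉ l}
      · exact ind_van (he22 l ⟨hl, h1.1⟩)
      · exact ind_of_notMem h1
    have hddf := dd_van hL' hfL
    -- (iv)
    obtain ⟨b, hb⟩ : ∃ b : Cc M V, b = fun l => if v :: l ∈ K then b1 l else (b2 + dd f) l :=
      ⟨_, rfl⟩
    have hbv : ∀ l ∈ {l | v :: l ∈ K}, b l = b1 l := by
      intro l hl
      rw [hb]
      exact if_pos hl
    have hb' : ∀ l ∈ K ∩ {l | v ∉ l}, b l = (b2 + dd f) l := by
      intro l hl
      by_cases h1 : v :: l ∈ K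
      · rw [hbv l h1, Pi.add_apply, hfK l ⟨h1, hl.2⟩, ← he23 l ⟨h1, hl.2⟩, Pi.sub_apply]
        abel
      · rw [hb]
        exact if_neg h1
    refine ⟨b, ?_, ?_, ?_⟩
    · intro l hl
      by_cases h1 : v :: l ∈ K
      · rw [hbv l h1] at hl
        exact hb1d l hl
      · have h2 : b l = (b2 + dd f) l := by
          rw [hb]
          exact if_neg h1
        rw [h2] at hl
        exact (hb2d.add hfd.dd') l hl
    · intro l hl
      by_cases h1 : v :: l ∈ K
      · rw [hbv l h1]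
        exact hb1L l hl h1
      · have h2 : v ∉ l := fun h => h1 (hLK (dup l h hl))
        rw [hb' l ⟨hLK hl, h2⟩, Pi.add_apply, hb2L l ⟨hl, h2⟩, hddf l ⟨hl, h2⟩, add_zero]
    · intro l hl
      by_cases h1 : v :: l ∈ K
      · rw [dd_congr hKv hbv l h1]
        exact hb1K l h1
      · have h2 : v ∉ l := fun h => h1 (dupK l h hl)
        rw [dd_congr hK' hb' l ⟨hl, h2⟩, dd_add_dd]
        exact hb2K l ⟨hl, h2⟩

end CMB

theorem t_CMB : S_CMB := by
  intro M V _ _ m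
  induction m with
  | zero =>
    intro s K L hK hL hLK hs q hq c hc hd hz
    refine ⟨0, Dg.zero, fun l _ => rfl, fun l hl => ?_⟩
    have h1 : l = [] := by
      have h2 := (hs l hl).1
      have h3 : l.toFinset = ∅ := Finset.card_eq_zero.1 (by omega)
      rcases l with _ | ⟨x, l⟩
      · rfl
      · exfalso
        have : x ∈ (x :: l).toFinset := by simp
        rw [h3] at this
        exact absurd this (Finset.notMem_empty x)
    subst h1
    rw [hc.nil, dd_nil]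
  | succ m ih =>
    intro s K L hK hL hLK hs q hq c hc hd hz
    exact CMB.step m (fun s K L h1 h2 h3 h4 q h5 c h6 h7 h8 => ih s K L h1 h2 h3 h4 q h5 c h6 h7 h8)
      s K L hK hL hLK hs q hq c hc hd hz

end BBH
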