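import Pool.Agent.BBH.StmtsB

/-!
# Module CON: cocycles of degree zero near a connected set are constant
-/

set_option autoImplicit false

namespace BBH

open Set Filter Topology

theorem t_CON : S_CON := by
  intro M X _ _ A hA c hc
  obtain ⟨ε, hε, hcyc⟩ := hc.cyc
  have hloc : ∀ x y : X, x ∈ Metric.thickening ε A → y ∈ Metric.thickening ε A → dist x y < ε →
      c [x] = c [y] := by
    intro x y hx hy hxy
    have h1 : dd c [x, y] = 0 := by
      apply hcyc
      constructor
      · intro z hz
        simp only [List.mem_cons, List.not_mem_nil, or_false] at hz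
        rcases hz with rfl | rfl
        · exact hx
        · exact hy
      · intro z hz w hw
        simp only [List.mem_cons, List.not_mem_nil, or_false] at hz hw
        rcases hz with rfl | rfl <;> rcases hw with rfl | rfl
        · rw [dist_self]
          exact hε
        · exact hxy
        · rw [dist_comm]
          exact hxy
        · rw [dist_self]
          exact hε
    rw [hc.deg.eq_c0, dd_c0_two] at h1
    exact (sub_eq_zero.mp h1).symm
  rcases A.eq_empty_or_nonempty with rfl | ⟨a, ha⟩
  · exact ⟨0, Zr.empty (hc.deg.sub (Dg.c0 _))⟩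
  · have hself : ∀ x ∈ A, x ∈ Metric.thickening ε A := fun x hx =>
      Metric.self_subset_thickening hε A hx
    have hconst : ∀ x ∈ A, c [a] = c [x] := by
      intro x hx
      have h2 := hA.induction₂ (fun x y => c [x] = c [y]) (fun z hz => by
        have h3 : Metric.ball z ε ∈ 𝓝[A] z := mem_nhdsWithin_of_mem_nhds (Metric.ball_mem_nhds z hε)
        filter_upwards [h3, self_mem_nhdsWithin] with y hy hyA
        refine hloc z y (hself z hz) (hself y hyA) ?_
        rw [dist_comm]
        exact hy) (fun x y z _ _ _ h h' => h.trans h') (fun x y _ _ h => h.symm) ha hx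
      exact h2
    refine ⟨c [a], ε, hε, fun l hl => ?_⟩
    rw [Pi.sub_apply]
    rcases l with _ | ⟨x, _ | ⟨y, l⟩⟩
    · rw [hc.deg.nil, c0_nil, sub_zero]
    · have hx := hl.1 x (by simp)
      obtain ⟨z, hz, hxz⟩ := Metric.mem_thickening_iff.1 hx
      rw [c0_single, hloc x z hx (hself z hz) hxz, hconst z hz, sub_self]
    · rw [hc.deg.eq_c0, c0_two, c0_two, sub_self]

end BBH
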