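import Pool.Agent.BBH.StmtsB

/-!
# CTR: sets that contract in a larger set
-/

set_option autoImplicit false

namespace BBH

open Set Topology CTO

theorem t_CTR : M_CTR := by
  intro hPNT M X _ _ K K' hK hKK' hctr p hp c hc
  obtain ⟨w, F, hw, hF, hmap, h0, h1⟩ := hctr
  have hid : PMap (id : X → X) K ∅ K' ∅ :=
    ⟨UAt.id K, empty_subset K, fun x hx => hKK' hx, mapsTo_empty _ _⟩
  have hu : UAt (fun _ : X => w) K := uAt_of_CA hK fun _ _ => continuousAt_const
  have hcw : PMap (fun _ : X => w) K ∅ K' ∅ :=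
    ⟨hu, empty_subset K, fun _ _ => hw, mapsTo_empty _ _⟩
  have hcw' : PMap (fun _ : X => w) K ∅ {w} ∅ :=
    ⟨hu, empty_subset K, fun _ _ => rfl, mapsTo_empty _ _⟩
  have h2 : Bd p K ∅ (pull (fun _ : X => w) c - pull id c) :=
    bd_of_homotopyOn hK hF hid hcw h0 h1 hmap (fun x hx => hx.1.elim) hc
  have h3 : Bd p ({w} : Set X) ∅ c :=
    (hPNT M X w).1 p hp c (hc.mono (singleton_subset_iff.2 hw) Subset.rfl)
  have h4 : Bd p K ∅ (pull (fun _ : X => w) c) := bd_pull hcw' h3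
  have h5 := h4.sub h2
  rw [sub_sub_cancel, pull_id] at h5
  exact h5

end BBH
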