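import Pool.Agent.BBH.StmtsB

/-!
# BBH, CUT: cutting off
-/

set_option autoImplicit false

namespace BBH

open Set Topology CTO

namespace CUT

variable {M X : Type} [AddCommGroup M] [MetricSpace X]

/-- the lists of points near `D` -/
def KD (D : Set X) (δ : ℝ) : Set (List X) := {l | ∀ x ∈ l, x ∈ Metric.thickening δ D}

theorem far {D B : Set X} {δ : ℝ} (h : Metric.thickening (2 * δ) D ⊆ B) {x : X}
    (h1 : x ∈ Metric.thickening δ D) (h2 : x ∈ Metric.thickening δ Bᶜ) : False := by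
  rw [Metric.mem_thickening_iff] at h1 h2
  obtain ⟨d, hd, hxd⟩ := h1
  obtain ⟨z, hz, hxz⟩ := h2
  refine hz (h ?_)
  rw [Metric.mem_thickening_iff]
  refine ⟨d, hd, ?_⟩
  have h3 := dist_triangle z x d
  rw [dist_comm z x] at h3
  linarith

end CUT

theorem t_CUT : S_CUT := by
  intro M X _ _ _ p c D B hD hB hDB hc
  obtain ⟨δ', hδ', hsub⟩ := hD.isCompact.exists_thickening_subset_open hB hDB
  have h2 : Metric.thickening (2 * (δ' / 2)) D ⊆ B := by
    have h3 : 2 * (δ' / 2) = δ' := by ring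
    rw [h3]
    exact hsub
  have hδ : 0 < δ' / 2 := by positivity
  refine ⟨ind (CUT.KD D (δ' / 2)) c, hc.ind, ⟨δ' / 2, hδ, fun l hl => ?_⟩,
    ⟨δ' / 2, hδ, fun l hl => ?_⟩, fun A hA => hA.ind⟩
  · rcases l with _ | ⟨x, l⟩
    · exact ind_van hc.nil
    · refine ind_of_notMem fun h => ?_
      exact CUT.far h2 (h x (by simp)) (hl.1 x (by simp))
  · rw [Pi.sub_apply, ind_of_mem (show l ∈ CUT.KD D (δ' / 2) from hl.1), sub_self]

end BBH
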