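import Pool.Agent.BBH.StmtsB

/-!
# BBH: module DIM (no cohomology above the dimension)
-/

set_option autoImplicit false

namespace BBH

open Set Topology CTO

namespace DIM

/-- selection of close points with few values on small sets -/
theorem select {X : Type} [MetricSpace X] [CompactSpace X] [Nonempty X] (n : ℕ) (hS : ShrLE X n)
    (ε : ℝ) (hε : 0 < ε) :
    ∃ (k : ℕ) (i : X → Fin k) (q : Fin k → X) (lam : ℝ), 0 < lam ∧
      (∀ x, dist (q (i x)) x < ε / 4) ∧
      ∀ l : List X, (∀ x ∈ l, ∀ y ∈ l, dist x y < lam) → (l.map i).toFinset.card ≤ n + 1 := by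
  classical
  have hδ : 0 < ε / 8 := by positivity
  obtain ⟨t0, -, ht0, hcov⟩ :=
    (isCompact_univ : IsCompact (univ : Set X)).finite_cover_balls hδ
  let t : Finset X := ht0.toFinset
  let c : Fin t.card → X := fun i => (t.equivFin.symm i : X)
  have hUcov : (⋃ i, Metric.ball (c i) (ε / 8)) = univ := by
    rw [Set.eq_univ_iff_forall]
    intro x
    have hx := hcov (mem_univ x)
    rw [Set.mem_iUnion₂] at hx
    obtain ⟨y, hy, hxy⟩ := hx
    have hyt : y ∈ t := ht0.mem_toFinset.2 hy
    rw [Set.mem_iUnion]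
    refine ⟨t.equivFin ⟨y, hyt⟩, ?_⟩
    have hc : c (t.equivFin ⟨y, hyt⟩) = y := by
      change ((t.equivFin.symm (t.equivFin ⟨y, hyt⟩) : t) : X) = y
      rw [Equiv.symm_apply_apply]
    rw [hc]
    exact hxy
  obtain ⟨V, hVo, hVU, hVc, hVn⟩ := hS t.card (fun i => Metric.ball (c i) (ε / 8))
    (fun i => Metric.isOpen_ball) hUcov
  obtain ⟨lam, hlam, hL⟩ := lebesgue_number_lemma_of_metric
    (isCompact_univ : IsCompact (univ : Set X)) hVo hVc.ge
  choose i hi using fun x => hL x (mem_univ x)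
  have hq : ∀ j, ∃ y : X, (V j).Nonempty → y ∈ V j := by
    intro j
    by_cases h2 : (V j).Nonempty
    · obtain ⟨y, hy⟩ := h2
      exact ⟨y, fun _ => hy⟩
    · exact ⟨Classical.arbitrary X, fun h => absurd h h2⟩
  choose q hq1 using hq
  have hself : ∀ x, x ∈ V (i x) := fun x => hi x (Metric.mem_ball_self hlam)
  refine ⟨t.card, i, q, lam, hlam, ?_, ?_⟩
  · intro x
    have h1 : q (i x) ∈ V (i x) := hq1 (i x) ⟨x, hself x⟩
    have h2 := hVU (i x) h1
    have h3 := hVU (i x) (hself x)
    rw [Metric.mem_ball] at h2 h3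
    have h4 := dist_triangle_right (q (i x)) x (c (i x))
    linarith
  · intro l hl
    rcases l with _ | ⟨a, l⟩
    · simp
    · have hsub : ((((a :: l).map i).toFinset : Finset (Fin t.card)) : Set (Fin t.card)) ⊆
          {j | a ∈ V j} := by
        intro j hj
        rw [Finset.mem_coe, List.mem_toFinset, List.mem_map] at hj
        obtain ⟨y, hy, rfl⟩ := hj
        apply hi y
        rw [Metric.mem_ball]
        exact hl a List.mem_cons_self y hy
      have h1 := Set.ncard_le_ncard hsub (Set.toFinite _)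
      rw [Set.ncard_coe_finset] at h1
      exact h1.trans (hVn a)

/-- the selection is contiguous to the identity -/
theorem contig {X : Type} [MetricSpace X] {r : X → X} {ε δ : ℝ} (hr : ∀ x, dist (r x) x < ε / 4)
    (hδ : δ ≤ ε / 4) (A : Set X) (l : List X) (hl : l ∈ Small A δ) :
    l.map id ++ l.map r ∈ Small A ε := by
  have key : ∀ z ∈ l.map id ++ l.map r, ∃ x ∈ l, dist z x ≤ ε / 4 := by
    intro z hz
    rw [List.mem_append] at hz
    rcases hz with hz | hz
    · rw [List.map_id] at hz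
      refine ⟨z, hz, ?_⟩
      rw [dist_self]
      have h1 := hr z
      have h2 := dist_nonneg (x := r z) (y := z)
      linarith
    · rw [List.mem_map] at hz
      obtain ⟨x, hx, rfl⟩ := hz
      exact ⟨x, hx, (hr x).le⟩
  constructor
  · intro z hz
    obtain ⟨x, hx, hzx⟩ := key z hz
    have h1 := hl.1 x hx
    rw [Metric.mem_thickening_iff] at h1 ⊢
    obtain ⟨a, ha, hxa⟩ := h1
    refine ⟨a, ha, ?_⟩
    have h2 := dist_triangle z x a
    have h3 := dist_nonneg (x := x) (y := a)
    linarith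
  · intro z hz w hw
    obtain ⟨x, hx, hzx⟩ := key z hz
    obtain ⟨y, hy, hwy⟩ := key w hw
    have h1 := hl.2 x hx y hy
    have h2 := dist_triangle4 z x y w
    rw [dist_comm y w] at h2
    have h3 := dist_nonneg (x := x) (y := y)
    linarith

end DIM

open DIM in
theorem t_DIM : M_DIM := by
  classical
  intro hC M X _ _ _ n hS p A B hp hBA c hc
  rcases isEmpty_or_nonempty X with hX | hX
  · have hA : A = ∅ := Set.eq_empty_of_isEmpty A
    subst hA
    exact Van.empty p B c hc
  obtain ⟨ε₁, h1, h1'⟩ := hc.rel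
  obtain ⟨ε₂, h2, h2'⟩ := hc.cyc
  set ε : ℝ := min ε₁ ε₂ with hεd
  have hε : 0 < ε := lt_min h1 h2
  have hc' : ∀ l ∈ Small B ε, c l = 0 := fun l hl =>
    h1' l (Small.mono Subset.rfl (min_le_left _ _) hl)
  have hcc : ∀ l ∈ Small A ε, dd c l = 0 := fun l hl =>
    h2' l (Small.mono Subset.rfl (min_le_right _ _) hl)
  obtain ⟨k, i, q, lam, hlam, hq, hcard⟩ := select n hS ε hε
  set δ : ℝ := min lam (ε / 4) with hδd
  have hδ : 0 < δ := lt_min hlam (by positivity)
  have hδε : δ ≤ ε / 4 := min_le_right _ _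
  have hδl : δ ≤ lam := min_le_left _ _
  have hcon : ∀ (D : Set X), ∀ l ∈ Small D δ, l.map id ++ l.map (q ∘ i) ∈ Small D ε :=
    fun D l hl => contig (r := q ∘ i) hq hδε D l hl
  have hb1 : Bd p A B (pull (q ∘ i) c - pull id c) :=
    bd_of_contig hc.deg hc' hcc hδ (hcon A) (hcon B)
  rw [pull_id] at hb1
  -- the combinatorial complexes
  set K : Set (List (Fin k)) := {t | ∃ l ∈ Small A δ, t ⊆ l.map i} with hK
  set L : Set (List (Fin k)) := {t | ∃ l ∈ Small B δ, t ⊆ l.map i} with hL
  have hmap : ∀ (D : Set X) (t : List (Fin k)), (∃ l ∈ Small D δ, t ⊆ l.map i) →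
      t.map q ∈ Small D ε := by
    rintro D t ⟨l, hl, htl⟩
    refine Small.cl D ε _ (hcon D l hl) _ ?_
    intro z hz
    rw [List.mem_map] at hz
    obtain ⟨j, hj, rfl⟩ := hz
    have hj2 := htl hj
    rw [List.mem_map] at hj2
    obtain ⟨x, hx, rfl⟩ := hj2
    rw [List.mem_append]
    right
    rw [List.mem_map]
    exact ⟨x, hx, rfl⟩
  obtain ⟨b, hb, hbL, hbK⟩ := hC M (Fin k) (n + 1) Finset.univ K L
    (fun t ht t' htt => by
      obtain ⟨l, hl, htl⟩ := ht
      exact ⟨l, hl, fun v hv => htl (htt hv)⟩)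
    (fun t ht t' htt => by
      obtain ⟨l, hl, htl⟩ := ht
      exact ⟨l, hl, fun v hv => htl (htt hv)⟩)
    (fun t ht => by
      obtain ⟨l, hl, htl⟩ := ht
      exact ⟨l, Small.mono hBA le_rfl hl, htl⟩)
    (fun t ht => by
      obtain ⟨l, hl, htl⟩ := ht
      refine ⟨?_, fun v _ => Finset.mem_univ v⟩
      have h3 : t.toFinset ⊆ (l.map i).toFinset := by
        intro v hv
        rw [List.mem_toFinset] at hv ⊢
        exact htl hv
      exact (Finset.card_le_card h3).trans
        (hcard l fun x hx y hy => lt_of_lt_of_le (hl.2 x hx y hy) hδl))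
    p (by push_cast; omega) (pull q c) (hc.deg.pull q)
    (fun t ht => by
      rw [dd_pull_apply]
      exact hcc _ (hmap A t ht))
    (fun t ht => by
      rw [pull_apply]
      exact hc' _ (hmap B t ht))
  have hb2 : Bd p A B (pull (q ∘ i) c) := by
    refine ⟨pull i b, hb.pull i, ⟨δ, hδ, fun l hl => ?_⟩, δ, hδ, fun l hl => ?_⟩
    · rw [pull_apply]
      exact hbL _ ⟨l, hl, List.Subset.refl _⟩
    · rw [← pull_pull, Pi.sub_apply, pull_apply, dd_pull_apply,
        hbK _ ⟨l, hl, List.Subset.refl _⟩, sub_self]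
  have h5 := hb2.sub hb1
  rwa [sub_sub_cancel] at h5

end BBH
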