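import Pool.Agent.BBH.StmtsB

/-!
# BBH, module FGC: finite unions of compact convex sets have finitely generated cohomology

Induction on the number of sets, with the Mayer-Vietoris statement `S_FGU`.
-/

set_option autoImplicit false

namespace BBH

open Set Topology CTO

namespace FGC

variable {R M X E : Type}

/-- no cohomology: finitely generated -/
theorem fin_of_van [CommRing R] [AddCommGroup M] [Module R M] [MetricSpace X] {p : ℤ}
    {A B : Set X} (h : Van M p A B) : Module.Finite R (H R M p A B) := by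
  have hs : Subsingleton (H R M p A B) := by
    refine ⟨fun a b => ?_⟩
    obtain ⟨c, hc, rfl⟩ := cls_surj a
    obtain ⟨c', hc', rfl⟩ := cls_surj b
    exact (cls_eq hc hc').2 (h _ (hc.sub hc'))
  infer_instance

/-- constant cochains of degree `0` are cocycles everywhere -/
theorem dd_const [AddCommGroup M] [MetricSpace X] (m : M) :
    dd (c0 fun _ : X => m) = 0 := by
  have hd : Dg X (0 + 1) (dd (c0 fun _ : X => m)) := (Dg.c0 _).dd
  funext l
  rcases l with _ | ⟨x, _ | ⟨y, _ | ⟨z, l⟩⟩⟩
  · exact Dg.nil hd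
  · by_contra hne
    have h1 := hd _ hne
    simp at h1
  · rw [dd_c0_two, sub_self]
    rfl
  · by_contra hne
    have h1 := hd _ hne
    simp only [List.length_cons] at h1
    push_cast at h1
    omega

theorem cyc_const [AddCommGroup M] [MetricSpace X] (A : Set X) (m : M) :
    Cyc 0 A ∅ (c0 fun _ : X => m) :=
  ⟨Dg.c0 _, Zr.empty (Dg.c0 _), by rw [dd_const]; exact Zr.zero _⟩

/-- preconnected sets, degree `0` -/
theorem fin_zero [CommRing R] [AddCommGroup M] [Module R M] [Module.Finite R M] [MetricSpace X]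
    (hCON : S_CON) {A : Set X} (hA : IsPreconnected A) : Module.Finite R (H R M 0 A ∅) := by
  let f : M →ₗ[R] H R M 0 A (∅ : Set X) :=
    { toFun := fun m => cls R (c0 fun _ : X => m) (cyc_const A m)
      map_add' := fun m m' => by
        rw [← cls_add, cls_eq]
        have h1 : (c0 fun _ : X => m + m') = (c0 fun _ : X => m) + (c0 fun _ : X => m') :=
          c0_add (fun _ : X => m) (fun _ : X => m')
        rw [h1, sub_self]
        exact Bd.zero
      map_smul' := fun a m => by
        rw [RingHom.id_apply, ← cls_smul, cls_eq]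
        have h1 : (c0 fun _ : X => a • m) = a • (c0 fun _ : X => m) :=
          c0_smul a (fun _ : X => m)
        rw [h1, sub_self]
        exact Bd.zero }
  refine Module.Finite.of_surjective f ?_
  intro a
  obtain ⟨c, hc, rfl⟩ := cls_surj a
  obtain ⟨m, hm⟩ := hCON M X A hA c hc
  refine ⟨m, ?_⟩
  change cls R (c0 fun _ : X => m) (cyc_const A m) = cls R c hc
  rw [cls_eq]
  exact (Bd.of_Zr hm).symm

/-- convex sets contract -/
theorem ctr_convex [NormedAddCommGroup E] [NormedSpace ℝ E] {C : Set E} (hC : Convex ℝ C)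
    (hne : C.Nonempty) : Ctr C C := by
  obtain ⟨w, hw⟩ := hne
  refine ⟨w, fun q => (1 - q.2) • q.1 + q.2 • w, hw, ?_, ?_, ?_, ?_⟩
  · have h1 : Continuous fun q : E × ℝ => (1 - q.2) • q.1 + q.2 • w := by fun_prop
    exact h1.continuousOn
  · rintro ⟨x, t⟩ ⟨hx, ht⟩
    exact hC hx hw (sub_nonneg.2 ht.2) ht.1 (by simp)
  · intro x _
    simp
  · intro x _
    simp

/-- one compact convex set -/
theorem fin_one [CommRing R] [AddCommGroup M] [Module R M] [Module.Finite R M]
    [NormedAddCommGroup E] [NormedSpace ℝ E] (hCTR : S_CTR) (hCON : S_CON) {C : Set E}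
    (hK : IsCompact C) (hC : Convex ℝ C) (p : ℤ) : Module.Finite R (H R M p C ∅) := by
  rcases C.eq_empty_or_nonempty with rfl | hne
  · exact fin_of_van (Van.empty p ∅)
  · rcases lt_trichotomy p 0 with hp | rfl | hp
    · exact fin_of_van (Van.neg hp _ _)
    · exact fin_zero hCON hC.isPreconnected
    · exact fin_of_van fun c hc => hCTR M E C C hK Subset.rfl (ctr_convex hC hne) p (by omega) c hc

theorem fin_all [CommRing R] [IsNoetherianRing R] [AddCommGroup M] [Module R M]
    [Module.Finite R M] [NormedAddCommGroup E] [NormedSpace ℝ E] (hCTR : S_CTR) (hCON : S_CON)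
    (hFGU : S_FGU) (n : ℕ) : ∀ (C : Fin n → Set E), (∀ i, IsCompact (C i)) →
    (∀ i, Convex ℝ (C i)) → ∀ p : ℤ, Module.Finite R (H R M p (⋃ i, C i) ∅) := by
  induction n with
  | zero =>
    intro C _ _ p
    have h1 : (⋃ i, C i) = (∅ : Set E) := by
      rw [iUnion_eq_empty]
      exact fun i => i.elim0
    rw [h1]
    exact fin_of_van (Van.empty p ∅)
  | succ n ih =>
    intro C hK hC p
    have h1 : (⋃ i, C i) = C (Fin.last n) ∪ ⋃ i : Fin n, C i.castSucc := by
      ext x
      simp only [mem_iUnion, mem_union]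
      constructor
      · rintro ⟨i, hi⟩
        rcases Fin.eq_castSucc_or_eq_last i with ⟨j, rfl⟩ | rfl
        · exact Or.inr ⟨j, hi⟩
        · exact Or.inl hi
      · rintro (hi | ⟨j, hj⟩)
        · exact ⟨_, hi⟩
        · exact ⟨_, hj⟩
    have h2 : C (Fin.last n) ∩ (⋃ i : Fin n, C i.castSucc) =
        ⋃ i : Fin n, C (Fin.last n) ∩ C i.castSucc := inter_iUnion _ _
    rw [h1]
    refine hFGU R M E p _ _ (hK _) ?_ (fin_one hCTR hCON (hK _) (hC _) p)
      (ih (fun i => C i.castSucc) (fun i => hK _) (fun i => hC _) p) ?_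
    · exact isClosed_iUnion_of_finite fun i => (hK _).isClosed
    · rw [h2]
      exact ih (fun i => C (Fin.last n) ∩ C i.castSucc)
        (fun i => (hK _).inter_right (hK _).isClosed) (fun i => (hC _).inter (hC _)) (p - 1)

end FGC

theorem t_FGC : M_FGC := by
  intro hCTR hCON hFGU R M E _ _ _ _ _ _ _ n C hK hC p
  exact FGC.fin_all hCTR hCON hFGU n C hK hC p

end BBH
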