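import Pool.Agent.BBH.StmtsB

/-!
# BBH, module FGR: finite generation of the cohomology of a pair
-/

set_option autoImplicit false

namespace BBH

open Set Topology CTO

namespace FGR

variable {R M X : Type} [CommRing R] [AddCommGroup M] [Module R M] [MetricSpace X]
  {p : ℤ} {A B : Set X}

theorem cyc_dd {c : Cc M X} (h : Cyc (p - 1) B ∅ c) : Cyc p A B (dd c) :=
  ⟨h.deg.dd', h.cyc, by rw [dd_dd]; exact Zr.zero _⟩

/-- the coboundary, on cocycles -/
def ddL (R M : Type) {X : Type} [CommRing R] [AddCommGroup M] [Module R M] [MetricSpace X]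
    (p : ℤ) (A B : Set X) : ZZ R M (p - 1) B (∅ : Set X) →ₗ[R] ZZ R M p A B where
  toFun c := ⟨dd (c : Cc M X), cyc_dd c.2⟩
  map_add' c e := Subtype.ext (dd_add (c : Cc M X) (e : Cc M X))
  map_smul' a c := Subtype.ext (dd_smul a (c : Cc M X))

/-- the connecting map -/
def del (R M : Type) {X : Type} [CommRing R] [AddCommGroup M] [Module R M] [MetricSpace X]
    (p : ℤ) (A B : Set X) : H R M (p - 1) B (∅ : Set X) →ₗ[R] H R M p A B :=
  Submodule.mapQ _ _ (ddL R M p A B) (fun c hc => by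
    have h1 : Bd (p - 1) B ∅ (c : Cc M X) := hc
    have h2 := les_conn_bd (A := A) (c.2 : Cyc (p - 1) B ∅ (c : Cc M X)).deg h1
    rw [sub_add_cancel] at h2
    exact h2)

theorem del_cls {c : Cc M X} (h : Cyc (p - 1) B ∅ c) :
    del R M p A B (cls R c h) = cls R (dd c) (cyc_dd h) := rfl

theorem range_eq_ker (hAB : B ⊆ A) : LinearMap.range (del R M p A B) =
    LinearMap.ker (res R M (p := p) (Subset.rfl : A ⊆ A) (empty_subset B)) := by
  apply le_antisymm
  · rintro _ ⟨a, rfl⟩
    obtain ⟨c, h, rfl⟩ := cls_surj a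
    rw [LinearMap.mem_ker, del_cls, res_cls, cls_eq_zero]
    exact Bd.of_dd h.deg (Zr.empty h.deg)
  · intro a ha
    obtain ⟨c, h, rfl⟩ := cls_surj a
    rw [LinearMap.mem_ker, res_cls, cls_eq_zero] at ha
    have h1 : Cyc (p - 1 + 1) A B c := by rw [sub_add_cancel]; exact h
    have h2 : Bd (p - 1 + 1) A ∅ c := by rw [sub_add_cancel]; exact ha
    obtain ⟨b, hb, hb2⟩ := les_left hAB h1 h2
    rw [sub_add_cancel] at hb2
    refine ⟨cls R b hb, ?_⟩
    rw [del_cls, cls_eq]
    exact hb2.symm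

end FGR

theorem t_FGR : S_FGR := by
  intro R M X _ _ _ _ _ p A B hAB h1 h2
  have : IsNoetherian R (H R M p A (∅ : Set X)) := isNoetherian_of_isNoetherianRing_of_finite R _
  have : IsNoetherian R (H R M (p - 1) B (∅ : Set X)) := isNoetherian_of_isNoetherianRing_of_finite R _
  have : IsNoetherian R (H R M p A B) :=
    isNoetherian_of_range_eq_ker (FGR.del R M p A B) _ (FGR.range_eq_ker hAB)
  infer_instance

end BBH
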