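import Pool.Agent.BBH.StmtsB

/-!
# BBH, module FGU: finite generation of the cohomology of a union (Mayer-Vietoris)
-/

set_option autoImplicit false

namespace BBH

open Set Topology CTO

namespace FGU

variable {R M X : Type} [CommRing R] [AddCommGroup M] [Module R M] [MetricSpace X]
  {p : ℤ} {A B : Set X}

/-- the property of the triples -/
structure Tri (p : ℤ) (A B : Set X) (t : Cc M X × Cc M X × Cc M X) : Prop where
  cyc : Cyc p (A ∪ B) ∅ t.1
  d1 : Dg X (p - 1) t.2.1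
  d2 : Dg X (p - 1) t.2.2
  z1 : Zr A (t.1 - dd t.2.1)
  z2 : Zr B (t.1 - dd t.2.2)

/-- the module of the triples -/
def T (R M : Type) {X : Type} [CommRing R] [AddCommGroup M] [Module R M] [MetricSpace X]
    (p : ℤ) (A B : Set X) : Submodule R (Cc M X × Cc M X × Cc M X) where
  carrier := {t | Tri p A B t}
  zero_mem' := by
    refine ⟨Cyc.zero, Dg.zero, Dg.zero, ?_, ?_⟩
    · rw [show ((0 : Cc M X × Cc M X × Cc M X).1 - dd (0 : Cc M X × Cc M X × Cc M X).2.1) =
        (0 : Cc M X) - dd 0 from rfl, dd_zero, sub_zero]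
      exact Zr.zero _
    · rw [show ((0 : Cc M X × Cc M X × Cc M X).1 - dd (0 : Cc M X × Cc M X × Cc M X).2.2) =
        (0 : Cc M X) - dd 0 from rfl, dd_zero, sub_zero]
      exact Zr.zero _
  add_mem' := by
    intro s t hs ht
    refine ⟨hs.cyc.add ht.cyc, hs.d1.add ht.d1, hs.d2.add ht.d2, ?_, ?_⟩
    · rw [show ((s + t).1 - dd (s + t).2.1) = s.1 + t.1 - dd (s.2.1 + t.2.1) from rfl, dd_add,
        add_sub_add_comm]
      exact hs.z1.add ht.z1
    · rw [show ((s + t).1 - dd (s + t).2.2) = s.1 + t.1 - dd (s.2.2 + t.2.2) from rfl, dd_add,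
        add_sub_add_comm]
      exact hs.z2.add ht.z2
  smul_mem' := by
    intro a t ht
    refine ⟨ht.cyc.smul a, ht.d1.smul a, ht.d2.smul a, ?_, ?_⟩
    · rw [show ((a • t).1 - dd (a • t).2.1) = a • t.1 - dd (a • t.2.1) from rfl, dd_smul,
        ← smul_sub]
      exact ht.z1.smul a
    · rw [show ((a • t).1 - dd (a • t).2.2) = a • t.1 - dd (a • t.2.2) from rfl, dd_smul,
        ← smul_sub]
      exact ht.z2.smul a

theorem cyc_sub {t : Cc M X × Cc M X × Cc M X} (h : Tri p A B t) :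
    Cyc (p - 1) (A ∩ B) ∅ (t.2.1 - t.2.2) := by
  refine ⟨h.d1.sub h.d2, Zr.empty (h.d1.sub h.d2), ?_⟩
  have h1 := (h.z2.anti inter_subset_right).sub (h.z1.anti (inter_subset_left (t := B)))
  rwa [sub_sub_sub_cancel_left, ← dd_sub] at h1

/-- the class of the cocycle -/
def phi (R M : Type) {X : Type} [CommRing R] [AddCommGroup M] [Module R M] [MetricSpace X]
    (p : ℤ) (A B : Set X) : T R M p A B →ₗ[R] H R M p (A ∪ B) (∅ : Set X) where
  toFun t := cls R t.1.1 t.2.cyc
  map_add' _ _ := rfl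
  map_smul' _ _ := rfl

/-- the class of the difference -/
def psi (R M : Type) {X : Type} [CommRing R] [AddCommGroup M] [Module R M] [MetricSpace X]
    (p : ℤ) (A B : Set X) : T R M p A B →ₗ[R] H R M (p - 1) (A ∩ B) (∅ : Set X) where
  toFun t := cls R (t.1.2.1 - t.1.2.2) (cyc_sub t.2)
  map_add' s t := by
    rw [← cls_add]
    congr 1
    exact add_sub_add_comm _ _ _ _
  map_smul' a t := by
    rw [RingHom.id_apply, ← cls_smul]
    congr 1
    exact (smul_sub a _ _).symm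

theorem ker_le (hA : IsCompact A) (hB : IsClosed B) :
    LinearMap.ker (psi R M p A B) ≤ LinearMap.ker (phi R M p A B) := by
  rintro ⟨⟨c, b₁, b₂⟩, h⟩ ht
  rw [LinearMap.mem_ker] at ht ⊢
  have h1 : Bd (p - 1) (A ∩ B) ∅ (b₁ - b₂) := (cls_eq_zero (R := R) (cyc_sub h)).1 ht
  refine (cls_eq_zero (R := R) h.cyc).2 ?_
  obtain ⟨f, hf1, -, hf3⟩ := h1
  obtain ⟨K, hK1, hK2⟩ := Zr.inter hA hB hf3
  set w : Cc M X := b₁ - b₂ - dd f with hw
  have hwd : Dg X (p - 1) w := (h.d1.sub h.d2).sub hf1.dd'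
  have hsum : ind K w + ind Kᶜ w = w := ind_add_compl K w
  refine ⟨b₁ - ind K w, h.d1.sub hwd.ind, Zr.empty (h.d1.sub hwd.ind), ?_⟩
  have e1 : c - dd (b₁ - ind K w) = (c - dd b₁) + dd (ind K w) := by
    rw [dd_sub]
    abel
  have e2 : c - dd (b₁ - ind K w) = (c - dd b₂) - dd (ind Kᶜ w) := by
    have h3 : b₁ - ind K w = b₂ + dd f + ind Kᶜ w := by
      have h4 : ind K w = w - ind Kᶜ w := eq_sub_of_add_eq hsum
      rw [h4, hw]
      abel
    rw [h3, dd_add, dd_add, dd_dd]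
    abel
  refine Zr.union ?_ ?_
  · show Zr A (c - dd (b₁ - ind K w))
    rw [e1]
    exact h.z1.add hK1.dd
  · show Zr B (c - dd (b₁ - ind K w))
    rw [e2]
    exact h.z2.sub hK2.dd

/-- the restrictions -/
def F (R M : Type) {X : Type} [CommRing R] [AddCommGroup M] [Module R M] [MetricSpace X]
    (p : ℤ) (A B : Set X) :
    H R M p (A ∪ B) (∅ : Set X) →ₗ[R] H R M p A (∅ : Set X) × H R M p B (∅ : Set X) :=
  LinearMap.prod (res R M subset_union_left Subset.rfl) (res R M subset_union_right Subset.rfl)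

theorem range_eq_ker (hA : IsCompact A) (hB : IsClosed B) :
    LinearMap.range ((LinearMap.ker (psi R M p A B)).liftQ (phi R M p A B) (ker_le hA hB)) =
      LinearMap.ker (F R M p A B) := by
  rw [Submodule.range_liftQ]
  apply le_antisymm
  · rintro _ ⟨⟨⟨c, b₁, b₂⟩, h⟩, rfl⟩
    rw [LinearMap.mem_ker]
    refine Prod.ext ?_ ?_
    · exact (cls_eq_zero (R := R) (h.cyc.mono subset_union_left Subset.rfl)).2
        ⟨b₁, h.d1, Zr.empty h.d1, h.z1⟩
    · exact (cls_eq_zero (R := R) (h.cyc.mono subset_union_right Subset.rfl)).2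
        ⟨b₂, h.d2, Zr.empty h.d2, h.z2⟩
  · intro a ha
    obtain ⟨c, h, rfl⟩ := cls_surj a
    rw [LinearMap.mem_ker] at ha
    have h1 : Bd p A ∅ c :=
      (cls_eq_zero (R := R) (h.mono subset_union_left Subset.rfl)).1 (congrArg Prod.fst ha)
    have h2 : Bd p B ∅ c :=
      (cls_eq_zero (R := R) (h.mono subset_union_right Subset.rfl)).1 (congrArg Prod.snd ha)
    obtain ⟨b₁, d1, -, z1⟩ := h1
    obtain ⟨b₂, d2, -, z2⟩ := h2
    exact ⟨⟨(c, b₁, b₂), ⟨h, d1, d2, z1, z2⟩⟩, rfl⟩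

end FGU

theorem t_FGU : S_FGU := by
  intro R M X _ _ _ _ _ p A B hA hB h1 h2 h3
  have : IsNoetherian R (H R M p A (∅ : Set X)) := isNoetherian_of_isNoetherianRing_of_finite R _
  have : IsNoetherian R (H R M p B (∅ : Set X)) := isNoetherian_of_isNoetherianRing_of_finite R _
  have : IsNoetherian R (H R M (p - 1) (A ∩ B) (∅ : Set X)) :=
    isNoetherian_of_isNoetherianRing_of_finite R _
  have : IsNoetherian R (FGU.T R M p A B ⧸ LinearMap.ker (FGU.psi R M p A B)) :=
    isNoetherian_of_linearEquiv (LinearMap.quotKerEquivRange (FGU.psi R M p A B)).symm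
  have : IsNoetherian R (H R M p (A ∪ B) (∅ : Set X)) :=
    isNoetherian_of_range_eq_ker _ _ (FGU.range_eq_ker hA hB)
  infer_instance

end BBH
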