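import Pool.Agent.BBH.StmtsB

/-!
# BBH: restriction maps of compact ANRs have finitely generated range
-/

set_option autoImplicit false

namespace BBH

open Set Topology CTO

namespace FIN

section pull

variable {R M X Y : Type} [CommRing R] [AddCommGroup M] [Module R M] [MetricSpace X]
  [MetricSpace Y] {p : ℤ} {A A' : Set X} {B B' : Set Y}

variable (R M) in
/-- pull back of cocycles -/
def pullZ {f : X → Y} (hf : PMap f A A' B B') : ZZ R M p B B' →ₗ[R] ZZ R M p A A' where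
  toFun c := ⟨pull f c.1, cyc_pull hf c.2⟩
  map_add' _ _ := rfl
  map_smul' _ _ := rfl

/-- the induced map of cohomology -/
theorem exists_pull {f : X → Y} (hf : PMap f A A' B B') :
    ∃ F : H R M p B B' →ₗ[R] H R M p A A', ∀ c (h : Cyc p B B' c),
      F (cls R c h) = cls R (pull f c) (cyc_pull hf h) := by
  obtain ⟨F, hF⟩ := exists_lift ((BB R M p A A').mkQ.comp (pullZ R M hf)) (by
    intro c hc
    rw [LinearMap.comp_apply, Submodule.mkQ_apply, Submodule.Quotient.mk_eq_zero]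
    exact bd_pull hf hc)
  exact ⟨F, fun c h => hF c h⟩

end pull

theorem main (h1 : S_FGR) (h2 : S_FGC) (h3 : S_HUL) : S_FIN := by
  intro R M X _ _ _ _ _ _ _ hX p K K' L L' hK hL hKK hLL hLK hL'K' h h'
  obtain ⟨E, _, _, e, r, Ω, n, C, J, he, hΩ, hr, hre, hCc, hCv, hCΩ, heK, heL, hrK, hrL⟩ :=
    h3 X hX K K' L L' hK hL hKK hLL hLK
  have hQP : (⋃ i ∈ J, C i) ⊆ ⋃ i, C i := by
    intro x hx
    obtain ⟨i, _, hi⟩ := Set.mem_iUnion₂.1 hx
    exact Set.mem_iUnion.2 ⟨i, hi⟩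
  have hP : ∀ q : ℤ, Module.Finite R (H R M q (⋃ i, C i) ∅) := fun q =>
    h2 R M E n C hCc hCv q
  have hQ : ∀ q : ℤ, Module.Finite R (H R M q (⋃ i ∈ J, C i) ∅) := by
    intro q
    obtain ⟨m, ⟨φ⟩⟩ := Finite.exists_equiv_fin J
    have h4 : (⋃ i ∈ J, C i) = ⋃ j : Fin m, C (φ.symm j).1 := by
      rw [Set.biUnion_eq_iUnion]
      exact (φ.symm.surjective.iUnion_comp fun i : J => C i.1).symm
    rw [h4]
    exact h2 R M E m _ (fun _ => hCc _) (fun _ => hCv _) q
  have hfin : Module.Finite R (H R M p (⋃ i, C i) (⋃ i ∈ J, C i)) :=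
    h1 R M E p _ _ hQP (hP p) (hQ (p - 1))
  have hPc : IsCompact (⋃ i, C i) := isCompact_iUnion hCc
  have hpe : PMap e K L (⋃ i, C i) (⋃ i ∈ J, C i) :=
    PMap.of_continuous hK.isCompact he hLK heK heL
  have hpr : PMap r (⋃ i, C i) (⋃ i ∈ J, C i) K' L' :=
    PMap.of_CA hPc (fun x hx => hr.continuousAt (hΩ.mem_nhds (hCΩ hx))) hQP hrK hrL
  obtain ⟨F, hF⟩ := exists_pull (R := R) (M := M) (p := p) hpe
  have hFG : (LinearMap.range F).FG := by
    rw [LinearMap.range_eq_map]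
    exact (Module.Finite.fg_top).map F
  refine Submodule.FG.of_le hFG ?_
  rintro _ ⟨a, rfl⟩
  obtain ⟨c, hc, rfl⟩ := cls_surj a
  refine ⟨cls R (pull r c) (cyc_pull hpr hc), ?_⟩
  rw [hF, res_cls]
  have h5 : pull e (pull r c) = c := by
    rw [pull_pull]
    have h6 : r ∘ e = id := funext hre
    rw [h6, pull_id]
  rw [cls_eq, h5, sub_self]
  exact Bd.zero

end FIN

theorem t_FIN : M_FIN := fun h1 h2 h3 => FIN.main h1 h2 h3

end BBH
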