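import Pool.Agent.BBH.StmtsB

/-!
# BBH FIO: extensions by zero have finitely generated range
-/

set_option autoImplicit false
set_option linter.unusedSectionVars false
set_option linter.unusedSimpArgs false

namespace BBH

open Set Topology CTO

namespace FIO

/-- a decreasing sequence of submodules, the first of them finite dimensional, is stationary -/
theorem stat {k E : Type} [Field k] [AddCommGroup E] [Module k E] (D : ℕ → Submodule k E)
    (hD : Antitone D) (h0 : (D 0).FG) : ∃ n, ∀ m, n ≤ m → D n = D m := by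
  have : Module.Finite k (D 0) := Module.Finite.iff_fg.2 h0
  have hanti : Antitone fun n => (D n).comap (D 0).subtype := fun a b hab =>
    Submodule.comap_mono (hD hab)
  obtain ⟨n, hn⟩ := IsArtinian.monotone_stabilizes (R := k) (M := D 0)
    ⟨fun n => OrderDual.toDual ((D n).comap (D 0).subtype), fun a b hab => hanti hab⟩
  refine ⟨n, fun m hm => ?_⟩
  have h1 : (D n).comap (D 0).subtype = (D m).comap (D 0).subtype := hn m hm
  refine le_antisymm (fun x hx => ?_) (hD hm)
  have hx0 : x ∈ D 0 := hD (Nat.zero_le n) hx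
  have h2 : (⟨x, hx0⟩ : D 0) ∈ (D n).comap (D 0).subtype := hx
  rw [h1] at h2
  exact h2

theorem part1 (hF : S_FIN) (R M X : Type) [CommRing R] [IsNoetherianRing R] [AddCommGroup M]
    [Module R M] [Module.Finite R M] [MetricSpace X] [CompactSpace X] (hX : IsANR X)
    (p : ℤ) (W V : Set X) (hV : IsOpen V) (hc : closure W ⊆ V) (h : W ⊆ V) :
    (LinearMap.range (ext R M (p := p) h)).FG := by
  refine hF R M X hX p univ univ Vᶜ Wᶜ isClosed_univ hV.isClosed_compl ?_ ?_
    (subset_univ _) (subset_univ _) Subset.rfl (compl_subset_compl.2 h)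
  · rw [interior_univ]
  · rw [interior_compl]
    exact compl_subset_compl.2 hc

theorem part2 (hF : S_FIN) (k X : Type) [Field k] [MetricSpace X] [CompactSpace X]
    (hX : IsANR X) (p : ℤ) (V : Set X) (x₀ : X) (hV : IsOpen V) (hx : x₀ ∈ V) :
    ∃ W ⊆ V, IsOpen W ∧ x₀ ∈ W ∧ ∀ W' ⊆ W, IsOpen W' → x₀ ∈ W' → ∀ c : Cc k X, CyO p W c →
    ∃ c', CyO p W' c' ∧ BdO p V (c - c') := by
  obtain ⟨ε, hε, hb⟩ := Metric.isOpen_iff.1 hV x₀ hx
  set U : ℕ → Set X := fun n => Metric.ball x₀ ((ε / 2) / ((n : ℝ) + 1)) with hU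
  have hpos : ∀ n : ℕ, 0 < (ε / 2) / ((n : ℝ) + 1) := fun n => by positivity
  have hUanti : Antitone U := fun a b hab => by
    refine Metric.ball_subset_ball ?_
    have h1 : (a : ℝ) + 1 ≤ (b : ℝ) + 1 := by
      have : (a : ℝ) ≤ (b : ℝ) := Nat.cast_le.2 hab
      linarith
    have h2 : (0 : ℝ) < (a : ℝ) + 1 := by positivity
    exact div_le_div_of_nonneg_left (by positivity) h2 h1
  have hUc : closure (U 0) ⊆ V := by
    refine Subset.trans (Metric.closure_ball_subset_closedBall) (Subset.trans ?_ hb)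
    refine Metric.closedBall_subset_ball ?_
    have : (ε / 2) / (((0 : ℕ) : ℝ) + 1) = ε / 2 := by simp
    rw [this]
    linarith
  have hUV : ∀ n, U n ⊆ V := fun n =>
    (hUanti (Nat.zero_le n)).trans (subset_closure.trans hUc)
  let D : ℕ → Submodule k (HO k k p V) := fun n => LinearMap.range (ext k k (p := p) (hUV n))
  have hD : Antitone D := by
    rintro a b hab _ ⟨y, rfl⟩
    exact ⟨ext k k (hUanti hab) y, ext_ext _ _ _⟩
  obtain ⟨n, hn⟩ := stat D hD (part1 hF k k X hX p (U 0) V hV hUc (hUV 0))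
  refine ⟨U n, hUV n, Metric.isOpen_ball, Metric.mem_ball_self (hpos n),
    fun W' hW' hWo hxW' c hc => ?_⟩
  obtain ⟨δ, hδ, hbδ⟩ := Metric.isOpen_iff.1 hWo x₀ hxW'
  obtain ⟨m, hm⟩ := exists_nat_gt ((ε / 2) / δ)
  have hUm : U (max n m) ⊆ W' := by
    refine Subset.trans (Metric.ball_subset_ball ?_) hbδ
    rw [div_le_iff₀ (by positivity)]
    rw [div_lt_iff₀ hδ] at hm
    have h1 : (m : ℝ) ≤ ((max n m : ℕ) : ℝ) := Nat.cast_le.2 (le_max_right _ _)
    nlinarith
  have h3 : ext k k (hUV n) (cls k c hc) ∈ D (max n m) := by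
    rw [← hn _ (le_max_left n m)]
    exact ⟨_, rfl⟩
  obtain ⟨y, hy⟩ := h3
  obtain ⟨c', hc', rfl⟩ := cls_surj y
  refine ⟨c', CyO.mono hc' hUm, ?_⟩
  have hy2 : cls k c (CyO.mono hc (hUV n)) = cls (R := k) (p := p) (A := univ) (B := Vᶜ) c'
      (CyO.mono hc' (hUV _)) := hy.symm
  exact (cls_eq _ _).1 hy2

end FIO

theorem t_FIO : M_FIO := fun hF =>
  ⟨fun R M X _ _ _ _ _ _ _ hX p W V _ hV hc h => FIO.part1 hF R M X hX p W V hV hc h,
    fun k X _ _ _ hX p V x₀ hV hx => FIO.part2 hF k X hX p V x₀ hV hx⟩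

end BBH
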