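import Pool.Agent.BBH.StmtsB
import Pool.Agent.CTO.HOM

/-!
# BBH, HUL: compact convex sets near an ANR
-/

set_option autoImplicit false

namespace BBH

open Set Topology CTO

theorem t_HUL : S_HUL := by
  intro X _ _ hX K K' L L' hK hL hKK hLL hLK
  have he : Isometry (kuratowskiEmbedding X) := kuratowskiEmbedding.isometry X
  obtain ⟨Ω, r, hΩ, hsub, hr, hre⟩ := hX _ (kuratowskiEmbedding X) he.isClosedEmbedding
  obtain ⟨η1, hη1, hT1⟩ := hK.isCompact.exists_thickening_subset_open isOpen_interior hKK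
  obtain ⟨η2, hη2, hT2⟩ := hL.isCompact.exists_thickening_subset_open isOpen_interior hLL
  obtain ⟨δ, hδ, h1⟩ := CTO.HOM.unif (kuratowskiEmbedding X) he Ω r hΩ hsub hr hre
    (lt_min hη1 hη2)
  have hK' : ∀ x ∈ K, ∀ u, dist u (kuratowskiEmbedding X x) < δ → r u ∈ K' := by
    intro x hx u hu
    refine interior_subset (hT1 ?_)
    rw [Metric.mem_thickening_iff]
    exact ⟨x, hx, lt_of_lt_of_le (h1 x (mem_univ x) u hu).2 (min_le_left _ _)⟩
  have hL' : ∀ x ∈ L, ∀ u, dist u (kuratowskiEmbedding X x) < δ → r u ∈ L' := by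
    intro x hx u hu
    refine interior_subset (hT2 ?_)
    rw [Metric.mem_thickening_iff]
    exact ⟨x, hx, lt_of_lt_of_le (h1 x (mem_univ x) u hu).2 (min_le_right _ _)⟩
  have hδ4 : 0 < δ / 4 := by positivity
  obtain ⟨t, htK, htf, hcov⟩ := hK.isCompact.finite_cover_balls hδ4
  have := htf.fintype
  let q : Fin (Fintype.card t) ≃ t := (Fintype.equivFin t).symm
  let Ki : Fin (Fintype.card t) → Set X := fun i => K ∩ Metric.closedBall (q i : X) (δ / 4)
  let C : Fin (Fintype.card t) → Set (lp (fun _ : ℕ => ℝ) ⊤) := fun i =>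
    closure (convexHull ℝ (kuratowskiEmbedding X '' Ki i))
  have hC : ∀ i, C i ⊆ Metric.closedBall (kuratowskiEmbedding X (q i : X)) (δ / 4) := by
    intro i
    refine closure_minimal (convexHull_min ?_ (convex_closedBall _ _)) Metric.isClosed_closedBall
    rintro _ ⟨y, hy, rfl⟩
    rw [Metric.mem_closedBall, he.dist_eq]
    exact hy.2
  have hcomp : ∀ i, IsCompact (C i) := by
    intro i
    have hKi : IsCompact (Ki i) := hK.isCompact.inter_right Metric.isClosed_closedBall
    have h2 : TotallyBounded (kuratowskiEmbedding X '' Ki i) :=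
      (hKi.image he.continuous).totallyBounded
    exact (totallyBounded_convexHull.2 h2).closure.isCompact_of_isClosed isClosed_closure
  have hin : ∀ x ∈ K, ∃ i, x ∈ Ki i := by
    intro x hx
    have h2 := hcov hx
    simp only [mem_iUnion] at h2
    obtain ⟨y, hy, hxy⟩ := h2
    refine ⟨q.symm ⟨y, hy⟩, hx, ?_⟩
    rw [Equiv.apply_symm_apply]
    exact Metric.ball_subset_closedBall hxy
  have hmem : ∀ i, ∀ x ∈ Ki i, kuratowskiEmbedding X x ∈ C i := fun i x hx =>
    subset_closure (subset_convexHull ℝ _ (mem_image_of_mem _ hx))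
  refine ⟨lp (fun _ : ℕ => ℝ) ⊤, inferInstance, inferInstance, kuratowskiEmbedding X, r, Ω,
    Fintype.card t, C, {i | (Ki i ∩ L).Nonempty}, he.continuous, hΩ, hr, hre, hcomp, ?_, ?_, ?_,
    ?_, ?_, ?_⟩
  · intro i
    exact (convex_convexHull ℝ _).closure
  · refine iUnion_subset fun i u hu => ?_
    have h3 : dist u (kuratowskiEmbedding X (q i : X)) < δ :=
      lt_of_le_of_lt (hC i hu) (by linarith)
    exact (h1 _ (mem_univ _) u h3).1
  · intro x hx
    obtain ⟨i, hi⟩ := hin x hx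
    exact mem_iUnion.2 ⟨i, hmem i x hi⟩
  · intro x hx
    obtain ⟨i, hi⟩ := hin x (hLK hx)
    exact mem_iUnion₂.2 ⟨i, ⟨x, hi, hx⟩, hmem i x hi⟩
  · intro u hu
    obtain ⟨i, hi⟩ := mem_iUnion.1 hu
    exact hK' (q i : X) (htK (q i).2) u (lt_of_le_of_lt (hC i hi) (by linarith))
  · intro u hu
    obtain ⟨i, ⟨y, hy, hyL⟩, hi⟩ := mem_iUnion₂.1 hu
    refine hL' y hyL u ?_
    have h3 : dist u (kuratowskiEmbedding X (q i : X)) ≤ δ / 4 := hC i hi
    have h4 : dist (kuratowskiEmbedding X (q i : X)) (kuratowskiEmbedding X y) ≤ δ / 4 := by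
      rw [he.dist_eq, dist_comm]
      exact hy.2
    have h5 := dist_triangle u (kuratowskiEmbedding X (q i : X)) (kuratowskiEmbedding X y)
    linarith

end BBH
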