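import Pool.Agent.BBH.StmtsB
import Pool.Agent.BBP.A_LCA

/-!
# BBH, module LPX: compact ANRs are locally path connected
-/

set_option autoImplicit false

namespace BBH

open Set Topology CTO

theorem t_LPX : S_LPX := by
  intro X _ _ hX
  have hL := BBP.t_LCA X hX
  constructor
  · rw [locallyPathConnectedSpace_iff_pathComponentIn_mem_nhds]
    intro x u hu hxu
    obtain ⟨W1, hW1, hW1o, hxW1, H, hH, h0, h1, h2⟩ := hL x u hu hxu
    refine Filter.mem_of_superset (hW1o.mem_nhds hxW1) ?_
    intro y hy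
    have hc : Continuous fun t : unitInterval => H (y, (t : ℝ)) := by
      have h3 : Continuous fun t : unitInterval => ((y, (t : ℝ)) : X × ℝ) := by fun_prop
      exact hH.comp_continuous h3 fun t => ⟨hy, t.2⟩
    have hj : JoinedIn u y x :=
      ⟨⟨⟨fun t : unitInterval => H (y, (t : ℝ)), hc⟩, by simpa using h0 y hy,
        by simpa using h1 y hy⟩, fun t => h2 y hy t t.2⟩
    exact hj.symm
  · intro x W hW hxW
    obtain ⟨W1, hW1, hW1o, hxW1, H, hH, h0, h1, h2⟩ := hL x W hW hxW
    obtain ⟨ε, hε, hB⟩ := Metric.isOpen_iff.1 hW1o x hxW1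
    have hV : closure (Metric.ball x (ε / 2)) ⊆ W1 :=
      (Metric.closure_ball_subset_closedBall.trans
        (Metric.closedBall_subset_ball (by linarith))).trans hB
    refine ⟨Metric.ball x (ε / 2), Metric.isOpen_ball, Metric.mem_ball_self (by linarith),
      hV.trans hW1, x, H, hxW, ?_, ?_, ?_, ?_⟩
    · exact hH.mono (prod_mono hV subset_rfl)
    · rintro ⟨y, t⟩ ⟨hy, ht⟩
      exact h2 y (hV hy) t ht
    · intro y hy
      exact h0 y (hV hy)
    · intro y hy
      exact h1 y (hV hy)

end BBH
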