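import Pool.Agent.BBH.StmtsB

/-!
# BBH: Mayer-Vietoris for compact sets
-/

set_option autoImplicit false

namespace BBH

open Set Topology CTO

theorem t_MVC : S_MVC := by
  intro M X _ _ p A B c hA hB h1 h2
  obtain ⟨b₁, d1, z1, k1⟩ := h1
  obtain ⟨b₂, d2, z2, k2⟩ := h2
  refine ⟨b₁ - b₂, ⟨d1.sub d2, Zr.empty (d1.sub d2), ?_⟩, ?_⟩
  · have h3 : dd (b₁ - b₂) = (c - dd b₂) - (c - dd b₁) := by
      rw [dd_sub]
      abel
    rw [h3]
    exact (k2.anti inter_subset_right).sub (k1.anti inter_subset_left)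
  · intro e₁ e₂ he1 he2 hw
    obtain ⟨f, df, zf, kf⟩ := hw
    obtain ⟨K, hK1, hK2⟩ := Zr.inter hA hB kf
    have hw1 : Dg X (p - 1) (b₁ - b₂ - e₁ - e₂ - dd f) :=
      ((((d1.sub d2).sub he1.deg).sub he2.deg).sub df.dd')
    set w : Cc M X := b₁ - b₂ - e₁ - e₂ - dd f with hwd
    have hb : b₁ - e₁ - ind K w = b₂ + e₂ + dd f + ind Kᶜ w := by
      rw [ind_compl, hwd]
      abel
    have hdeg : Dg X (p - 1) (b₁ - e₁ - ind K w) := (d1.sub he1.deg).sub hw1.ind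
    refine ⟨b₁ - e₁ - ind K w, hdeg, Zr.empty hdeg, Zr.union ?_ ?_⟩
    · have h4 : c - dd (b₁ - e₁ - ind K w) = (c - dd b₁) + dd e₁ + dd (ind K w) := by
        rw [dd_sub, dd_sub]
        abel
      rw [h4]
      exact (k1.add he1.cyc).add hK1.dd
    · have h4 : c - dd (b₁ - e₁ - ind K w) = (c - dd b₂) - dd e₂ - dd (ind Kᶜ w) := by
        rw [hb, dd_add, dd_add, dd_add, dd_dd]
        abel
      rw [h4]
      exact (k2.sub he2.cyc).sub hK2.dd

end BBH
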