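import Pool.Agent.BBH.StmtsB

/-!
# BBH: Mayer-Vietoris for open sets (S_MVO)
-/

set_option autoImplicit false

namespace BBH

open Set Topology

namespace MVO

variable {M X : Type} [AddCommGroup M] [MetricSpace X] [CompactSpace X]

/-- splitting of a cochain with support in a union -/
theorem split {p : ℤ} {U V : Set X} (hU : IsOpen U) (hV : IsOpen V) {c : Cc M X}
    (hd : Dg X p c) (hc : Zr (U ∪ V)ᶜ c) :
    ∃ c₁ c₂ : Cc M X, Dg X p c₁ ∧ Dg X p c₂ ∧ Zr Uᶜ c₁ ∧ Zr Vᶜ c₂ ∧ c = c₁ + c₂ := by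
  rw [compl_union] at hc
  obtain ⟨K, h1, h2⟩ := Zr.inter hU.isClosed_compl.isCompact hV.isClosed_compl hc
  exact ⟨ind K c, ind Kᶜ c, hd.ind, hd.ind, h1, h2, (ind_add_compl K c).symm⟩

theorem union {U V : Set X} {c : Cc M X} (h1 : Zr Uᶜ c) (h2 : Zr Vᶜ c) : Zr (U ∩ V)ᶜ c := by
  rw [compl_inter]
  exact h1.union h2

theorem one {p : ℤ} {U V : Set X} (hU : IsOpen U) (hV : IsOpen V) {c : Cc M X}
    (hc : CyO p (U ∪ V) c) : ∃ d, CyO (p + 1) (U ∩ V) d ∧ MVr p U V c d := by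
  obtain ⟨c₁, c₂, d1, d2, z1, z2, rfl⟩ := split hU hV hc.deg hc.rel
  have h3 : Zr Vᶜ (dd c₁) := by
    have h4 := (hc.cyc.anti (subset_univ Vᶜ)).sub z2.dd
    rwa [dd_add, add_sub_cancel_right] at h4
  refine ⟨dd c₁, ⟨d1.dd, union z1.dd h3, by rw [dd_dd]; exact Zr.zero _⟩,
    c₁, c₂, d1, d2, z1, z2, ?_, ?_⟩
  · have : c₁ + c₂ - c₁ - c₂ = 0 := by abel
    rw [this]
    exact Zr.zero _
  · rw [sub_self]
    exact Zr.zero _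

theorem two {p : ℤ} {U V : Set X} (hU : IsOpen U) (hV : IsOpen V) {c d : Cc M X}
    (hm : MVr p U V c d) (hb : BdO p (U ∪ V) c) : BdO (p + 1) (U ∩ V) d := by
  obtain ⟨c₁, c₂, d1, d2, z1, z2, h3, h4⟩ := hm
  obtain ⟨b, e1, e2, e3⟩ := hb
  obtain ⟨b₁, b₂, f1, f2, y1, y2, rfl⟩ := split hU hV e1 e2
  refine ⟨c₁ - dd b₁, ?_, union (z1.sub y1.dd) ?_, ?_⟩
  · rw [add_sub_cancel_right]
    exact d1.sub f1.dd'
  · have h5 : c₁ - dd b₁ = (c - dd (b₁ + b₂)) - (c - c₁ - c₂) - c₂ + dd b₂ := by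
      rw [dd_add]
      abel
    rw [h5]
    exact (((e3.anti (subset_univ _)).sub (h3.anti (subset_univ _))).sub z2).add y2.dd
  · rw [dd_sub, dd_dd, sub_zero]
    exact h4

theorem three {p : ℤ} {U V : Set X} {d : Cc M X} (hu : BdO (p + 1) U d)
    (hv : BdO (p + 1) V d) : ∃ c, CyO p (U ∪ V) c ∧ MVr p U V c d := by
  obtain ⟨b₁, d1, z1, e1⟩ := hu
  obtain ⟨b₂, d2, z2, e2⟩ := hv
  rw [add_sub_cancel_right] at d1 d2
  have s1 : (U ∪ V)ᶜ ⊆ Uᶜ := compl_subset_compl.2 subset_union_left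
  have s2 : (U ∪ V)ᶜ ⊆ Vᶜ := compl_subset_compl.2 subset_union_right
  refine ⟨b₁ - b₂, ⟨d1.sub d2, (z1.anti s1).sub (z2.anti s2), ?_⟩, b₁, -b₂, d1, d2.neg, z1,
    z2.neg, ?_, e1⟩
  · have h5 : dd (b₁ - b₂) = (d - dd b₂) - (d - dd b₁) := by
      rw [dd_sub]
      abel
    rw [h5]
    exact e2.sub e1
  · have : b₁ - b₂ - b₁ - -b₂ = 0 := by abel
    rw [this]
    exact Zr.zero _

theorem four {p : ℤ} {U V : Set X} (hU : IsOpen U) (hV : IsOpen V) {c₁ c₂ : Cc M X}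
    (h1 : CyO p U c₁) (h2 : CyO p V c₂) (hb : BdO p (U ∪ V) (c₁ + c₂)) :
    ∃ e, CyO p (U ∩ V) e ∧ BdO p U (c₁ - e) ∧ BdO p V (c₂ + e) := by
  obtain ⟨b, e1, e2, e3⟩ := hb
  obtain ⟨b₁, b₂, f1, f2, y1, y2, rfl⟩ := split hU hV e1 e2
  refine ⟨c₁ - dd b₁, ⟨h1.deg.sub f1.dd', union (h1.rel.sub y1.dd) ?_, ?_⟩, ?_,
    b₂, f2, y2, ?_⟩
  · have h5 : c₁ - dd b₁ = (c₁ + c₂ - dd (b₁ + b₂)) - c₂ + dd b₂ := by
      rw [dd_add]
      abel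
    rw [h5]
    exact ((e3.anti (subset_univ _)).sub h2.rel).add y2.dd
  · rw [dd_sub, dd_dd, sub_zero]
    exact h1.cyc
  · rw [sub_sub_cancel]
    exact Bd.of_dd f1 y1
  · have h5 : c₂ + (c₁ - dd b₁) - dd b₂ = c₁ + c₂ - dd (b₁ + b₂) := by
      rw [dd_add]
      abel
    rw [h5]
    exact e3

theorem five {p : ℤ} {U V : Set X} {c d : Cc M X} (hc : CyO p (U ∪ V) c)
    (hm : MVr p U V c d) (hd : BdO (p + 1) (U ∩ V) d) :
    ∃ c₁ c₂, CyO p U c₁ ∧ CyO p V c₂ ∧ BdO p (U ∪ V) (c - c₁ - c₂) := by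
  obtain ⟨c₁, c₂, d1, d2, z1, z2, h3, h4⟩ := hm
  obtain ⟨e, e1, e2, e3⟩ := hd
  rw [add_sub_cancel_right] at e1
  have s1 : Uᶜ ⊆ (U ∩ V)ᶜ := compl_subset_compl.2 inter_subset_left
  have s2 : Vᶜ ⊆ (U ∩ V)ᶜ := compl_subset_compl.2 inter_subset_right
  refine ⟨c₁ - e, c₂ + e, ⟨d1.sub e1, z1.sub (e2.anti s1), ?_⟩,
    ⟨d2.add e1, z2.add (e2.anti s2), ?_⟩, Bd.of_Zr ?_⟩
  · have h5 : dd (c₁ - e) = (d - dd e) - (d - dd c₁) := by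
      rw [dd_sub]
      abel
    rw [h5]
    exact e3.sub h4
  · have h5 : dd (c₂ + e) = dd c - dd (c - c₁ - c₂) - ((d - dd e) - (d - dd c₁)) := by
      rw [dd_sub, dd_sub, dd_add]
      abel
    rw [h5]
    exact (hc.cyc.sub h3.dd).sub (e3.sub h4)
  · have h5 : c - (c₁ - e) - (c₂ + e) = c - c₁ - c₂ := by abel
    rw [h5]
    exact h3

end MVO

theorem t_MVO : S_MVO := by
  intro M X _ _ _ p U V hU hV
  refine ⟨fun c hc => MVO.one hU hV hc, fun c d _ _ hm hb => MVO.two hU hV hm hb,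
    fun d _ hu hv => MVO.three hu hv, fun c₁ c₂ h1 h2 hb => MVO.four hU hV h1 h2 hb,
    fun c hc H => ?_⟩
  obtain ⟨d, hd, hm⟩ := MVO.one hU hV hc
  exact MVO.five hc hm (H d hd)

end BBH
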