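import Pool.Agent.BBH.StmtsB

/-!
# Module MVT: triviality on unions (Mayer-Vietoris)
-/

set_option autoImplicit false

namespace BBH

open Set

/-- MVT -/
theorem t_MVT : M_MVT := by
  intro hM M X _ _ _ p V₁ V₂ U₁ U₂ W hV₁ hV₂ _ _ _ h1 h2 _ _ hd hc1 hc2 c hc
  obtain ⟨h5, _⟩ := hM M X p V₁ V₂ hV₁ hV₂
  obtain ⟨d, hdc, c₁, c₂, g1, g2, z1, z2, zc, zd⟩ := h5 c hc
  obtain ⟨e, ge, ze, zde⟩ := hd d hdc
  rw [add_sub_cancel_right] at ge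
  have hU1 : U₁ᶜ ⊆ (U₁ ∩ U₂)ᶜ := compl_subset_compl.2 inter_subset_left
  have hU2 : U₂ᶜ ⊆ (U₁ ∩ U₂)ᶜ := compl_subset_compl.2 inter_subset_right
  have hVU1 : U₁ᶜ ⊆ V₁ᶜ := compl_subset_compl.2 h1
  have hVU2 : U₂ᶜ ⊆ V₂ᶜ := compl_subset_compl.2 h2
  have k1 : Zr univ (dd (c₁ - e)) := by
    have h := zde.sub zd
    rw [sub_sub_sub_cancel_left] at h
    rwa [dd_sub]
  have k2 : Zr univ (dd (c₂ + e)) := by
    have h := (hc.cyc.sub zc.dd).sub k1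
    have h3 : dd c - dd (c - c₁ - c₂) - dd (c₁ - e) = dd (c₂ + e) := by
      rw [dd_sub, dd_sub, dd_sub, dd_add]
      abel
    rwa [h3] at h
  have m1 : BdO p W (c₁ - e) :=
    hc1 _ ⟨g1.sub ge, (z1.anti hVU1).sub (ze.anti hU1), k1⟩
  have m2 : BdO p W (c₂ + e) :=
    hc2 _ ⟨g2.add ge, (z2.anti hVU2).add (ze.anti hU2), k2⟩
  have m3 : BdO p W (c - c₁ - c₂) := Bd.of_Zr zc
  have m4 := Bd.add (Bd.add m1 m2) m3
  have h6 : c₁ - e + (c₂ + e) + (c - c₁ - c₂) = c := by abel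
  rw [h6] at m4
  exact m4

end BBH
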