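import Pool.Agent.BBH.StmtsB

/-!
# BBH, module NBH: continuity
-/

set_option autoImplicit false

namespace BBH

open Set Topology CTO

namespace NBH

variable {M X : Type} [AddCommGroup M] [MetricSpace X]

theorem part1 {c : Cc M X} {V : Set X} (h : Zr Vᶜ c) :
    ∃ W : Set X, IsOpen W ∧ closure W ⊆ V ∧ Zr Wᶜ c := by
  obtain ⟨r, hr, hB⟩ := h.nhds
  refine ⟨(Metric.cthickening (r / 2) Vᶜ)ᶜ, Metric.isClosed_cthickening.isOpen_compl, ?_, ?_⟩
  · have h1 : closure (Metric.cthickening (r / 2) Vᶜ)ᶜ ⊆ (Metric.thickening (r / 2) Vᶜ)ᶜ :=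
      closure_minimal (compl_subset_compl.2 (Metric.thickening_subset_cthickening _ _))
        Metric.isOpen_thickening.isClosed_compl
    refine h1.trans ?_
    rw [compl_subset_comm]
    exact Metric.self_subset_thickening (by positivity) _
  · rw [compl_compl]
    exact hB _ (Metric.cthickening_subset_thickening' hr (by linarith) _)

theorem part2 [CompactSpace X] {c : Cc M X} {U : ℕ → Set X} (hU : Monotone U)
    (ho : ∀ i, IsOpen (U i)) (h : Zr (⋃ i, U i)ᶜ c) : ∃ i, Zr (U i)ᶜ c := by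
  obtain ⟨r, hr, hB⟩ := h.nhds
  have hK : IsCompact (Metric.thickening r (⋃ i, U i)ᶜ)ᶜ :=
    Metric.isOpen_thickening.isClosed_compl.isCompact
  have hsub : (Metric.thickening r (⋃ i, U i)ᶜ)ᶜ ⊆ ⋃ i, U i := by
    rw [compl_subset_comm]
    exact Metric.self_subset_thickening hr _
  obtain ⟨i, hi⟩ := hK.elim_directed_cover U ho hsub hU.directed_le
  exact ⟨i, hB _ (by rwa [compl_subset_comm])⟩

theorem part3 {c : Cc M X} {K : Set X} (h : Zr K c) :
    ∃ N : Set X, IsOpen N ∧ K ⊆ N ∧ Zr (closure N) c := by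
  obtain ⟨r, hr, hB⟩ := h.nhds
  refine ⟨Metric.thickening (r / 2) K, Metric.isOpen_thickening,
    Metric.self_subset_thickening (by positivity) _, hB _ ?_⟩
  exact (Metric.closure_thickening_subset_cthickening _ _).trans
    (Metric.cthickening_subset_thickening' hr (by linarith) _)

end NBH

open NBH in
theorem t_NBH : S_NBH := by
  intro M X _ _ _ c
  refine ⟨fun V _ h => part1 h, fun U hU ho h => part2 hU ho h, fun K _ h => part3 h, ?_⟩
  intro K hK hc h
  have h1 : Zr (⋃ i, (K i)ᶜ)ᶜ c := by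
    rw [compl_iUnion]
    simpa using h
  obtain ⟨i, hi⟩ := part2 (U := fun i => (K i)ᶜ) (fun i j hij => compl_subset_compl.2 (hK hij))
    (fun i => (hc i).isOpen_compl) h1
  exact ⟨i, by simpa using hi⟩

end BBH
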