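import Pool.Agent.BBH.StmtsB

/-!
# BBH: the outside of a point
-/

set_option autoImplicit false

namespace BBH

open Set Topology CTO

namespace OUS

/-- a relatively closed and open subset of a connected set -/
lemma sub_of_clopen {X : Type} [TopologicalSpace X] {B S : Set X} (hB : IsPreconnected B)
    (hS : IsOpen S) (hne : (B ∩ S).Nonempty) (hcl : closure S ∩ B ⊆ S) : B ⊆ S := by
  by_contra h
  rw [not_subset] at h
  obtain ⟨y, hyB, hyS⟩ := h
  have h1 : B ⊆ S ∪ (closure S)ᶜ := by
    intro z hz
    by_cases h2 : z ∈ closure S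
    · exact Or.inl (hcl ⟨h2, hz⟩)
    · exact Or.inr h2
  have h3 : (B ∩ (closure S)ᶜ).Nonempty := ⟨y, hyB, fun h => hyS (hcl ⟨h, hyB⟩)⟩
  obtain ⟨z, _, hz1, hz2⟩ := hB S (closure S)ᶜ hS isClosed_closure.isOpen_compl h1 hne h3
  exact hz2 (subset_closure hz1)

end OUS

open OUS in
theorem t_OUS : S_OUS := by
  intro X _ _ hX B N x hBo hBc hxB hBx hNo hxN
  haveI := hX
  obtain ⟨w, hwB, hwx⟩ := hBx.nonempty
  have hwx' : 0 < dist w x := dist_pos.2 hwx
  obtain ⟨ρ₀, hρ₀, hsub₀⟩ := Metric.isOpen_iff.1 (hBo.inter hNo) x ⟨hxB, hxN⟩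
  set ρ : ℝ := min (ρ₀ / 2) (dist w x / 2) with hρdef
  have hρ : 0 < ρ := lt_min (by positivity) (by positivity)
  have hρw : ρ < dist w x := lt_of_le_of_lt (min_le_right _ _) (by linarith)
  have hsub : Metric.closedBall x ρ ⊆ B ∩ N := by
    intro y hy
    apply hsub₀
    rw [Metric.mem_closedBall] at hy
    rw [Metric.mem_ball]
    have : ρ ≤ ρ₀ / 2 := min_le_left _ _
    linarith
  -- the radii
  have hr0 : ∀ i : ℕ, 0 < ρ / ((i : ℝ) + 2) := fun i => by positivity
  have hrρ : ∀ i : ℕ, ρ / ((i : ℝ) + 2) < ρ := by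
    intro i
    rw [div_lt_iff₀ (by positivity)]
    have : (0 : ℝ) ≤ i := Nat.cast_nonneg i
    nlinarith
  set V : ℕ → Set X := fun i => connectedComponentIn (B \ Metric.closedBall x (ρ / ((i : ℝ) + 2))) w
    with hV
  have hOi : ∀ i : ℕ, IsOpen (B \ Metric.closedBall x (ρ / ((i : ℝ) + 2))) := fun i =>
    hBo.sdiff Metric.isClosed_closedBall
  have hwi : ∀ i : ℕ, w ∈ B \ Metric.closedBall x (ρ / ((i : ℝ) + 2)) := by
    intro i
    refine ⟨hwB, fun h => ?_⟩
    rw [Metric.mem_closedBall] at h
    have := hrρ i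
    linarith
  have hVo : ∀ i, IsOpen (V i) := fun i => (hOi i).connectedComponentIn
  have hVc : ∀ i, IsConnected (V i) := fun i => isConnected_connectedComponentIn_iff.2 (hwi i)
  have hVs : ∀ i, V i ⊆ B \ Metric.closedBall x (ρ / ((i : ℝ) + 2)) := fun i =>
    connectedComponentIn_subset _ _
  have hVm : Monotone V := by
    intro i j hij
    apply connectedComponentIn_mono
    intro y hy
    refine ⟨hy.1, fun h => hy.2 ?_⟩
    rw [Metric.mem_closedBall] at h ⊢
    refine h.trans ?_
    apply div_le_div_of_nonneg_left hρ.le (by positivity)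
    have : (i : ℝ) ≤ j := by exact_mod_cast hij
    linarith
  have hVu : (⋃ i, V i) = B \ {x} := by
    apply Subset.antisymm
    · apply iUnion_subset
      intro i y hy
      have h1 := hVs i hy
      refine ⟨h1.1, fun h => h1.2 ?_⟩
      rw [mem_singleton_iff] at h
      rw [h]
      exact Metric.mem_closedBall_self (hr0 i).le
    · intro y hy
      have hO : IsOpen (B \ {x}) := hBo.sdiff isClosed_singleton
      have hP : IsPathConnected (B \ {x}) := (hO.isConnected_iff_isPathConnected).1 hBx
      obtain ⟨γ, hγ⟩ := hP.joinedIn w ⟨hwB, hwx⟩ y hy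
      have hK : IsCompact (range γ) := isCompact_range γ.continuous
      have hne : (range γ).Nonempty := ⟨γ 0, mem_range_self _⟩
      obtain ⟨z, hz, hzmin⟩ := hK.exists_isMinOn hne
        (Continuous.continuousOn (continuous_id.dist (continuous_const (y := x))))
      have hz0 : 0 < dist z x := by
        obtain ⟨t, rfl⟩ := hz
        exact dist_pos.2 (hγ t).2
      obtain ⟨i, hi⟩ := exists_nat_gt (ρ / dist z x)
      have hsubi : range γ ⊆ B \ Metric.closedBall x (ρ / ((i : ℝ) + 2)) := by
        rintro _ ⟨t, rfl⟩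
        refine ⟨(hγ t).1, fun h => ?_⟩
        rw [Metric.mem_closedBall] at h
        have h1 : dist z x ≤ dist (γ t) x := hzmin (mem_range_self t)
        have h2 : ρ / ((i : ℝ) + 2) < dist z x := by
          rw [div_lt_iff₀ (by positivity)]
          rw [div_lt_iff₀ hz0] at hi
          nlinarith
        linarith
      rw [mem_iUnion]
      refine ⟨i, ?_⟩
      have hpre : IsPreconnected (range γ) := isPreconnected_range γ.continuous
      have hwγ : w ∈ range γ := ⟨0, γ.source⟩
      exact hpre.subset_connectedComponentIn hwγ hsubi ⟨1, γ.target⟩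
  -- the sphere
  have hF : IsCompact (Metric.sphere x ρ) := Metric.isClosed_sphere.isCompact
  obtain ⟨i₁, hi₁⟩ : ∃ i₁, Metric.sphere x ρ ⊆ V i₁ := by
    apply hF.elim_directed_cover V hVo
    · rw [hVu]
      intro y hy
      refine ⟨(hsub (Metric.sphere_subset_closedBall hy)).1, fun h => ?_⟩
      rw [mem_singleton_iff] at h
      rw [h, Metric.mem_sphere, dist_self] at hy
      linarith
    · exact hVm.directed_le
  have key : ∀ i, i₁ ≤ i → B \ V i ⊆ Metric.ball x ρ := by
    intro i hi
    have hsph : Metric.sphere x ρ ⊆ V i := hi₁.trans (hVm hi)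
    have h1 : B ⊆ V i ∪ Metric.ball x ρ := by
      apply sub_of_clopen hBc.isPreconnected ((hVo i).union Metric.isOpen_ball)
      · exact ⟨x, hxB, Or.inr (Metric.mem_ball_self hρ)⟩
      · rintro z ⟨hz, hzB⟩
        by_cases hzb : z ∈ Metric.ball x ρ
        · exact Or.inr hzb
        · left
          rw [closure_union] at hz
          rcases hz with hz | hz
          · have hzO : z ∈ B \ Metric.closedBall x (ρ / ((i : ℝ) + 2)) := by
              refine ⟨hzB, fun h => hzb ?_⟩
              rw [Metric.mem_closedBall] at h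
              rw [Metric.mem_ball]
              exact lt_of_le_of_lt h (hrρ i)
            have h2 : IsOpen (connectedComponentIn (B \ Metric.closedBall x (ρ / ((i : ℝ) + 2))) z) :=
              (hOi i).connectedComponentIn
            obtain ⟨u, hu1, hu2⟩ := mem_closure_iff.1 hz _ h2 (mem_connectedComponentIn hzO)
            have h3 := connectedComponentIn_eq hu1
            have h4 := connectedComponentIn_eq hu2
            show z ∈ connectedComponentIn _ w
            rw [h4, ← h3]
            exact mem_connectedComponentIn hzO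
          · have h2 : z ∈ Metric.closedBall x ρ := Metric.closure_ball_subset_closedBall hz
            apply hsph
            rw [Metric.mem_sphere]
            rw [Metric.mem_closedBall] at h2
            rw [Metric.mem_ball, not_lt] at hzb
            exact le_antisymm h2 hzb
    rintro y ⟨hyB, hyV⟩
    exact (h1 hyB).resolve_left hyV
  refine ⟨fun i => V (i + i₁), fun i j hij => hVm (by omega), fun i => hVo _, fun i => hVc _, ?_, ?_,
    ?_, ?_⟩
  · rw [← hVu]
    apply Subset.antisymm
    · exact iUnion_subset fun i => subset_iUnion V (i + i₁)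
    · exact iUnion_subset fun i => (hVm (by omega : i ≤ i + i₁)).trans
        (subset_iUnion (fun i => V (i + i₁)) i)
  · intro i
    have h1 := key (i + i₁) (by omega)
    have h2 : B \ V (i + i₁) = Metric.closedBall x ρ \ V (i + i₁) := by
      apply Subset.antisymm
      · intro y hy
        exact ⟨Metric.ball_subset_closedBall (h1 hy), hy.2⟩
      · intro y hy
        exact ⟨(hsub hy.1).1, hy.2⟩
    rw [h2]
    exact (Metric.isClosed_closedBall.sdiff (hVo _)).isCompact
  · intro i y hy
    exact (hsub (Metric.ball_subset_closedBall (key (i + i₁) (by omega) hy))).2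
  · intro i
    rw [mem_interior]
    refine ⟨Metric.ball x (ρ / (((i + i₁ : ℕ) : ℝ) + 2)), ?_, Metric.isOpen_ball,
      Metric.mem_ball_self (hr0 _)⟩
    intro y hy
    have h1 : y ∈ Metric.closedBall x (ρ / (((i + i₁ : ℕ) : ℝ) + 2)) := Metric.ball_subset_closedBall hy
    refine ⟨(hsub ?_).1, fun h => (hVs _ h).2 h1⟩
    rw [Metric.mem_closedBall] at h1 ⊢
    exact h1.trans (hrρ _).le

end BBH
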