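import Pool.Agent.BBH.StmtsB

/-!
# BBH: the outside of a compact set
-/

set_option autoImplicit false

namespace BBH

open Set Topology CTO

namespace OUT

/-- a relatively closed and open subset of a connected set -/
lemma sub_of_clopen {X : Type} [TopologicalSpace X] {B S : Set X} (hB : IsPreconnected B)
    (hS : IsOpen S) (hne : (B ∩ S).Nonempty) (hcl : closure S ∩ B ⊆ S) : B ⊆ S := by
  by_contra h
  rw [not_subset] at h
  obtain ⟨y, hyB, hyS⟩ := h
  have h1 : B ⊆ S ∪ (closure S)ᶜ := by
    intro z hz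
    by_cases h2 : z ∈ closure S
    · exact Or.inl (hcl ⟨h2, hz⟩)
    · exact Or.inr h2
  have h3 : (B ∩ (closure S)ᶜ).Nonempty := ⟨y, hyB, fun h => hyS (hcl ⟨h, hyB⟩)⟩
  obtain ⟨z, _, hz1, hz2⟩ := hB S (closure S)ᶜ hS isClosed_closure.isOpen_compl h1 hne h3
  exact hz2 (subset_closure hz1)

/-- the components of open sets are relatively closed -/
lemma closure_comp {X : Type} [TopologicalSpace X] [LocallyConnectedSpace X] {O : Set X} {w z : X}
    (hO : IsOpen O) (hz : z ∈ closure (connectedComponentIn O w)) (hzO : z ∈ O) :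
    z ∈ connectedComponentIn O w := by
  have h2 : IsOpen (connectedComponentIn O z) := hO.connectedComponentIn
  obtain ⟨u, hu1, hu2⟩ := mem_closure_iff.1 hz _ h2 (mem_connectedComponentIn hzO)
  have h3 := connectedComponentIn_eq hu1
  have h4 := connectedComponentIn_eq hu2
  rw [h4, ← h3]
  exact mem_connectedComponentIn hzO

/-- compact sets are in the component for small `δ` -/
lemma cover {X : Type} [MetricSpace X] [LocallyPathConnectedSpace X] {B J F : Set X} {w : X}
    (hBo : IsOpen B) (hJ : IsClosed J) (hBJ : IsConnected (B \ J)) (hw : w ∈ B \ J)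
    (hF : IsCompact F) (hFB : F ⊆ B \ J) :
    ∃ δ₀ : ℝ, 0 < δ₀ ∧ ∀ δ : ℝ, 0 < δ → δ ≤ δ₀ →
      F ⊆ connectedComponentIn (B \ Metric.cthickening δ J) w := by
  have hmono : ∀ a b : ℝ, a ≤ b → connectedComponentIn (B \ Metric.cthickening b J) w ⊆
      connectedComponentIn (B \ Metric.cthickening a J) w := fun a b hab =>
    connectedComponentIn_mono w (sdiff_subset_sdiff_right (Metric.cthickening_mono hab J))
  refine hF.induction_on (p := fun S => ∃ δ₀ : ℝ, 0 < δ₀ ∧ ∀ δ : ℝ, 0 < δ → δ ≤ δ₀ →
      S ⊆ connectedComponentIn (B \ Metric.cthickening δ J) w) ?_ ?_ ?_ ?_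
  · exact ⟨1, one_pos, fun _ _ _ => empty_subset _⟩
  · rintro S T hST ⟨δ₀, h0, h1⟩
    exact ⟨δ₀, h0, fun δ h2 h3 => hST.trans (h1 δ h2 h3)⟩
  · rintro S T ⟨a, ha, ha'⟩ ⟨b, hb, hb'⟩
    exact ⟨min a b, lt_min ha hb, fun δ h2 h3 => union_subset (ha' δ h2 (h3.trans (min_le_left _ _)))
      (hb' δ h2 (h3.trans (min_le_right _ _)))⟩
  · intro y hy
    have hyB := hFB hy
    have hO : IsOpen (B \ J) := hBo.sdiff hJ
    have hP : IsPathConnected (B \ J) := (hO.isConnected_iff_isPathConnected).1 hBJ
    obtain ⟨γ, hγ⟩ := hP.joinedIn w hw y hyB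
    have hK : IsCompact (range γ) := isCompact_range γ.continuous
    have hdis : Disjoint (range γ) J := by
      rw [Set.disjoint_left]
      rintro _ ⟨t, rfl⟩ h
      exact (hγ t).2 h
    obtain ⟨δ, hδ, hd⟩ := hdis.exists_cthickenings hK hJ
    have hyW : y ∈ connectedComponentIn (B \ Metric.cthickening δ J) w := by
      have hsub : range γ ⊆ B \ Metric.cthickening δ J := by
        rintro _ ⟨t, rfl⟩
        refine ⟨(hγ t).1, fun h => ?_⟩
        exact (Set.disjoint_left.1 hd) (Metric.self_subset_cthickening _ (mem_range_self t)) h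
      have hpre : IsPreconnected (range γ) := isPreconnected_range γ.continuous
      exact hpre.subset_connectedComponentIn ⟨0, γ.source⟩ hsub ⟨1, γ.target⟩
    have hWo : IsOpen (connectedComponentIn (B \ Metric.cthickening δ J) w) :=
      (hBo.sdiff Metric.isClosed_cthickening).connectedComponentIn
    exact ⟨_, mem_nhdsWithin_of_mem_nhds (hWo.mem_nhds hyW), δ, hδ, fun a _ h3 => hmono a δ h3⟩

end OUT

open OUT in
theorem t_OUT : S_OUT := by
  intro X _ _ hX B J N w hBo hBc hJc hJn hJB hBJ hwB hNo hJN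
  have := hX
  obtain ⟨ρ, hρ, hρs⟩ := hJc.exists_cthickening_subset_open (hBo.inter hNo) (subset_inter hJB hJN)
  have hJcl : IsClosed J := hJc.isClosed
  -- the frontier
  have hF : IsCompact (Metric.cthickening ρ J \ Metric.thickening ρ J) :=
    (Metric.isClosed_cthickening.sdiff Metric.isOpen_thickening).isCompact
  have hFB : Metric.cthickening ρ J \ Metric.thickening ρ J ⊆ B \ J := fun y hy =>
    ⟨(hρs hy.1).1, fun h => hy.2 (Metric.self_subset_thickening hρ J h)⟩
  obtain ⟨δ₁, hδ₁, h1⟩ := cover hBo hJcl hBJ hwB hF hFB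
  obtain ⟨δ₂, hδ₂, h2⟩ := cover hBo hJcl hBJ hwB (isCompact_singleton (x := w))
    (singleton_subset_iff.2 hwB)
  set δ : ℝ := min (ρ / 2) (min δ₁ δ₂) with hδdef
  have hδ : 0 < δ := lt_min (by positivity) (lt_min hδ₁ hδ₂)
  have hδρ : δ < ρ := lt_of_le_of_lt (min_le_left _ _) (by linarith)
  have hF1 := h1 δ hδ ((min_le_right _ _).trans (min_le_left _ _))
  have hwW : w ∈ connectedComponentIn (B \ Metric.cthickening δ J) w :=
    h2 δ hδ ((min_le_right _ _).trans (min_le_right _ _)) rfl
  set W : Set X := connectedComponentIn (B \ Metric.cthickening δ J) w with hW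
  have hOo : IsOpen (B \ Metric.cthickening δ J) := hBo.sdiff Metric.isClosed_cthickening
  have hWo : IsOpen W := hOo.connectedComponentIn
  have hWs : W ⊆ B \ Metric.cthickening δ J := connectedComponentIn_subset _ _
  have hwO : w ∈ B \ Metric.cthickening δ J := hWs hwW
  have hKU : Metric.cthickening δ J ⊆ Metric.thickening ρ J :=
    Metric.cthickening_subset_thickening' hρ hδρ J
  have key : B ⊆ W ∪ Metric.thickening ρ J := by
    apply sub_of_clopen hBc.isPreconnected (hWo.union Metric.isOpen_thickening)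
    · exact ⟨w, hwO.1, Or.inl hwW⟩
    · rintro z ⟨hz, hzB⟩
      by_cases hzb : z ∈ Metric.thickening ρ J
      · exact Or.inr hzb
      · left
        rw [closure_union] at hz
        rcases hz with hz | hz
        · exact closure_comp hOo hz ⟨hzB, fun h => hzb (hKU h)⟩
        · exact hF1 ⟨Metric.closure_thickening_subset_cthickening ρ J hz, hzb⟩
  have hdiff : B \ W = Metric.cthickening ρ J \ W := by
    apply Subset.antisymm
    · intro y hy
      exact ⟨Metric.thickening_subset_cthickening ρ J ((key hy.1).resolve_left hy.2), hy.2⟩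
    · intro y hy
      exact ⟨(hρs hy.1).1, hy.2⟩
  refine ⟨Metric.cthickening δ J, W, Metric.isClosed_cthickening.isCompact, ?_, ?_, hwW, hWo,
    isConnected_connectedComponentIn_iff.2 hwO, hWs, ?_, ?_, ?_⟩
  · exact (Metric.self_subset_thickening hδ J).trans (Metric.thickening_subset_interior_cthickening δ J)
  · exact (Metric.cthickening_mono hδρ.le J).trans hρs
  · rintro z ⟨hz, hzO⟩
    exact closure_comp hOo hz hzO
  · rw [hdiff]
    exact (Metric.isClosed_cthickening.sdiff hWo).isCompact
  · rw [hdiff]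
    exact fun y hy => (hρs hy.1).2

end BBH
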