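import Pool.Agent.BBH.StmtsB

/-!
# BBH, module PNT: the cohomology of a point
-/

set_option autoImplicit false

namespace BBH

open Set Topology

namespace PNT

variable {M X : Type} [AddCommGroup M] [MetricSpace X]

theorem small_cons {x : X} {ε : ℝ} (hε : 0 < ε) {l : List X} (hl : l ∈ Small ({x} : Set X) ε) :
    x :: l ∈ Small ({x} : Set X) ε := by
  have h1 : ∀ y ∈ l, dist y x < ε := by
    intro y hy
    obtain ⟨z, hz, hyz⟩ := Metric.mem_thickening_iff.1 (hl.1 y hy)
    rw [mem_singleton_iff.1 hz] at hyz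
    exact hyz
  refine ⟨fun y hy => ?_, fun y hy z hz => ?_⟩
  · rcases List.mem_cons.1 hy with rfl | hy
    · exact Metric.mem_thickening_iff.2 ⟨y, mem_singleton y, by rw [dist_self]; exact hε⟩
    · exact hl.1 y hy
  · rcases List.mem_cons.1 hy with hyx | hy
    · rcases List.mem_cons.1 hz with hzx | hz
      · rw [hyx, hzx, dist_self]
        exact hε
      · rw [hyx, dist_comm]
        exact h1 z hz
    · rcases List.mem_cons.1 hz with hzx | hz
      · rw [hzx]
        exact h1 y hy
      · exact hl.2 y hy z hz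

theorem van_point (x : X) {p : ℤ} (hp : 1 ≤ p) : Van M p ({x} : Set X) ∅ := by
  intro c hc
  obtain ⟨ε, hε, h⟩ := hc.cyc
  have hdeg : Dg X (p - 1) (sh c x) := by
    intro l hl
    obtain ⟨-, h2⟩ := hc.deg (x :: l) hl
    rw [List.length_cons] at h2
    push_cast at h2
    refine ⟨?_, by omega⟩
    rintro rfl
    rw [List.length_nil] at h2
    push_cast at h2
    omega
  refine ⟨sh c x, hdeg, Zr.empty hdeg, ε, hε, fun l hl => ?_⟩
  have h1 := h _ (small_cons hε hl)
  rw [dd_cons] at h1
  exact h1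

theorem point_zero (x : X) (c : Cc M X) (hc : Cyc 0 ({x} : Set X) ∅ c) :
    Zr ({x} : Set X) (c - c0 fun _ => c [x]) := by
  obtain ⟨ε, hε, h⟩ := hc.cyc
  refine ⟨ε, hε, fun l hl => ?_⟩
  rcases l with _ | ⟨y, _ | ⟨z, l⟩⟩
  · rw [Pi.sub_apply, c0_nil, sub_zero]
    exact hc.deg.nil
  · have h1 := h _ (small_cons hε hl)
    rw [dd_cons, dd_cons, sh_apply, dd_nil, sub_zero] at h1
    rw [Pi.sub_apply, c0_single]
    exact h1
  · rw [Pi.sub_apply, c0_two, sub_zero]
    by_contra h1
    have h2 := (hc.deg _ h1).2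
    simp only [List.length_cons] at h2
    push_cast at h2
    omega

end PNT

theorem t_PNT : S_PNT := by
  intro M X _ _ x
  exact ⟨fun p hp => PNT.van_point x hp, fun c hc => PNT.point_zero x c hc⟩

end BBH
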