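import Pool.Agent.BBH.StmtsB

/-!
# BBH, TRP: transport by a homeomorphism
-/

set_option autoImplicit false

namespace BBH

open Set Topology CTO

namespace TRP

variable {M X : Type} [AddCommGroup M] [MetricSpace X] [CompactSpace X]

lemma pm (h : X ≃ₜ X) (V : Set X) : PMap (h : X → X) univ (h ⁻¹' V)ᶜ univ Vᶜ :=
  PMap.of_continuous isCompact_univ h.continuous (subset_univ _) (mapsTo_univ _ _)
    (fun _ hx => hx)

lemma pms (h : X ≃ₜ X) (V : Set X) : PMap (h.symm : X → X) univ Vᶜ univ (h ⁻¹' V)ᶜ := by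
  refine PMap.of_continuous isCompact_univ h.symm.continuous (subset_univ _) (mapsTo_univ _ _)
    (fun x hx => ?_)
  intro hx'
  apply hx
  have h1 : h (h.symm x) ∈ V := hx'
  rwa [h.apply_symm_apply] at h1

omit [AddCommGroup M] [CompactSpace X] in
lemma back (h : X ≃ₜ X) (c : Cc M X) : pull h.symm (pull h c) = c := by
  rw [pull_pull]
  have h1 : (h : X → X) ∘ (h.symm : X → X) = id := by
    funext x
    exact h.apply_symm_apply x
  rw [h1, pull_id]

end TRP

theorem t_TRP : S_TRP := by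
  intro M X _ _ _ h p V c
  refine ⟨⟨fun hc => cyc_pull (TRP.pm h V) hc, fun hc => ?_⟩,
    ⟨fun hc => bd_pull (TRP.pm h V) hc, fun hc => ?_⟩⟩
  · have h1 := cyc_pull (TRP.pms h V) hc
    rwa [TRP.back] at h1
  · have h1 := bd_pull (TRP.pms h V) hc
    rwa [TRP.back] at h1

end BBH
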