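import Pool.Agent.BBH.StmtsB

/-!
# Compact sets with an injective continuous real function
-/

set_option autoImplicit false

namespace BBH

open Set Topology CTO

namespace VA1

variable {M X : Type} [AddCommGroup M] [MetricSpace X]

theorem bd_local {p : ℤ} {A : Set X} (hA : IsCompact A) {f : X → ℝ} (hf : ContinuousOn f A)
    {c : Cc M X} (t : ℝ) (h : Bd p (A ∩ f ⁻¹' {t}) ∅ c) :
    ∃ r > 0, Bd p (A ∩ f ⁻¹' Icc (t - r) (t + r)) ∅ c := by
  obtain ⟨b, hb, hb', h⟩ := h
  obtain ⟨r₀, hr₀, h1⟩ := h.nhds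
  have h2 : ∃ r > 0, A ∩ f ⁻¹' Icc (t - r) (t + r) ⊆ Metric.thickening r₀ (A ∩ f ⁻¹' {t}) := by
    set C : Set X := A \ Metric.thickening r₀ (A ∩ f ⁻¹' {t}) with hC
    have hCc : IsCompact C := hA.diff Metric.isOpen_thickening
    rcases C.eq_empty_or_nonempty with hCe | hCne
    · refine ⟨1, one_pos, fun x hx => ?_⟩
      by_contra h3
      have : x ∈ C := ⟨hx.1, h3⟩
      rw [hCe] at this
      exact this
    · obtain ⟨y, hy, hmin⟩ := hCc.exists_isMinOn hCne
        (f := fun x => |f x - t|) ((hf.mono sdiff_subset).sub continuousOn_const).abs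
      have hyt : 0 < |f y - t| := by
        rw [abs_pos, sub_ne_zero]
        intro h3
        exact hy.2 (Metric.self_subset_thickening hr₀ _ ⟨hy.1, h3⟩)
      refine ⟨|f y - t| / 2, by positivity, fun x hx => ?_⟩
      by_contra h3
      have h4 : |f y - t| ≤ |f x - t| := hmin (show x ∈ C from ⟨hx.1, h3⟩)
      have h5 : |f x - t| ≤ |f y - t| / 2 := by
        obtain ⟨h6, h7⟩ := hx.2
        rw [abs_le]
        constructor <;> linarith
      linarith
  obtain ⟨r, hr, h2⟩ := h2
  exact ⟨r, hr, b, hb, hb', h1 _ h2⟩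

theorem isCompact_slice {A : Set X} (hA : IsCompact A) {f : X → ℝ} (hf : ContinuousOn f A)
    {s : Set ℝ} (hs : IsClosed s) : IsCompact (A ∩ f ⁻¹' s) :=
  hA.of_isClosed_subset (hf.preimage_isClosed_of_isClosed hA.isClosed hs) inter_subset_left

omit [MetricSpace X] in
theorem dd_const (m : M) : dd (c0 fun _ : X => m) = 0 := by
  funext l
  rcases l with _ | ⟨x, _ | ⟨y, _ | ⟨z, l⟩⟩⟩
  · simp
  · simp
  · simp
  · by_contra h
    have h1 := ((Dg.c0 fun _ : X => m).dd _ h).2
    simp only [List.length_cons] at h1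
    push_cast at h1
    omega

/-- gluing along a point or the empty set -/
theorem glue (hP : S_PNT) (hM : S_MVC) {p : ℤ} (hp : 1 ≤ p) {A B : Set X} (hA : IsCompact A)
    (hB : IsClosed B) (hs : (A ∩ B).Subsingleton) {c : Cc M X} (h1 : Bd p A ∅ c)
    (h2 : Bd p B ∅ c) : Bd p (A ∪ B) ∅ c := by
  obtain ⟨e, he, key⟩ := hM M X p A B c hA hB h1 h2
  rcases hs.eq_empty_or_singleton with h | ⟨x, h⟩
  · refine key 0 0 Cyc.zero Cyc.zero ?_
    rw [h, sub_zero, sub_zero]
    exact Bd.of_Zr (Zr.empty he.deg)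
  · rw [h] at he key
    rcases hp.eq_or_lt with hp1 | hp1
    · have h0 : p - 1 = 0 := by omega
      rw [h0] at he key
      have hc : ∀ D : Set X, Cyc 0 D ∅ (c0 fun _ : X => e [x]) := fun D =>
        ⟨Dg.c0 _, Zr.empty (Dg.c0 _), by rw [dd_const]; exact Zr.zero _⟩
      refine key (c0 fun _ => e [x]) 0 (hc A) Cyc.zero ?_
      rw [sub_zero]
      exact Bd.of_Zr ((hP M X x).2 e he)
    · refine key 0 0 Cyc.zero Cyc.zero ?_
      rw [sub_zero, sub_zero]
      exact (hP M X x).1 (p - 1) (by omega) e he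

end VA1

open VA1 in
theorem t_VA1 : M_VA1 := by
  intro hP hM M X _ _ A f hA hf hinj p hp c hc
  have hsl : ∀ t, (A ∩ f ⁻¹' {t}).Subsingleton := by
    intro t x hx y hy
    have e1 : f x = t := hx.2
    have e2 : f y = t := hy.2
    exact hinj hx.1 hy.1 (e1.trans e2.symm)
  have h1 : ∀ t, Bd p (A ∩ f ⁻¹' {t}) ∅ c := by
    intro t
    rcases (hsl t).eq_empty_or_singleton with h | ⟨x, h⟩
    · rw [h]
      exact Bd.of_Zr (Zr.empty hc.deg)
    · have hx : {x} ⊆ A := by
        rw [← h]
        exact inter_subset_left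
      rw [h]
      exact (hP M X x).1 p hp c (hc.mono hx Subset.rfl)
  choose r hr hbd using fun t => bd_local hA hf t (h1 t)
  obtain ⟨R, hR⟩ := (hA.image_of_continuousOn hf).isBounded.subset_closedBall 0
  set a : ℝ := -(|R| + 1) with ha
  set b : ℝ := |R| + 1 with hb
  have hab : a < b := by
    have := abs_nonneg R
    rw [ha, hb]
    linarith
  have himg : ∀ x ∈ A, f x ∈ Icc a b := by
    intro x hx
    have h3 := hR (mem_image_of_mem f hx)
    rw [mem_closedBall_zero_iff, Real.norm_eq_abs] at h3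
    have h4 := le_abs_self R
    have h5 := abs_le.1 (h3.trans h4)
    exact ⟨by rw [ha]; linarith [h5.1], by rw [hb]; linarith [h5.2]⟩
  obtain ⟨δ, hδ, hleb⟩ := lebesgue_number_lemma_of_metric (isCompact_Icc (a := a) (b := b))
    (c := fun t : ℝ => Ioo (t - r t) (t + r t)) (fun t => isOpen_Ioo)
    (fun t _ => mem_iUnion.2 ⟨t, by constructor <;> linarith [hr t]⟩)
  obtain ⟨N, hN⟩ := exists_nat_gt ((b - a) / δ)
  have hN0 : (0 : ℝ) < N := lt_trans (div_pos (by linarith) hδ) hN
  set s : ℕ → ℝ := fun i => a + i * ((b - a) / N) with hs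
  have hstep : (b - a) / N < δ := by
    rw [div_lt_iff₀ hN0]
    rw [div_lt_iff₀ hδ] at hN
    linarith
  have hstep0 : 0 < (b - a) / N := div_pos (by linarith) hN0
  have hs0 : s 0 = a := by simp [hs]
  have hsN : s N = b := by
    simp only [hs]
    field_simp
    ring
  have hsucc : ∀ i, s (i + 1) = s i + (b - a) / N := by
    intro i
    simp only [hs]
    push_cast
    ring
  have hsmono : ∀ i, a ≤ s i := by
    intro i
    simp only [hs]
    have : 0 ≤ (i : ℝ) * ((b - a) / N) := by positivity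
    linarith
  have hsle : ∀ i, i ≤ N → s i ≤ b := by
    intro i hi
    rw [← hsN]
    simp only [hs]
    have : (i : ℝ) ≤ N := by exact_mod_cast hi
    have := mul_le_mul_of_nonneg_right this hstep0.le
    linarith
  have key : ∀ i, i ≤ N → Bd p (A ∩ f ⁻¹' Icc a (s i)) ∅ c := by
    intro i
    induction i with
    | zero =>
      intro _
      rw [hs0, Icc_self]
      exact h1 a
    | succ i ih =>
      intro hi
      have h3 := ih (by omega)
      have hsi : s i ∈ Icc a b := ⟨hsmono i, hsle i (by omega)⟩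
      obtain ⟨t, ht⟩ := hleb (s i) hsi
      have h4 : Bd p (A ∩ f ⁻¹' Icc (s i) (s (i + 1))) ∅ c := by
        refine (hbd t).mono (inter_subset_inter_right _ (preimage_mono ?_)) Subset.rfl
        intro y hy
        have h5 : y ∈ Metric.ball (s i) δ := by
          rw [Metric.mem_ball, Real.dist_eq, abs_of_nonneg (by linarith [hy.1])]
          have := hy.2
          rw [hsucc] at this
          linarith
        exact Ioo_subset_Icc_self (ht h5)
      have h5 : (A ∩ f ⁻¹' Icc a (s i)) ∩ (A ∩ f ⁻¹' Icc (s i) (s (i + 1))) ⊆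
          A ∩ f ⁻¹' {s i} := by
        rintro x ⟨⟨h6, -, h7⟩, -, h8, -⟩
        exact ⟨h6, le_antisymm h7 h8⟩
      have h6 : (A ∩ f ⁻¹' Icc a (s i)) ∪ (A ∩ f ⁻¹' Icc (s i) (s (i + 1))) =
          A ∩ f ⁻¹' Icc a (s (i + 1)) := by
        rw [← inter_union_distrib_left, ← preimage_union,
          Icc_union_Icc_eq_Icc (hsmono i) (by rw [hsucc]; linarith)]
      rw [← h6]
      exact glue hP hM hp (isCompact_slice hA hf isClosed_Icc)
        (isCompact_slice hA hf isClosed_Icc).isClosed ((hsl (s i)).anti h5) h3 h4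
  have h7 := key N le_rfl
  have h8 : A ∩ f ⁻¹' Icc a (s N) = A := by
    rw [hsN]
    exact inter_eq_left.2 himg
  rwa [h8] at h7

end BBH
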