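import Pool.Agent.BBH.StmtsC

/-!
# EXJ: exactness for a compact subset of an open set
-/

set_option autoImplicit false

namespace BBH

open Set Topology

namespace EXJ

theorem compl_diff_eq {X : Type} (B J : Set X) : (B \ J)ᶜ = Bᶜ ∪ J := by
  ext x
  simp only [mem_compl_iff, mem_diff, mem_union, not_and, not_not]
  by_cases h : x ∈ B <;> simp [h]

end EXJ

theorem t_EXJ : M_EXJ := by
  intro hcut M X _ _ _ p B J hB hJ hJB
  refine ⟨?_, ?_, ?_⟩
  · intro hV c hc hb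
    unfold CyO at hc
    unfold BdO at hb ⊢
    rw [EXJ.compl_diff_eq] at hc ⊢
    obtain ⟨b, hb1, hb2⟩ := les_left (subset_univ (Bᶜ ∪ J)) hc hb
    have hbJ : Cyc p J ∅ b := hb1.mono subset_union_right (empty_subset _)
    obtain ⟨f, hf1, _, hf3⟩ := hV b hbJ
    obtain ⟨f', hf'1, hf'2, hf'3, _⟩ := hcut M X (p - 1) f J B hJ.isClosed hB hJB hf1
    have h1 : Zr J (b - dd f') := by
      have h2 := hf3.add hf'3.dd
      rwa [dd_sub, sub_add_sub_cancel] at h2
    have h2 : Zr (Bᶜ ∪ J) (b - dd f') := (hb1.rel.sub hf'2.dd).union h1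
    have h3 : dd b = dd (b - dd f') := by rw [dd_sub, dd_dd, sub_zero]
    have h4 : Bd (p + 1) univ (Bᶜ ∪ J) (dd b) := by
      rw [h3]
      refine Bd.of_dd ?_ h2
      rw [add_sub_cancel_right]
      exact hb1.deg.sub hf'1.dd'
    exact Bd.of_sub hb2 h4
  · intro c hc hb
    obtain ⟨f, hf1, _, hf3⟩ := hb
    obtain ⟨f', hf'1, hf'2, hf'3, _⟩ := hcut M X (p - 1) f J B hJ.isClosed hB hJB hf1
    have h1 : Zr J (c - dd f') := by
      have h2 := hf3.add hf'3.dd
      rwa [dd_sub, sub_add_sub_cancel] at h2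
    refine ⟨c - dd f', ⟨hc.deg.sub hf'1.dd', ?_, ?_⟩, ?_⟩
    · rw [EXJ.compl_diff_eq]
      exact (hc.rel.sub hf'2.dd).union h1
    · rw [dd_sub, dd_dd, sub_zero]
      exact hc.cyc
    · rw [sub_sub_cancel]
      exact Bd.of_dd hf'1 hf'2
  · intro c hc
    obtain ⟨c', h1, h2, h3, _⟩ := hcut M X p c J B hJ.isClosed hB hJB hc.deg
    refine ⟨c', h1, h2, h3, ⟨h1.dd, ?_, ?_⟩, ?_⟩
    · rw [EXJ.compl_diff_eq]
      refine h2.dd.union ?_
      have h4 := hc.cyc.sub h3.dd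
      rwa [dd_sub, sub_sub_cancel] at h4
    · rw [dd_dd]
      exact Zr.zero _
    · refine Bd.of_dd ?_ h2
      rw [add_sub_cancel_right]
      exact h1

end BBH
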