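import Pool.Agent.BBH.StmtsC

/-!
# FDV: the top cohomology with compact supports of a connected open set is finite dimensional
-/

set_option autoImplicit false

namespace BBH

open Set Topology CTO

theorem t_FDV : M_FDV := by
  intro hFIO k X _ _ _ hX hSj V hV hVc
  obtain ⟨x₀, hx₀⟩ := hVc.nonempty
  obtain ⟨ε, hε, hεV⟩ := Metric.nhds_basis_closedBall.mem_iff.1 (hV.mem_nhds hx₀)
  have hcl : closure (Metric.ball x₀ ε) ⊆ V := Metric.closure_ball_subset_closedBall.trans hεV
  have hWV : Metric.ball x₀ ε ⊆ V := subset_closure.trans hcl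
  have hfg := hFIO.1 k k X hX 3 (Metric.ball x₀ ε) V Metric.isOpen_ball hV hcl hWV
  have htop : LinearMap.range (ext k k (p := 3) hWV) = ⊤ := by
    rw [LinearMap.range_eq_top]
    intro a
    obtain ⟨c, hc, rfl⟩ := cls_surj a
    obtain ⟨c', hc', hb⟩ := hSj V (Metric.ball x₀ ε) hV hVc Metric.isOpen_ball hWV
      ⟨x₀, Metric.mem_ball_self hε⟩ c hc
    refine ⟨cls k c' hc', ?_⟩
    have h1 : cls k c hc = cls k c' (CyO.mono hc' hWV) :=
      (cls_eq (R := k) hc (CyO.mono hc' hWV)).2 hb
    exact h1.symm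
  rw [htop] at hfg
  exact Module.finite_def.2 hfg

end BBH
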