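import Pool.Agent.BBH.StmtsC

/-!
# Module GEN: in the top degree the cohomology with compact supports is generated by small sets
-/

set_option autoImplicit false

namespace BBH

open Set Topology CTO

namespace GEN

variable {M X : Type} [AddCommGroup M] [MetricSpace X]

/-- finite unions of small sets -/
theorem finite_union (hD : S_DIM) (hM : S_MVO) [CompactSpace X] {n : ℕ} (hX : ShrLE X n)
    {V : Set X} {Q : Cc M X → Prop} (hadd : ∀ a b, Q a → Q b → Q (a + b))
    (hbd : ∀ c, CyO n V c → BdO n V c → Q c) (W : X → Set X) :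
    ∀ t : Finset X, (∀ y ∈ t, W y ⊆ V ∧ IsOpen (W y) ∧ ∀ c : Cc M X, CyO n (W y) c → Q c) →
      ∀ c : Cc M X, CyO n (⋃ y ∈ t, W y) c → Q c := by
  classical
  intro t
  induction t using Finset.induction_on with
  | empty =>
    intro _ c hc
    have h0 : (⋃ y ∈ (∅ : Finset X), W y) = ∅ := by simp
    rw [h0] at hc
    have hz : Zr univ c := by
      have h1 := hc.rel
      rwa [compl_empty] at h1
    exact hbd c (CyO.mono hc (empty_subset V)) (Bd.of_Zr hz)
  | insert a t ha ih =>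
    intro h c hc
    have e : (⋃ y ∈ insert a t, W y) = W a ∪ ⋃ y ∈ t, W y := by
      rw [Finset.set_biUnion_insert]
    rw [e] at hc
    obtain ⟨haV, hao, haQ⟩ := h a (Finset.mem_insert_self a t)
    have ht : ∀ y ∈ t, W y ⊆ V ∧ IsOpen (W y) ∧ ∀ c : Cc M X, CyO n (W y) c → Q c :=
      fun y hy => h y (Finset.mem_insert_of_mem hy)
    have hto : IsOpen (⋃ y ∈ t, W y) := isOpen_biUnion fun y hy => (ht y hy).2.1
    have htV : (⋃ y ∈ t, W y) ⊆ V := iUnion₂_subset fun y hy => (ht y hy).1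
    obtain ⟨c₁, c₂, h1, h2, h3⟩ := (hM M X n (W a) (⋃ y ∈ t, W y) hao hto).2.2.2.2 c hc
      (fun d hd => hD M X n hX ((n : ℤ) + 1) univ _ (lt_add_one _) (subset_univ _) d hd)
    have huV : W a ∪ (⋃ y ∈ t, W y) ⊆ V := union_subset haV htV
    have hr : Q (c - c₁ - c₂) := by
      refine hbd _ ?_ (BdO.mono h3 huV)
      exact Cyc.sub (Cyc.sub (CyO.mono hc huV) (CyO.mono h1 haV)) (CyO.mono h2 htV)
    have h4 := hadd _ _ (hadd _ _ hr (ih ht c₂ h2)) (haQ c₁ h1)
    have e2 : c - c₁ - c₂ + c₂ + c₁ = c := by abel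
    rwa [e2] at h4

end GEN

theorem t_GEN : M_GEN := by
  intro hD hM hN M X _ _ _ n hX V Q hV hadd hbd hloc c hc
  obtain ⟨W', hW'o, hW'V, hW'c⟩ := (hN M X c).1 V hV hc.rel
  choose! W hW using hloc
  have hcp : IsCompact (closure W') := isClosed_closure.isCompact
  obtain ⟨t, htV, ht⟩ := hcp.elim_nhds_subcover W
    (fun y hy => (hW y (hW'V hy)).2.1.mem_nhds (hW y (hW'V hy)).2.2.1)
  refine GEN.finite_union hD hM hX hadd hbd W t
    (fun y hy => ?_) c ?_
  · obtain ⟨h1, h2, -, h4⟩ := hW y (hW'V (htV y hy))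
    exact ⟨h1, h2, h4⟩
  · have h1 : CyO n W' c := ⟨hc.deg, hW'c, hc.cyc⟩
    exact CyO.mono h1 (subset_closure.trans ht)

end BBH
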