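import Pool.Agent.BBH.StmtsC

/-!
# BBH, GNB: good sets are not separated by points and arcs
-/

set_option autoImplicit false

namespace BBH

open Set Topology CTO

namespace GNB

/-- an open point has no cohomology with compact supports in degree three -/
theorem van_open_point (hP : S_PNT) (hC : S_CUT) {k X : Type} [Field k] [MetricSpace X]
    [CompactSpace X] {y : X} (hy : IsOpen ({y} : Set X)) : VanO k 3 ({y} : Set X) := by
  intro c hc
  have h1 : Cyc 3 ({y} : Set X) ∅ c :=
    ⟨hc.deg, hc.rel.anti (empty_subset _), hc.cyc.anti (subset_univ _)⟩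
  obtain ⟨f, hf1, -, hf3⟩ := (hP k X y).1 3 (by norm_num) c h1
  obtain ⟨f', hf1', hf2', hf3', -⟩ :=
    hC k X (3 - 1) f {y} {y} isClosed_singleton hy Subset.rfl hf1
  refine ⟨f', hf1', hf2', ?_⟩
  refine Zr.univ_of (V := {y}) ?_ ?_
  · have h2 : c - dd f' = (c - dd f) + dd (f - f') := by
      rw [dd_sub]
      abel
    rw [h2]
    exact hf3.add hf3'.dd
  · exact hc.rel.sub hf2'.dd

theorem good_sub {k X : Type} [Field k] [MetricSpace X] {B B' : Set X} (h : GB k B)
    (hB : B' ⊆ B) (ho : IsOpen B') (hc : IsConnected B') : GB k B' :=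
  ⟨ho, hc, fun V hV hVo hVn => h.2.2 V (hV.trans hB) hVo hVn⟩

end GNB

theorem t_GNB : M_GNB := by
  intro hP hC hA hN k X _ _ _ hS B hB
  refine ⟨hB.1, hB.2.1, fun B' hB' ho hc => ?_⟩
  have hG : GB k B' := GNB.good_sub hB hB' ho hc
  refine ⟨fun y hy => ⟨?_, ?_⟩, fun n A hAr hAB => ?_⟩
  · by_contra hne
    rw [Set.not_nonempty_iff_eq_empty] at hne
    have h1 : B' = {y} := Subset.antisymm (sdiff_eq_empty.1 hne) (singleton_subset_iff.2 hy)
    have h2 : IsOpen ({y} : Set X) := by rwa [← h1]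
    exact hG.2.2 {y} (singleton_subset_iff.2 hy) h2 (singleton_nonempty y)
      (GNB.van_open_point hP hC h2)
  · exact hN k X hS B' {y} hG isCompact_singleton (singleton_subset_iff.2 hy)
      ((hP k X y).1 2 (by norm_num))
  · choose α h1 h2 h3 using hAr
    have h4 : ∀ i, IsCompact (A i) := by
      intro i
      rw [h3 i]
      exact isCompact_Icc.image_of_continuousOn (h1 i)
    refine hN k X hS B' (⋃ i, A i) hG (isCompact_iUnion h4) hAB ?_
    exact hA.2.1 k X n A (fun i => α i 0) (fun i => α i 1)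
      (fun i => ⟨α i, h1 i, h2 i, rfl, rfl, h3 i⟩) 2 le_rfl

end BBH
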