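import Pool.Agent.BBH.StmtsC

/-!
# BBH, HAR: Hartogs
-/

set_option autoImplicit false

namespace BBH

open Set Topology CTO

namespace HAR

/-- an antitone sequence of natural numbers attains its minimum -/
theorem exists_min (f : ℕ → ℕ) : ∃ i, ∀ j, f i ≤ f j := by
  obtain ⟨i, hi⟩ := WellFounded.has_min (measure f).wf (univ : Set ℕ) ⟨0, mem_univ 0⟩
  exact ⟨i, fun j => not_lt.1 (hi.2 j (mem_univ j))⟩

theorem ext_surj {k X : Type} [Field k] [MetricSpace X] (hS : Sj k X) {V W : Set X}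
    (hV : IsOpen V) (hVc : IsConnected V) (hW : IsOpen W) (hWn : W.Nonempty) (h : W ⊆ V) :
    Function.Surjective (ext k k (p := 3) h) := by
  intro a
  obtain ⟨c, hc, rfl⟩ := cls_surj a
  obtain ⟨c', hc', hb⟩ := hS V W hV hVc hW h hWn c hc
  refine ⟨cls k c' hc', ?_⟩
  rw [ext_cls]
  have h1 : CyO 3 V c' := hc'.mono h
  exact (cls_eq (R := k) h1 hc).2 (Bd.symm hb)

end HAR

theorem t_HAR : M_HAR := by
  intro hF hO hL hE hN hP k X _ _ _ hX hS B N x hG hGN hxB hNo hxN
  have hBo : IsOpen B := hG.1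
  have hBc : IsConnected B := hG.2.1
  have hBx : IsConnected (B \ {x}) := (hGN.2.2 B Subset.rfl hBo hBc).1 x hxB
  obtain ⟨W, hWm, hWo, hWc, hWU, hWK, hWN, hWi⟩ :=
    hO X (hL X hX).1 B N x hBo hBc hxB hBx hNo hxN
  have hfin : ∀ i, Module.Finite k (HO k k 3 (W i)) := fun i => hF k X hX hS (W i) (hWo i) (hWc i)
  have hsurj : ∀ i j (hij : i ≤ j), Function.Surjective (ext k k (p := 3) (hWm hij)) :=
    fun i j hij => HAR.ext_surj hS (hWo j) (hWc j) (hWo i) (hWc i).nonempty (hWm hij)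
  obtain ⟨i₀, hi₀⟩ := HAR.exists_min (fun i => Module.finrank k (HO k k 3 (W i)))
  have hinj : ∀ j (hij : i₀ ≤ j), Function.Injective (ext k k (p := 3) (hWm hij)) := by
    intro j hij
    have h1 := hfin i₀
    have h2 := hfin j
    have h3 : Module.finrank k (HO k k 3 (W j)) ≤ Module.finrank k (HO k k 3 (W i₀)) :=
      LinearMap.finrank_le_finrank_of_surjective (hsurj i₀ j hij)
    have h4 : Module.finrank k (HO k k 3 (W i₀)) = Module.finrank k (HO k k 3 (W j)) :=
      le_antisymm (hi₀ j) h3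
    exact (LinearMap.injective_iff_surjective_of_finrank_eq_finrank h4).2 (hsurj i₀ j hij)
  have hWB : ∀ i, W i ⊆ B \ {x} := by
    intro i
    rw [← hWU]
    exact subset_iUnion W i
  have hD : B \ (B \ W i₀) = W i₀ := by
    rw [sdiff_sdiff_cancel_left]
    exact (hWB i₀).trans sdiff_subset
  refine ⟨B \ W i₀, hWK i₀, subset_inter sdiff_subset (hWN i₀), hWi i₀, ?_, ?_⟩
  · rw [hD]
    exact hWc i₀
  · intro c hc hb
    rw [hD] at hc ⊢
    have h23 : (2 : ℤ) + 1 = 3 := by norm_num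
    have hcx : CyO (2 + 1) (B \ {x}) c := by
      rw [h23]
      exact hc.mono (hWB i₀)
    have hbx : BdO (2 + 1) (B \ {x}) c := by
      refine (hE k X 2 B {x} hBo isCompact_singleton (singleton_subset_iff.2 hxB)).1
        ((hP k X x).1 2 (by norm_num)) c hcx ?_
      rw [h23]
      exact hb
    rw [h23] at hbx
    obtain ⟨b, hb1, hb2, hb3⟩ := hbx
    rw [← hWU] at hb2
    obtain ⟨i, hi⟩ := (hN k X b).2.1 W hWm hWo hb2
    have hle : i₀ ≤ max i i₀ := le_max_right _ _
    have hbj : BdO 3 (W (max i i₀)) c :=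
      ⟨b, hb1, hi.anti (compl_subset_compl.2 (hWm (le_max_left i i₀))), hb3⟩
    have h5 : ext k k (p := 3) (hWm hle) (cls k c hc) = 0 := by
      rw [ext_cls]
      have h6 : CyO 3 (W (max i i₀)) c := hc.mono (hWm hle)
      exact (cls_eq_zero (R := k) h6).2 hbj
    have h7 : cls k c hc = 0 := by
      apply hinj _ hle
      rw [h5, map_zero]
    exact (cls_eq_zero (R := k) hc).1 h7

end BBH
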