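import Pool.Agent.BBH.StmtsC

/-!
# Module HAS: vanishing of the cohomology of `D` in degree two
-/

set_option autoImplicit false

namespace BBH

open Set Topology

theorem t_HAS : M_HAS := by
  intro hE M X _ _ _ B B' D hB _ hD hDB h1 h2 c hc
  have h23 : (2 : ℤ) + 1 = 3 := by norm_num
  obtain ⟨c', hc'd, hc'B, hc'D, hc'c, hc'b⟩ := (hE M X 2 B D hB hD hDB).2.2 c hc
  rw [h23] at hc'c hc'b
  obtain ⟨e, he1, he2, he3⟩ := h1 (dd c') hc'c hc'b
  have h31 : (3 : ℤ) - 1 = 2 := by norm_num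
  rw [h31] at he1
  have hBc : Bᶜ ⊆ (B \ D)ᶜ := compl_subset_compl.2 sdiff_subset
  have hDc : D ⊆ (B \ D)ᶜ := fun x hx hx' => hx'.2 hx
  have hcy : CyO 2 B (c' - e) := by
    refine ⟨hc'd.sub he1, hc'B.sub (he2.anti hBc), ?_⟩
    rw [dd_sub]
    exact he3
  obtain ⟨f, hf1, _, hf3⟩ := h2 (c' - e) hcy
  refine ⟨f, hf1, Zr.empty hf1, ?_⟩
  have h4 : c - dd f = (c - c') + (c' - e - dd f) + e := by abel
  rw [h4]
  exact (hc'D.add (hf3.anti (subset_univ D))).add (he2.anti hDc)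

end BBH
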