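import Pool.Agent.BBH.StmtsC

/-!
# Module NSB: compact sets without cohomology in degree two do not separate good sets
-/

set_option autoImplicit false

namespace BBH

open Set Topology

theorem t_NSB : M_NSB := by
  intro hE hM k X _ _ _ hS B J hB hJ hJB hV
  obtain ⟨hBo, hBc, hBn⟩ := hB
  have hso : IsOpen (B \ J) := hBo.sdiff hJ.isClosed
  intro u v hu hv hsub hsu hsv
  by_contra hne
  rw [Set.not_nonempty_iff_eq_empty] at hne
  have hPo : IsOpen ((B \ J) ∩ u) := hso.inter hu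
  have hQo : IsOpen ((B \ J) ∩ v) := hso.inter hv
  have hPs : (B \ J) ∩ u ⊆ B \ J := inter_subset_left
  have hQs : (B \ J) ∩ v ⊆ B \ J := inter_subset_left
  have hsB : B \ J ⊆ B := fun x hx => hx.1
  have hPQ : (B \ J) ∩ u ∩ ((B \ J) ∩ v) = ∅ := by
    rw [← hne]
    ext x
    constructor
    · rintro ⟨⟨h1, h2⟩, -, h3⟩
      exact ⟨h1, h2, h3⟩
    · rintro ⟨h1, h2, h3⟩
      exact ⟨⟨h1, h2⟩, h1, h3⟩
  have hun : (B \ J) ∩ u ∪ (B \ J) ∩ v = B \ J := by
    rw [← inter_union_distrib_left]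
    exact inter_eq_left.2 hsub
  have hnB := hBn B Subset.rfl hBo hBc.nonempty
  unfold VanO at hnB
  push Not at hnB
  obtain ⟨z, hz, hz'⟩ := hnB
  obtain ⟨a, ha, haz⟩ := hS B _ hBo hBc hPo (hPs.trans hsB) hsu z hz
  obtain ⟨b, hb, hbz⟩ := hS B _ hBo hBc hQo (hQs.trans hsB) hsv z hz
  have hab : BdO 3 B (a - b) := by
    have h1 : BdO 3 B (z - b - (z - a)) := Bd.sub hbz haz
    have e : z - b - (z - a) = a - b := by abel
    rwa [e] at h1
  have h21 : (2 : ℤ) + 1 = 3 := by norm_num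
  have h2 := (hE k X 2 B J hBo hJ hJB).1 hV (a - b)
  rw [h21] at h2
  have hcy : CyO 3 (B \ J) (a - b) := Cyc.sub (CyO.mono ha hPs) (CyO.mono hb hQs)
  have h3 := h2 hcy hab
  obtain ⟨e, he, he1, -⟩ := (hM k X 3 _ _ hPo hQo).2.2.2.1 a (-b) ha (Cyc.neg hb) (by
    rw [hun, ← sub_eq_add_neg]
    exact h3)
  have heZ : Zr univ e := by
    have h4 := he.rel
    rwa [hPQ, compl_empty] at h4
  have h5 : BdO 3 ((B \ J) ∩ u) a := Bd.of_sub he1 (BdO.of_Zr heZ)
  have h6 : BdO 3 B a := BdO.mono h5 (hPs.trans hsB)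
  exact hz' (Bd.of_sub haz h6)

end BBH
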