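import Pool.Agent.BBH.StmtsC

/-!
# Module NZA: nonvanishing local groups
-/

set_option autoImplicit false

namespace BBH

open Set Topology CTO

theorem t_NZA : M_NZA := by
  intro hGEN hTRP k X _ _ _ hhom hshr hV
  obtain ⟨V, hVo, hVn⟩ := hV
  have h1 : ∃ y ∈ V, NZat k y := by
    by_contra hcon
    push Not at hcon
    apply hVn
    have h2 : ∀ y ∈ V, ∃ W ⊆ V, IsOpen W ∧ y ∈ W ∧ ∀ c : Cc k X, CyO ((3 : ℕ) : ℤ) W c →
        BdO (3 : ℤ) V c := by
      intro y hy
      have h3 := hcon y hy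
      unfold NZat at h3
      push Not at h3
      obtain ⟨W, hWV, hWo, hyW, hW⟩ := h3 V hVo hy
      exact ⟨W, hWV, hWo, hyW, fun c hc => (hW c hc).mono hWV⟩
    have h4 := hGEN k X 3 hshr V (fun c => BdO (3 : ℤ) V c) hVo (fun a b ha hb => Bd.add ha hb)
      (fun c _ hb => hb) h2
    exact fun c hc => h4 c hc
  obtain ⟨y, hyV, U, hUo, hyU, hU⟩ := h1
  intro x
  obtain ⟨h, hh⟩ := hhom x y
  refine ⟨h ⁻¹' U, hUo.preimage h.continuous, ?_, ?_⟩
  · change h x ∈ U
    rw [hh]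
    exact hyU
  · intro V' hV'U hV'o hxV' hvan
    have hpre : h ⁻¹' (h.symm ⁻¹' V') = V' := by
      ext z
      simp
    apply hU (h.symm ⁻¹' V') ?_ (hV'o.preimage h.symm.continuous) ?_
    · intro c hc
      have h5 := hTRP k X h 3 (h.symm ⁻¹' V') c
      rw [hpre] at h5
      exact h5.2.2 (hvan _ (h5.1.1 hc))
    · intro z hz
      have h6 : h (h.symm z) ∈ U := hV'U hz
      rwa [h.apply_symm_apply] at h6
    · change h.symm y ∈ V'
      rw [← hh, h.symm_apply_apply]
      exact hxV'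

end BBH
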