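import Pool.Agent.BBH.StmtsC

/-!
# Module NZB: good sets exist
-/

set_option autoImplicit false

namespace BBH

open Set Topology CTO

theorem t_NZB : S_NZB := by
  intro k X _ _ _ hLPC hSj hNZ x N hN hxN
  obtain ⟨U, hUo, hxU, hU⟩ := hNZ x
  have hUN : IsOpen (U ∩ N) := hUo.inter hN
  have hxUN : x ∈ U ∩ N := ⟨hxU, hxN⟩
  have hBo : IsOpen (connectedComponentIn (U ∩ N) x) := hUN.connectedComponentIn
  have hxB : x ∈ connectedComponentIn (U ∩ N) x := mem_connectedComponentIn hxUN
  have hBs : connectedComponentIn (U ∩ N) x ⊆ U ∩ N := connectedComponentIn_subset _ _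
  have hBc : IsConnected (connectedComponentIn (U ∩ N) x) :=
    isConnected_connectedComponentIn_iff.2 hxUN
  refine ⟨connectedComponentIn (U ∩ N) x, fun y hy => (hBs hy).2, hxB, hBo, hBc, ?_⟩
  intro V hVB hVo hVn hvan
  refine hU _ (fun y hy => (hBs hy).1) hBo hxB ?_
  intro c hc
  obtain ⟨c', hc', hcc⟩ := hSj _ V hBo hBc hVo hVB hVn c hc
  have h1 : BdO 3 (connectedComponentIn (U ∩ N) x) c' := (hvan c' hc').mono hVB
  have h2 := hcc.add h1
  rwa [sub_add_cancel] at h2

end BBH
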