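import Pool.Agent.BBH.StmtsC

/-!
# Module SRJ: surjectivity in degree three
-/

set_option autoImplicit false

namespace BBH

open Set Topology CTO

/-- SRJ -/
theorem t_SRJ : M_SRJ := by
  intro hUC hGEN k X _ _ _ _ hX hH hS V W hV hVc hW hWV hWne c hc
  by_contra hcon
  have hx : cls k c hc ∉ LinearMap.range (ext k k (p := 3) hWV) := by
    rintro ⟨a, ha⟩
    obtain ⟨c', h', rfl⟩ := cls_surj a
    refine hcon ⟨c', h', ?_⟩
    have h1 : cls k c' (CyO.mono h' hWV) = cls k c hc := ha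
    exact (cls_eq (R := k) hc (CyO.mono h' hWV)).1 h1.symm
  obtain ⟨φ, hφ, hker⟩ := Submodule.exists_le_ker_of_notMem hx
  obtain ⟨s, hK, hs⟩ := exists_total φ
  have hW0 : ∀ e, CyO 3 W e → s e = 0 := by
    intro e he
    rw [hs e (CyO.mono he hWV)]
    exact hker ⟨cls k e he, rfl⟩
  obtain ⟨y₀, hy₀⟩ := hWne
  have hZ : ∀ y ∈ V, Zg 3 s y := hUC k X hX hH 3 V s hV hVc.isPreconnected hK
    ⟨y₀, hWV hy₀, W, hW, hy₀, hW0⟩
  have h0 : s c = 0 := by
    refine hGEN k X 3 hS V (fun e => s e = 0) hV ?_ ?_ ?_ c hc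
    · intro a b ha hb
      show s (a + b) = 0
      rw [map_add, ha, hb, add_zero]
    · intro e he hb
      exact hK e he hb
    · intro y hy
      obtain ⟨W', hW', hyW', h⟩ := hZ y hy
      exact ⟨W' ∩ V, inter_subset_right, hW'.inter hV, ⟨hyW', hy⟩,
        fun e he => h e (CyO.mono he inter_subset_left)⟩
  rw [hs c hc] at h0
  exact hφ h0

end BBH
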