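import Pool.Agent.BBH.StmtsC

/-!
# Module UC: unique continuation
-/

set_option autoImplicit false

namespace BBH

open Set Topology CTO

/-- UC -/
theorem t_UC : M_UC := by
  intro hA hB k X _ _ _ _ hX hH p V s hV hVc hK hex y hy
  have : Nonempty X := ⟨y⟩
  have hU : ∀ z : X, UCat k p z := hB k X hH p (hA k X hX p)
  by_contra hn
  obtain ⟨y₀, hy₀, hz₀⟩ := hex
  have o1 : IsOpen {z : X | Zg p s z} := by
    rw [isOpen_iff_mem_nhds]
    rintro z ⟨W, hW, hzW, h⟩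
    exact Filter.mem_of_superset (hW.mem_nhds hzW) fun z' hz' => ⟨W, hW, hz', h⟩
  have o2 : IsOpen {z : X | z ∈ V ∧ ¬ Zg p s z} := by
    rw [isOpen_iff_mem_nhds]
    rintro z ⟨hzV, hz⟩
    obtain ⟨W, hW, hzW, h⟩ := hU z V s hV hzV hK hz
    exact Filter.mem_of_superset ((hW.inter hV).mem_nhds ⟨hzW, hzV⟩)
      fun z' hz' => ⟨hz'.2, h z' hz'.1⟩
  obtain ⟨z, _, hz1, hz2⟩ := hVc _ _ o1 o2
    (fun z hz => by
      by_cases h : Zg p s z
      · exact Or.inl h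
      · exact Or.inr ⟨hz, h⟩)
    ⟨y₀, hy₀, hz₀⟩ ⟨y, hy, hy, hn⟩
  exact hz2.2 hz1

end BBH
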