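import Pool.Agent.BBH.StmtsC

/-!
# Module UCA: unique continuation at some point
-/

set_option autoImplicit false

namespace BBH

open Set Topology CTO

namespace UCA

variable {k X : Type} [Field k] [MetricSpace X]

/-- the points of `i` with nonzero germ, for a functional on `H^p_c(i)` -/
def NN (p : ℤ) (i : Set X) (θ : HO k k p i →ₗ[k] k) : Set X :=
  {y | y ∈ i ∧ ∀ (W : Set X) (hW : W ⊆ i), IsOpen W → y ∈ W →
    ∃ (c : Cc k X) (h : CyO p W c), θ (cls k c (CyO.mono h hW)) ≠ 0}

/-- the closed sets of points with nonzero germs, for functionals on the range of the extension -/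
def EE (k : Type) {X : Type} [Field k] [MetricSpace X] (p : ℤ) (i j : Set X) : Set (Set X) :=
  ⋃ h : i ⊆ j, range fun ψ : LinearMap.range (ext k k (p := p) h) →ₗ[k] k =>
    closure (NN p i (ψ ∘ₗ (ext k k (p := p) h).rangeRestrict))

theorem countable_dual {R : Type} [AddCommGroup R] [Module k R] [Countable k]
    [Module.Finite k R] : Countable (R →ₗ[k] k) := by
  have hinj : Function.Injective (fun (ψ : R →ₗ[k] k) (m : Fin (Module.finrank k R)) =>
      ψ (Module.finBasis k R m)) := by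
    intro ψ ψ' h
    exact (Module.finBasis k R).ext fun m => congrFun h m
  exact hinj.countable

theorem countable_EE [Countable k] {p : ℤ} {i j : Set X}
    (hfg : ∀ h : i ⊆ j, (LinearMap.range (ext k k (p := p) h)).FG) :
    (EE k p i j).Countable := by
  refine countable_iUnion fun h => ?_
  have : Module.Finite k (LinearMap.range (ext k k (p := p) h)) := Module.Finite.iff_fg.2 (hfg h)
  have := countable_dual (k := k) (R := LinearMap.range (ext k k (p := p) h))
  exact countable_range _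

theorem closed_EE {p : ℤ} {i j E : Set X} (hE : E ∈ EE k p i j) : IsClosed E := by
  simp only [EE, mem_iUnion, mem_range] at hE
  obtain ⟨_, _, rfl⟩ := hE
  exact isClosed_closure

theorem mem_EE {p : ℤ} {i j : Set X} (hi : IsOpen i) (hij : i ⊆ j) {s : Cc k X →ₗ[k] k}
    (hs : Kil p j s) : closure {y | y ∈ i ∧ ¬ Zg p s y} ∈ EE k p i j := by
  obtain ⟨φ, hφ⟩ := exists_fun hs
  simp only [EE, mem_iUnion, mem_range]
  refine ⟨hij, φ ∘ₗ (LinearMap.range (ext k k (p := p) hij)).subtype, ?_⟩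
  congr 1
  have key : ∀ (W : Set X) (hW : W ⊆ i) (c : Cc k X) (h : CyO p W c),
      ((φ ∘ₗ (LinearMap.range (ext k k (p := p) hij)).subtype) ∘ₗ
        (ext k k (p := p) hij).rangeRestrict) (cls k c (CyO.mono h hW)) = s c := by
    intro W hW c h
    exact hφ c (CyO.mono h (hW.trans hij))
  ext y
  constructor
  · rintro ⟨hy, h⟩
    refine ⟨hy, ?_⟩
    rintro ⟨W, hWo, hyW, hz⟩
    obtain ⟨c, hc, hne⟩ := h (W ∩ i) inter_subset_right (hWo.inter hi) ⟨hyW, hy⟩
    rw [key (W ∩ i) inter_subset_right c hc] at hne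
    exact hne (hz c (CyO.mono hc inter_subset_left))
  · rintro ⟨hy, h⟩
    refine ⟨hy, fun W hW hWo hyW => ?_⟩
    by_contra hcon
    push Not at hcon
    refine h ⟨W, hWo, hyW, fun c hc => ?_⟩
    have := hcon c hc
    rwa [key W hW c hc] at this

theorem isOpen_Zg (p : ℤ) (s : Cc k X →ₗ[k] k) : IsOpen {y | Zg p s y} := by
  rw [isOpen_iff_forall_mem_open]
  rintro y ⟨W, hW, hyW, hz⟩
  exact ⟨W, fun z hz' => ⟨W, hW, hz', hz⟩, hW, hyW⟩

end UCA

theorem t_UCA : M_UCA := by
  intro hFIO k X _ _ _ _ _ hX p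
  obtain ⟨b, hbc, -, hb⟩ := TopologicalSpace.exists_countable_basis X
  set S : Set (Set X) := ⋃ i ∈ b, ⋃ j ∈ b, ⋃ _ : closure i ⊆ j, UCA.EE k p i j with hS
  have hSc : S.Countable := by
    refine hbc.biUnion fun i hi => hbc.biUnion fun j hj => countable_iUnion fun h => ?_
    exact UCA.countable_EE fun hij => hFIO.1 k k X hX p i j (hb.isOpen hi) (hb.isOpen hj) h hij
  have hcl : ∀ E ∈ S, IsClosed E := by
    intro E hE
    simp only [hS, mem_iUnion] at hE
    obtain ⟨i, _, j, _, _, hE⟩ := hE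
    exact UCA.closed_EE hE
  have hd : Dense (⋂ E ∈ S, (frontier E)ᶜ) := by
    refine dense_biInter_of_isOpen (fun E _ => isClosed_frontier.isOpen_compl) hSc fun E hE => ?_
    rw [← interior_eq_empty_iff_dense_compl]
    exact interior_frontier (hcl E hE)
  obtain ⟨x, hx⟩ := hd.nonempty
  simp only [mem_iInter, mem_compl_iff] at hx
  refine ⟨x, fun V s hV hxV hs hZ => ?_⟩
  obtain ⟨j, hj, hxj, hjV⟩ := hb.exists_subset_of_mem_open hxV hV
  obtain ⟨i, hi, hxi, hij⟩ := hb.exists_closure_subset ((hb.isOpen hj).mem_nhds hxj)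
  have hio := hb.isOpen hi
  set E : Set X := closure {y | y ∈ i ∧ ¬ Zg p s y} with hE
  have hES : E ∈ S := by
    simp only [hS, mem_iUnion]
    exact ⟨i, hi, j, hj, hij, UCA.mem_EE hio (subset_closure.trans hij) (hs.mono hjV)⟩
  have hxE : x ∈ E := subset_closure ⟨hxi, hZ⟩
  have hxint : x ∈ interior E := by
    by_contra hcon
    exact hx E hES ⟨subset_closure hxE, hcon⟩
  refine ⟨interior E, isOpen_interior, hxint, fun y hy hz => ?_⟩
  have hyE : y ∈ closure {y | y ∈ i ∧ ¬ Zg p s y} := interior_subset hy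
  obtain ⟨w, hw1, hw2⟩ := mem_closure_iff.1 hyE _ (UCA.isOpen_Zg p s) hz
  exact hw2.2 hw1

end BBH
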