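import Pool.Agent.BBH.StmtsC

/-!
# UCB: transport of unique continuation
-/

set_option autoImplicit false

namespace BBH

open Set Topology CTO

noncomputable section

namespace UCB

variable {k X : Type} [Field k] [MetricSpace X]

/-- the transported functional -/
def tr (h : X ≃ₜ X) (s : Cc k X →ₗ[k] k) : Cc k X →ₗ[k] k where
  toFun c := s (pull h.symm c)
  map_add' a b := by
    rw [← map_add]
    rfl
  map_smul' r a := by
    rw [RingHom.id_apply, ← map_smul]
    rfl

theorem tr_apply (h : X ≃ₜ X) (s : Cc k X →ₗ[k] k) (c : Cc k X) : tr h s c = s (pull h.symm c) :=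
  rfl

theorem pre1 (h : X ≃ₜ X) (V : Set X) : h.symm ⁻¹' (h ⁻¹' V) = V := by
  ext z
  simp

theorem pre2 (h : X ≃ₜ X) (V : Set X) : h ⁻¹' (h.symm ⁻¹' V) = V := by
  ext z
  simp

omit [Field k] in
theorem pull_symm (h : X ≃ₜ X) (c : Cc k X) : pull h.symm (pull h c) = c := by
  funext l
  rw [pull_apply, pull_apply, List.map_map]
  have e : (h : X → X) ∘ (h.symm : X → X) = id := by
    funext z
    simp
  rw [e, List.map_id]

end UCB

open UCB in
theorem t_UCB : M_UCB := by
  intro hT k X _ _ _ hH p hx y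
  obtain ⟨x, hx⟩ := hx
  obtain ⟨h, rfl⟩ := hH x y
  intro V s hV hyV hK hZ
  -- the transported functional kills coboundaries
  have key : ∀ (W : Set X) (c : Cc k X), CyO p (h ⁻¹' W) c → CyO p W (pull h.symm c) := by
    intro W c hc
    have h1 := ((hT k X h.symm p (h ⁻¹' W) c).1).1 hc
    rwa [pre1] at h1
  have key2 : ∀ (W : Set X) (c : Cc k X), BdO p (h ⁻¹' W) c → BdO p W (pull h.symm c) := by
    intro W c hc
    have h1 := ((hT k X h.symm p (h ⁻¹' W) c).2).1 hc
    rwa [pre1] at h1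
  have hK' : Kil p (h ⁻¹' V) (tr h s) := fun c hc hb => hK _ (key V c hc) (key2 V c hb)
  have z1 : ∀ z, Zg p (tr h s) z → Zg p s (h z) := by
    rintro z ⟨W, hW, hz, hc⟩
    refine ⟨h.symm ⁻¹' W, hW.preimage h.symm.continuous, by simpa using hz, fun c hcy => ?_⟩
    have h2 := ((hT k X h p (h.symm ⁻¹' W) c).1).1 hcy
    rw [pre2] at h2
    have h3 := hc _ h2
    rwa [tr_apply, pull_symm] at h3
  have z2 : ∀ z, Zg p s (h z) → Zg p (tr h s) z := by
    rintro z ⟨W, hW, hz, hc⟩
    exact ⟨h ⁻¹' W, hW.preimage h.continuous, hz, fun c hcy => hc _ (key W c hcy)⟩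
  obtain ⟨W, hW, hxW, hno⟩ := hx (h ⁻¹' V) (tr h s) (hV.preimage h.continuous) hyV hK'
    fun hz => hZ (z1 x hz)
  refine ⟨h.symm ⁻¹' W, hW.preimage h.symm.continuous, by simpa using hxW, fun w hw hz => ?_⟩
  refine hno (h.symm w) hw (z2 _ ?_)
  simpa using hz

end

end BBH
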