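import Mathlib

/-!
# BBH: Alexander-Spanier cohomology with coefficients, the core

Total cochains on `X` with values in the abelian group `M` are functions `List X → M`; a cochain of degree `p : ℤ` is
supported on the nonempty lists of length `p + 1`.  The coboundary `dd`, the cup product and the prism operator are defined
by recursion.  `Z A` is the set of the cochains that vanish on all small lists near `A`.  The cohomology
`H^p(A, B)` is `{c ∈ Dg p ∩ Z B : dd c ∈ Z A} / (dd (Dg (p-1) ∩ Z B) + Z A)`; predicates `Cyc` and `Bd`.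
(Adapted from `Pool/Agent/VC/Core.lean`, where the coefficients are `ZMod 2`.)
-/

set_option autoImplicit false
set_option linter.unusedSectionVars false
set_option linter.unusedSimpArgs false

namespace BBH

open Set Filter Topology

/-- total cochains -/
abbrev Cc (M X : Type) := List X → M

section algebra

variable {M X Y V : Type} [AddCommGroup M]

/-- the cochain `l ↦ c (x :: l)` -/
def sh {M X : Type} (c : Cc M X) (x : X) : Cc M X := fun l => c (x :: l)

/-- the coboundary -/
def dd : Cc M X → Cc M X
  | _, [] => 0
  | c, x :: l => c l - dd (sh c x) l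
termination_by _ l => l.length

/-- pull back of cochains -/
def pull {M X Y : Type} (f : X → Y) (c : Cc M Y) : Cc M X := fun l => c (l.map f)

/-- the prism operator of two maps -/
def pr (f g : X → Y) : Cc M Y → Cc M X
  | _, [] => 0
  | c, x :: l => c (f x :: g x :: l.map g) - pr f g (sh c (f x)) l
termination_by _ l => l.length

@[simp] theorem sh_apply (c : Cc M X) (x : X) (l : List X) : sh c x l = c (x :: l) := rfl
@[simp] theorem sh_add (c e : Cc M X) (x : X) : sh (c + e) x = sh c x + sh e x := rfl
@[simp] theorem sh_sub (c e : Cc M X) (x : X) : sh (c - e) x = sh c x - sh e x := rfl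
@[simp] theorem sh_neg (c : Cc M X) (x : X) : sh (-c) x = -sh c x := rfl
@[simp] theorem sh_zero (x : X) : sh (0 : Cc M X) x = 0 := rfl

@[simp] theorem dd_nil (c : Cc M X) : dd c [] = 0 := by rw [dd]
@[simp] theorem dd_cons (c : Cc M X) (x : X) (l : List X) :
    dd c (x :: l) = c l - dd (sh c x) l := by rw [dd]
@[simp] theorem pr_nil (f g : X → Y) (c : Cc M Y) : pr f g c [] = 0 := by rw [pr]
@[simp] theorem pr_cons (f g : X → Y) (c : Cc M Y) (x : X) (l : List X) :
    pr f g c (x :: l) = c (f x :: g x :: l.map g) - pr f g (sh c (f x)) l := by rw [pr]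
@[simp] theorem pull_apply {M X Y : Type} (f : X → Y) (c : Cc M Y) (l : List X) :
    pull f c l = c (l.map f) := rfl

/-! ### Linearity -/

theorem dd_add_apply (c e : Cc M X) (l : List X) : dd (c + e) l = dd c l + dd e l := by
  induction l generalizing c e with
  | nil => simp
  | cons x l ih =>
    simp only [dd_cons, sh_add, ih, Pi.add_apply]
    abel

theorem dd_add (c e : Cc M X) : dd (c + e) = dd c + dd e := funext (dd_add_apply c e)

theorem dd_map {M' : Type} [AddCommGroup M'] (φ : M →+ M') (c : Cc M X) (l : List X) :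
    dd (fun l => φ (c l)) l = φ (dd c l) := by
  induction l generalizing c with
  | nil => simp
  | cons x l ih =>
    have h1 : sh (fun l => φ (c l)) x = fun l => φ (sh c x l) := rfl
    rw [dd_cons, dd_cons, h1, ih, map_sub]

/-- the coboundary as a homomorphism -/
def ddH : Cc M X →+ Cc M X where
  toFun := dd
  map_add' := dd_add
  map_zero' := by
    have h := dd_add (0 : Cc M X) 0
    rw [add_zero] at h
    exact left_eq_add.1 h

@[simp] theorem dd_zero : dd (0 : Cc M X) = 0 := (ddH (M := M) (X := X)).map_zero
theorem dd_sub (c e : Cc M X) : dd (c - e) = dd c - dd e := (ddH (M := M) (X := X)).map_sub c e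
theorem dd_neg (c : Cc M X) : dd (-c) = -dd c := (ddH (M := M) (X := X)).map_neg c
theorem dd_sum {ι : Type*} (s : Finset ι) (c : ι → Cc M X) :
    dd (∑ i ∈ s, c i) = ∑ i ∈ s, dd (c i) := map_sum (ddH (M := M) (X := X)) c s

theorem dd_smul {R : Type} [CommRing R] [Module R M] (a : R) (c : Cc M X) :
    dd (a • c) = a • dd c := by
  funext l
  exact dd_map (DistribSMul.toAddMonoidHom M a) c l

theorem sh_dd (c : Cc M X) (x : X) : sh (dd c) x = c - dd (sh c x) := by
  funext l
  simp

theorem dd_dd_apply (c : Cc M X) (l : List X) : dd (dd c) l = 0 := by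
  induction l generalizing c with
  | nil => simp
  | cons x l ih =>
    rw [dd_cons, sh_dd, dd_sub, Pi.sub_apply, ih, sub_zero, sub_self]

@[simp] theorem dd_dd (c : Cc M X) : dd (dd c) = 0 := funext (dd_dd_apply c)

/-! ### Naturality -/

theorem pull_add {M X Y : Type} [AddCommGroup M] (f : X → Y) (c e : Cc M Y) :
    pull f (c + e) = pull f c + pull f e := rfl
theorem pull_sub (f : X → Y) (c e : Cc M Y) : pull f (c - e) = pull f c - pull f e := rfl
theorem pull_neg (f : X → Y) (c : Cc M Y) : pull f (-c) = -pull f c := rfl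
@[simp] theorem pull_zero (f : X → Y) : pull f (0 : Cc M Y) = 0 := rfl
theorem pull_smul {R : Type} [CommRing R] [Module R M] (f : X → Y) (a : R) (c : Cc M Y) :
    pull f (a • c) = a • pull f c := rfl
theorem sh_pull {M X Y : Type} (f : X → Y) (c : Cc M Y) (x : X) :
    sh (pull f c) x = pull f (sh c (f x)) := rfl
theorem pull_pull {M X Y V : Type} (f : X → Y) (g : Y → V) (c : Cc M V) :
    pull f (pull g c) = pull (g ∘ f) c := by
  funext l
  simp

@[simp] theorem pull_id {M X : Type} (c : Cc M X) : pull id c = c := by
  funext l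
  simp

theorem dd_pull_apply (f : X → Y) (c : Cc M Y) (l : List X) :
    dd (pull f c) l = dd c (l.map f) := by
  induction l generalizing c with
  | nil => simp
  | cons x l ih => simp [sh_pull, ih]

theorem dd_pull (f : X → Y) (c : Cc M Y) : dd (pull f c) = pull f (dd c) :=
  funext (dd_pull_apply f c)

theorem pr_add_apply (f g : X → Y) (c e : Cc M Y) (l : List X) :
    pr f g (c + e) l = pr f g c l + pr f g e l := by
  induction l generalizing c e with
  | nil => simp
  | cons x l ih =>
    simp only [pr_cons, sh_add, ih, Pi.add_apply]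
    abel

theorem pr_add (f g : X → Y) (c e : Cc M Y) : pr f g (c + e) = pr f g c + pr f g e :=
  funext (pr_add_apply f g c e)

/-- the prism as a homomorphism -/
def prH (f g : X → Y) : Cc M Y →+ Cc M X where
  toFun := pr f g
  map_add' := pr_add f g
  map_zero' := by
    have h := pr_add f g (0 : Cc M Y) 0
    rw [add_zero] at h
    exact left_eq_add.1 h

@[simp] theorem pr_zero (f g : X → Y) : pr f g (0 : Cc M Y) = 0 := (prH (M := M) f g).map_zero
theorem pr_sub (f g : X → Y) (c e : Cc M Y) : pr f g (c - e) = pr f g c - pr f g e :=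
  (prH (M := M) f g).map_sub c e

/-- the prism is a homotopy -/
theorem prism_apply (f g : X → Y) (c : Cc M Y) (l : List X) :
    dd (pr f g c) l + pr f g (dd c) l = c (l.map g) - c (l.map f) := by
  induction l generalizing c with
  | nil => simp
  | cons x l ih =>
    have h1 : sh (pr f g c) x = pull g (sh (sh c (f x)) (g x)) - pr f g (sh c (f x)) := by
      funext l'
      simp
    have h3 := ih (sh c (f x))
    rw [dd_cons, h1, dd_sub, Pi.sub_apply, dd_pull_apply, pr_cons, sh_dd, pr_sub, Pi.sub_apply]
    simp only [dd_cons, sh_apply, List.map_cons] at h3 ⊢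
    have h4 : dd (pr f g (sh c (f x))) l =
        c (f x :: l.map g) - c (f x :: l.map f) - pr f g (dd (sh c (f x))) l := by
      rw [← h3]
      abel
    rw [h4]
    abel

/-! ### Cup product -/

/-- the cup product; the first factor has values in `R` -/
def cup {R M X : Type} [CommRing R] [AddCommGroup M] [Module R M] : Cc R X → Cc M X → Cc M X
  | _, _, [] => 0
  | c, e, x :: l => c [x] • e (x :: l) + cup (sh c x) e l
termination_by _ _ l => l.length

section cupp

variable {R : Type} [CommRing R] [Module R M]

@[simp] theorem cup_nil (c : Cc R X) (e : Cc M X) : cup c e [] = 0 := by rw [cup]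
@[simp] theorem cup_cons (c : Cc R X) (e : Cc M X) (x : X) (l : List X) :
    cup c e (x :: l) = c [x] • e (x :: l) + cup (sh c x) e l := by rw [cup]

theorem cup_add_left_apply (c c' : Cc R X) (e : Cc M X) (l : List X) :
    cup (c + c') e l = cup c e l + cup c' e l := by
  induction l generalizing c c' with
  | nil => simp
  | cons x l ih =>
    simp only [cup_cons, sh_add, ih, Pi.add_apply, add_smul]
    abel

theorem cup_add_right_apply (c : Cc R X) (e e' : Cc M X) (l : List X) :
    cup c (e + e') l = cup c e l + cup c e' l := by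
  induction l generalizing c with
  | nil => simp
  | cons x l ih =>
    simp only [cup_cons, ih, Pi.add_apply, smul_add]
    abel

theorem cup_smul_left_apply (a : R) (c : Cc R X) (e : Cc M X) (l : List X) :
    cup (a • c) e l = a • cup c e l := by
  induction l generalizing c with
  | nil => simp
  | cons x l ih =>
    have h : sh (a • c) x = a • sh c x := rfl
    simp only [cup_cons, h, ih, Pi.smul_apply, smul_eq_mul, smul_add, mul_smul]

theorem cup_smul_right_apply (a : R) (c : Cc R X) (e : Cc M X) (l : List X) :
    cup c (a • e) l = a • cup c e l := by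
  induction l generalizing c with
  | nil => simp
  | cons x l ih =>
    simp only [cup_cons, ih, Pi.smul_apply, smul_add]
    rw [smul_comm a (c [x]) (e (x :: l))]

theorem cup_add_left (c c' : Cc R X) (e : Cc M X) : cup (c + c') e = cup c e + cup c' e :=
  funext (cup_add_left_apply c c' e)
theorem cup_add_right (c : Cc R X) (e e' : Cc M X) : cup c (e + e') = cup c e + cup c e' :=
  funext (cup_add_right_apply c e e')
theorem cup_smul_left (a : R) (c : Cc R X) (e : Cc M X) : cup (a • c) e = a • cup c e :=
  funext (cup_smul_left_apply a c e)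
theorem cup_smul_right (a : R) (c : Cc R X) (e : Cc M X) : cup c (a • e) = a • cup c e :=
  funext (cup_smul_right_apply a c e)

@[simp] theorem cup_zero_left (e : Cc M X) : cup (0 : Cc R X) e = 0 := by
  have h := cup_smul_left (0 : R) (0 : Cc R X) e
  simpa using h
@[simp] theorem cup_zero_right (c : Cc R X) : cup c (0 : Cc M X) = 0 := by
  have h := cup_smul_right (0 : R) c (0 : Cc M X)
  simpa using h
theorem cup_neg_left (c : Cc R X) (e : Cc M X) : cup (-c) e = -cup c e := by
  have h := cup_smul_left (-1 : R) c e
  rwa [neg_one_smul, neg_one_smul] at h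
theorem cup_neg_right (c : Cc R X) (e : Cc M X) : cup c (-e) = -cup c e := by
  have h := cup_smul_right (-1 : R) c e
  rwa [neg_one_smul, neg_one_smul] at h
theorem cup_sub_left (c c' : Cc R X) (e : Cc M X) : cup (c - c') e = cup c e - cup c' e := by
  rw [sub_eq_add_neg, cup_add_left, cup_neg_left, ← sub_eq_add_neg]
theorem cup_sub_right (c : Cc R X) (e e' : Cc M X) : cup c (e - e') = cup c e - cup c e' := by
  rw [sub_eq_add_neg, cup_add_right, cup_neg_right, ← sub_eq_add_neg]

end cupp

/-! ### Vanishing on families of lists -/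

/-- a family of lists that is closed under passing to lists with fewer members -/
def Cl {X : Type} (K : Set (List X)) : Prop := ∀ l ∈ K, ∀ l' : List X, l' ⊆ l → l' ∈ K

theorem Cl.shift {X : Type} {K : Set (List X)} (h : Cl K) (x : X) : Cl {l | x :: l ∈ K} := by
  intro l hl l' hl'
  exact h _ hl _ (List.cons_subset_cons x hl')

theorem dd_van {K : Set (List X)} (hK : Cl K) {c : Cc M X} (hc : ∀ l ∈ K, c l = 0) :
    ∀ l ∈ K, dd c l = 0 := by
  intro l
  induction l generalizing c K with
  | nil => intro _; simp
  | cons x l ih =>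
    intro hl
    rw [dd_cons, hc l (hK _ hl _ (List.subset_cons_self x l)),
      ih (hK.shift x) (c := sh c x) (fun l' hl' => hc _ hl') hl, sub_zero]

theorem dd_congr {K : Set (List X)} (hK : Cl K) {c e : Cc M X} (hc : ∀ l ∈ K, c l = e l) :
    ∀ l ∈ K, dd c l = dd e l := by
  intro l hl
  have h := dd_van hK (c := c - e) (fun l hl => by rw [Pi.sub_apply, hc l hl, sub_self]) l hl
  rwa [dd_sub, Pi.sub_apply, sub_eq_zero] at h

theorem cup_van_left {R : Type} [CommRing R] [Module R M] {K : Set (List X)} (hK : Cl K)
    {c : Cc R X} (e : Cc M X) (hc : ∀ l ∈ K, c l = 0) : ∀ l ∈ K, cup c e l = 0 := by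
  intro l
  induction l generalizing c K with
  | nil => intro _; simp
  | cons x l ih =>
    intro hl
    have h1 : [x] ∈ K := hK _ hl _ (by simp)
    rw [cup_cons, hc _ h1, ih (hK.shift x) (c := sh c x) (fun l' hl' => hc _ hl') hl, zero_smul,
      add_zero]

theorem cup_van_right {R : Type} [CommRing R] [Module R M] {K : Set (List X)} (hK : Cl K)
    (c : Cc R X) {e : Cc M X} (he : ∀ l ∈ K, e l = 0) : ∀ l ∈ K, cup c e l = 0 := by
  intro l
  induction l generalizing c with
  | nil => intro _; simp
  | cons x l ih =>
    intro hl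
    rw [cup_cons, he _ hl, ih (sh c x) (hK _ hl _ (List.subset_cons_self x l)), smul_zero,
      add_zero]

theorem pr_van (f g : X → Y) {c : Cc M Y} {l : List X}
    (hc : ∀ l', l' ⊆ l.map f ++ l.map g → c l' = 0) : pr f g c l = 0 := by
  induction l generalizing c with
  | nil => simp
  | cons x l ih =>
    rw [pr_cons, hc, ih, sub_zero]
    · intro l' hl'
      refine hc _ ?_
      intro y hy
      rcases List.mem_cons.1 hy with rfl | hy
      · simp
      · have := hl' hy
        simp only [List.mem_append, List.mem_map, List.map_cons, List.mem_cons] at this ⊢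
        rcases this with h | h
        · exact Or.inl (Or.inr h)
        · exact Or.inr (Or.inr h)
    · intro y hy
      simp only [List.mem_append, List.mem_map, List.map_cons, List.mem_cons] at hy ⊢
      rcases hy with h | h | h
      · exact Or.inl (Or.inl h)
      · exact Or.inr (Or.inl h)
      · exact Or.inr (Or.inr h)

/-! ### Degrees -/

/-- cochains of degree `p` -/
def Dg {M : Type} [AddCommGroup M] (X : Type) (p : ℤ) (c : Cc M X) : Prop :=
  ∀ l, c l ≠ 0 → l ≠ [] ∧ (l.length : ℤ) = p + 1

theorem Dg.zero {p : ℤ} : Dg X p (0 : Cc M X) := fun _ h => absurd rfl h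

theorem Dg.add {p : ℤ} {c e : Cc M X} (h : Dg X p c) (h' : Dg X p e) : Dg X p (c + e) := by
  intro l hl
  by_cases h1 : c l = 0
  · refine h' l ?_
    intro h2
    exact hl (by simp [h1, h2])
  · exact h l h1

theorem Dg.neg {p : ℤ} {c : Cc M X} (h : Dg X p c) : Dg X p (-c) := by
  intro l hl
  exact h l (fun h1 => hl (by simp [h1]))

theorem Dg.sub {p : ℤ} {c e : Cc M X} (h : Dg X p c) (h' : Dg X p e) : Dg X p (c - e) := by
  rw [sub_eq_add_neg]
  exact h.add h'.neg

theorem Dg.smul {R : Type} [CommRing R] [Module R M] {p : ℤ} {c : Cc M X} (a : R)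
    (h : Dg X p c) : Dg X p (a • c) := by
  intro l hl
  exact h l (fun h1 => hl (by simp [h1]))

theorem Dg.sum {ι : Type*} {p : ℤ} {s : Finset ι} {c : ι → Cc M X}
    (h : ∀ i ∈ s, Dg X p (c i)) : Dg X p (∑ i ∈ s, c i) := by
  classical
  induction s using Finset.induction_on with
  | empty => simpa using Dg.zero
  | insert a s ha ih =>
    rw [Finset.sum_insert ha]
    exact (h a (Finset.mem_insert_self a s)).add
      (ih fun i hi => h i (Finset.mem_insert_of_mem hi))

theorem Dg.nil {p : ℤ} {c : Cc M X} (h : Dg X p c) : c [] = 0 := by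
  by_contra h1
  exact (h [] h1).1 rfl

theorem Dg.eq_zero {p : ℤ} {c : Cc M X} (h : Dg X p c) (hp : p < 0) : c = 0 := by
  funext l
  by_contra h1
  obtain ⟨h2, h3⟩ := h l h1
  have : 0 < l.length := List.length_pos_of_ne_nil h2
  omega

theorem dd_len {c : Cc M X} {m : ℤ} (h : ∀ l, c l ≠ 0 → (l.length : ℤ) = m) :
    ∀ l, dd c l ≠ 0 → (l.length : ℤ) = m + 1 := by
  intro l
  induction l generalizing c m with
  | nil => intro h1; exact absurd (dd_nil c) h1
  | cons x l ih =>
    intro h1
    rw [dd_cons] at h1
    by_cases h2 : c l = 0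
    · rw [h2, zero_sub, neg_ne_zero] at h1
      have h3 := ih (c := sh c x) (m := m - 1) (fun l' hl' => by
        have := h _ hl'
        simp only [List.length_cons, Nat.cast_add, Nat.cast_one] at this
        omega) h1
      simp only [List.length_cons, Nat.cast_add, Nat.cast_one]
      omega
    · have := h l h2
      simp only [List.length_cons, Nat.cast_add, Nat.cast_one]
      omega

theorem Dg.dd {p : ℤ} {c : Cc M X} (h : Dg X p c) : Dg X (p + 1) (BBH.dd c) := by
  intro l hl
  refine ⟨?_, ?_⟩
  · rintro rfl
    exact hl (dd_nil c)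
  · exact dd_len (fun l hl => (h l hl).2) l hl

theorem Dg.dd' {p : ℤ} {c : Cc M X} (h : Dg X (p - 1) c) : Dg X p (BBH.dd c) := by
  have h1 := h.dd
  rwa [sub_add_cancel] at h1

theorem cup_len {R : Type} [CommRing R] [Module R M] {c : Cc R X} {e : Cc M X} {m n : ℤ}
    (h : ∀ l, c l ≠ 0 → (l.length : ℤ) = m) (h' : ∀ l, e l ≠ 0 → (l.length : ℤ) = n) :
    ∀ l, cup c e l ≠ 0 → (l.length : ℤ) = m + n - 1 := by
  intro l
  induction l generalizing c m with
  | nil => intro h1; exact absurd (cup_nil c e) h1
  | cons x l ih =>
    intro h1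
    rw [cup_cons] at h1
    by_cases h2 : c [x] • e (x :: l) = 0
    · rw [h2, zero_add] at h1
      have h3 := ih (c := sh c x) (m := m - 1) (fun l' hl' => by
        have := h _ hl'
        simp only [List.length_cons, Nat.cast_add, Nat.cast_one] at this
        omega) h1
      simp only [List.length_cons, Nat.cast_add, Nat.cast_one]
      omega
    · have h3 := h [x] (fun h0 => h2 (by rw [h0, zero_smul]))
      have h4 := h' (x :: l) (fun h0 => h2 (by rw [h0, smul_zero]))
      simp only [List.length_cons, List.length_nil, Nat.cast_add, Nat.cast_one, Nat.cast_zero]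
        at h3 h4 ⊢
      omega

theorem Dg.cup {R : Type} [CommRing R] [Module R M] {p q : ℤ} {c : Cc R X} {e : Cc M X}
    (h : Dg X p c) (h' : Dg X q e) : Dg X (p + q) (BBH.cup c e) := by
  intro l hl
  refine ⟨?_, ?_⟩
  · rintro rfl
    exact hl (cup_nil c e)
  · have := cup_len (fun l hl => (h l hl).2) (fun l hl => (h' l hl).2) l hl
    omega

theorem Dg.pull {p : ℤ} (f : X → Y) {c : Cc M Y} (h : Dg Y p c) : Dg X p (BBH.pull f c) := by
  intro l hl
  obtain ⟨h1, h2⟩ := h _ hl
  refine ⟨?_, ?_⟩
  · rintro rfl
    exact h1 rfl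
  · simpa using h2

theorem pr_len (f g : X → Y) {c : Cc M Y} {m : ℤ} (h : ∀ l, c l ≠ 0 → (l.length : ℤ) = m) :
    ∀ l, pr f g c l ≠ 0 → (l.length : ℤ) = m - 1 := by
  intro l
  induction l generalizing c m with
  | nil => intro h1; exact absurd (pr_nil f g c) h1
  | cons x l ih =>
    intro h1
    rw [pr_cons] at h1
    by_cases h2 : c (f x :: g x :: l.map g) = 0
    · rw [h2, zero_sub, neg_ne_zero] at h1
      have h3 := ih (c := sh c (f x)) (m := m - 1) (fun l' hl' => by
        have := h _ hl'
        simp only [List.length_cons, Nat.cast_add, Nat.cast_one] at this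
        omega) h1
      simp only [List.length_cons, Nat.cast_add, Nat.cast_one]
      omega
    · have := h _ h2
      simp only [List.length_cons, Nat.cast_add, Nat.cast_one, List.length_map] at this ⊢
      omega

theorem Dg.pr {p : ℤ} (f g : X → Y) {c : Cc M Y} (h : Dg Y p c) :
    Dg X (p - 1) (BBH.pr f g c) := by
  intro l hl
  refine ⟨?_, ?_⟩
  · rintro rfl
    exact hl (pr_nil f g c)
  · have := pr_len f g (fun l hl => (h l hl).2) l hl
    omega

/-- Leibniz rule, total form -/
theorem dd_cup_apply {R : Type} [CommRing R] [Module R M] (c : Cc R X) (e : Cc M X) (m : ℕ)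
    (h : ∀ l, c l ≠ 0 → l.length = m) (l : List X) :
    dd (cup c e) l = cup (dd c) e l - (-1 : R) ^ m • cup c (dd e) l - c [] • e l
      + (-1 : R) ^ m • (c l • e []) := by
  induction l generalizing c m with
  | nil =>
    by_cases h0 : m = 0
    · subst h0
      simp
    · have h1 : c [] = 0 := by
        by_contra h1
        exact h0 (h [] h1).symm
      simp [h1]
  | cons x l ih =>
    have h1 : sh (cup c e) x = c [x] • sh e x + cup (sh c x) e := by
      funext l'
      simp
    rcases Nat.eq_zero_or_pos m with h0 | h0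
    · subst h0
      have hc : ∀ l, l ≠ [] → c l = 0 := by
        intro l hl
        by_contra h2
        exact hl (List.length_eq_zero_iff.1 (h l h2))
      have hs : sh c x = 0 := by
        funext l'
        exact hc _ (by simp)
      rw [dd_cons, h1, hs]
      have hx : c [x] = 0 := hc _ (by simp)
      have hxl : c (x :: l) = 0 := hc _ (by simp)
      rw [hx, zero_smul, cup_zero_left, add_zero, dd_zero, cup_cons, cup_cons, dd_cons, sh_dd, hs,
        dd_zero, hx, hxl]
      -- `dd c [x] = c []`
      have h2 : cup (c - (0 : Cc R X)) e l = cup c e l := by rw [sub_zero]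
      rw [h2]
      simp
    · obtain ⟨n, rfl⟩ : ∃ n, m = n + 1 := ⟨m - 1, by omega⟩
      have hc0 : c [] = 0 := by
        by_contra h2
        have := h [] h2
        simp at this
      have h2 : ∀ l, sh c x l ≠ 0 → l.length = n := by
        intro l' hl'
        have := h _ hl'
        simpa using this
      have h3 := ih (sh c x) n h2
      rw [dd_cons, h1, dd_add, Pi.add_apply, dd_smul, Pi.smul_apply, h3, cup_cons, cup_cons, sh_dd,
        cup_sub_left, Pi.sub_apply]
      simp only [dd_cons, dd_nil, sh_apply, sub_zero, pow_succ, hc0, zero_smul, zero_add]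
      simp only [smul_sub, smul_add, mul_smul, neg_smul, one_smul, smul_neg, mul_neg, mul_one,
        neg_mul, one_mul]
      by_cases hn : n = 0
      · subst hn
        simp only [pow_zero, one_smul]
        abel
      · have hx : c [x] = 0 := by
          by_contra h4
          have := h [x] h4
          simp at this
          omega
        rw [hx]
        simp only [zero_smul, smul_zero]
        abel

/-- Leibniz rule -/
theorem dd_cup {R : Type} [CommRing R] [Module R M] {p : ℕ} {q : ℤ} {c : Cc R X} {e : Cc M X}
    (h : Dg X p c) (h' : Dg X q e) :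
    dd (cup c e) = cup (dd c) e + (-1 : R) ^ p • cup c (dd e) := by
  funext l
  have h1 := dd_cup_apply c e (p + 1) (fun l hl => by
    have := (h l hl).2
    omega) l
  rw [h1, h.nil, h'.nil, pow_succ]
  simp [mul_smul]

/-- associativity of the cup product -/
theorem cup_assoc_apply {R : Type} [CommRing R] [Module R M] (c e : Cc R X) (g : Cc M X)
    (l : List X) : cup (cup c e) g l = cup c (cup e g) l := by
  induction l generalizing c with
  | nil => simp
  | cons x l ih =>
    have h1 : sh (cup c e) x = c [x] • sh e x + cup (sh c x) e := by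
      funext l'
      simp
    rw [cup_cons, h1, cup_add_left_apply, cup_smul_left_apply, ih, cup_cons, cup_cons]
    simp [mul_smul, smul_add]
    abel

theorem cup_assoc {R : Type} [CommRing R] [Module R M] (c e : Cc R X) (g : Cc M X) :
    cup (cup c e) g = cup c (cup e g) := funext (cup_assoc_apply c e g)

/-- multiplication by the indicator function of a set of lists -/
noncomputable def ind (K : Set (List X)) (c : Cc M X) : Cc M X := K.indicator c

theorem ind_of_mem {K : Set (List X)} {c : Cc M X} {l : List X} (h : l ∈ K) :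
    ind K c l = c l := indicator_of_mem h c

theorem ind_of_notMem {K : Set (List X)} {c : Cc M X} {l : List X} (h : l ∉ K) :
    ind K c l = 0 := indicator_of_notMem h c

theorem ind_van {K : Set (List X)} {c : Cc M X} {l : List X} (h : c l = 0) : ind K c l = 0 := by
  by_cases h1 : l ∈ K
  · rw [ind_of_mem h1, h]
  · exact ind_of_notMem h1

theorem Dg.ind {K : Set (List X)} {c : Cc M X} {p : ℤ} (h : Dg X p c) :
    Dg X p (BBH.ind K c) := by
  intro l hl
  exact h l (fun h1 => hl (ind_van h1))

theorem ind_add_compl (K : Set (List X)) (c : Cc M X) : ind K c + ind Kᶜ c = c := by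
  funext l
  by_cases h : l ∈ K
  · rw [Pi.add_apply, ind_of_mem h, ind_of_notMem (show l ∉ Kᶜ from not_not_intro h), add_zero]
  · rw [Pi.add_apply, ind_of_notMem h, ind_of_mem (show l ∈ Kᶜ from h), zero_add]

theorem ind_compl (K : Set (List X)) (c : Cc M X) : ind Kᶜ c = c - ind K c := by
  rw [eq_sub_iff_add_eq, add_comm]
  exact ind_add_compl K c

/-- the cochain of degree zero of a function -/
def c0 {M X : Type} [AddCommGroup M] (f : X → M) : Cc M X
  | [x] => f x
  | _ => 0

@[simp] theorem c0_single (f : X → M) (x : X) : c0 f [x] = f x := rfl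
@[simp] theorem c0_nil (f : X → M) : c0 f [] = 0 := rfl
@[simp] theorem c0_two (f : X → M) (x y : X) (l : List X) : c0 f (x :: y :: l) = 0 := rfl

theorem Dg.c0 (f : X → M) : Dg X 0 (BBH.c0 f) := by
  intro l hl
  rcases l with _ | ⟨x, _ | ⟨y, l⟩⟩
  · exact absurd rfl hl
  · exact ⟨by simp, by simp⟩
  · exact absurd rfl hl

/-- cochains of degree zero are functions -/
theorem Dg.eq_c0 {c : Cc M X} (h : Dg X 0 c) : c = BBH.c0 fun x => c [x] := by
  funext l
  rcases l with _ | ⟨x, _ | ⟨y, l⟩⟩
  · exact h.nil
  · rfl
  · by_contra h1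
    have := (h _ h1).2
    simp only [List.length_cons] at this
    push_cast at this
    omega

theorem dd_c0_two (f : X → M) (x y : X) : dd (c0 f) [x, y] = f y - f x := by
  simp

theorem c0_sub (f g : X → M) : c0 (f - g) = c0 f - c0 g := by
  funext l
  rcases l with _ | ⟨x, _ | ⟨y, l⟩⟩ <;> simp

theorem c0_add (f g : X → M) : c0 (f + g) = c0 f + c0 g := by
  funext l
  rcases l with _ | ⟨x, _ | ⟨y, l⟩⟩ <;> simp

theorem c0_smul {R : Type} [CommRing R] [Module R M] (a : R) (f : X → M) :
    c0 (a • f) = a • c0 f := by
  funext l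
  rcases l with _ | ⟨x, _ | ⟨y, l⟩⟩ <;> simp

end algebra

end BBH
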