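import Pool.Agent.BBH.StmtsD

/-!
# BBH, module ALX: if `H^3(K, L; ℤ) = 0` then maps to `ℝ³ \ 0` extend from `L` to `K`
-/

set_option autoImplicit false
set_option linter.unusedSectionVars false

namespace BBH

open Set Topology CTO

namespace ALX

variable {X : Type} [MetricSpace X]

/-- the cochain of degree 2 of a function of three variables -/
def k2 (c : X → X → X → ℤ) : Cc ℤ X
  | [x, y, z] => c x y z
  | _ => 0

theorem k2_three (c : X → X → X → ℤ) (x y z : X) : k2 c [x, y, z] = c x y z := rfl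

theorem k2_deg (c : X → X → X → ℤ) : Dg X 2 (k2 c) := by
  intro l hl
  rcases l with _ | ⟨x, _ | ⟨y, _ | ⟨z, _ | ⟨w, l⟩⟩⟩⟩
  · exact absurd rfl hl
  · exact absurd rfl hl
  · exact absurd rfl hl
  · exact ⟨by simp, by simp⟩
  · exact absurd rfl hl

theorem dd_four (c : Cc ℤ X) (x y z w : X) :
    dd c [x, y, z, w] = c [y, z, w] - c [x, z, w] + c [x, y, w] - c [x, y, z] := by
  simp only [dd_cons, dd_nil, sh_apply]
  ring

theorem dd_three (c : Cc ℤ X) (x y z : X) :
    dd c [x, y, z] = c [y, z] - c [x, z] + c [x, y] := by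
  simp only [dd_cons, dd_nil, sh_apply]
  ring

theorem k2_cyc {L : Set X} {v : X → ℂ × ℂ} {t : X → X → ℝ} {c : X → X → X → ℤ} {ε : ℝ}
    (h : Lin L v t c ε) : Cyc 2 L ∅ (k2 c) := by
  refine ⟨k2_deg c, Zr.empty (k2_deg c), ε, h.pos, fun l hl => ?_⟩
  by_contra h1
  have h2 := ((k2_deg c).dd l h1).2
  rcases l with _ | ⟨x, _ | ⟨y, _ | ⟨z, _ | ⟨w, _ | ⟨u, l⟩⟩⟩⟩⟩
  · simp at h2
  · simp at h2
  · simp at h2
  · simp at h2
  · apply h1
    rw [dd_four]
    exact h.cy x y z w hl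
  · simp only [List.length_cons] at h2
    push_cast at h2
    omega

theorem lin_mono {L : Set X} {v : X → ℂ × ℂ} {t : X → X → ℝ} {c : X → X → X → ℤ} {ε ε' : ℝ}
    (h : Lin L v t c ε) (h0 : 0 < ε') (hle : ε' ≤ ε) : Lin L v t c ε' where
  pos := h0
  unit := h.unit
  ph := h.ph
  uat := h.uat
  ne := fun x y hxy => h.ne x y (Small.mono Subset.rfl hle hxy)
  sm := fun x y z hxy => h.sm x y z (Small.mono Subset.rfl hle hxy)
  cy := fun x y z w hxy => h.cy x y z w (Small.mono Subset.rfl hle hxy)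

/-- a finite net and a partition of unity -/
theorem exists_part [CompactSpace X] {ε : ℝ} (hε : 0 < ε) :
    ∃ (n : ℕ) (q : Fin n → X) (φ : Fin n → X → ℝ), (∀ j, Continuous (φ j)) ∧
      (∀ j x, 0 ≤ φ j x) ∧ (∀ x, ∑ j, φ j x = 1) ∧ ∀ j x, φ j x ≠ 0 → dist x (q j) < ε / 4 := by
  obtain ⟨s, -, hs, hcov⟩ := (isCompact_univ (X := X)).finite_cover_balls
    (show (0 : ℝ) < ε / 8 by positivity)
  classical
  let e := hs.toFinset.equivFin.symm
  let q : Fin hs.toFinset.card → X := fun j => (e j : X)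
  let h : Fin hs.toFinset.card → X → ℝ := fun j x => max 0 (ε / 4 - dist x (q j))
  have hc : ∀ j, Continuous (h j) := fun j =>
    continuous_const.max (continuous_const.sub (continuous_id.dist continuous_const))
  have h0 : ∀ j x, 0 ≤ h j x := fun j x => le_max_left _ _
  have hpos : ∀ x, 0 < ∑ j, h j x := by
    intro x
    obtain ⟨y, hy, hxy⟩ := Set.mem_iUnion₂.1 (hcov (mem_univ x))
    rw [Metric.mem_ball] at hxy
    have hy' : y ∈ hs.toFinset := hs.mem_toFinset.2 hy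
    have h1 : q (e.symm ⟨y, hy'⟩) = y := by
      simp only [q, Equiv.apply_symm_apply]
    have h2 : 0 < h (e.symm ⟨y, hy'⟩) x := by
      refine lt_of_lt_of_le ?_ (le_max_right _ _)
      rw [h1]
      linarith
    exact lt_of_lt_of_le h2 (Finset.single_le_sum (f := fun j => h j x) (fun j _ => h0 j x)
      (Finset.mem_univ _))
  refine ⟨_, q, fun j x => h j x / ∑ i, h i x, ?_, ?_, ?_, ?_⟩
  · intro j
    exact (hc j).div (continuous_finsetSum _ fun i _ => hc i) fun x => (hpos x).ne'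
  · intro j x
    exact div_nonneg (h0 j x) (hpos x).le
  · intro x
    rw [← Finset.sum_div]
    exact div_self (hpos x).ne'
  · intro j x hx
    have h1 : h j x ≠ 0 := by
      intro h1
      apply hx
      simp only [h1, zero_div]
    by_contra h2
    apply h1
    exact max_eq_left (by linarith)

end ALX

open ALX in
theorem t_ALX : M_ALX := by
  intro hHPF hLNA hEXS hTRN hSLL X _ _ hX K L f hK hL hLK hf hf0 hvan
  rcases L.eq_empty_or_nonempty with rfl | hne
  · refine ⟨fun _ => EuclideanSpace.single 0 1, continuousOn_const, fun x _ h => ?_,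
      fun x hx => absurd hx (notMem_empty x)⟩
    have := congrArg norm h
    simp at this
  obtain ⟨hpc, hpn, hps, -, -, -, -⟩ := hHPF
  obtain ⟨v, t, c, ε₀, hlin, hfv⟩ := hLNA X L f hL hne hf hf0
  -- the cocycles
  have h1 := k2_cyc hlin
  have h2 : Cyc 3 K L (dd (k2 c)) := by
    have := les_conn (A := K) h1
    norm_num at this
    exact this
  have h3 : Bd (2 + 1) K L (dd (k2 c)) := by
    have := hvan _ h2
    norm_num
    exact this
  obtain ⟨C2, hC2, κ2, hκ1, -, hκ2⟩ := les_right (empty_subset L) h1 h3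
  obtain ⟨ε₁, hε₁, hκ3⟩ := hκ2
  obtain ⟨ε₂, hε₂, hC3⟩ := hC2.cyc
  have hε₀ := hlin.pos
  set ε : ℝ := min ε₀ (min ε₁ ε₂) with hε
  have hε0 : 0 < ε := lt_min hε₀ (lt_min hε₁ hε₂)
  have hle0 : ε ≤ ε₀ := min_le_left _ _
  have hle1 : ε ≤ ε₁ := (min_le_right _ _).trans (min_le_left _ _)
  have hle2 : ε ≤ ε₂ := (min_le_right _ _).trans (min_le_right _ _)
  have hlin' := lin_mono hlin hε0 hle0
  let C : X → X → X → ℤ := fun x y z => C2 [x, y, z]
  let κ : X → X → ℤ := fun x y => κ2 [x, y]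
  have hC : ∀ x y z w, [x, y, z, w] ∈ Small K ε →
      C y z w - C x z w + C x y w - C x y z = 0 := by
    intro x y z w h
    have := hC3 _ (Small.mono Subset.rfl hle2 h)
    rw [dd_four] at this
    exact this
  have hκ : ∀ x y z, [x, y, z] ∈ Small L ε → c x y z - C x y z = κ y z - κ x z + κ x y := by
    intro x y z h
    have := hκ3 _ (Small.mono Subset.rfl hle1 h)
    rw [Pi.sub_apply, Pi.sub_apply, dd_three, k2_three] at this
    exact sub_eq_zero.1 this
  obtain ⟨n, q, φ, hφ1, hφ2, hφ3, hφ4⟩ := exists_part (X := X) hε0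
  have hT : Trn K φ (trn q φ C) := hTRN X n K φ q C ε hε0 hφ1 hφ2 hφ3 hφ4 hC
  obtain ⟨F, hF1, hF2⟩ := hSLL X L v t c C κ ε n φ q hL hlin' hφ1 hφ2 hφ3 hφ4 hκ
  obtain ⟨F', hF3, hF4⟩ := hEXS X hX n K L φ (trn q φ C) F hK hL hLK hT hF1
  -- the choice of the index
  have hj : ∀ x, ∃ j, φ j x ≠ 0 := by
    intro x
    by_contra h
    push Not at h
    have := hφ3 x
    rw [Finset.sum_eq_zero fun j _ => h j] at this
    norm_num at this
  choose j hj using hj
  have hn0 : ∀ u : ℂ × ℂ, u ≠ 0 → ‖hp u‖ ≠ 0 := by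
    intro u hu h
    rw [hpn] at h
    apply hu
    have h5 : ‖u.1‖ = 0 := by nlinarith [norm_nonneg u.1, sq_nonneg ‖u.2‖, sq_nonneg ‖u.1‖]
    have h6 : ‖u.2‖ = 0 := by nlinarith [norm_nonneg u.2, sq_nonneg ‖u.2‖, sq_nonneg ‖u.1‖]
    exact Prod.ext (norm_eq_zero.1 h5) (norm_eq_zero.1 h6)
  let N : ℂ × ℂ → R3 := fun u => (1 / ‖hp u‖) • hp u
  have hN1 : ∀ (z : ℂ) (u : ℂ × ℂ), z ≠ 0 → N (z • u) = N u := by
    intro z u hz
    have hz' : ‖z‖ ^ 2 ≠ 0 := pow_ne_zero 2 (norm_ne_zero_iff.2 hz)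
    simp only [N]
    rw [hps, norm_smul, smul_smul, norm_pow, norm_norm]
    congr 1
    rw [one_div, mul_inv, mul_comm, ← mul_assoc, mul_inv_cancel₀ hz', one_mul, one_div]
  have hN2 : ∀ u : ℂ × ℂ, u ≠ 0 → ContinuousAt N u := by
    intro u hu
    exact ((continuousAt_const).div hpc.norm.continuousAt (hn0 u hu)).smul hpc.continuousAt
  have hN3 : ∀ u : ℂ × ℂ, u ≠ 0 → ‖N u‖ = 1 := by
    intro u hu
    simp only [N]
    rw [norm_smul, norm_div, norm_one, norm_norm, one_div, inv_mul_cancel₀ (hn0 u hu)]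
  let G : X → R3 := fun x => N (F' (j x) x)
  have hG1 : ∀ x ∈ K, ∀ i, φ i x ≠ 0 → G x = N (F' i x) := by
    intro x hx i hi
    simp only [G]
    rw [hF3.tr i (j x) x hx hi (hj x)]
    exact hN1 _ _ (hT.ne _ _ x hx)
  have hG2 : ContinuousOn G K := by
    intro x hx
    have h5 : ContinuousWithinAt (F' (j x)) {y | y ∈ K ∧ φ (j x) y ≠ 0} x :=
      hF3.con (j x) x ⟨hx, hj x⟩
    have h6 : ContinuousWithinAt (fun y => N (F' (j x) y)) {y | y ∈ K ∧ φ (j x) y ≠ 0} x :=
      (hN2 _ (hF3.ne (j x) x hx (hj x))).comp_continuousWithinAt h5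
    have h7 : IsOpen {y | φ (j x) y ≠ 0} := (hφ1 (j x)).isOpen_preimage _ isOpen_ne
    have h8 : ContinuousWithinAt (fun y => N (F' (j x) y)) K x := by
      have : {y | y ∈ K ∧ φ (j x) y ≠ 0} = K ∩ {y | φ (j x) y ≠ 0} := rfl
      rw [this] at h6
      exact (continuousWithinAt_inter (h7.mem_nhds (hj x))).1 h6
    refine h8.congr_of_eventuallyEq ?_ (hG1 x hx _ (hj x))
    filter_upwards [self_mem_nhdsWithin, mem_nhdsWithin_of_mem_nhds (h7.mem_nhds (hj x))] with y hy hy2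
    exact hG1 y hy _ hy2
  have hG3 : ∀ x ∈ K, ‖G x‖ = 1 := fun x hx => hN3 _ (hF3.ne (j x) x hx (hj x))
  have hG4 : ∀ x ∈ L, G x = hp (v x) := by
    intro x hx
    obtain ⟨z, hz, hz2⟩ := hF2 (j x) x hx (hj x)
    have hz0 : z ≠ 0 := by
      intro h
      rw [h, norm_zero] at hz
      norm_num at hz
    simp only [G]
    rw [hF4 (j x) x hx (hj x), hz2, hN1 z _ hz0]
    simp only [N]
    rw [hpn, hlin.unit, div_one, one_smul]
  -- the norm
  obtain ⟨l, hl⟩ := ContinuousMap.exists_restrict_eq (Y := ℝ) hL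
    ⟨fun x : L => Real.log ‖f x‖, by
      refine Continuous.log (continuous_norm.comp (continuousOn_iff_continuous_domRestrict.1 hf)) ?_
      intro x
      exact norm_ne_zero_iff.2 (hf0 x x.2)⟩
  have hl2 : ∀ x ∈ L, l x = Real.log ‖f x‖ := fun x hx => by
    have := congrArg (fun g : C(L, ℝ) => g ⟨x, hx⟩) hl
    exact this
  refine ⟨fun x => Real.exp (l x) • G x, ?_, ?_, ?_⟩
  · exact (Real.continuous_exp.comp l.continuous).continuousOn.smul hG2
  · intro x hx h
    have h5 := congrArg norm h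
    rw [norm_smul, hG3 x hx, mul_one, norm_zero, Real.norm_eq_abs, abs_of_pos (Real.exp_pos _)] at h5
    exact (Real.exp_pos _).ne' h5
  · intro x hx
    simp only
    rw [hl2 x hx, Real.exp_log (norm_pos_iff.2 (hf0 x hx)), hG4 x hx]
    exact (hfv x hx).symm

end BBH
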