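import Pool.Agent.BBH.StmtsD

/-!
# BBH: sections of the line bundle extend
-/

set_option autoImplicit false

namespace BBH

open Set Topology CTO

namespace EXS

/-- `ℂ × ℂ` to `R4` -/
noncomputable def toR (v : ℂ × ℂ) : R4 := ![v.1.re, v.1.im, v.2.re, v.2.im]

/-- `R4` to `ℂ × ℂ` -/
noncomputable def ofR (y : R4) : ℂ × ℂ := (⟨y 0, y 1⟩, ⟨y 2, y 3⟩)

theorem ofR_toR (v : ℂ × ℂ) : ofR (toR v) = v := by
  refine Prod.ext ?_ ?_ <;> apply Complex.ext <;> simp [ofR, toR]

theorem toR_ofR (y : R4) : toR (ofR y) = y := by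
  funext i
  fin_cases i <;> simp [ofR, toR]

theorem toR_cont : Continuous toR := by
  refine continuous_pi fun i => ?_
  fin_cases i
  · exact Complex.continuous_re.comp continuous_fst
  · exact Complex.continuous_im.comp continuous_fst
  · exact Complex.continuous_re.comp continuous_snd
  · exact Complex.continuous_im.comp continuous_snd

theorem ofR_cont : Continuous ofR := by
  have h : ∀ i j : Fin 4, Continuous fun y : R4 => (⟨y i, y j⟩ : ℂ) := by
    intro i j
    have h1 : (fun y : R4 => (⟨y i, y j⟩ : ℂ)) = fun y : R4 => (y i : ℂ) + (y j : ℂ) * Complex.I := by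
      funext y
      exact Complex.mk_eq_add_mul_I _ _
    rw [h1]
    exact (Complex.continuous_ofReal.comp (continuous_apply i)).add
      ((Complex.continuous_ofReal.comp (continuous_apply j)).mul continuous_const)
  exact (h 0 1).prodMk (h 2 3)

theorem toR_ne {v : ℂ × ℂ} (h : v ≠ 0) : toR v ≠ 0 := by
  intro h1
  apply h
  rw [← ofR_toR v, h1]
  refine Prod.ext ?_ ?_ <;> apply Complex.ext <;> simp [ofR]

theorem ofR_ne {y : R4} (h : y ≠ 0) : ofR y ≠ 0 := by
  intro h1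
  apply h
  rw [← toR_ofR y, h1]
  funext i
  fin_cases i <;> simp [toR]

variable {X : Type} [MetricSpace X] [CompactSpace X]

open Classical in
/-- one step -/
theorem step (hE : S_EXT4) (hX : ShrLE X 3) {n : ℕ} {K S : Set X} {φ : Fin n → X → ℝ}
    {g : Fin n → Fin n → X → ℂ} {F : Fin n → X → ℂ × ℂ} (hK : IsClosed K) (hS : IsClosed S)
    (hT : Trn K φ g) (hF : Sct S φ g F) (i : Fin n) (c : ℝ) (hc : 0 < c) :
    ∃ F' : Fin n → X → ℂ × ℂ, Sct (S ∪ {x | x ∈ K ∧ c ≤ φ i x}) φ g F' ∧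
      ∀ j, ∀ x ∈ S, F' j x = F j x := by
  have hKi : IsClosed {x | x ∈ K ∧ c ≤ φ i x} :=
    hK.inter (isClosed_le continuous_const (hT.con i))
  have hne : ∀ x, c ≤ φ i x → φ i x ≠ 0 := fun x hx => (lt_of_lt_of_le hc hx).ne'
  obtain ⟨Fh, hFc, hFn, hFe⟩ := hE X hX (S ∩ {x | x ∈ K ∧ c ≤ φ i x}) (fun x => toR (F i x))
    (hS.inter hKi)
    (toR_cont.comp_continuousOn ((hF.con i).mono fun x hx => ⟨hx.1, hne x hx.2.2⟩))
    (fun x hx => toR_ne (hF.ne i x hx.1 (hne x hx.2.2)))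
  set G : X → ℂ × ℂ := fun x => ofR (Fh x) with hG
  have hGc : Continuous G := ofR_cont.comp hFc
  have hGn : ∀ x, G x ≠ 0 := fun x => ofR_ne (hFn x)
  have hGe : ∀ x, x ∈ S → x ∈ K → c ≤ φ i x → G x = F i x := by
    intro x h1 h2 h3
    have h4 : Fh x = toR (F i x) := hFe ⟨h1, h2, h3⟩
    show ofR (Fh x) = F i x
    rw [h4, ofR_toR]
  let F' : Fin n → X → ℂ × ℂ := fun j x => if x ∈ S then F j x else g i j x • G x
  have h1 : ∀ j, ∀ x ∈ S, F' j x = F j x := fun j x hx => if_pos hx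
  have h2 : ∀ j x, x ∈ K → c ≤ φ i x → φ j x ≠ 0 → F' j x = g i j x • G x := by
    intro j x hxK hx hj
    by_cases hxS : x ∈ S
    · rw [h1 j x hxS, hGe x hxS hxK hx]
      exact hF.tr i j x hxS (hne x hx) hj
    · exact if_neg hxS
  refine ⟨F', ⟨fun j => ?_, fun j x hx hj => ?_, fun j k x hx hj hk => ?_⟩, h1⟩
  · have hset : {x | x ∈ S ∪ {x | x ∈ K ∧ c ≤ φ i x} ∧ φ j x ≠ 0} =
        {x | x ∈ S ∧ φ j x ≠ 0} ∪ {x | (x ∈ K ∧ c ≤ φ i x) ∧ φ j x ≠ 0} := by
      ext x
      simp only [mem_union, Set.mem_ofPred_eq]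
      tauto
    rw [hset]
    have hA : ContinuousOn (F' j) {x | x ∈ S ∧ φ j x ≠ 0} :=
      (hF.con j).congr fun x hx => h1 j x hx.1
    have hB : ContinuousOn (F' j) {x | (x ∈ K ∧ c ≤ φ i x) ∧ φ j x ≠ 0} := by
      have h3 : ContinuousOn (fun x => g i j x • G x)
          {x | (x ∈ K ∧ c ≤ φ i x) ∧ φ j x ≠ 0} := by
        refine ContinuousOn.smul ((hT.cg i j).mono fun x hx => ?_) hGc.continuousOn
        exact ⟨hx.1.1, hne x hx.1.2, hx.2⟩
      exact h3.congr fun x hx => h2 j x hx.1.1 hx.1.2 hx.2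
    intro x hx
    have hj : φ j x ≠ 0 := by
      rcases hx with h | h
      · exact h.2
      · exact h.2
    refine ContinuousWithinAt.union ?_ ?_
    · by_cases h : x ∈ S
      · exact hA x ⟨h, hj⟩
      · refine continuousWithinAt_of_notMem_closure fun h' => h ?_
        exact closure_minimal (fun y hy => hy.1) hS h'
    · by_cases h : x ∈ K ∧ c ≤ φ i x
      · exact hB x ⟨h, hj⟩
      · refine continuousWithinAt_of_notMem_closure fun h' => h ?_
        exact closure_minimal (fun y hy => hy.1) hKi h'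
  · by_cases hxS : x ∈ S
    · rw [h1 j x hxS]
      exact hF.ne j x hxS hj
    · obtain ⟨hxK, hxi⟩ : x ∈ K ∧ c ≤ φ i x := hx.resolve_left hxS
      rw [h2 j x hxK hxi hj]
      exact smul_ne_zero (hT.ne i j x hxK) (hGn x)
  · by_cases hxS : x ∈ S
    · rw [h1 j x hxS, h1 k x hxS]
      exact hF.tr j k x hxS hj hk
    · obtain ⟨hxK, hxi⟩ : x ∈ K ∧ c ≤ φ i x := hx.resolve_left hxS
      rw [h2 j x hxK hxi hj, h2 k x hxK hxi hk, smul_smul,
        ← hT.mul i j k x hxK (hne x hxi) hj hk, mul_comm]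

theorem main (hE : S_EXT4) : S_EXS := by
  intro X _ _ hX n K L φ g F hK hL hLK hT hF
  have key : ∀ s : Finset (Fin n), ∃ S : Set X, IsClosed S ∧ S ⊆ K ∧ L ⊆ S ∧
      (∀ j ∈ s, ∀ x ∈ K, 1 / (n : ℝ) ≤ φ j x → x ∈ S) ∧
      ∃ F' : Fin n → X → ℂ × ℂ, Sct S φ g F' ∧ ∀ j, ∀ x ∈ L, F' j x = F j x := by
    intro s
    classical
    induction s using Finset.induction_on with
    | empty =>
      exact ⟨L, hL, hLK, Subset.rfl, fun j hj => absurd hj (Finset.notMem_empty j), F, hF,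
        fun _ _ _ => rfl⟩
    | insert i s _ ih =>
      obtain ⟨S, h1, h2, h3, h4, F1, h5, h6⟩ := ih
      have hn : 0 < n := Fin.pos i
      have hc : 0 < 1 / (n : ℝ) := by positivity
      obtain ⟨F2, h7, h8⟩ := step hE hX hK h1 hT h5 i (1 / (n : ℝ)) hc
      refine ⟨S ∪ {x | x ∈ K ∧ 1 / (n : ℝ) ≤ φ i x}, ?_, ?_, h3.trans subset_union_left, ?_, F2,
        h7, fun j x hx => ?_⟩
      · exact h1.union (hK.inter (isClosed_le continuous_const (hT.con i)))
      · exact union_subset h2 fun x hx => hx.1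
      · intro j hj x hx hjx
        rcases Finset.mem_insert.1 hj with rfl | hj
        · exact Or.inr ⟨hx, hjx⟩
        · exact Or.inl (h4 j hj x hx hjx)
      · rw [h8 j x (h3 hx), h6 j x hx]
  obtain ⟨S, h1, h2, h3, h4, F', h5, h6⟩ := key Finset.univ
  have hKS : K ⊆ S := by
    intro x hx
    by_contra hxS
    have h7 : ∀ j, φ j x < 1 / (n : ℝ) := by
      intro j
      by_contra h8
      exact hxS (h4 j (Finset.mem_univ j) x hx (not_lt.1 h8))
    have h9 := hT.sum x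
    rcases Nat.eq_zero_or_pos n with rfl | hn
    · simp at h9
    · have h10 : ∑ j, φ j x < ∑ _j : Fin n, 1 / (n : ℝ) :=
        Finset.sum_lt_sum_of_nonempty ⟨⟨0, hn⟩, Finset.mem_univ _⟩ fun j _ => h7 j
      have hn' : (n : ℝ) ≠ 0 := by
        have : (0 : ℝ) < n := by exact_mod_cast hn
        exact this.ne'
      rw [h9, Finset.sum_const, Finset.card_univ, Fintype.card_fin, nsmul_eq_mul,
        mul_one_div, div_self hn'] at h10
      exact lt_irrefl _ h10
  have hSK : S = K := Subset.antisymm h2 hKS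
  subst hSK
  exact ⟨F', h5, fun j x hx _ => h6 j x hx⟩

end EXS

theorem t_EXS : M_EXS := fun h => EXS.main h

end BBH
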