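import Pool.Agent.BBH.StmtsD

/-!
# BBH, FGD: finitely generated divisible abelian groups are trivial
-/

set_option autoImplicit false

namespace BBH

namespace FGD

/-- a divisible group killed by a positive integer is trivial -/
theorem of_killed {A : Type} [AddCommGroup A]
    (h : ∀ p : ℕ, p.Prime → ∀ a : A, ∃ b : A, a = (p : ℤ) • b) :
    ∀ n : ℕ, 0 < n → (∀ a : A, (n : ℤ) • a = 0) → ∀ a : A, a = 0 := by
  intro n
  induction n using Nat.strong_induction_on with
  | _ n ih =>
    intro hn hk a
    by_cases h1 : n = 1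
    · have h2 := hk a
      rw [h1] at h2
      simpa using h2
    · have hp := Nat.minFac_prime h1
      obtain ⟨m, hm⟩ := Nat.minFac_dvd n
      have hm0 : 0 < m := by
        rcases Nat.eq_zero_or_pos m with h0 | h0
        · rw [h0, mul_zero] at hm
          omega
        · exact h0
      have hmn : m < n := by
        have h3 := hp.two_le
        calc m < 2 * m := by omega
          _ ≤ n.minFac * m := Nat.mul_le_mul_right m h3
          _ = n := hm.symm
      refine ih m hmn hm0 (fun a' => ?_) a
      obtain ⟨b, hb⟩ := h _ hp a'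
      rw [hb, smul_smul]
      have h4 : (m : ℤ) * (n.minFac : ℤ) = (n : ℤ) := by
        rw [mul_comm]
        exact_mod_cast hm.symm
      rw [h4]
      exact hk b

end FGD

theorem t_FGD : S_FGD := by
  intro A _ _ h
  have hle : (⊤ : Submodule ℤ A) ≤ Ideal.span {(2 : ℤ)} • (⊤ : Submodule ℤ A) := by
    intro a _
    obtain ⟨b, hb⟩ := h 2 Nat.prime_two a
    rw [hb]
    exact Submodule.smul_mem_smul (Ideal.mem_span_singleton_self _) Submodule.mem_top
  obtain ⟨r, hr, hr0⟩ := Submodule.exists_sub_one_mem_and_smul_eq_zero_of_fg_of_le_smul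
    (Ideal.span {(2 : ℤ)}) (⊤ : Submodule ℤ A) Module.Finite.fg_top hle
  rw [Ideal.mem_span_singleton] at hr
  have hr1 : r ≠ 0 := by
    rintro rfl
    omega
  refine FGD.of_killed h r.natAbs (Int.natAbs_pos.2 hr1) (fun a => ?_)
  rcases Int.natAbs_eq r with h1 | h1
  · rw [← h1]
    exact hr0 a Submodule.mem_top
  · have h2 : ((r.natAbs : ℕ) : ℤ) = -r := by omega
    rw [h2, neg_smul, hr0 a Submodule.mem_top, neg_zero]

end BBH
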