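import Pool.Agent.BBH.StmtsD

/-!
# BBH, GNX: good sets exist
-/

set_option autoImplicit false

namespace BBH

open Set Topology CTO

theorem t_GNX : M_GNX := by
  intro hLPX hPRM hSRJ hNZA hNZB hGNB X _ _ hA hH h3 h2 x N hN hx
  obtain ⟨p, V, hp, hV, hv⟩ := hPRM X hA h3 h2
  have : Fact p.Prime := ⟨hp⟩
  have : NeZero p := ⟨hp.ne_zero⟩
  have hSj : Sj (ZMod p) X := hSRJ (ZMod p) X hA hH h3
  have hnz : ∀ x : X, NZat (ZMod p) x := hNZA (ZMod p) X hH h3 ⟨V, hV, hv⟩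
  have : LocallyPathConnectedSpace X := (hLPX X hA).1
  obtain ⟨B, hBN, hxB, hB⟩ := hNZB (ZMod p) X inferInstance hSj hnz x N hN hx
  exact ⟨B, hBN, hxB, hGNB (ZMod p) X hSj B hB⟩

end BBH
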