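import Pool.Agent.BBH.StmtsD

/-!
# BBH: module HPF (facts on the Hopf map)
-/

set_option autoImplicit false

namespace BBH

open Set Topology CTO

namespace HPF

theorem hp_zero (v : ℂ × ℂ) : hp v 0 = 2 * (v.1 * (starRingEnd ℂ) v.2).re := rfl
theorem hp_one (v : ℂ × ℂ) : hp v 1 = 2 * (v.1 * (starRingEnd ℂ) v.2).im := rfl
theorem hp_two (v : ℂ × ℂ) : hp v 2 = ‖v.1‖ ^ 2 - ‖v.2‖ ^ 2 := rfl

theorem ext3 {x y : R3} (h0 : x 0 = y 0) (h1 : x 1 = y 1) (h2 : x 2 = y 2) : x = y := by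
  ext i
  fin_cases i
  · exact h0
  · exact h1
  · exact h2

theorem nsq (z : ℂ) : ‖z‖ ^ 2 = z.re ^ 2 + z.im ^ 2 := by
  rw [Complex.sq_norm, Complex.normSq_apply]
  ring

theorem norm3 (x : R3) : ‖x‖ ^ 2 = x 0 ^ 2 + x 1 ^ 2 + x 2 ^ 2 := by
  rw [EuclideanSpace.norm_eq, Real.sq_sqrt (by positivity), Fin.sum_univ_three]
  simp

theorem cont : Continuous hp := by
  unfold hp
  apply (PiLp.continuous_toLp 2 _).comp
  refine continuous_pi ?_
  intro i
  fin_cases i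
  · change Continuous fun v : ℂ × ℂ => 2 * (v.1 * (starRingEnd ℂ) v.2).re
    exact continuous_const.mul (Complex.continuous_re.comp
      (continuous_fst.mul (Complex.continuous_conj.comp continuous_snd)))
  · change Continuous fun v : ℂ × ℂ => 2 * (v.1 * (starRingEnd ℂ) v.2).im
    exact continuous_const.mul (Complex.continuous_im.comp
      (continuous_fst.mul (Complex.continuous_conj.comp continuous_snd)))
  · change Continuous fun v : ℂ × ℂ => ‖v.1‖ ^ 2 - ‖v.2‖ ^ 2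
    exact ((continuous_fst.norm).pow 2).sub ((continuous_snd.norm).pow 2)

theorem norm_hp (v : ℂ × ℂ) : ‖hp v‖ = ‖v.1‖ ^ 2 + ‖v.2‖ ^ 2 := by
  have h : ‖hp v‖ ^ 2 = (‖v.1‖ ^ 2 + ‖v.2‖ ^ 2) ^ 2 := by
    rw [norm3, hp_zero, hp_one, hp_two, nsq, nsq]
    simp only [Complex.mul_re, Complex.mul_im, Complex.conj_re, Complex.conj_im]
    ring
  exact (sq_eq_sq₀ (norm_nonneg _) (by positivity)).1 h

theorem hp_smul (z : ℂ) (v : ℂ × ℂ) : hp (z • v) = (‖z‖ ^ 2) • hp v := by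
  apply ext3
  · rw [PiLp.smul_apply, smul_eq_mul, hp_zero, hp_zero, nsq]
    simp only [Prod.smul_fst, Prod.smul_snd, smul_eq_mul, Complex.mul_re, Complex.mul_im, Complex.conj_re,
      Complex.conj_im]
    ring
  · rw [PiLp.smul_apply, smul_eq_mul, hp_one, hp_one, nsq]
    simp only [Prod.smul_fst, Prod.smul_snd, smul_eq_mul, Complex.mul_re, Complex.mul_im, Complex.conj_re,
      Complex.conj_im]
    ring
  · rw [PiLp.smul_apply, smul_eq_mul, hp_two, hp_two]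
    simp only [Prod.smul_fst, Prod.smul_snd, smul_eq_mul, norm_mul]
    ring

theorem surj (y : R3) : ∃ v, hp v = y := by
  have hn := norm3 y
  have hny : 0 ≤ ‖y‖ := norm_nonneg y
  have h0 : 0 ≤ ‖y‖ + y 2 := by
    nlinarith [sq_nonneg (y 0), sq_nonneg (y 1), sq_nonneg (‖y‖ + y 2), sq_nonneg (‖y‖ - y 2)]
  rcases eq_or_lt_of_le h0 with h1 | h1
  · have h2 : y 2 = -‖y‖ := by linarith
    have h3 : y 0 ^ 2 + y 1 ^ 2 = 0 := by
      rw [h2] at hn
      nlinarith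
    have h4 : y 0 = 0 := by nlinarith [sq_nonneg (y 0), sq_nonneg (y 1)]
    have h5 : y 1 = 0 := by nlinarith [sq_nonneg (y 0), sq_nonneg (y 1)]
    refine ⟨(0, ((Real.sqrt ‖y‖ : ℝ) : ℂ)), ?_⟩
    apply ext3
    · rw [hp_zero, h4]
      simp
    · rw [hp_one, h5]
      simp
    · rw [hp_two, h2]
      simp only [norm_zero, Complex.norm_real, Real.norm_eq_abs, sq_abs]
      rw [Real.sq_sqrt hny]
      ring
  · set s : ℝ := Real.sqrt ((‖y‖ + y 2) / 2) with hs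
    have hs0 : 0 < s := Real.sqrt_pos.2 (by linarith)
    have hs2 : s ^ 2 = (‖y‖ + y 2) / 2 := Real.sq_sqrt (by linarith)
    refine ⟨((s : ℂ), ⟨y 0 / (2 * s), -(y 1 / (2 * s))⟩), ?_⟩
    apply ext3
    · rw [hp_zero]
      simp only [Complex.mul_re, Complex.conj_re, Complex.conj_im, Complex.ofReal_re, Complex.ofReal_im]
      field_simp
      ring
    · rw [hp_one]
      simp only [Complex.mul_im, Complex.conj_re, Complex.conj_im, Complex.ofReal_re, Complex.ofReal_im]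
      field_simp
      ring
    · rw [hp_two, nsq, nsq]
      simp only [Complex.ofReal_re, Complex.ofReal_im]
      have h6 : (y 0 / (2 * s)) ^ 2 + (-(y 1 / (2 * s))) ^ 2 = (‖y‖ - y 2) / 2 := by
        have h7 : (y 0 / (2 * s)) ^ 2 + (-(y 1 / (2 * s))) ^ 2 = (y 0 ^ 2 + y 1 ^ 2) / (4 * s ^ 2) := by
          field_simp
          ring
        rw [h7, hs2, div_eq_iff (by linarith)]
        nlinarith
      rw [h6, hs2]
      ring

theorem fib (v w : ℂ × ℂ) (h : hp v = hp w) : ∃ z : ℂ, ‖z‖ = 1 ∧ w = z • v := by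
  have h0 := congrArg (fun x : R3 => x 0) h
  have h1 := congrArg (fun x : R3 => x 1) h
  have h2 := congrArg (fun x : R3 => x 2) h
  have h3 := congrArg (fun x : R3 => ‖x‖) h
  simp only [hp_zero, hp_one, hp_two, norm_hp] at h0 h1 h2 h3
  have hp' : v.1 * (starRingEnd ℂ) v.2 = w.1 * (starRingEnd ℂ) w.2 := by
    apply Complex.ext
    · linarith
    · linarith
  have ha : ‖v.1‖ = ‖w.1‖ := by
    have : ‖v.1‖ ^ 2 = ‖w.1‖ ^ 2 := by linarith
    exact (sq_eq_sq₀ (norm_nonneg _) (norm_nonneg _)).1 this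
  have hb : ‖v.2‖ = ‖w.2‖ := by
    have : ‖v.2‖ ^ 2 = ‖w.2‖ ^ 2 := by linarith
    exact (sq_eq_sq₀ (norm_nonneg _) (norm_nonneg _)).1 this
  by_cases hv : v.1 = 0
  · have hw : w.1 = 0 := by
      rw [hv, norm_zero] at ha
      exact norm_eq_zero.1 ha.symm
    by_cases hv2 : v.2 = 0
    · have hw2 : w.2 = 0 := by
        rw [hv2, norm_zero] at hb
        exact norm_eq_zero.1 hb.symm
      refine ⟨1, norm_one, ?_⟩
      rw [one_smul]
      exact Prod.ext (by rw [hv, hw]) (by rw [hv2, hw2])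
    · refine ⟨w.2 / v.2, ?_, ?_⟩
      · rw [norm_div, hb, div_self]
        rw [← hb]
        exact norm_ne_zero_iff.2 hv2
      · apply Prod.ext
        · rw [Prod.smul_fst, hv, hw, smul_zero]
        · rw [Prod.smul_snd, smul_eq_mul, div_mul_cancel₀ _ hv2]
  · have hw : w.1 ≠ 0 := by
      intro hw
      rw [hw, norm_zero] at ha
      exact hv (norm_eq_zero.1 ha)
    have hz : ‖w.1 / v.1‖ = 1 := by
      rw [norm_div, ha, div_self]
      exact norm_ne_zero_iff.2 hw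
    refine ⟨w.1 / v.1, hz, ?_⟩
    apply Prod.ext
    · rw [Prod.smul_fst, smul_eq_mul, div_mul_cancel₀ _ hv]
    · rw [Prod.smul_snd, smul_eq_mul]
      -- conjugate
      have h5 : (starRingEnd ℂ) w.2 = (starRingEnd ℂ) (w.1 / v.1 * v.2) := by
        have hzz : (w.1 / v.1) * (starRingEnd ℂ) (w.1 / v.1) = 1 := by
          rw [Complex.mul_conj, Complex.normSq_eq_norm_sq, hz]
          simp
        rw [map_mul]
        have h6 : w.1 * (starRingEnd ℂ) w.2 =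
            w.1 * ((starRingEnd ℂ) (w.1 / v.1) * (starRingEnd ℂ) v.2) := by
          rw [← hp']
          calc v.1 * (starRingEnd ℂ) v.2 =
              v.1 * ((w.1 / v.1) * (starRingEnd ℂ) (w.1 / v.1)) * (starRingEnd ℂ) v.2 := by
                rw [hzz, mul_one]
            _ = (v.1 * (w.1 / v.1)) * ((starRingEnd ℂ) (w.1 / v.1) * (starRingEnd ℂ) v.2) := by ring
            _ = w.1 * ((starRingEnd ℂ) (w.1 / v.1) * (starRingEnd ℂ) v.2) := by
                rw [mul_div_cancel₀ _ hv]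
        exact mul_left_cancel₀ hw h6
      exact (starRingEnd ℂ).injective h5

/-- the projection -/
noncomputable def Q (x : R3 × (ℂ × ℂ)) : ℂ × ℂ :=
  (((1 + x.1 2) / 2 : ℝ) * x.2.1 + ((x.1 0 / 2 : ℝ) + (x.1 1 / 2 : ℝ) * Complex.I) * x.2.2,
    ((x.1 0 / 2 : ℝ) - (x.1 1 / 2 : ℝ) * Complex.I) * x.2.1 + ((1 - x.1 2) / 2 : ℝ) * x.2.2)

theorem coord_cont (i : Fin 3) : Continuous fun x : R3 × (ℂ × ℂ) => x.1 i :=
  (EuclideanSpace.proj (𝕜 := ℝ) i).continuous.comp continuous_fst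

theorem Q_cont : Continuous Q := by
  have c0 := coord_cont 0
  have c1 := coord_cont 1
  have c2 := coord_cont 2
  have d1 : Continuous fun x : R3 × (ℂ × ℂ) => x.2.1 := continuous_fst.comp continuous_snd
  have d2 : Continuous fun x : R3 × (ℂ × ℂ) => x.2.2 := continuous_snd.comp continuous_snd
  have e2 : Continuous fun x : R3 × (ℂ × ℂ) => (((1 + x.1 2) / 2 : ℝ) : ℂ) :=
    Complex.continuous_ofReal.comp ((continuous_const.add c2).div_const 2)
  have e3 : Continuous fun x : R3 × (ℂ × ℂ) => (((1 - x.1 2) / 2 : ℝ) : ℂ) :=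
    Complex.continuous_ofReal.comp ((continuous_const.sub c2).div_const 2)
  have e0 : Continuous fun x : R3 × (ℂ × ℂ) => ((x.1 0 / 2 : ℝ) : ℂ) :=
    Complex.continuous_ofReal.comp (c0.div_const 2)
  have e1 : Continuous fun x : R3 × (ℂ × ℂ) => ((x.1 1 / 2 : ℝ) : ℂ) :=
    Complex.continuous_ofReal.comp (c1.div_const 2)
  unfold Q
  exact ((e2.mul d1).add ((e0.add (e1.mul continuous_const)).mul d2)).prodMk
    (((e0.sub (e1.mul continuous_const)).mul d1).add (e3.mul d2))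

theorem Q_eq (v u : ℂ × ℂ) (hv : ‖v.1‖ ^ 2 + ‖v.2‖ ^ 2 = 1) : Q (hp v, u) = ip v u • v := by
  have h1 : (1 + hp v 2) / 2 = ‖v.1‖ ^ 2 := by rw [hp_two]; linarith
  have h2 : (1 - hp v 2) / 2 = ‖v.2‖ ^ 2 := by rw [hp_two]; linarith
  have h3 : hp v 0 / 2 = (v.1 * (starRingEnd ℂ) v.2).re := by rw [hp_zero]; ring
  have h4 : hp v 1 / 2 = (v.1 * (starRingEnd ℂ) v.2).im := by rw [hp_one]; ring
  have h5 : ((v.1 * (starRingEnd ℂ) v.2).re : ℂ) + ((v.1 * (starRingEnd ℂ) v.2).im : ℂ) * Complex.I =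
      v.1 * (starRingEnd ℂ) v.2 := Complex.re_add_im _
  have h6 : ((v.1 * (starRingEnd ℂ) v.2).re : ℂ) - ((v.1 * (starRingEnd ℂ) v.2).im : ℂ) * Complex.I =
      (starRingEnd ℂ) v.1 * v.2 := by
    have := Complex.re_add_im ((starRingEnd ℂ) (v.1 * (starRingEnd ℂ) v.2))
    rw [Complex.conj_re, Complex.conj_im, map_mul, Complex.conj_conj] at this
    rw [← this]
    push_cast
    ring
  have h7 : ((‖v.1‖ ^ 2 : ℝ) : ℂ) = v.1 * (starRingEnd ℂ) v.1 := by
    rw [Complex.mul_conj, Complex.normSq_eq_norm_sq]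
  have h8 : ((‖v.2‖ ^ 2 : ℝ) : ℂ) = v.2 * (starRingEnd ℂ) v.2 := by
    rw [Complex.mul_conj, Complex.normSq_eq_norm_sq]
  unfold Q ip
  simp only [h1, h2, h3, h4]
  rw [h5, h6, h7, h8]
  apply Prod.ext
  · rw [Prod.smul_fst, smul_eq_mul]
    ring
  · rw [Prod.smul_snd, smul_eq_mul]
    ring

theorem ident (v w : ℂ × ℂ) : 4 * ‖ip v w‖ ^ 2 + ‖hp v - hp w‖ ^ 2 =
    (‖v.1‖ ^ 2 + ‖v.2‖ ^ 2 + (‖w.1‖ ^ 2 + ‖w.2‖ ^ 2)) ^ 2 := by
  rw [norm3, PiLp.sub_apply, PiLp.sub_apply, PiLp.sub_apply, hp_zero, hp_one, hp_two, hp_zero, hp_one, hp_two]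
  simp only [nsq, ip, Complex.mul_re, Complex.mul_im, Complex.conj_re, Complex.conj_im, Complex.add_re,
    Complex.add_im]
  ring

theorem close (v w : ℂ × ℂ) (hv : ‖v.1‖ ^ 2 + ‖v.2‖ ^ 2 = 1) (hw : ‖w.1‖ ^ 2 + ‖w.2‖ ^ 2 = 1)
    (hd : ‖hp v - hp w‖ < 2) : ∃ z : ℂ, ‖z‖ = 1 ∧ ‖z • w - v‖ ^ 2 ≤ ‖hp v - hp w‖ ^ 2 / 2 := by
  have h1 := ident v w
  rw [hv, hw] at h1
  set q : ℝ := ‖ip v w‖ with hq
  set D : ℝ := ‖hp v - hp w‖ with hD
  have hD0 : 0 ≤ D := norm_nonneg _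
  have hq0 : 0 ≤ q := norm_nonneg _
  have hqpos : 0 < q := by
    rcases eq_or_lt_of_le hq0 with h2 | h2
    · exfalso
      rw [← h2] at h1
      nlinarith
    · exact h2
  have hq1 : q ≤ 1 := by nlinarith [sq_nonneg D]
  have hqc : ((q : ℝ) : ℂ) ≠ 0 := by exact_mod_cast hqpos.ne'
  set z : ℂ := (starRingEnd ℂ) (ip v w) / (q : ℂ) with hz
  have hz1 : ‖z‖ = 1 := by
    rw [hz, norm_div, RCLike.norm_conj, Complex.norm_real, Real.norm_eq_abs, abs_of_pos hqpos, ← hq,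
      div_self hqpos.ne']
  have hzi : z * ip v w = (q : ℂ) := by
    rw [hz, div_mul_eq_mul_div, mul_comm ((starRingEnd ℂ) (ip v w)), Complex.mul_conj,
      Complex.normSq_eq_norm_sq, ← hq, div_eq_iff hqc]
    push_cast
    ring
  have hzi' : (z * ip v w).re = q := by rw [hzi, Complex.ofReal_re]
  have hsum : ‖(z • w - v).1‖ ^ 2 + ‖(z • w - v).2‖ ^ 2 = 2 - 2 * q := by
    have hzz : z.re ^ 2 + z.im ^ 2 = 1 := by rw [← nsq, hz1]; norm_num
    rw [nsq, nsq] at hv hw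
    rw [nsq, nsq]
    simp only [ip, Prod.fst_sub, Prod.snd_sub, Prod.smul_fst, Prod.smul_snd, smul_eq_mul, Complex.sub_re, Complex.sub_im,
      Complex.mul_re, Complex.mul_im, Complex.conj_re, Complex.conj_im, Complex.add_re, Complex.add_im] at hzi' ⊢
    linear_combination hv + hw + (w.1.re ^ 2 + w.1.im ^ 2 + w.2.re ^ 2 + w.2.im ^ 2) * hzz - 2 * hzi'
  refine ⟨z, hz1, ?_⟩
  have hmax : ‖z • w - v‖ ^ 2 ≤ ‖(z • w - v).1‖ ^ 2 + ‖(z • w - v).2‖ ^ 2 := by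
    rw [Prod.norm_def]
    rcases max_cases ‖(z • w - v).1‖ ‖(z • w - v).2‖ with ⟨h2, _⟩ | ⟨h2, _⟩
    · rw [h2]
      nlinarith [sq_nonneg ‖(z • w - v).2‖]
    · rw [h2]
      nlinarith [sq_nonneg ‖(z • w - v).1‖]
  nlinarith

end HPF

open HPF in
theorem t_HPF : S_HPF := by
  refine ⟨cont, norm_hp, hp_smul, surj, fib, ⟨Q, Q_cont, fun v u hv => Q_eq v u hv⟩, ?_⟩
  intro η hη
  refine ⟨min η 1, lt_min hη one_pos, ?_⟩
  intro v w hv hw hd
  have h1 : ‖hp v - hp w‖ < η := lt_of_lt_of_le hd (min_le_left _ _)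
  have h2 : ‖hp v - hp w‖ < 1 := lt_of_lt_of_le hd (min_le_right _ _)
  obtain ⟨z, hz, hz2⟩ := close v w hv hw (by linarith)
  refine ⟨z, hz, ?_⟩
  have h3 := norm_nonneg (hp v - hp w)
  have h4 := norm_nonneg (z • w - v)
  nlinarith

end BBH
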