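import Pool.Agent.BBH.StmtsD

/-!
# BBH, module LNA: the data of the line bundle exist
-/

set_option autoImplicit false

namespace BBH

open Set Topology CTO

namespace LNA

theorem ip_smul_right (z : ℂ) (v w : ℂ × ℂ) : ip v (z • w) = z * ip v w := by
  simp only [ip, Prod.smul_fst, Prod.smul_snd, smul_eq_mul]
  ring

theorem ip_smul_left (z : ℂ) (v w : ℂ × ℂ) : ip (z • v) w = (starRingEnd ℂ) z * ip v w := by
  simp only [ip, Prod.smul_fst, Prod.smul_snd, smul_eq_mul, map_mul]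
  ring

theorem ip_conj (v w : ℂ × ℂ) : ip w v = (starRingEnd ℂ) (ip v w) := by
  simp only [ip, map_add, map_mul, Complex.conj_conj]
  ring

theorem ip_add_right (v w u : ℂ × ℂ) : ip v (w + u) = ip v w + ip v u := by
  simp only [ip, Prod.fst_add, Prod.snd_add]
  ring

theorem ip_self {v : ℂ × ℂ} (hv : ‖v.1‖ ^ 2 + ‖v.2‖ ^ 2 = 1) : ip v v = 1 := by
  have h : ip v v = ((‖v.1‖ ^ 2 + ‖v.2‖ ^ 2 : ℝ) : ℂ) := by
    simp only [ip, Complex.conj_mul']
    push_cast
    ring
  rw [h, hv]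
  simp

theorem fst_le {v : ℂ × ℂ} (hv : ‖v.1‖ ^ 2 + ‖v.2‖ ^ 2 = 1) : ‖v.1‖ ≤ 1 := by
  nlinarith [norm_nonneg v.1, norm_nonneg v.2, sq_nonneg ‖v.2‖]

theorem snd_le {v : ℂ × ℂ} (hv : ‖v.1‖ ^ 2 + ‖v.2‖ ^ 2 = 1) : ‖v.2‖ ≤ 1 := by
  nlinarith [norm_nonneg v.1, norm_nonneg v.2, sq_nonneg ‖v.1‖]

theorem ip_le {v d : ℂ × ℂ} (hv : ‖v.1‖ ^ 2 + ‖v.2‖ ^ 2 = 1) : ‖ip v d‖ ≤ 2 * ‖d‖ := by
  have h1 : ‖ip v d‖ ≤ ‖v.1‖ * ‖d.1‖ + ‖v.2‖ * ‖d.2‖ := by
    refine (norm_add_le _ _).trans ?_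
    simp only [norm_mul, RCLike.norm_conj]
    exact le_refl _
  have h2 := norm_fst_le d
  have h3 := norm_snd_le d
  have h4 := fst_le hv
  have h5 := snd_le hv
  have h6 : ‖v.1‖ * ‖d.1‖ ≤ 1 * ‖d‖ := mul_le_mul h4 h2 (norm_nonneg _) zero_le_one
  have h7 : ‖v.2‖ * ‖d.2‖ ≤ 1 * ‖d‖ := mul_le_mul h5 h3 (norm_nonneg _) zero_le_one
  linarith

theorem ip_near {v w : ℂ × ℂ} (hv : ‖v.1‖ ^ 2 + ‖v.2‖ ^ 2 = 1) : ‖ip v w - 1‖ ≤ 2 * ‖w - v‖ := by
  have h : ip v w - 1 = ip v (w - v) := by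
    have h1 := ip_add_right v v (w - v)
    rw [add_sub_cancel, ip_self hv] at h1
    rw [h1]
    ring
  rw [h]
  exact ip_le hv

theorem unit_smul {z : ℂ} (hz : ‖z‖ = 1) {v : ℂ × ℂ} (hv : ‖v.1‖ ^ 2 + ‖v.2‖ ^ 2 = 1) :
    ‖(z • v).1‖ ^ 2 + ‖(z • v).2‖ ^ 2 = 1 := by
  simp only [Prod.smul_fst, Prod.smul_snd, smul_eq_mul, norm_mul, hz, one_mul]
  exact hv

theorem conj_mul_one {z : ℂ} (hz : ‖z‖ = 1) : (starRingEnd ℂ) z * z = 1 := by
  rw [Complex.conj_mul', hz]
  norm_num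

/-- the product of the three products is near `1` -/
theorem tri {a b c : ℂ × ℂ} (ha : ‖a.1‖ ^ 2 + ‖a.2‖ ^ 2 = 1) (hb : ‖b.1‖ ^ 2 + ‖b.2‖ ^ 2 = 1)
    (hc : ‖c.1‖ ^ 2 + ‖c.2‖ ^ 2 = 1) {z w : ℂ} (hz : ‖z‖ = 1) (hw : ‖w‖ = 1)
    (h1 : ‖z • b - a‖ < 1 / 200) (h2 : ‖w • c - a‖ < 1 / 200) :
    ‖ip a b * ip b c * ip c a - 1‖ ≤ 1 / 8 := by
  have hb' := unit_smul hz hb
  have hc' := unit_smul hw hc
  have e : ip a b * ip b c * ip c a = ip a (z • b) * ip (z • b) (w • c) * ip (w • c) a := by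
    rw [ip_smul_right, ip_smul_left, ip_smul_right, ip_smul_left]
    have e1 := conj_mul_one hz
    have e2 := conj_mul_one hw
    calc ip a b * ip b c * ip c a = 1 * 1 * (ip a b * ip b c * ip c a) := by ring
      _ = ((starRingEnd ℂ) z * z) * ((starRingEnd ℂ) w * w) * (ip a b * ip b c * ip c a) := by
          rw [e1, e2]
      _ = _ := by ring
  rw [e]
  have n1 : ‖ip a (z • b) - 1‖ ≤ 1 / 50 := by
    have := ip_near (w := z • b) ha
    linarith
  have n2 : ‖ip (z • b) (w • c) - 1‖ ≤ 1 / 50 := by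
    have h3 := ip_near (w := w • c) hb'
    have h4 : ‖w • c - z • b‖ ≤ ‖w • c - a‖ + ‖z • b - a‖ := by
      have h5 : w • c - z • b = (w • c - a) - (z • b - a) := by abel
      rw [h5]
      exact norm_sub_le _ _
    linarith
  have n3 : ‖ip (w • c) a - 1‖ ≤ 1 / 50 := by
    have h3 := ip_near (w := a) hc'
    rw [norm_sub_rev] at h2
    linarith
  set P := ip a (z • b)
  set Q := ip (z • b) (w • c)
  set R := ip (w • c) a
  have e3 : P * Q * R - 1 = (P - 1) * (Q * R) + (Q - 1) * R + (R - 1) := by ring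
  have q1 : ‖Q‖ ≤ 51 / 50 := by
    have h5 : Q = (Q - 1) + 1 := by ring
    calc ‖Q‖ = ‖(Q - 1) + 1‖ := by rw [← h5]
      _ ≤ ‖Q - 1‖ + ‖(1 : ℂ)‖ := norm_add_le _ _
      _ ≤ 51 / 50 := by
        rw [norm_one]
        linarith
  have r1 : ‖R‖ ≤ 51 / 50 := by
    have h5 : R = (R - 1) + 1 := by ring
    calc ‖R‖ = ‖(R - 1) + 1‖ := by rw [← h5]
      _ ≤ ‖R - 1‖ + ‖(1 : ℂ)‖ := norm_add_le _ _
      _ ≤ 51 / 50 := by
        rw [norm_one]
        linarith
  rw [e3]
  have m1 : ‖(P - 1) * (Q * R)‖ ≤ 1 / 50 * (51 / 50 * (51 / 50)) := by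
    rw [norm_mul, norm_mul]
    exact mul_le_mul n1 (mul_le_mul q1 r1 (norm_nonneg _) (by norm_num))
      (mul_nonneg (norm_nonneg _) (norm_nonneg _)) (by norm_num)
  have m2 : ‖(Q - 1) * R‖ ≤ 1 / 50 * (51 / 50) := by
    rw [norm_mul]
    exact mul_le_mul n2 r1 (norm_nonneg _) (by norm_num)
  calc ‖(P - 1) * (Q * R) + (Q - 1) * R + (R - 1)‖
      ≤ ‖(P - 1) * (Q * R)‖ + ‖(Q - 1) * R‖ + ‖R - 1‖ := norm_add₃_le
    _ ≤ 1 / 8 := by linarith

/-- a positive multiple of `exp (2 π i θ)` near `1` -/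
theorem ang {θ r : ℝ} (hr : 0 ≤ r)
    (h : ‖(r : ℂ) * Complex.exp (2 * Real.pi * θ * Complex.I) - 1‖ ≤ 1 / 8) :
    |θ - round θ| ≤ 1 / 16 := by
  set s : ℝ := θ - round θ with hs
  have hs2 : |s| ≤ 1 / 2 := abs_sub_round θ
  have e1 : Complex.exp (2 * Real.pi * θ * Complex.I) =
      Complex.exp (((2 * Real.pi * s : ℝ) : ℂ) * Complex.I) := by
    rw [Complex.exp_eq_exp_iff_exists_int]
    refine ⟨round θ, ?_⟩
    rw [hs]
    push_cast
    ring
  rw [e1, Complex.exp_mul_I] at h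
  have hre := (Complex.abs_re_le_norm _).trans h
  have him := (Complex.abs_im_le_norm _).trans h
  rw [← Complex.ofReal_cos, ← Complex.ofReal_sin] at hre him
  simp only [Complex.sub_re, Complex.mul_re, Complex.ofReal_re, Complex.add_re, Complex.I_re,
    mul_zero, Complex.ofReal_im, Complex.I_im, mul_one, sub_zero, Complex.one_re, Complex.add_im,
    Complex.mul_im, zero_mul, add_zero, sub_self, Complex.sub_im, Complex.one_im, zero_add] at hre him
  have h1 := (abs_le.1 hre).1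
  have hpi := Real.pi_pos
  have hcos : 0 < Real.cos (2 * Real.pi * s) := by
    by_contra hc
    push Not at hc
    nlinarith
  have hcos1 := Real.cos_le_one (2 * Real.pi * s)
  have hr2 : 7 / 8 ≤ r := by nlinarith
  have hlt : |2 * Real.pi * s| < Real.pi / 2 := by
    by_contra hc
    push Not at hc
    have h2 : |2 * Real.pi * s| ≤ Real.pi := by
      rw [abs_mul, abs_of_pos (by positivity)]
      nlinarith
    have h3 : Real.cos |2 * Real.pi * s| ≤ 0 :=
      Real.cos_nonpos_of_pi_div_two_le_of_le hc (by linarith)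
    rw [Real.cos_abs] at h3
    linarith
  have hsin : 4 * |s| ≤ |Real.sin (2 * Real.pi * s)| := by
    have h4 := Real.mul_le_sin (abs_nonneg (2 * Real.pi * s)) hlt.le
    have h5 : Real.sin |2 * Real.pi * s| ≤ |Real.sin (2 * Real.pi * s)| := by
      rcases abs_cases (2 * Real.pi * s) with h6 | h6
      · rw [h6.1]
        exact le_abs_self _
      · rw [h6.1, Real.sin_neg]
        exact neg_le_abs _
    have h7 : 2 / Real.pi * |2 * Real.pi * s| = 4 * |s| := by
      rw [abs_mul, abs_of_pos (by positivity : (0 : ℝ) < 2 * Real.pi)]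
      field_simp
      ring
    linarith
  rw [abs_mul, abs_of_nonneg hr] at him
  have h8 : 7 / 8 * (4 * |s|) ≤ r * |Real.sin (2 * Real.pi * s)| :=
    mul_le_mul hr2 hsin (by positivity) hr
  have h9 : 0 ≤ |s| := abs_nonneg s
  linarith

end LNA

open LNA in
theorem t_LNA : M_LNA := by
  intro hH X _ _ L f hL hne hf hf0
  obtain ⟨-, hn, -, hs, -, -, h7⟩ := hH
  obtain ⟨f', he, hu, hi⟩ := exists_extend (φ := fun x => (1 / ‖f x‖) • f x) hL.isCompact hne
    ((continuousOn_const.div hf.norm fun x hx => norm_ne_zero_iff.2 (hf0 x hx)).smul hf)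
  choose v hv using fun x => hs (f' x)
  have hunit : ∀ x, ‖(v x).1‖ ^ 2 + ‖(v x).2‖ ^ 2 = 1 := by
    intro x
    rw [← hn, hv]
    obtain ⟨a, ha, hax⟩ := hi x
    rw [← hax]
    have h0 : ‖f a‖ ≠ 0 := norm_ne_zero_iff.2 (hf0 a ha)
    simp only [norm_smul, norm_div, norm_one, norm_norm]
    field_simp
  obtain ⟨δ, hδ, h8⟩ := h7 (1 / 200) (by norm_num)
  obtain ⟨ρ, hρ, h9⟩ := hu (δ / 2) (by linarith)
  have hnear : ∀ x y, x ∈ Metric.thickening (ρ / 2) L → dist x y < ρ / 2 →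
      ∃ z : ℂ, ‖z‖ = 1 ∧ ‖z • v y - v x‖ < 1 / 200 := by
    intro x y hx hxy
    obtain ⟨a, ha, hxa⟩ := Metric.mem_thickening_iff.1 hx
    refine h8 (v x) (v y) (hunit x) (hunit y) ?_
    rw [hv, hv, ← dist_eq_norm]
    have d1 := h9 a ha x (by linarith)
    have d2 := h9 a ha y (by
      have := dist_triangle_left y a x
      linarith)
    have d3 := dist_triangle_right (f' x) (f' y) (f' a)
    linarith
  have hph : ∀ x y, ip (v x) (v y) = ‖ip (v x) (v y)‖ *
      Complex.exp (2 * Real.pi * ((Complex.arg (ip (v x) (v y)) / (2 * Real.pi) : ℝ) : ℂ) *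
        Complex.I) := by
    intro x y
    have h := Complex.norm_mul_exp_arg_mul_I (ip (v x) (v y))
    have e : (2 * Real.pi * ((Complex.arg (ip (v x) (v y)) / (2 * Real.pi) : ℝ) : ℂ) *
        Complex.I) = (Complex.arg (ip (v x) (v y)) : ℂ) * Complex.I := by
      have hpi : (Real.pi : ℂ) ≠ 0 := by exact_mod_cast Real.pi_ne_zero
      push_cast
      field_simp
    rw [e]
    exact h.symm
  set t : X → X → ℝ := fun x y => Complex.arg (ip (v x) (v y)) / (2 * Real.pi) with ht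
  have hsm : ∀ x y z, [x, y, z] ∈ Small L (ρ / 2) →
      |(t y z - t x z + t x y) - round (t y z - t x z + t x y)| ≤ 1 / 16 := by
    intro x y z hl
    obtain ⟨hl1, hl2⟩ := hl
    obtain ⟨z1, hz1, hz1'⟩ := hnear x y (hl1 x (by simp)) (hl2 x (by simp) y (by simp))
    obtain ⟨z2, hz2, hz2'⟩ := hnear x z (hl1 x (by simp)) (hl2 x (by simp) z (by simp))
    have h := tri (hunit x) (hunit y) (hunit z) hz1 hz2 hz1' hz2'
    have e : ip (v x) (v y) * ip (v y) (v z) * ip (v z) (v x) =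
        ((‖ip (v x) (v y)‖ * ‖ip (v y) (v z)‖ * ‖ip (v x) (v z)‖ : ℝ) : ℂ) *
          Complex.exp (2 * Real.pi * ((t y z - t x z + t x y : ℝ) : ℂ) * Complex.I) := by
      rw [ip_conj (v x) (v z)]
      have e1 := hph x y
      have e2 := hph y z
      have e3 := hph x z
      have e4 : (starRingEnd ℂ) (ip (v x) (v z)) = ‖ip (v x) (v z)‖ *
          Complex.exp (-(2 * Real.pi * (t x z : ℂ) * Complex.I)) := by
        conv_lhs => rw [e3]
        rw [map_mul, Complex.conj_ofReal, ← Complex.exp_conj]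
        congr 2
        simp only [map_mul, Complex.conj_ofReal, Complex.conj_I, map_ofNat]
        ring
      calc ip (v x) (v y) * ip (v y) (v z) * (starRingEnd ℂ) (ip (v x) (v z))
          = (‖ip (v x) (v y)‖ * Complex.exp (2 * Real.pi * (t x y : ℂ) * Complex.I)) *
            (‖ip (v y) (v z)‖ * Complex.exp (2 * Real.pi * (t y z : ℂ) * Complex.I)) *
            (‖ip (v x) (v z)‖ * Complex.exp (-(2 * Real.pi * (t x z : ℂ) * Complex.I))) := by
              rw [e4, ← e1, ← e2]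
        _ = ((‖ip (v x) (v y)‖ : ℂ) * ‖ip (v y) (v z)‖ * ‖ip (v x) (v z)‖) *
            (Complex.exp (2 * Real.pi * (t x y : ℂ) * Complex.I) *
            Complex.exp (2 * Real.pi * (t y z : ℂ) * Complex.I) *
            Complex.exp (-(2 * Real.pi * (t x z : ℂ) * Complex.I))) := by ring
        _ = _ := by
          rw [← Complex.exp_add, ← Complex.exp_add]
          push_cast
          congr 2
          ring
    rw [e] at h
    exact ang (by positivity) h
  refine ⟨v, t, fun x y z => round (t y z - t x z + t x y), ρ / 2, ⟨by linarith, hunit, hph, ?_, ?_,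
    hsm, ?_⟩, ?_⟩
  · have e : (fun x => hp (v x)) = f' := funext hv
    rw [e]
    exact hu
  · intro x y hl
    obtain ⟨hl1, hl2⟩ := hl
    obtain ⟨z1, hz1, hz1'⟩ := hnear x y (hl1 x (by simp)) (hl2 x (by simp) y (by simp))
    intro h0
    have h1 := ip_near (w := z1 • v y) (hunit x)
    rw [ip_smul_right, h0, mul_zero, zero_sub, norm_neg, norm_one] at h1
    linarith
  · intro x y z w hl
    have hc := Small.cl L (ρ / 2)
    have a1 := hsm y z w (hc _ hl _ (by intro u; simp; tauto))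
    have a2 := hsm x z w (hc _ hl _ (by intro u; simp; tauto))
    have a3 := hsm x y w (hc _ hl _ (by intro u; simp; tauto))
    have a4 := hsm x y z (hc _ hl _ (by intro u; simp; tauto))
    simp only [abs_le] at a1 a2 a3 a4
    have h1 : (((round (t z w - t y w + t y z) - round (t z w - t x w + t x z) +
        round (t y w - t x w + t x y) - round (t y z - t x z + t x y) : ℤ)) : ℝ) < 1 := by
      push_cast
      linarith [a1.1, a1.2, a2.1, a2.2, a3.1, a3.2, a4.1, a4.2]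
    have h2 : -1 < (((round (t z w - t y w + t y z) - round (t z w - t x w + t x z) +
        round (t y w - t x w + t x y) - round (t y z - t x z + t x y) : ℤ)) : ℝ) := by
      push_cast
      linarith [a1.1, a1.2, a2.1, a2.2, a3.1, a3.2, a4.1, a4.2]
    have h3 : (round (t z w - t y w + t y z) - round (t z w - t x w + t x z) +
        round (t y w - t x w + t x y) - round (t y z - t x z + t x y) : ℤ) < 1 := by exact_mod_cast h1
    have h4 : -1 < (round (t z w - t y w + t y z) - round (t z w - t x w + t x z) +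
        round (t y w - t x w + t x y) - round (t y z - t x z + t x y) : ℤ) := by exact_mod_cast h2
    show round (t z w - t y w + t y z) - round (t z w - t x w + t x z) +
        round (t y w - t x w + t x y) - round (t y z - t x z + t x y) = 0
    omega
  · intro x hx
    rw [hv, he hx]
    have h0 : ‖f x‖ ≠ 0 := norm_ne_zero_iff.2 (hf0 x hx)
    simp only [smul_smul]
    rw [mul_one_div_cancel h0, one_smul]

end BBH
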