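import Pool.Agent.BBH.StmtsD

/-!
# BBH, PRM: a prime and an open set with nonzero cohomology in degree three
-/

set_option autoImplicit false

namespace BBH

open Set Topology CTO

namespace PRM

/-- a finitely generated subgroup, divisible by all primes, is zero; for submodules over the integers -/
theorem range_zero (hFGD : S_FGD) {N : Type} [AddCommGroup N] [Module ℤ N] (I : Submodule ℤ N)
    (hI : I.FG) (hd : ∀ p : ℕ, p.Prime → ∀ a ∈ I, ∃ b ∈ I, a = (p : ℤ) • b) :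
    ∀ a ∈ I, a = 0 := by
  have h1 : @Module.Finite ℤ I _ _ I.module := Module.Finite.iff_fg.2 hI
  have e : (AddCommGroup.toIntModule I : Module ℤ I) = I.module := Subsingleton.elim _ _
  have h2 : @Module.Finite ℤ I _ _ (AddCommGroup.toIntModule I) := by
    rw [e]
    exact h1
  intro a ha
  have h3 := @hFGD I _ h2 (fun p hp x => by
    obtain ⟨b, hb, hab⟩ := hd p hp x.1 x.2
    refine ⟨⟨b, hb⟩, Subtype.ext ?_⟩
    rw [hab]
    have h4 : ((p : ℤ) • (⟨b, hb⟩ : I) : I).1 = (p : ℤ) • b := by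
      simp
    exact h4.symm) ⟨a, ha⟩
  exact congrArg Subtype.val h3

end PRM

theorem t_PRM : M_PRM := by
  intro hNBH hFIO hZNZ hDVP hFGD X _ _ hX h3 h2
  by_contra hcon
  push Not at hcon
  obtain ⟨V, hVo, hV⟩ := hZNZ X h3 h2
  refine hV fun c hc => ?_
  obtain ⟨W, hW, hWV, hcW⟩ := (hNBH ℤ X c).1 V hVo hc.rel
  have hcyc : CyO 3 W c := ⟨hc.deg, hcW, hc.cyc⟩
  have hsub : W ⊆ V := subset_closure.trans hWV
  have hfg := hFIO.1 ℤ ℤ X hX 3 W V hW hVo hWV hsub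
  have key := PRM.range_zero hFGD _ hfg (fun p hp a ha => by
    obtain ⟨b, rfl⟩ := ha
    obtain ⟨c₁, h₁, rfl⟩ := cls_surj b
    obtain ⟨c', h', hb⟩ := hDVP X p 3 W hp.pos (hcon p W hp hW) c₁ h₁
    refine ⟨ext ℤ ℤ hsub (cls ℤ c' h'), ⟨_, rfl⟩, ?_⟩
    rw [← map_smul, ← cls_smul]
    congr 1
    rw [cls_eq]
    exact hb) (ext ℤ ℤ hsub (cls ℤ c hcyc)) ⟨_, rfl⟩
  rw [ext_cls, cls_eq_zero] at key
  exact key

end BBH
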