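import Pool.Agent.BBH.StmtsD

/-!
# BBH, module SLL: the sections over `L`
-/

set_option autoImplicit false

namespace BBH

open Set Topology CTO

namespace SLL

/-- the point of the unit circle with the argument `r` in full turns -/
noncomputable def ex (r : ℝ) : ℂ := Complex.exp (2 * Real.pi * r * Complex.I)

theorem ex_add (a b : ℝ) : ex (a + b) = ex a * ex b := by
  unfold ex
  rw [← Complex.exp_add]
  congr 1
  push_cast
  ring

theorem ex_int (n : ℤ) : ex n = 1 := by
  unfold ex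
  rw [← Complex.exp_int_mul_two_pi_mul_I n]
  congr 1
  push_cast
  ring

theorem ex_eq (r : ℝ) : ex r = Complex.exp (((2 * Real.pi * r : ℝ) : ℂ) * Complex.I) := by
  unfold ex
  congr 1
  push_cast
  ring

theorem norm_ex (r : ℝ) : ‖ex r‖ = 1 := by
  rw [ex_eq, Complex.norm_exp_ofReal_mul_I]

theorem ex_cont : Continuous ex := by
  unfold ex
  fun_prop

theorem conj_ex (r : ℝ) : (starRingEnd ℂ) (ex r) = ex (-r) := by
  rw [ex_eq, ex_eq, ← Complex.exp_conj, map_mul, Complex.conj_ofReal, Complex.conj_I]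
  congr 1
  push_cast
  ring

theorem arg_ex {a r : ℝ} (ha : 0 < a) (hr : |r| ≤ 1 / 16) :
    Complex.arg ((a : ℂ) * ex r) = 2 * Real.pi * r := by
  have hpi := Real.pi_pos
  obtain ⟨h1, h2⟩ := abs_le.1 hr
  rw [Complex.arg_real_mul _ ha, ex_eq, Complex.exp_mul_I]
  apply Complex.arg_cos_add_sin_mul_I
  constructor
  · nlinarith
  · nlinarith

theorem slit_ex {a r : ℝ} (ha : 0 < a) (hr : |r| ≤ 1 / 16) :
    (a : ℂ) * ex r ∈ Complex.slitPlane := by
  rw [Complex.mem_slitPlane_iff_arg, arg_ex ha hr]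
  have hpi := Real.pi_pos
  obtain ⟨h1, h2⟩ := abs_le.1 hr
  refine ⟨?_, mul_ne_zero (by exact_mod_cast ha.ne') ?_⟩
  · nlinarith
  · intro h
    have := norm_ex r
    rw [h, norm_zero] at this
    norm_num at this

theorem ip_conj (v w : ℂ × ℂ) : ip w v = (starRingEnd ℂ) (ip v w) := by
  unfold ip
  rw [map_add, map_mul, map_mul, Complex.conj_conj, Complex.conj_conj]
  ring

theorem ip_smul (v w : ℂ × ℂ) (z : ℂ) : ip v (z • w) = z * ip v w := by
  unfold ip
  rw [Prod.smul_fst, Prod.smul_snd, smul_eq_mul, smul_eq_mul]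
  ring

theorem ip_cont (v : ℂ × ℂ) : Continuous (ip v) := by
  unfold ip
  fun_prop

/-- smallness of lists of a point of `L` and nearby points -/
theorem small {X : Type} [MetricSpace X] {L : Set X} {ε : ℝ} (hε : 0 < ε) {x : X} (hx : x ∈ L)
    {l : List X} (h : ∀ y ∈ l, dist x y < ε / 4) : x :: l ∈ Small L ε := by
  have key : ∀ y ∈ x :: l, dist x y < ε / 4 := by
    intro y hy
    rcases List.mem_cons.1 hy with rfl | hy
    · rw [dist_self]
      positivity
    · exact h y hy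
  refine ⟨fun y hy => ?_, fun y hy z hz => ?_⟩
  · refine Metric.mem_thickening_iff.2 ⟨x, hx, ?_⟩
    rw [dist_comm]
    have := key y hy
    linarith
  · have h2 := key y hy
    have h3 := key z hz
    have h4 := dist_triangle_left y z x
    linarith

theorem small_tail {X : Type} [MetricSpace X] {L : Set X} {ε : ℝ} {x : X} {l : List X}
    (h : x :: l ∈ Small L ε) : l ∈ Small L ε :=
  Small.cl L ε _ h _ (fun _ hy => List.mem_cons_of_mem _ hy)

/-- the defect -/
def sg {X : Type} (t : X → X → ℝ) (c : X → X → X → ℤ) (x y z : X) : ℝ :=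
  t y z - t x z + t x y - c x y z

/-- the sections -/
noncomputable def F {X : Type} {n : ℕ} (v : X → ℂ × ℂ) (t : X → X → ℝ) (c : X → X → X → ℤ)
    (κ : X → X → ℤ) (φ : Fin n → X → ℝ) (q : Fin n → X) (j : Fin n) (x : X) : ℂ × ℂ :=
  ex (∑ m, φ m x * (t x (q m) + c x (q j) (q m) - κ (q j) (q m))) • v x

/-- the second formula -/
noncomputable def G {X : Type} {n : ℕ} (Q : R3 × (ℂ × ℂ) → ℂ × ℂ) (v : X → ℂ × ℂ)
    (t : X → X → ℝ) (c : X → X → X → ℤ)
    (κ : X → X → ℤ) (φ : Fin n → X → ℝ) (q : Fin n → X) (j : Fin n) (x : X) : ℂ × ℂ :=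
  ex (∑ m, (φ m x * (t (q j) (q m) - κ (q j) (q m)) - φ m x * sg t c x (q j) (q m))) •
    (((1 / Real.sqrt (‖(Q (hp (v x), v (q j))).1‖ ^ 2 + ‖(Q (hp (v x), v (q j))).2‖ ^ 2) : ℝ) : ℂ) •
      Q (hp (v x), v (q j)))

variable {X : Type} [MetricSpace X] {n : ℕ} {L : Set X} {v : X → ℂ × ℂ}
  {t : X → X → ℝ} {c : X → X → X → ℤ} {κ : X → X → ℤ} {ε : ℝ} {φ : Fin n → X → ℝ} {q : Fin n → X}
  {Q : R3 × (ℂ × ℂ) → ℂ × ℂ}

theorem F_eq_G (hQ : ∀ v u : ℂ × ℂ, ‖v.1‖ ^ 2 + ‖v.2‖ ^ 2 = 1 → Q (hp v, u) = ip v u • v)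
    (hL : Lin L v t c ε) (hs : ∀ x, ∑ j, φ j x = 1) (j : Fin n) (x : X)
    (hne : ip (v x) (v (q j)) ≠ 0) : F v t c κ φ q j x = G Q v t c κ φ q j x := by
  unfold G
  rw [hQ _ _ (hL.unit x)]
  set a : ℂ := ip (v x) (v (q j)) with ha
  have hρ : 0 < ‖a‖ := norm_pos_iff.2 hne
  have h1 : ‖(a • v x).1‖ ^ 2 + ‖(a • v x).2‖ ^ 2 = ‖a‖ ^ 2 := by
    rw [Prod.smul_fst, Prod.smul_snd, smul_eq_mul, smul_eq_mul, norm_mul, norm_mul, mul_pow, mul_pow,
      ← mul_add, hL.unit x, mul_one]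
  rw [h1, Real.sqrt_sq hρ.le, smul_smul, smul_smul]
  have h2 : a = ‖a‖ * ex (t x (q j)) := hL.ph x (q j)
  have h3 : ((1 / ‖a‖ : ℝ) : ℂ) * a = ex (t x (q j)) := by
    have h4 : (‖a‖ : ℂ) ≠ 0 := by exact_mod_cast hρ.ne'
    calc ((1 / ‖a‖ : ℝ) : ℂ) * a = ((1 / ‖a‖ : ℝ) : ℂ) * (‖a‖ * ex (t x (q j))) := by rw [← h2]
      _ = ex (t x (q j)) := by
        push_cast
        field_simp
  rw [mul_assoc, h3, ← ex_add]
  unfold F
  congr 2
  have h5 : t x (q j) = ∑ m, φ m x * t x (q j) := by rw [← Finset.sum_mul, hs x, one_mul]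
  rw [h5, ← Finset.sum_add_distrib]
  refine Finset.sum_congr rfl fun m _ => ?_
  unfold sg
  ring

/-- continuity of the terms with the defect -/
theorem sg_cont (hQc : Continuous Q)
    (hQ : ∀ v u : ℂ × ℂ, ‖v.1‖ ^ 2 + ‖v.2‖ ^ 2 = 1 → Q (hp v, u) = ip v u • v)
    (hL : Lin L v t c ε) (hv : ContinuousOn (fun x => hp (v x)) L) (hφ : ∀ j, Continuous (φ j))
    (hnn : ∀ j x, 0 ≤ φ j x) (hd : ∀ j x, φ j x ≠ 0 → dist x (q j) < ε / 4) (j m : Fin n) :
    ContinuousOn (fun x => φ m x * sg t c x (q j) (q m)) {x | x ∈ L ∧ φ j x ≠ 0} := by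
  have hsm : ∀ x ∈ L, φ j x ≠ 0 → φ m x ≠ 0 → [x, q j, q m] ∈ Small L ε := by
    intro x hx hj hm
    refine small hL.pos hx fun y hy => ?_
    simp only [List.mem_cons, List.not_mem_nil, or_false] at hy
    rcases hy with rfl | rfl
    · exact hd _ _ hj
    · exact hd _ _ hm
  have hbd : ∀ x ∈ L, φ j x ≠ 0 → φ m x ≠ 0 → |sg t c x (q j) (q m)| ≤ 1 / 16 :=
    fun x hx hj hm => hL.sm _ _ _ (hsm x hx hj hm)
  intro x₀ hx₀
  by_cases hm₀ : φ m x₀ = 0
  · have h0 : φ m x₀ * sg t c x₀ (q j) (q m) = 0 := by rw [hm₀, zero_mul]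
    show Filter.Tendsto _ _ _
    simp only [h0]
    have h1 : Filter.Tendsto (φ m) (𝓝[{x | x ∈ L ∧ φ j x ≠ 0}] x₀) (𝓝 0) := by
      have := ((hφ m).continuousAt (x := x₀)).mono_left (nhdsWithin_le_nhds
        (s := {x | x ∈ L ∧ φ j x ≠ 0}))
      rwa [hm₀] at this
    refine squeeze_zero_norm' ?_ h1
    filter_upwards [self_mem_nhdsWithin] with x hx
    rw [Real.norm_eq_abs, abs_mul, abs_of_nonneg (hnn m x)]
    by_cases hm : φ m x = 0
    · rw [hm, zero_mul]
    · have h2 := hbd x hx.1 hx.2 hm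
      have h3 := hnn m x
      nlinarith
  · set B : X → ℂ := fun x => ip (v (q j)) (v (q m)) * ip (v (q m)) (Q (hp (v x), v (q j)))
      with hB
    have hBc : ContinuousOn B L := by
      refine continuousOn_const.mul ((ip_cont _).comp_continuousOn (hQc.comp_continuousOn ?_))
      exact hv.prodMk continuousOn_const
    have hBe : ∀ x ∈ L, φ j x ≠ 0 → φ m x ≠ 0 →
        ∃ a : ℝ, 0 < a ∧ B x = (a : ℂ) * ex (sg t c x (q j) (q m)) := by
      intro x hx hj hm
      have h1 := hsm x hx hj hm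
      have n1 : ip (v x) (v (q j)) ≠ 0 := hL.ne _ _ (Small.cl L ε _ h1 _ (by
        intro y hy
        simp only [List.mem_cons, List.not_mem_nil, or_false] at hy ⊢
        tauto))
      have n2 : ip (v (q j)) (v (q m)) ≠ 0 := hL.ne _ _ (small_tail h1)
      have n3 : ip (v x) (v (q m)) ≠ 0 := hL.ne _ _ (Small.cl L ε _ h1 _ (by
        intro y hy
        simp only [List.mem_cons, List.not_mem_nil, or_false] at hy ⊢
        tauto))
      refine ⟨‖ip (v x) (v (q j))‖ * ‖ip (v (q j)) (v (q m))‖ * ‖ip (v x) (v (q m))‖,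
        mul_pos (mul_pos (norm_pos_iff.2 n1) (norm_pos_iff.2 n2)) (norm_pos_iff.2 n3), ?_⟩
      have e1 : ip (v x) (v (q j)) = ‖ip (v x) (v (q j))‖ * ex (t x (q j)) := hL.ph _ _
      have e2 : ip (v (q j)) (v (q m)) = ‖ip (v (q j)) (v (q m))‖ * ex (t (q j) (q m)) := hL.ph _ _
      have e3 : ip (v (q m)) (v x) = ‖ip (v x) (v (q m))‖ * ex (-t x (q m)) := by
        have e4 : ip (v x) (v (q m)) = ‖ip (v x) (v (q m))‖ * ex (t x (q m)) := hL.ph _ _
        rw [ip_conj]
        conv_lhs => rw [e4]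
        rw [map_mul, conj_ex, Complex.conj_ofReal]
      have e5 : ex (sg t c x (q j) (q m)) = ex (t x (q j)) * ex (t (q j) (q m)) *
          ex (-t x (q m)) := by
        rw [← ex_add, ← ex_add]
        have e6 : t x (q j) + t (q j) (q m) + -t x (q m) =
            sg t c x (q j) (q m) + (c x (q j) (q m) : ℤ) := by
          unfold sg
          ring
        rw [e6, ex_add, ex_int, mul_one]
      show ip (v (q j)) (v (q m)) * ip (v (q m)) (Q (hp (v x), v (q j))) = _
      rw [hQ _ _ (hL.unit x), ip_smul, e5, e3]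
      conv_lhs => rw [e1, e2]
      push_cast
      ring
    have hO : IsOpen {x | φ m x ≠ 0} := isOpen_ne_fun (hφ m) continuous_const
    have hcw : ContinuousWithinAt (fun x => φ m x * (Complex.arg (B x) / (2 * Real.pi)))
        {x | x ∈ L ∧ φ j x ≠ 0} x₀ := by
      refine (hφ m).continuousWithinAt.mul (ContinuousWithinAt.div_const ?_ _)
      obtain ⟨a, ha, hBx⟩ := hBe x₀ hx₀.1 hx₀.2 hm₀
      have h1 : B x₀ ∈ Complex.slitPlane := by
        rw [hBx]
        exact slit_ex ha (hbd x₀ hx₀.1 hx₀.2 hm₀)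
      exact (Complex.continuousAt_arg h1).comp_continuousWithinAt
        ((hBc x₀ hx₀.1).mono fun x hx => hx.1)
    have heq : ∀ x ∈ L, φ j x ≠ 0 → φ m x ≠ 0 → φ m x * sg t c x (q j) (q m) =
        φ m x * (Complex.arg (B x) / (2 * Real.pi)) := by
      intro x hx hj hm
      obtain ⟨a, ha, hBx⟩ := hBe x hx hj hm
      rw [hBx, arg_ex ha (hbd x hx hj hm)]
      have hpi := Real.pi_pos
      field_simp
    refine hcw.congr_of_eventuallyEq ?_ (heq x₀ hx₀.1 hx₀.2 hm₀)
    filter_upwards [self_mem_nhdsWithin, mem_nhdsWithin_of_mem_nhds (hO.mem_nhds hm₀)] with x hx hm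
    exact heq x hx.1 hx.2 hm

end SLL

open SLL in
theorem t_SLL : M_SLL := by
  intro hH X _ _ L v t c C κ ε n φ q hLc hL hφ hnn hs hd hκ
  obtain ⟨-, -, -, -, -, ⟨Q, hQc, hQ⟩, -⟩ := hH
  have hv : ContinuousOn (fun x => hp (v x)) L := by
    intro a ha
    rw [Metric.continuousWithinAt_iff]
    intro η hη
    obtain ⟨δ, hδ, h⟩ := hL.uat η hη
    exact ⟨δ, hδ, fun x _ hx => h a ha x hx⟩
  have hne : ∀ j, ∀ x ∈ L, φ j x ≠ 0 → ip (v x) (v (q j)) ≠ 0 := by
    intro j x hx hj
    refine hL.ne _ _ (small hL.pos hx fun y hy => ?_)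
    simp only [List.mem_cons, List.not_mem_nil, or_false] at hy
    rw [hy]
    exact hd _ _ hj
  have hv0 : ∀ x, v x ≠ 0 := by
    intro x h
    have := hL.unit x
    rw [h] at this
    simp at this
  refine ⟨F v t c κ φ q, ⟨?_, ?_, ?_⟩, ?_⟩
  · intro j
    have h1 : ContinuousOn (G Q v t c κ φ q j) {x | x ∈ L ∧ φ j x ≠ 0} := by
      have hQv : ContinuousOn (fun x => Q (hp (v x), v (q j))) {x | x ∈ L ∧ φ j x ≠ 0} :=
        hQc.comp_continuousOn ((hv.mono fun x hx => hx.1).prodMk continuousOn_const)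
      unfold G
      refine ContinuousOn.smul (ex_cont.comp_continuousOn ?_) (ContinuousOn.smul
        (Complex.continuous_ofReal.comp_continuousOn ?_) hQv)
      · refine continuousOn_finsetSum _ fun m _ => ContinuousOn.sub ?_ ?_
        · exact ((hφ m).mul continuous_const).continuousOn
        · exact sg_cont hQc hQ hL hv hφ hnn hd j m
      · refine ContinuousOn.div continuousOn_const (Real.continuous_sqrt.comp_continuousOn ?_) ?_
        · exact ((continuous_fst.comp_continuousOn hQv).norm.pow 2).add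
            ((continuous_snd.comp_continuousOn hQv).norm.pow 2)
        · intro x hx
          have h2 := hne j x hx.1 hx.2
          rw [hQ _ _ (hL.unit x), Prod.smul_fst, Prod.smul_snd, smul_eq_mul, smul_eq_mul, norm_mul,
            norm_mul, mul_pow, mul_pow, ← mul_add, hL.unit x, mul_one, Real.sqrt_sq (norm_nonneg _)]
          exact norm_ne_zero_iff.2 h2
    exact h1.congr fun x hx => F_eq_G hQ hL hs j x (hne j x hx.1 hx.2)
  · intro j x _ _
    refine smul_ne_zero ?_ (hv0 x)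
    exact Complex.exp_ne_zero _
  · intro j k x hx hj hk
    have htr : trn q φ C j k x = ex (∑ m, φ m x * C (q j) (q k) (q m)) := rfl
    rw [htr]
    unfold F
    rw [smul_smul, ← ex_add]
    congr 1
    have h1 : ∑ m, φ m x * (t x (q m) + c x (q k) (q m) - κ (q k) (q m)) =
        (∑ m, φ m x * C (q j) (q k) (q m)) +
        (∑ m, φ m x * (t x (q m) + c x (q j) (q m) - κ (q j) (q m))) +
        ((κ (q j) (q k) - c x (q j) (q k) : ℤ) : ℝ) := by
      have h2 : ((κ (q j) (q k) - c x (q j) (q k) : ℤ) : ℝ) =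
          ∑ m, φ m x * ((κ (q j) (q k) - c x (q j) (q k) : ℤ) : ℝ) := by
        rw [← Finset.sum_mul, hs x, one_mul]
      rw [h2, ← Finset.sum_add_distrib, ← Finset.sum_add_distrib]
      refine Finset.sum_congr rfl fun m _ => ?_
      by_cases hm : φ m x = 0
      · rw [hm]
        ring
      · have hsm : [x, q j, q k, q m] ∈ Small L ε := by
          refine small hL.pos hx fun y hy => ?_
          simp only [List.mem_cons, List.not_mem_nil, or_false] at hy
          rcases hy with rfl | rfl | rfl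
          · exact hd _ _ hj
          · exact hd _ _ hk
          · exact hd _ _ hm
        have h3 := hL.cy _ _ _ _ hsm
        have h4 := hκ _ _ _ (small_tail hsm)
        have h5 : (c (q j) (q k) (q m) : ℝ) - c x (q k) (q m) + c x (q j) (q m) -
            c x (q j) (q k) = 0 := by exact_mod_cast h3
        have h6 : (c (q j) (q k) (q m) : ℝ) - C (q j) (q k) (q m) =
            κ (q k) (q m) - κ (q j) (q m) + κ (q j) (q k) := by exact_mod_cast h4
        rw [← mul_add, ← mul_add]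
        congr 1
        push_cast
        linarith
    rw [h1, ex_add, ex_int, mul_one]
  · intro j x _ _
    exact ⟨_, norm_ex _, rfl⟩

end BBH
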