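import Pool.Agent.BBH.StmtsD

/-!
# BBH, module TRN: the transition functions of a cocycle
-/

set_option autoImplicit false

namespace BBH

open Set Topology CTO

namespace TRN

theorem sum_eq {X : Type} [MetricSpace X] {n : ℕ} {K : Set X} {φ : Fin n → X → ℝ}
    {q : Fin n → X} {C : X → X → X → ℤ} {ε : ℝ} (hε : 0 < ε)
    (hs : ∀ x, ∑ j, φ j x = 1) (hd : ∀ j x, φ j x ≠ 0 → dist x (q j) < ε / 4)
    (hC : ∀ x y z w, [x, y, z, w] ∈ Small K ε → C y z w - C x z w + C x y w - C x y z = 0)
    {i j k : Fin n} {x : X} (hx : x ∈ K) (hi : φ i x ≠ 0) (hj : φ j x ≠ 0) (hk : φ k x ≠ 0) :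
    (∑ m, φ m x * C (q i) (q j) (q m) : ℝ) + (∑ m, φ m x * C (q j) (q k) (q m) : ℝ) =
      (∑ m, φ m x * C (q i) (q k) (q m) : ℝ) + (C (q i) (q j) (q k) : ℝ) := by
  have h1 : ((C (q i) (q j) (q k) : ℤ) : ℝ) =
      ∑ m, φ m x * (C (q i) (q j) (q k) : ℝ) := by
    rw [← Finset.sum_mul, hs x, one_mul]
  rw [h1, ← Finset.sum_add_distrib, ← Finset.sum_add_distrib]
  refine Finset.sum_congr rfl fun m _ => ?_
  by_cases hm : φ m x = 0
  · rw [hm]
    ring
  · have hsm : [q i, q j, q k, q m] ∈ Small K ε := by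
      have key : ∀ y ∈ [q i, q j, q k, q m], dist x y < ε / 4 := by
        intro y hy
        simp only [List.mem_cons, List.not_mem_nil, or_false] at hy
        rcases hy with rfl | rfl | rfl | rfl
        · exact hd _ _ hi
        · exact hd _ _ hj
        · exact hd _ _ hk
        · exact hd _ _ hm
      refine ⟨fun y hy => ?_, fun y hy z hz => ?_⟩
      · refine Metric.mem_thickening_iff.2 ⟨x, hx, ?_⟩
        rw [dist_comm]
        have := key y hy
        linarith
      · have h2 := key y hy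
        have h3 := key z hz
        have h4 := dist_triangle_left y z x
        linarith
    have h5 := hC _ _ _ _ hsm
    have h6 : (C (q j) (q k) (q m) : ℝ) - C (q i) (q k) (q m) + C (q i) (q j) (q m)
        - C (q i) (q j) (q k) = 0 := by exact_mod_cast h5
    have h7 : (C (q i) (q j) (q m) : ℝ) + C (q j) (q k) (q m) =
        C (q i) (q k) (q m) + C (q i) (q j) (q k) := by linarith
    rw [← mul_add, h7, mul_add]

theorem exp_eq (a b c : ℝ) (n : ℤ) (h : a + b = c + n) :
    Complex.exp (2 * Real.pi * (a : ℂ) * Complex.I) *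
      Complex.exp (2 * Real.pi * (b : ℂ) * Complex.I) =
      Complex.exp (2 * Real.pi * (c : ℂ) * Complex.I) := by
  have h1 : (a : ℂ) + b = c + n := by exact_mod_cast h
  rw [← Complex.exp_add]
  have h2 : 2 * Real.pi * (a : ℂ) * Complex.I + 2 * Real.pi * (b : ℂ) * Complex.I =
      2 * Real.pi * (c : ℂ) * Complex.I + n * (2 * Real.pi * Complex.I) := by
    have : 2 * Real.pi * (a : ℂ) * Complex.I + 2 * Real.pi * (b : ℂ) * Complex.I =
      2 * Real.pi * ((a : ℂ) + b) * Complex.I := by ring
    rw [this, h1]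
    ring
  rw [h2, Complex.exp_add, Complex.exp_int_mul_two_pi_mul_I, mul_one]

end TRN

theorem t_TRN : S_TRN := by
  intro X _ n K φ q C ε hε hφ hnn hs hd hC
  refine ⟨hφ, hnn, hs, ?_, ?_, ?_⟩
  · intro j k
    refine Continuous.continuousOn ?_
    have h1 : Continuous fun x => (∑ m, φ m x * C (q j) (q k) (q m) : ℝ) :=
      continuous_finset_sum _ fun m _ => (hφ m).mul continuous_const
    have h2 : Continuous fun x => ((∑ m, φ m x * C (q j) (q k) (q m) : ℝ) : ℂ) :=
      Complex.continuous_ofReal.comp h1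
    exact Complex.continuous_exp.comp ((continuous_const.mul h2).mul continuous_const)
  · intro j k x _
    exact Complex.exp_ne_zero _
  · intro i j k x hx hi hj hk
    exact TRN.exp_eq _ _ _ _ (TRN.sum_eq hε hs hd hC hx hi hj hk)

end BBH
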