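import Pool.Agent.BBH.StmtsD

/-!
# BBH, ZNZ: an open set with nonzero integral cohomology in degree three
-/

set_option autoImplicit false

namespace BBH

open Set Topology CTO

theorem t_ZNZ : M_ZNZ := by
  intro hOBS hALX hDIM X _ _ h3 h2
  obtain ⟨L, K, f, hL, hK, hLK, hf, hne, hx⟩ := hOBS X h3 h2
  refine ⟨Lᶜ, hL.isOpen_compl, fun hV => ?_⟩
  refine hx (hALX X h3 K L f hK hL hLK hf hne fun c hc => ?_)
  have h4 : Cyc (3 + 1) univ K (dd c) := les_conn hc
  have h5 : Bd (3 + 1) univ K (dd c) :=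
    hDIM ℤ X 3 h3 (3 + 1) univ K (by norm_num) (subset_univ K) (dd c) h4
  obtain ⟨c', h6, h7⟩ := les_right hLK hc h5
  have h8 : BdO 3 Lᶜ c' := hV c' (by
    unfold CyO
    rw [compl_compl]
    exact h6)
  unfold BdO at h8
  rw [compl_compl] at h8
  have h9 : Bd 3 K L c' := h8.mono (subset_univ K) Subset.rfl
  have h10 := h7.add h9
  rwa [sub_add_cancel] at h10

end BBH
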