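import Pool.Agent.BBH.StmtsE

/-!
# Module LT0: the local groups in degree zero

`V = B \ {w}` for a good neighbourhood `B ⊆ U` of `x` and a point `w ∈ B \ {x}`: a cocycle of degree zero that vanishes near
`Vᶜ` vanishes at `w`, so it vanishes near the connected set `B`, and then everywhere.
-/

set_option autoImplicit false

namespace BBH

open Set Topology

theorem t_LT0 : M_LT0 := by
  intro hCON M X _ _ _ hGN x U hU hx
  obtain ⟨B, hBU, hxB, hB⟩ := hGN x U hU hx
  obtain ⟨hBo, hBc, hB3⟩ := hB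
  obtain ⟨w, hwB, hwx⟩ := ((hB3 B Subset.rfl hBo hBc).1 x hxB).nonempty
  have hwx' : x ≠ w := fun h => hwx (by rw [← h]; rfl)
  refine ⟨B \ {w}, fun y hy => hBU hy.1, hBo.sdiff isClosed_singleton, ⟨hxB, hwx'⟩,
    fun c hc => ?_⟩
  have hc1 : Cyc 0 B ∅ c := Cyc.mono hc (subset_univ _) (empty_subset _)
  obtain ⟨m, hm⟩ := hCON M X B hBc.isPreconnected c hc1
  have hwV : w ∈ (B \ {w})ᶜ := fun h => h.2 rfl
  have hsmall : ∀ (A : Set X) (ε : ℝ), 0 < ε → w ∈ A → [w] ∈ Small A ε := by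
    intro A ε hε hw
    refine ⟨fun y hy => ?_, fun y hy z hz => ?_⟩
    · rw [List.mem_singleton] at hy
      rw [hy]
      exact Metric.self_subset_thickening hε A hw
    · rw [List.mem_singleton] at hy hz
      rw [hy, hz, dist_self]
      exact hε
  have hcw : c [w] = 0 := by
    obtain ⟨ε, hε, h⟩ := hc.rel
    exact h _ (hsmall _ ε hε hwV)
  have hm0 : m = 0 := by
    obtain ⟨ε, hε, h⟩ := hm
    have h1 := h _ (hsmall _ ε hε hwB)
    rw [Pi.sub_apply, hcw, c0_single, zero_sub, neg_eq_zero] at h1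
    exact h1
  have h0 : (c0 fun _ => m : Cc M X) = 0 := by
    subst hm0
    funext l
    rcases l with _ | ⟨y, _ | ⟨z, l⟩⟩ <;> rfl
  rw [h0, sub_zero] at hm
  have h1 : Zr (B \ {w}) c := hm.anti sdiff_subset
  exact BdO.of_Zr (Zr.univ_of h1 hc.rel)

end BBH
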