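import Pool.Agent.BBH.StmtsE

/-!
# Module LT1: local triviality in degree one
-/

set_option autoImplicit false

namespace BBH

open Set Topology CTO

namespace LT1

theorem dd_c0_const {M X : Type} [AddCommGroup M] (m : M) :
    dd (c0 (X := X) fun _ => m) = 0 := by
  funext l
  rcases l with _ | ⟨x, _ | ⟨y, _ | ⟨z, l⟩⟩⟩
  · simp
  · simp
  · simp
  · by_contra h
    have h1 := (Dg.c0 (X := X) fun _ => m).dd
    have h2 := (h1 _ h).2
    simp only [List.length_cons] at h2
    push_cast at h2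
    omega

theorem ctr_mono {X : Type} [TopologicalSpace X] {K L K' : Set X} (h : Ctr L K') (hK : K ⊆ L) :
    Ctr K K' := by
  obtain ⟨w, F, hw, hF, hm, h0, h1⟩ := h
  exact ⟨w, F, hw, hF.mono (prod_mono hK Subset.rfl),
    hm.mono (prod_mono hK Subset.rfl) Subset.rfl, fun x hx => h0 x (hK hx),
    fun x hx => h1 x (hK hx)⟩

end LT1

theorem t_LT1 : M_LT1 := by
  intro hCTR hCON hOUT hLPX M X _ _ _ hX hG x U hU hxU
  obtain ⟨hlpc, hL⟩ := hLPX X hX
  obtain ⟨V₀, hV₀, hxV₀, -, hctr⟩ := hL x univ isOpen_univ (mem_univ x)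
  obtain ⟨B, hBU, hxB, hB⟩ := hG x (U ∩ V₀) (hU.inter hV₀) ⟨hxU, hxV₀⟩
  obtain ⟨hBo, hBc, hBs⟩ := hB
  have hcon : IsConnected (B \ {x}) := (hBs B Subset.rfl hBo hBc).1 x hxB
  obtain ⟨w, hw⟩ := hcon.nonempty
  have hctrB : Ctr (closure B) (univ : Set X) :=
    LT1.ctr_mono hctr (closure_mono (hBU.trans inter_subset_right))
  obtain ⟨K, W, hKc, hxK, hKB, hwW, hWo, hWc, hWB, -, hBW, -⟩ :=
    hOUT X hlpc B {x} B w hBo hBc isCompact_singleton (singleton_nonempty x)
      (singleton_subset_iff.2 hxB) hcon hw hBo (singleton_subset_iff.2 hxB)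
  have hKB' : K ⊆ B := fun y hy => (hKB hy).1
  have hVB : interior K ⊆ B := interior_subset.trans hKB'
  refine ⟨interior K, hVB.trans (hBU.trans inter_subset_left), isOpen_interior,
    hxK (mem_singleton x), fun c hc => ?_⟩
  have hcW : Zr W c := hc.rel.anti (fun y hy h => (hWB hy).2 (interior_subset h))
  have hcB : Zr Bᶜ c := hc.rel.anti (compl_subset_compl.2 hVB)
  obtain ⟨f0, hf0, -, hf0z⟩ := hCTR M X (closure B) univ isClosed_closure.isCompact
    (subset_univ _) hctrB 1 le_rfl c (Cyc.mono hc Subset.rfl (empty_subset _))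
  have e10 : (1 : ℤ) - 1 = 0 := by norm_num
  rw [e10] at hf0
  have hWcl : W ⊆ closure B := fun y hy => subset_closure (hWB hy).1
  have hdW : Zr W (dd f0) := by
    have h := hcW.sub (hf0z.anti hWcl)
    rwa [sub_sub_cancel] at h
  obtain ⟨m, hm⟩ := hCON M X W hWc.isPreconnected f0 ⟨hf0, Zr.empty hf0, hdW⟩
  set f : Cc M X := f0 - c0 fun _ => m with hf
  have hfd : Dg X 0 f := hf0.sub (Dg.c0 _)
  have hfz : Zr (closure B) (c - dd f) := by
    rw [hf, dd_sub, LT1.dd_c0_const, sub_zero]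
    exact hf0z
  set S : Set (List X) := {l | ∀ y ∈ l, y ∈ B} with hS
  obtain ⟨δ, hδ, hδB⟩ := hBW.exists_thickening_subset_open hBo (fun y hy => hy.1)
  -- `f'` vanishes near `Bᶜ`
  have h1 : Zr Bᶜ (ind S f) := by
    obtain ⟨ε, hε, hfε⟩ := hm
    refine ⟨min ε δ, lt_min hε hδ, fun l hl => ?_⟩
    by_cases hlS : l ∈ S
    · rw [ind_of_mem hlS]
      refine hfε l ⟨fun y hy => ?_, fun y hy z hz => lt_of_lt_of_le (hl.2 y hy z hz)
        (min_le_left _ _)⟩
      have hyB : y ∈ B := hlS y hy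
      have hyW : y ∈ W := by
        by_contra hyW
        obtain ⟨z, hz, hyz⟩ := Metric.mem_thickening_iff.1 (hl.1 y hy)
        refine hz (hδB (Metric.mem_thickening_iff.2 ⟨y, ⟨hyB, hyW⟩, ?_⟩))
        rw [dist_comm]
        exact lt_of_lt_of_le hyz (min_le_right _ _)
      exact Metric.self_subset_thickening hε _ hyW
    · exact ind_of_notMem hlS
  have h2 : Zr (B \ W) (c - dd (ind S f)) := by
    obtain ⟨ε, hε, hfε⟩ := hfz
    refine ⟨min ε δ, lt_min hε hδ, fun l hl => ?_⟩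
    have h3 : dd (ind S f) l = dd f l := by
      refine dd_congr (Small.cl (B \ W) (min ε δ)) (fun l' hl' => ?_) l hl
      refine ind_of_mem (fun y hy => hδB ?_)
      exact Metric.thickening_mono (min_le_right _ _) _ (hl'.1 y hy)
    rw [Pi.sub_apply, h3]
    exact hfε l (Small.mono (fun y hy => subset_closure hy.1) (min_le_left _ _) hl)
  have h3 : Zr W (c - dd (ind S f)) := hcW.sub (Zr.ind hm).dd
  have h4 : Zr Bᶜ (c - dd (ind S f)) := hcB.sub h1.dd
  have h5 : Zr univ (c - dd (ind S f)) := by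
    refine ((h2.union h3).union h4).anti (fun y _ => ?_)
    by_cases hy : y ∈ B
    · by_cases hy' : y ∈ W
      · exact Or.inl (Or.inr hy')
      · exact Or.inl (Or.inl ⟨hy, hy'⟩)
    · exact Or.inr hy
  have h6 : BdO 1 B c := by
    refine ⟨ind S f, ?_, h1, h5⟩
    rw [e10]
    exact hfd.ind
  exact BdO.mono h6 (hBU.trans inter_subset_left)

end BBH
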