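import Pool.Agent.BBH.StmtsE

/-!
# BBH, module LT2: the local groups in degree two
-/

set_option autoImplicit false

namespace BBH

open Set Topology CTO

namespace LT2

theorem ctr_mono {X : Type} [TopologicalSpace X] {K K' K'' : Set X} (h : Ctr K K')
    (hK : K' ⊆ K'') : Ctr K K'' := by
  obtain ⟨w, F, hw, hF, hm, h0, h1⟩ := h
  exact ⟨w, F, hK hw, hF, hm.mono_right hK, h0, h1⟩

/-- small open neighbourhoods -/
theorem exists_nhd {X : Type} [MetricSpace X] {x : X} {O : Set X} (hO : IsOpen O) (hx : x ∈ O) :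
    ∃ V : Set X, IsOpen V ∧ x ∈ V ∧ closure V ⊆ O := by
  obtain ⟨t, ht, htc, hts⟩ := exists_mem_nhds_isClosed_subset (hO.mem_nhds hx)
  exact ⟨interior t, isOpen_interior, mem_interior_iff_mem_nhds.2 ht,
    (closure_minimal interior_subset htc).trans hts⟩

/-- the monodromies of the zero cochain -/
theorem mo_zero {k X : Type} [Field k] [MetricSpace X] (A : Set X) (a b : X) :
    Mo A a b (0 : Cc k X) 0 := by
  refine ⟨fun _ => 0, ?_, by simp⟩
  have h : c0 (fun _ : X => (0 : k)) = 0 := by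
    funext l
    rcases l with _ | ⟨x, _ | ⟨y, l⟩⟩ <;> simp
  rw [h, dd_zero, sub_zero]
  exact Zr.zero _

/-- cutting off -/
theorem cut {k X : Type} [Field k] [MetricSpace X] [CompactSpace X] {W U₁ V₂ Q' K : Set X}
    {c e : Cc k X} (hQ' : IsCompact Q') (hU₁ : IsOpen U₁) (hV₂ : IsOpen V₂) (hV₂Q : V₂ ⊆ Q')
    (hcl : closure U₁ ⊆ V₂) (hQK : Q' ⊆ K) (hW : W ⊆ U₁) (hc : Zr Wᶜ c) (he : Dg X 1 e)
    (hz : Zr (Q' \ U₁) e) (hce : Zr K (c - dd e)) : BdO 2 U₁ c := by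
  obtain ⟨ε, hε, h⟩ := hz
  obtain ⟨η, hη, hsub⟩ := exists_thickening_inter hQ' hU₁.isClosed_compl hε
  have hb : Zr U₁ᶜ (ind {l | ∀ y ∈ l, y ∈ Q'} e) := by
    refine ⟨min η ε, lt_min hη hε, fun l hl => ?_⟩
    by_cases h1 : ∀ y ∈ l, y ∈ Q'
    · refine ind_van (h l ⟨fun x hx => ?_, fun x hx y hy =>
        lt_of_lt_of_le (hl.2 x hx y hy) (min_le_right _ _)⟩)
      have h2 : x ∈ Metric.thickening ε (Q' ∩ U₁ᶜ) :=
        hsub ⟨Metric.self_subset_thickening hη _ (h1 x hx),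
          Metric.thickening_mono (min_le_left _ _) _ (hl.1 x hx)⟩
      rwa [← sdiff_eq] at h2
    · exact ind_of_notMem h1
  refine ⟨ind {l | ∀ y ∈ l, y ∈ Q'} e, ?_, hb, ?_⟩
  · exact he.ind
  · have h1 : Zr U₁ᶜ (c - dd (ind {l | ∀ y ∈ l, y ∈ Q'} e)) :=
      (hc.anti (compl_subset_compl.2 hW)).sub hb.dd
    have h2 : Zr (closure U₁) (c - dd (ind {l | ∀ y ∈ l, y ∈ Q'} e)) := by
      obtain ⟨δ, hδ, hδs⟩ := isClosed_closure.isCompact.exists_thickening_subset_open hV₂ hcl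
      have h3 : Zr (closure U₁) (c - dd e) := hce.anti (hcl.trans (hV₂Q.trans hQK))
      obtain ⟨ρ, hρ, h4⟩ := h3
      refine ⟨min δ ρ, lt_min hδ hρ, fun l hl => ?_⟩
      have h5 : dd (ind {l | ∀ y ∈ l, y ∈ Q'} e) l = dd e l := by
        refine dd_congr (Small.cl (closure U₁) δ) ?_ l
          (Small.mono Subset.rfl (min_le_left _ _) hl)
        intro l' hl'
        exact ind_of_mem fun y hy => hV₂Q (hδs (hl'.1 y hy))
      rw [Pi.sub_apply, h5]
      exact h4 l (Small.mono Subset.rfl (min_le_right _ _) hl)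
    refine (h2.union h1).anti ?_
    intro y _
    by_cases hy : y ∈ U₁
    · exact Or.inl (subset_closure hy)
    · exact Or.inr hy

end LT2

open LT2 in
theorem t_LT2 : M_LT2 := by
  intro hUC hFIO hCTR hLPX hMOA hMOC hMOD hMOE k X _ _ _ _ hX hH hG x U hU hxU
  obtain ⟨hlpc, hlp⟩ := hLPX X hX
  -- the good set `B`
  obtain ⟨B, -, hxB, hGN⟩ := hG x univ isOpen_univ (mem_univ x)
  obtain ⟨w, hwB, hwx⟩ := ((hGN.2.2 B Subset.rfl hGN.1 hGN.2.1).1 x hxB).nonempty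
  rw [mem_singleton_iff] at hwx
  -- `K = closure V₀`
  obtain ⟨V₀, hV₀, hxV₀, hV₀cl, hV₀ctr⟩ := hlp x (B \ {w})
    (hGN.1.sdiff isClosed_singleton) ⟨hxB, fun h => hwx (mem_singleton_iff.1 h).symm⟩
  -- `Q = closure V₁`
  obtain ⟨V₁, hV₁, hxV₁, hV₁cl, hV₁ctr⟩ := hlp x V₀ hV₀ hxV₀
  obtain ⟨V₂, hV₂, hxV₂, hV₂cl⟩ := exists_nhd hV₁ hxV₁
  obtain ⟨U₁, hU₁, hxU₁, hU₁cl⟩ := exists_nhd (hV₂.inter hU) ⟨hxV₂, hxU⟩
  obtain ⟨U', hU', hxU', hU'cl⟩ := exists_nhd hU₁ hxU₁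
  obtain ⟨W, hWU', hW, hxW, hfio⟩ := hFIO.2 k X hX 2 U' x hU' hxU'
  have hU'U₁ : U' ⊆ U₁ := subset_closure.trans hU'cl
  have hU₁U : U₁ ⊆ U := subset_closure.trans (hU₁cl.trans inter_subset_right)
  have hV₁K : V₁ ⊆ closure V₀ := subset_closure.trans (hV₁cl.trans subset_closure)
  refine ⟨W, hWU'.trans (hU'U₁.trans hU₁U), hW, hxW, ?_⟩
  intro c hc
  refine BdO.mono ?_ hU₁U
  -- a primitive near `K`
  obtain ⟨g, hgd, -, hg⟩ := hCTR k X (closure V₀) univ isClosed_closure.isCompact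
    (subset_univ _) (ctr_mono hV₀ctr (subset_univ _)) 2 (by norm_num) c
    (Cyc.mono hc Subset.rfl (empty_subset _))
  have hgd1 : Dg X 1 g := by
    have h : (2 : ℤ) - 1 = 1 := by norm_num
    rwa [h] at hgd
  have hO : IsOpen (V₁ \ closure U') := hV₁.sdiff isClosed_closure
  have hOW : V₁ \ closure U' ⊆ Wᶜ := fun y hy hyW => hy.2 (subset_closure (hWU' hyW))
  have hOg : Zr (V₁ \ closure U') (dd g) := by
    have h1 := (hc.rel.anti hOW).sub (hg.anti (sdiff_subset.trans hV₁K))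
    rwa [sub_sub_cancel] at h1
  by_cases hA : ∀ (n : ℕ) (A : Fin n → Set X) (a b : Fin n → X) (z m : Fin n → k), ACy A a b z →
    (∀ i, A i ⊆ V₁ \ closure U') → (∀ i, Mo (A i) (a i) (b i) g (m i)) → ∑ i, z i * m i = 0
  · -- no monodromy
    obtain ⟨f, hf⟩ := hMOC k X (V₁ \ closure U') g hgd1 hOg hA
    have hC : IsCompact (closure V₂ \ U₁) := isClosed_closure.isCompact.diff hU₁
    have hCO : closure V₂ \ U₁ ⊆ V₁ \ closure U' :=
      fun y hy => ⟨hV₂cl hy.1, fun h => hy.2 (hU'cl h)⟩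
    have he := hMOD k X hlpc (V₁ \ closure U') (closure V₂ \ U₁) g f hO hC hCO hgd1 hOg hf
    refine cut (Q' := closure V₂) (K := closure V₀) isClosed_closure.isCompact hU₁ hV₂
      subset_closure (hU₁cl.trans inter_subset_left) (hV₂cl.trans hV₁K) (hWU'.trans hU'U₁)
      hc.rel (e := g - dd (c0 f)) ?_ he ?_
    · have h1 : Dg X (0 + 1) (dd (c0 f)) := (Dg.c0 f).dd
      rw [zero_add] at h1
      exact hgd1.sub h1
    · rw [dd_sub, dd_dd, sub_zero]
      exact hg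
  · -- a cycle with monodromy
    exfalso
    push Not at hA
    obtain ⟨n, A, a, b, z, m, hcy, hAO, hmo, hne⟩ := hA
    have hZO : (⋃ i, A i) ⊆ V₁ \ closure U' := iUnion_subset hAO
    have hZK : (⋃ i, A i) ⊆ closure V₀ := hZO.trans (sdiff_subset.trans hV₁K)
    have hZB : (⋃ i, A i) ⊆ B := hZK.trans (hV₀cl.trans sdiff_subset)
    obtain ⟨s, hs, hsv⟩ := hMOE k X (closure V₀) (closure V₁) n A a b z hcy
      (hV₁cl.trans subset_closure) (hZO.trans (sdiff_subset.trans subset_closure)) (by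
        intro g' hg'
        exact hCTR k X (closure V₁) V₀ isClosed_closure.isCompact hV₁cl hV₁ctr 1 le_rfl g'
          (hg'.mono subset_closure Subset.rfl))
    have hAc : ∀ i, IsCompact (A i) := by
      intro i
      obtain ⟨α, hα, -, -, -, hA⟩ := hcy.arc i
      rw [hA]
      exact isCompact_Icc.image_of_continuousOn hα
    have hZc : IsClosed (⋃ i, A i) := (isCompact_iUnion hAc).isClosed
    have hVo : IsOpen (B \ ⋃ i, A i) := hGN.1.sdiff hZc
    have hVp : IsPreconnected (B \ ⋃ i, A i) := by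
      refine (hGN.2.2 B Subset.rfl hGN.1 hGN.2.1).2 n A (fun i => ?_) hZB
      obtain ⟨α, hα, hi, -, -, hA⟩ := hcy.arc i
      exact ⟨α, hα, hi, hA⟩
    have hwK : w ∉ closure V₀ := fun h => (hV₀cl h).2 rfl
    have hZU' : (⋃ i, A i) ⊆ U'ᶜ := fun y hy h => (hZO hy).2 (subset_closure h)
    have hxZ : x ∉ ⋃ i, A i := fun h => hZU' h hxU'
    have hzw : Zg 2 s w := by
      refine ⟨(closure V₀)ᶜ, isClosed_closure.isOpen_compl, hwK, ?_⟩
      intro c' hc'
      have h1 : s c' = ∑ i, z i * (0 : k) := by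
        refine hsv c' 0 (fun _ => 0) (hc'.mono (compl_subset_compl.2 hZK)) Dg.zero ?_
          fun i => mo_zero _ _ _
        rw [dd_zero, sub_zero]
        have h2 := hc'.rel
        rwa [compl_compl] at h2
      rw [h1]
      simp
    have hzx := hUC k X hX hH 2 (B \ ⋃ i, A i) s hVo hVp (hs.mono fun y hy => hy.2)
      ⟨w, ⟨hwB, fun h => hwK (hZK h)⟩, hzw⟩ x ⟨hxB, hxZ⟩
    obtain ⟨W₃, hW₃, hxW₃, hzero⟩ := hzx
    obtain ⟨c', hc', e, hed, hez, hce⟩ := hfio (W₃ ∩ W) inter_subset_right (hW₃.inter hW)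
      ⟨hxW₃, hxW⟩ c hc
    have hed1 : Dg X 1 e := by
      have h : (2 : ℤ) - 1 = 1 := by norm_num
      rwa [h] at hed
    have h0 : s c' = 0 := hzero c' (hc'.mono inter_subset_left)
    have h1 : s c' = ∑ i, z i * m i := by
      refine hsv c' (g - e) m (hc'.mono ?_) (hgd1.sub hed1) ?_ fun i => ?_
      · intro y hy hyZ
        exact hZU' hyZ (hWU' hy.2)
      · have h2 := hg.sub (hce.anti (subset_univ (closure V₀)))
        have h3 : c - dd g - (c - c' - dd e) = c' - dd (g - e) := by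
          rw [dd_sub]
          abel
        rwa [h3] at h2
      · refine (hMOA k X (A i) (a i) (b i) (hcy.arc i)).2.2.2.2.1 g (g - e) (m i) ?_ (hmo i)
        rw [sub_sub_cancel]
        exact hez.anti ((subset_iUnion A i).trans hZU')
    exact hne (h1.symm.trans h0)

end BBH
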