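import Pool.Agent.BBH.StmtsE

/-!
# BBH: monodromy along arcs
-/

set_option autoImplicit false

namespace BBH

open Set Topology CTO

namespace MOA

variable {k X : Type} [Field k] [MetricSpace X] {A : Set X} {a b : X}

theorem arc_compact (h : BBP.Arc A a b) : IsCompact A := by
  obtain ⟨e, h1, h2, h3, h4, h5⟩ := h
  rw [h5]
  exact isCompact_Icc.image_of_continuousOn h1

theorem arc_conn (h : BBP.Arc A a b) : IsPreconnected A := by
  obtain ⟨e, h1, h2, h3, h4, h5⟩ := h
  rw [h5]
  exact isPreconnected_Icc.image _ h1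

theorem arc_left (h : BBP.Arc A a b) : a ∈ A := by
  obtain ⟨e, h1, h2, h3, h4, h5⟩ := h
  rw [h5, ← h3]
  exact mem_image_of_mem e (by simp)

theorem arc_right (h : BBP.Arc A a b) : b ∈ A := by
  obtain ⟨e, h1, h2, h3, h4, h5⟩ := h
  rw [h5, ← h4]
  exact mem_image_of_mem e (by simp)

theorem single_small {x : X} (hx : x ∈ A) {ε : ℝ} (hε : 0 < ε) : [x] ∈ Small A ε := by
  refine ⟨fun y hy => ?_, fun y hy z hz => ?_⟩
  · rw [List.mem_singleton] at hy
    subst hy
    exact Metric.self_subset_thickening hε A hx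
  · rw [List.mem_singleton] at hy hz
    subst hy
    subst hz
    rw [dist_self]
    exact hε

theorem uniq (hC : S_CON) (h : BBP.Arc A a b) (g : Cc k X) (m m' : k) (h1 : Mo A a b g m)
    (h2 : Mo A a b g m') : m = m' := by
  obtain ⟨f, hf, rfl⟩ := h1
  obtain ⟨f', hf', rfl⟩ := h2
  have h3 : Zr A (dd (c0 (f - f'))) := by
    have h4 := hf'.sub hf
    have h5 : g - dd (c0 f') - (g - dd (c0 f)) = dd (c0 (f - f')) := by
      rw [c0_sub, dd_sub]
      abel
    rwa [h5] at h4
  obtain ⟨m0, ε, hε, hm⟩ := hC k X A (arc_conn h) (c0 (f - f'))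
    ⟨Dg.c0 _, Zr.empty (Dg.c0 _), h3⟩
  have h6 : ∀ x ∈ A, f x - f' x = m0 := by
    intro x hx
    have h7 := hm [x] (single_small hx hε)
    rw [Pi.sub_apply, c0_single, c0_single, Pi.sub_apply, sub_eq_zero] at h7
    exact h7
  have h8 := h6 a (arc_left h)
  have h9 := h6 b (arc_right h)
  linear_combination h9 - h8

theorem near (g : Cc k X) (S : Set X) (ε : ℝ) (hε : 0 < ε) (hg : Dg X 1 g)
    (hd : ∀ l ∈ Small S ε, dd g l = 0) (hAS : A ⊆ S) (hab : A ⊆ Metric.ball a (ε / 4))
    (ha : a ∈ A) : Mo A a b g (g [a, b]) := by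
  have haa : g [a, a] = 0 := by
    have h1 : [a, a, a] ∈ Small S ε := by
      refine ⟨fun y hy => ?_, fun y hy z hz => ?_⟩
      · have : y = a := by simpa using hy
        subst this
        exact Metric.self_subset_thickening hε S (hAS ha)
      · have h2 : y = a := by simpa using hy
        have h3 : z = a := by simpa using hz
        subst h2
        rw [h3, dist_self]
        exact hε
    have h2 := hd _ h1
    simp only [dd_cons, dd_nil, sh_apply] at h2
    have h3 : g [a, a] - (g [a, a] - (g [a, a] - 0)) = g [a, a] := by ring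
    rwa [h3] at h2
  refine ⟨fun w => g [a, w], ⟨ε / 4, by positivity, fun l hl => ?_⟩, by
    show g [a, b] = g [a, b] - g [a, a]
    rw [haa, sub_zero]⟩
  have hdeg : Dg X 1 (g - dd (c0 fun w => g [a, w])) := hg.sub (Dg.c0 _).dd
  by_contra hne
  have h1 := (hdeg l hne).2
  obtain ⟨w, w', rfl⟩ : ∃ w w', l = [w, w'] := by
    rcases l with _ | ⟨w, _ | ⟨w', _ | ⟨w2, l⟩⟩⟩
    · simp at h1
    · simp at h1
    · exact ⟨w, w', rfl⟩
    · simp only [List.length_cons] at h1
      push_cast at h1
      omega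
  have near : ∀ y ∈ [w, w'], dist y a < ε / 2 ∧ y ∈ Metric.thickening ε S := by
    intro y hy
    obtain ⟨z, hz, hyz⟩ := Metric.mem_thickening_iff.1 (hl.1 y hy)
    have h2 : dist z a < ε / 4 := hab hz
    have h3 := dist_triangle y z a
    refine ⟨by linarith, Metric.mem_thickening_iff.2 ⟨z, hAS hz, by linarith⟩⟩
  have hw := near w (by simp)
  have hw' := near w' (by simp)
  have hww : dist w w' < ε / 4 := hl.2 w (by simp) w' (by simp)
  have h2 : [a, w, w'] ∈ Small S ε := by
    have hmem : ∀ y ∈ [a, w, w'], y = a ∨ y ∈ [w, w'] := by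
      intro y hy
      rcases List.mem_cons.1 hy with h | h
      · exact Or.inl h
      · exact Or.inr h
    refine ⟨fun y hy => ?_, fun y hy z hz => ?_⟩
    · rcases hmem y hy with rfl | h
      · exact Metric.self_subset_thickening hε S (hAS ha)
      · exact (near y h).2
    · rcases hmem y hy with rfl | h
      · rcases hmem z hz with rfl | h'
        · rw [dist_self]
          exact hε
        · rw [dist_comm]
          linarith [(near z h').1]
      · rcases hmem z hz with rfl | h'
        · linarith [(near y h).1]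
        · linarith [hl.2 y h z h']
  have h3 := hd _ h2
  apply hne
  simp only [dd_cons, dd_nil, sh_apply] at h3
  rw [Pi.sub_apply, dd_c0_two]
  linear_combination h3

theorem main (hR : S_ARC) (hC : S_CON) : S_MOA := by
  intro k X _ _ A a b h
  refine ⟨fun g hg => ?_, fun g m m' h1 h2 => uniq hC h g m m' h1 h2, ?_, ?_, ?_, ?_⟩
  · obtain ⟨c, h1, _, h3⟩ := hR.1 k X A A a b h (arc_compact h).isClosed Subset.rfl 1 le_rfl g hg
    have h4 : Dg X 0 c := h1
    rw [h4.eq_c0] at h3
    exact ⟨_, fun x => c [x], h3, rfl⟩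
  · rintro g g' m m' ⟨f, hf, rfl⟩ ⟨f', hf', rfl⟩
    refine ⟨f + f', ?_, ?_⟩
    · rw [c0_add, dd_add, add_sub_add_comm]
      exact hf.add hf'
    · simp only [Pi.add_apply]
      ring
  · rintro g t m ⟨f, hf, rfl⟩
    refine ⟨t • f, ?_, ?_⟩
    · rw [c0_smul, dd_smul, ← smul_sub]
      exact hf.smul t
    · simp only [Pi.smul_apply, smul_eq_mul]
      ring
  · rintro g g' m h1 ⟨f, hf, rfl⟩
    refine ⟨f, ?_, rfl⟩
    have h2 := hf.sub h1
    have h3 : g - dd (c0 f) - (g - g') = g' - dd (c0 f) := by abel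
    rwa [h3] at h2
  · intro g S ε hε hg hd hAS hab
    exact near g S ε hε hg hd hAS hab (arc_left h)

end MOA

theorem t_MOA : M_MOA := fun h1 h2 => MOA.main h1 h2

end BBH
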