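import Pool.Agent.BBH.StmtsE

/-!
# BBH: a primitive on the arcs
-/

set_option autoImplicit false

namespace BBH

open Set Topology CTO

namespace MOC

variable {k : Type} [Field k]

/-- a functional that vanishes on the kernel factors through the map -/
theorem factor {V W : Type} [AddCommGroup V] [Module k V] [AddCommGroup W] [Module k W]
    (D : V →ₗ[k] W) (mu : V →ₗ[k] k) (h : ∀ w, D w = 0 → mu w = 0) :
    ∃ psi : W →ₗ[k] k, ∀ w, psi (D w) = mu w := by
  have h1 : mu ∈ LinearMap.range D.dualMap := by
    rw [LinearMap.range_dualMap_eq_dualAnnihilator_ker, Submodule.mem_dualAnnihilator]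
    intro w hw
    exact h w (LinearMap.mem_ker.1 hw)
  obtain ⟨psi, hpsi⟩ := h1
  refine ⟨psi, fun w => ?_⟩
  rw [← hpsi]
  rfl

/-- the sum over the support, enumerated by `Fin n` -/
theorem sum_enum {I : Type} (w : I →₀ k) (u : I → k) :
    ∑ i : Fin w.support.card, w (w.support.equivFin.symm i).1 * u (w.support.equivFin.symm i).1 =
      Finsupp.linearCombination k u w := by
  rw [Finsupp.linearCombination_apply, Finsupp.sum,
    ← Finset.sum_coe_sort w.support (fun j => w j • u j)]
  exact Equiv.sum_comp w.support.equivFin.symm (fun j : w.support => w j.1 * u j.1)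

end MOC

theorem t_MOC : M_MOC := by
  intro hMOA k X _ _ O g hg hO hz
  let I : Type := {t : Set X × X × X // BBP.Arc t.1 t.2.1 t.2.2 ∧ t.1 ⊆ O}
  have h1 : ∀ i : I, ∃ m, Mo i.1.1 i.1.2.1 i.1.2.2 g m := fun i =>
    (hMOA k X i.1.1 i.1.2.1 i.1.2.2 i.2.1).1 g
      ⟨hg, Zr.empty hg, hO.anti i.2.2⟩
  choose m hm using h1
  let D : (I →₀ k) →ₗ[k] (X →₀ k) := Finsupp.linearCombination k
    (fun i : I => Finsupp.single i.1.2.2 (1 : k) - Finsupp.single i.1.2.1 1)
  have hker : ∀ w, D w = 0 → Finsupp.linearCombination k m w = 0 := by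
    intro w hw
    rw [← MOC.sum_enum w m]
    refine hz _ (fun i => (w.support.equivFin.symm i).1.1.1)
      (fun i => (w.support.equivFin.symm i).1.1.2.1)
      (fun i => (w.support.equivFin.symm i).1.1.2.2)
      (fun i => w (w.support.equivFin.symm i).1)
      (fun i => m (w.support.equivFin.symm i).1)
      ⟨fun i => (w.support.equivFin.symm i).1.2.1, fun f => ?_⟩
      (fun i => (w.support.equivFin.symm i).1.2.2)
      (fun i => hm (w.support.equivFin.symm i).1)
    have h2 := MOC.sum_enum w (fun i : I => f i.1.2.2 - f i.1.2.1)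
    rw [h2]
    have h3 : Finsupp.linearCombination k (fun i : I => f i.1.2.2 - f i.1.2.1) w =
        Finsupp.linearCombination k f (D w) := by
      simp only [D]
      rw [← LinearMap.comp_apply]
      congr 1
      ext i
      simp
    rw [h3, hw, map_zero]
  obtain ⟨psi, hpsi⟩ := MOC.factor D (Finsupp.linearCombination k m) hker
  refine ⟨fun x => psi (Finsupp.single x 1), fun A a b hA hAO => ?_⟩
  have h4 := hpsi (Finsupp.single (⟨(A, a, b), hA, hAO⟩ : I) 1)
  simp only [D, Finsupp.linearCombination_single, one_smul, map_sub] at h4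
  have h5 := hm ⟨(A, a, b), hA, hAO⟩
  rw [← h4] at h5
  exact h5

end BBH
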