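import Pool.Agent.BBH.StmtsE

/-!
# BBH: a primitive on arcs is a primitive near compact sets
-/

set_option autoImplicit false

namespace BBH

open Set Topology CTO

namespace MOD

variable {k X : Type} [Field k] [MetricSpace X]

theorem diag (g : Cc k X) (S : Set X) (ε : ℝ) (hε : 0 < ε)
    (hd : ∀ l ∈ Small S ε, dd g l = 0) {a : X} (ha : a ∈ S) : g [a, a] = 0 := by
  have h1 : [a, a, a] ∈ Small S ε := by
    refine ⟨fun y hy => ?_, fun y hy z hz => ?_⟩
    · have : y = a := by simpa using hy
      subst this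
      exact Metric.self_subset_thickening hε S ha
    · have h2 : y = a := by simpa using hy
      have h3 : z = a := by simpa using hz
      subst h2
      rw [h3, dist_self]
      exact hε
  have h2 := hd _ h1
  simp only [dd_cons, dd_nil, sh_apply] at h2
  have h3 : g [a, a] - (g [a, a] - (g [a, a] - 0)) = g [a, a] := by ring
  rwa [h3] at h2

theorem main (hM : S_MOA) (hP : BBP.S_PTA) : S_MOD := by
  intro k X _ _ _ hL O K g f hO hK hKO hg hz hmo
  have := hL
  obtain ⟨ε, hε, hd⟩ := hz
  have hopen : ∀ y : X, IsOpen (pathComponentIn (O ∩ Metric.ball y (ε / 8)) y) := fun y =>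
    (hO.inter Metric.isOpen_ball).pathComponentIn y
  have hmem : ∀ y ∈ K, y ∈ pathComponentIn (O ∩ Metric.ball y (ε / 8)) y := by
    intro y hy
    exact mem_pathComponentIn_self ⟨hKO hy, Metric.mem_ball_self (by positivity)⟩
  obtain ⟨δ, hδ, hleb⟩ := lebesgue_number_lemma_of_metric (s := K)
    (c := fun y : K => pathComponentIn (O ∩ Metric.ball (y : X) (ε / 8)) (y : X)) hK
    (fun y => hopen y) (fun y hy => mem_iUnion.2 ⟨⟨y, hy⟩, hmem y hy⟩)
  refine ⟨δ / 2, by positivity, fun l hl => ?_⟩
  by_contra hne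
  have hdeg : Dg X 1 (g - dd (c0 f)) := hg.sub (Dg.c0 _).dd
  have h1 := (hdeg l hne).2
  obtain ⟨u, v, rfl⟩ : ∃ u v, l = [u, v] := by
    rcases l with _ | ⟨w, _ | ⟨w', _ | ⟨w2, l⟩⟩⟩
    · simp at h1
    · simp at h1
    · exact ⟨w, w', rfl⟩
    · simp only [List.length_cons] at h1
      push_cast at h1
      omega
  apply hne
  rw [Pi.sub_apply, dd_c0_two, sub_eq_zero]
  obtain ⟨x, hxK, hux⟩ := Metric.mem_thickening_iff.1 (hl.1 u (by simp))
  have huv : dist u v < δ / 2 := hl.2 u (by simp) v (by simp)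
  obtain ⟨y, hy⟩ := hleb x hxK
  have hu : u ∈ pathComponentIn (O ∩ Metric.ball (y : X) (ε / 8)) (y : X) := by
    apply hy
    rw [Metric.mem_ball]
    linarith
  have hv : v ∈ pathComponentIn (O ∩ Metric.ball (y : X) (ε / 8)) (y : X) := by
    apply hy
    rw [Metric.mem_ball]
    have h2 := dist_triangle v u x
    rw [dist_comm v u] at h2
    linarith
  have hsub : pathComponentIn (O ∩ Metric.ball (y : X) (ε / 8)) (y : X) ⊆
      O ∩ Metric.ball (y : X) (ε / 8) := pathComponentIn_subset
  by_cases huv' : u = v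
  · subst huv'
    rw [sub_self]
    exact diag g O ε hε hd (hsub hu).1
  · have hj : JoinedIn (O ∩ Metric.ball (y : X) (ε / 8)) u v :=
      (show JoinedIn (O ∩ Metric.ball (y : X) (ε / 8)) y u from hu).symm.trans hv
    obtain ⟨A, hA, harc⟩ := hP.2 X _ u v hj huv'
    have hAO : A ⊆ O := fun z hz => (hA hz).1
    have hAb : A ⊆ Metric.ball u (ε / 4) := by
      intro z hz
      have h3 := (hA hz).2
      have h4 := (hsub hu).2
      rw [Metric.mem_ball] at h3 h4 ⊢
      have h5 := dist_triangle z (y : X) u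
      rw [dist_comm (y : X) u] at h5
      linarith
    obtain ⟨_, hu2, _, _, _, hu6⟩ := hM k X A u v harc
    exact hu2 g _ _ (hu6 g O ε hε hg hd hAO hAb) (hmo A u v harc hAO)

end MOD

theorem t_MOD : M_MOD := fun h1 h2 => MOD.main h1 h2

end BBH
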