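import Pool.Agent.BBH.StmtsE

/-!
# BBH: the functional of a 1-cycle made of arcs
-/

set_option autoImplicit false

namespace BBH

open Set Topology CTO

namespace MOE

variable {k X : Type} [Field k] [MetricSpace X]

theorem mo_zero {A : Set X} {a b : X} {g : Cc k X} (h : Zr A g) : Mo A a b g (0 : k) := by
  refine ⟨0, ?_, by simp⟩
  have h1 : c0 (0 : X → k) = 0 := by
    funext l
    rcases l with _ | ⟨x, _ | ⟨y, l⟩⟩ <;> simp
  rw [h1, dd_zero, sub_zero]
  exact h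

/-- the graph of the functional of a cycle -/
def gr (hM : S_MOA) (K Z : Set X) {n : ℕ} (A : Fin n → Set X) (a b : Fin n → X) (z : Fin n → k)
    (hA : ∀ i, BBP.Arc (A i) (a i) (b i)) : Submodule k (Cc k X × k) where
  carrier := {q | ∃ (g : Cc k X) (m : Fin n → k), CyO 2 Zᶜ q.1 ∧ Dg X 1 g ∧
    Zr K (q.1 - dd g) ∧ (∀ i, Mo (A i) (a i) (b i) g (m i)) ∧ q.2 = ∑ i, z i * m i}
  zero_mem' := by
    refine ⟨0, 0, Cyc.zero, Dg.zero, ?_, fun i => mo_zero (Zr.zero _), ?_⟩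
    · rw [dd_zero, Prod.fst_zero, sub_zero]
      exact Zr.zero _
    · simp
  add_mem' := by
    rintro q q' ⟨g, m, h1, h2, h3, h4, h5⟩ ⟨g', m', h1', h2', h3', h4', h5'⟩
    refine ⟨g + g', m + m', h1.add h1', h2.add h2', ?_, fun i =>
      (hM k X (A i) (a i) (b i) (hA i)).2.2.1 g g' (m i) (m' i) (h4 i) (h4' i), ?_⟩
    · rw [dd_add, Prod.fst_add, add_sub_add_comm]
      exact h3.add h3'
    · rw [Prod.snd_add, h5, h5', ← Finset.sum_add_distrib]
      exact Finset.sum_congr rfl fun i _ => by rw [Pi.add_apply, mul_add]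
  smul_mem' := by
    rintro t q ⟨g, m, h1, h2, h3, h4, h5⟩
    refine ⟨t • g, t • m, h1.smul t, h2.smul t, ?_, fun i =>
      (hM k X (A i) (a i) (b i) (hA i)).2.2.2.1 g t (m i) (h4 i), ?_⟩
    · rw [dd_smul, Prod.smul_fst, ← smul_sub]
      exact h3.smul t
    · rw [Prod.smul_snd, h5, smul_eq_mul, Finset.mul_sum]
      exact Finset.sum_congr rfl fun i _ => by rw [Pi.smul_apply, smul_eq_mul]; ring

theorem main (hM : S_MOA) : S_MOE := by
  intro k X _ _ _ K Q n A a b z hz hQK hAQ hB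
  set Z : Set X := ⋃ i, A i with hZ
  have hAZ : ∀ i, A i ⊆ Z := fun i => subset_iUnion A i
  have hgr : ∀ q ∈ gr hM K Z A a b z hz.arc, q.1 = 0 → q.2 = 0 := by
    rintro q ⟨g, m, _, h2, h3, h4, h5⟩ h0
    rw [h0, zero_sub] at h3
    have h3' : Zr K (dd g) := by
      have := h3.neg
      rwa [neg_neg] at this
    obtain ⟨e, he, _, heQ⟩ := hB g ⟨h2, Zr.empty h2, h3'⟩
    have he' : Dg X 0 e := he
    rw [he'.eq_c0] at heQ
    have h6 : ∀ i, m i = e [b i] - e [a i] := fun i =>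
      (hM k X (A i) (a i) (b i) (hz.arc i)).2.1 g _ _ (h4 i)
        ⟨fun x => e [x], heQ.anti ((hAZ i).trans hAQ), rfl⟩
    rw [h5, ← hz.bd fun x => e [x]]
    exact Finset.sum_congr rfl fun i _ => by rw [h6 i]
  obtain ⟨s, hs⟩ := LinearMap.exists_extend (gr hM K Z A a b z hz.arc).toLinearPMap.toFun
  have key : ∀ (c g : Cc k X) (m : Fin n → k), CyO 2 Zᶜ c → Dg X 1 g → Zr K (c - dd g) →
      (∀ i, Mo (A i) (a i) (b i) g (m i)) → s c = ∑ i, z i * m i := by
    intro c g m h1 h2 h3 h4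
    have hmem : (c, ∑ i, z i * m i) ∈ gr hM K Z A a b z hz.arc := ⟨g, m, h1, h2, h3, h4, rfl⟩
    rw [← Submodule.toLinearPMap_graph_eq _ hgr, LinearPMap.mem_graph_iff] at hmem
    obtain ⟨y, hy1, hy2⟩ := hmem
    have h5 := LinearMap.congr_fun hs y
    simp only at hy1 hy2
    rw [← hy2, ← hy1]
    exact h5
  refine ⟨s, ?_, key⟩
  rintro c hc ⟨e, he1, he2, he3⟩
  rw [compl_compl] at he2
  have h1 := key c e (fun _ => 0) hc he1 (he3.anti (subset_univ _)) fun i =>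
    mo_zero (he2.anti (hAZ i))
  rw [h1]
  simp

end MOE

theorem t_MOE : M_MOE := fun h => MOE.main h

end BBH
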