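import Pool.Agent.BBH.StmtsE

/-!
# BBH, module NZK: the third group is not zero for a countable field
-/

set_option autoImplicit false

namespace BBH

open Set Topology CTO

namespace NZK

theorem dd_one {M X : Type} [AddCommGroup M] (m : M) : dd (c0 fun _ : X => m) = 0 := by
  funext l
  rcases l with _ | ⟨x, _ | ⟨y, _ | ⟨z, l⟩⟩⟩
  · simp
  · simp
  · simp
  · by_contra h
    have h1 := ((Dg.c0 fun _ : X => m).dd _ h).2
    simp only [List.length_cons] at h1
    push_cast at h1
    omega

theorem not_van {k X : Type} [Field k] [MetricSpace X] (x : X) :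
    ¬ VanO k 0 (univ : Set X) := by
  intro h
  have h1 : CyO 0 (univ : Set X) (c0 fun _ : X => (1 : k)) := by
    refine ⟨Dg.c0 _, ?_, ?_⟩
    · rw [compl_univ]
      exact Zr.empty (Dg.c0 _)
    · rw [dd_one]
      exact Zr.zero _
  obtain ⟨b, hb, -, ε, hε, hz⟩ := h _ h1
  have hb0 : b = 0 := hb.eq_zero (by norm_num)
  have h2 := hz [x] ⟨fun y _ => Metric.self_subset_thickening hε _ (mem_univ y), by
    intro y hy z hz
    rw [List.mem_singleton] at hy hz
    rw [hy, hz, dist_self]
    exact hε⟩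
  rw [hb0, dd_zero, sub_zero, c0_single] at h2
  exact one_ne_zero h2

end NZK

theorem t_NZK : M_NZK := by
  intro hNZA hGEQ h0 h1 h2 k X _ _ _ _ _ hX hH hS hG x
  refine hNZA k X hH hS ?_ x
  by_contra hc
  have v3 : ∀ V : Set X, IsOpen V → VanO k (2 + 1) V := by
    intro V hV
    by_contra hn
    exact hc ⟨V, hV, hn⟩
  have v2 := hGEQ k X 2 v3 (h2 k X hX hH hG)
  have v1 := hGEQ k X 1 v2 (h1 k X hX hG)
  have v0 := hGEQ k X 0 v1 (h0 k X hG)
  exact NZK.not_van x (v0 univ isOpen_univ)

end BBH
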