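import Pool.Agent.BBH.StmtsF

/-!
# Module KA: cup products with the twisting cochain
-/

set_option autoImplicit false

namespace BBH

open Set Topology CTO

namespace KA

variable {k X : Type} [Field k] [MetricSpace X]

/-- a functional that kills coboundaries is zero on the cochains that vanish near `univ` -/
theorem kil_zr {B : Set X} {s : Cc k X →ₗ[k] k} (hs : Kil 3 B s) {c : Cc k X}
    (hd : Dg X 3 c) (hz : Zr univ c) : s c = 0 := by
  refine hs c ⟨hd, hz.anti (subset_univ _), hz.dd⟩ ?_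
  exact Bd.of_Zr hz

end KA

theorem t_KA : S_KA := by
  intro k X _ _ B B' D O N K W θ Θ s hK hT hs hg η hη
  have e3 : (1 : ℤ) + 2 = 3 := by norm_num
  have e3' : (2 : ℤ) + 1 = 3 := by norm_num
  have e2 : (2 : ℤ) - 1 = 1 := by norm_num
  -- `dd Θ` vanishes near `Nᶜ`
  have hΘN : Zr Nᶜ (dd Θ) := by
    have h := hT.cy.rel.sub (hT.eq.anti (subset_univ Nᶜ))
    rwa [sub_sub_cancel] at h
  have hNW : Nᶜ ∪ Wᶜ = univ := by
    rw [← compl_inter, compl_eq_comm, compl_univ, eq_comm, eq_empty_iff_forall_notMem]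
    rintro x ⟨hxN, hxW⟩
    exact (hK.subW hxW).2 (hK.subN hxN)
  have hWB : W ⊆ B := fun x hx => (hK.subW hx).1
  have hdeg : Dg X 3 (cup Θ η) := by
    have h := hT.deg.cup hη.deg
    rwa [e3] at h
  have hleib : ∀ {q : ℤ} {c : Cc k X}, Dg X q c →
      dd (cup Θ c) = cup (dd Θ) c - cup Θ (dd c) := by
    intro q c hc
    have h := dd_cup (p := 1) (q := q) hT.deg hc
    rw [h, pow_one, neg_one_smul, ← sub_eq_add_neg]
  have h1 : CyO 3 W (cup Θ η) := by
    refine ⟨hdeg, Zr.cup_right Θ hη.rel, ?_⟩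
    rw [hleib hη.deg]
    refine Zr.sub ?_ (Zr.cup_right Θ hη.cyc)
    rw [← hNW]
    exact (Zr.cup_left η hΘN).union (Zr.cup_right (dd Θ) hη.rel)
  refine ⟨h1, ?_⟩
  obtain ⟨h, hd, -, hz⟩ := hK.tr η (hη.mono hWB)
  rw [e2] at hd
  have hKW : K ⊆ Wᶜ := fun x hx hxW => (hK.subW hxW).2 hx
  have hcyc : Cyc 1 K ∅ h := by
    refine ⟨hd, Zr.empty hd, ?_⟩
    have h2 := (hη.rel.anti hKW).sub (hz.anti (subset_univ K))
    rwa [sub_sub_cancel] at h2
  have hs0 := hg h hcyc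
  -- the coboundary of `cup Θ h`
  have hb2 : Dg X 2 (cup Θ h) := by
    have h2 := hT.deg.cup hd
    have e4 : (1 : ℤ) + 1 = 2 := by norm_num
    rwa [e4] at h2
  have hbz : Zr Bᶜ (cup Θ h) := by
    refine Zr.cup_left h (hT.zer.anti ?_)
    exact compl_subset_compl.2 (hK.subO.trans hK.subD)
  have hs1 : s (dd (cup Θ h)) = 0 := by
    refine hs _ ⟨?_, hbz.dd, ?_⟩ ?_
    · have h2 := hb2.dd
      rwa [e3'] at h2
    · rw [dd_dd]
      exact Zr.zero _
    · refine Bd.of_dd ?_ hbz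
      have e5 : (3 : ℤ) - 1 = 2 := by norm_num
      rwa [e5]
  rw [hleib hd, map_sub] at hs1
  have hθd : Dg X 2 θ := hT.cy.deg
  have hs2 : s (cup (θ - dd Θ) h) = 0 := by
    refine KA.kil_zr hs ?_ (Zr.cup_left h hT.eq)
    have hdT : Dg X 2 (dd Θ) := by
      have h2 := hT.deg.dd
      have e4 : (1 : ℤ) + 1 = 2 := by norm_num
      rwa [e4] at h2
    have h2 := (hθd.sub hdT).cup hd
    rwa [e3'] at h2
  have hs3 : s (cup Θ (η - dd h)) = 0 := by
    refine KA.kil_zr hs ?_ (Zr.cup_right Θ hz)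
    have hdh : Dg X 2 (dd h) := by
      have h2 := hd.dd
      have e4 : (1 : ℤ) + 1 = 2 := by norm_num
      rwa [e4] at h2
    have h2 := hT.deg.cup (hη.deg.sub hdh)
    rwa [e3] at h2
  rw [cup_sub_left, map_sub, hs0, zero_sub, neg_eq_zero] at hs2
  rw [cup_sub_right, map_sub] at hs3
  rw [hs2, zero_sub, neg_eq_zero] at hs1
  rw [hs1, sub_zero] at hs3
  exact hs3

end BBH
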