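import Pool.Agent.BBH.StmtsF

/-!
# BBH, module KB: a functional on the twisted cochains that extends `s`
-/

set_option autoImplicit false

namespace BBH

open Set Topology CTO

namespace KB

section

variable {k X : Type} [Field k]

/-- the coboundary as a linear map -/
def ddL (k X : Type) [Field k] : Cc k X →ₗ[k] Cc k X where
  toFun := dd
  map_add' := dd_add
  map_smul' := fun a c => dd_smul a c

/-- the cup product with `Θ` as a linear map -/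
def cupL (Θ : Cc k X) : Cc k X →ₗ[k] Cc k X where
  toFun := cup Θ
  map_add' := cup_add_right Θ
  map_smul' := fun a c => cup_smul_right a Θ c

theorem ddL_apply (c : Cc k X) : ddL k X c = dd c := rfl

theorem cupL_apply (Θ c : Cc k X) : cupL Θ c = cup Θ c := rfl

variable [MetricSpace X]

/-- the cochains of degree `p` that vanish near `A` -/
def DZ (p : ℤ) (A : Set X) : Submodule k (Cc k X) where
  carrier := {c | Dg X p c ∧ Zr A c}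
  zero_mem' := ⟨Dg.zero, Zr.zero _⟩
  add_mem' := fun h h' => ⟨h.1.add h'.1, h.2.add h'.2⟩
  smul_mem' := fun a _ h => ⟨h.1.smul a, h.2.smul a⟩

theorem mem_DZ {p : ℤ} {A : Set X} {c : Cc k X} : c ∈ DZ (k := k) p A ↔ Dg X p c ∧ Zr A c :=
  Iff.rfl

theorem mem_ZZ {p : ℤ} {W : Set X} {c : Cc k X} : c ∈ ZZ k k p univ Wᶜ ↔ CyO p W c := Iff.rfl

end

/-- a functional that vanishes on the kernel factors -/
theorem factor {k A V : Type} [Field k] [AddCommGroup A] [Module k A] [AddCommGroup V]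
    [Module k V] (F : A →ₗ[k] V) (σ : A →ₗ[k] k) (h : ∀ a, F a = 0 → σ a = 0) :
    ∃ P : V →ₗ[k] k, ∀ a, P (F a) = σ a := by
  have h1 : σ ∈ (LinearMap.ker F).dualAnnihilator := by
    rw [Submodule.mem_dualAnnihilator]
    intro a ha
    exact h a (LinearMap.mem_ker.1 ha)
  rw [← LinearMap.range_dualMap_eq_dualAnnihilator_ker] at h1
  obtain ⟨P, hP⟩ := h1
  refine ⟨P, fun a => ?_⟩
  rw [← hP]
  rfl

end KB

open KB in
theorem t_KB : S_KB := by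
  intro k X _ _ W Θ s hΘ hs hη
  let ZC : Submodule k (Cc k X) := ZZ k k 3 univ Wᶜ
  let B2 : Submodule k (Cc k X) := DZ 2 Wᶜ
  let Z3 : Submodule k (Cc k X) := DZ 3 univ
  let f0 : ZC →ₗ[k] Cc k X × Cc k X := LinearMap.inl k _ _ ∘ₗ ZC.subtype
  let f1 : B2 →ₗ[k] Cc k X × Cc k X := LinearMap.inl k _ _ ∘ₗ ddL k X ∘ₗ B2.subtype
  let f2 : B2 →ₗ[k] Cc k X × Cc k X :=
    LinearMap.prod (cupL Θ ∘ₗ B2.subtype) (ddL k X ∘ₗ B2.subtype)
  let f3 : Z3 →ₗ[k] Cc k X × Cc k X := LinearMap.inl k _ _ ∘ₗ Z3.subtype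
  let f4 : Z3 →ₗ[k] Cc k X × Cc k X := LinearMap.inr k _ _ ∘ₗ Z3.subtype
  let F : (ZC × B2 × B2 × Z3 × Z3) →ₗ[k] Cc k X × Cc k X :=
    f0.coprod (f1.coprod (f2.coprod (f3.coprod f4)))
  let σ : (ZC × B2 × B2 × Z3 × Z3) →ₗ[k] k := (s ∘ₗ ZC.subtype).coprod 0
  have hF : ∀ (c : ZC) (b₀ b₁ : B2) (z₀ z₁ : Z3), F (c, b₀, b₁, z₀, z₁) =
      ((c : Cc k X) + (dd (b₀ : Cc k X) + (cup Θ (b₁ : Cc k X) + (z₀ : Cc k X))),
        dd (b₁ : Cc k X) + (z₁ : Cc k X)) := by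
    intro c b₀ b₁ z₀ z₁
    simp [F, f0, f1, f2, f3, f4, LinearMap.coprod_apply, ddL_apply, cupL_apply]
  have hσ : ∀ (c : ZC) (r : B2 × B2 × Z3 × Z3), σ (c, r) = s (c : Cc k X) := by
    intro c r
    simp [σ, LinearMap.coprod_apply]
  obtain ⟨P, hP⟩ := factor F σ (by
    rintro ⟨c, b₀, b₁, z₀, z₁⟩ h0
    rw [hF] at h0
    rw [hσ]
    obtain ⟨c, hc⟩ := c
    obtain ⟨b₀, hb₀⟩ := b₀
    obtain ⟨b₁, hb₁⟩ := b₁
    obtain ⟨z₀, hz₀⟩ := z₀
    obtain ⟨z₁, hz₁⟩ := z₁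
    have hc' : CyO 3 W c := hc
    have e1 : c + (dd b₀ + (cup Θ b₁ + z₀)) = 0 := congrArg Prod.fst h0
    have e2 : dd b₁ + z₁ = 0 := congrArg Prod.snd h0
    change s c = 0
    have h1 : CyO 2 W b₁ := by
      refine ⟨hb₁.1, hb₁.2, ?_⟩
      rw [eq_neg_of_add_eq_zero_left e2]
      exact hz₁.2.neg
    have h2 := (hη b₁ h1).2
    have h3 : CyO 3 W (dd b₀) ∧ BdO 3 W (dd b₀) := by
      have hd : Dg X 3 (dd b₀) := hb₀.1.dd
      refine ⟨⟨hd, hb₀.2.dd, ?_⟩, Bd.of_dd hb₀.1 hb₀.2⟩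
      rw [dd_dd]
      exact Zr.zero _
    have h4 : s (dd b₀) = 0 := hs _ h3.1 h3.2
    have h5 : s z₀ = 0 := hs _ (CyO.of_Zr hz₀.1 hz₀.2) (BdO.of_Zr hz₀.2)
    have h6 := congrArg s e1
    rw [map_add, map_add, map_add, h2, h4, h5, map_zero, add_zero, add_zero, add_zero] at h6
    exact h6)
  refine ⟨P, ⟨fun c hc => ?_, fun b₀ b₁ h0 h1 h2 h3 => ?_, fun z₀ z₁ h0 h1 h2 h3 => ?_⟩⟩
  · have h := hP ((⟨c, hc⟩ : ZC), 0, 0, 0, 0)
    rw [hF, hσ] at h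
    simpa [dd_zero] using h
  · have h := hP (0, (⟨b₀, h0, h2⟩ : B2), (⟨b₁, h1, h3⟩ : B2), 0, 0)
    rw [hF, hσ] at h
    simpa using h
  · have h := hP (0, 0, 0, (⟨z₀, h0, h2⟩ : Z3), (⟨z₁, h1, h3⟩ : Z3))
    rw [hF, hσ] at h
    simpa [dd_zero, cup_zero_right] using h

end BBH
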