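import Pool.Agent.BBH.StmtsF

/-!
# BBH, module KC: normalisation outside of `D`
-/

set_option autoImplicit false

namespace BBH

open Set Topology CTO

open Classical in
theorem t_KC : S_KC := by
  intro k X _ _ B B' D O N K W θ Θ s P hSj hK hPri hP
  have hW₀ : IsOpen (B \ D) := hK.opB.sdiff hK.cD.isClosed
  have hWB : W ⊆ B := hK.subW.trans sdiff_subset
  -- `c ↦ P (0, c)` kills the coboundaries
  have hkill : ∀ c : Cc k X, CyO 3 (B \ D) c → BdO 3 (B \ D) c → P (0, c) = 0 := by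
    intro c hc hb
    obtain ⟨b, hb1, hb2, hb3⟩ := hb
    have hb1' : Dg X 2 b := by
      have h : (3 : ℤ) - 1 = 2 := by norm_num
      rwa [h] at hb1
    have hbW : Zr Wᶜ b := hb2.anti (compl_subset_compl.2 hK.outW)
    have e1 : P (dd (0 : Cc k X) + cup Θ b, dd b) = 0 :=
      hP.b 0 b Dg.zero hb1' (Zr.zero _) hbW
    have hcup : Dg X 3 (cup Θ b) := by
      have h := hPri.deg.cup hb1'
      have h' : (1 : ℤ) + 2 = 3 := by norm_num
      rwa [h'] at h
    have hcup0 : Zr univ (cup Θ b) := by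
      refine Zr.univ_of (V := O) ?_ (hPri.zer.cup_left b)
      refine (hb2.anti ?_).cup_right Θ
      intro y hy h
      exact h.2 (hK.subO hy)
    have e2 : P (cup Θ b, 0) = 0 := hP.c _ 0 hcup Dg.zero hcup0 (Zr.zero _)
    have hddb : Dg X 3 (dd b) := hb1.dd'
    have e3 : P (0, c - dd b) = 0 :=
      hP.c 0 _ Dg.zero (hc.deg.sub hddb) (Zr.zero _) hb3
    have e4 : ((0 : Cc k X), c) =
        (dd (0 : Cc k X) + cup Θ b, dd b) - (cup Θ b, (0 : Cc k X)) + (0, c - dd b) := by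
      rw [dd_zero, zero_add]
      ext1
      · simp
      · simp
    rw [e4, map_add, map_sub, e1, e2, e3, sub_zero, add_zero]
  obtain ⟨F, hF⟩ := exists_lift (R := k) (p := 3) (A := univ) (B := (B \ D)ᶜ)
    ((P ∘ₗ LinearMap.inr k (Cc k X) (Cc k X)) ∘ₗ (ZZ k k 3 univ (B \ D)ᶜ).subtype)
    (fun c hc => hkill c.1 c.2 hc)
  -- the extension map is bijective
  have hbij : Function.Bijective (ext k k (p := 3) (sdiff_subset : B \ D ⊆ B)) := by
    constructor
    · rw [← LinearMap.ker_eq_bot, LinearMap.ker_eq_bot']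
      intro a ha
      obtain ⟨c, h, rfl⟩ := cls_surj a
      have h0 : CyO 3 (B \ D) c := h
      have ha' : cls k c (h0.mono (sdiff_subset : B \ D ⊆ B)) = 0 := ha
      rw [cls_eq_zero]
      exact hK.inj c h0 ((cls_eq_zero _).1 ha')
    · intro a
      obtain ⟨c, h, rfl⟩ := cls_surj a
      obtain ⟨c', h1, h2⟩ := hSj B (B \ D) hK.opB hK.conB hW₀ sdiff_subset
        hK.conD.nonempty c h
      refine ⟨cls k c' h1, ?_⟩
      exact ((cls_eq (R := k) h (h1.mono (sdiff_subset : B \ D ⊆ B))).2 h2).symm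
  obtain ⟨p, hp, hpv⟩ := exists_total (p := 3) (V := B)
    (F ∘ₗ ((LinearEquiv.ofBijective _ hbij).symm : HO k k 3 B →ₗ[k] HO k k 3 (B \ D)))
  have hpc : ∀ c : Cc k X, CyO 3 (B \ D) c → p c = P (0, c) := by
    intro c hc
    rw [hpv c (hc.mono sdiff_subset), LinearMap.comp_apply]
    have h1 : cls k c (hc.mono sdiff_subset) =
        (LinearEquiv.ofBijective _ hbij) (cls k c hc) := rfl
    rw [h1, LinearEquiv.coe_coe, LinearEquiv.symm_apply_apply, hF c hc]
    rfl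
  refine ⟨P - p ∘ₗ LinearMap.snd k (Cc k X) (Cc k X), ⟨?_, ?_, ?_⟩, ?_⟩
  · intro c hc
    rw [LinearMap.sub_apply, LinearMap.comp_apply, LinearMap.snd_apply, map_zero, sub_zero]
    exact hP.a c hc
  · intro b₀ b₁ h0 h1 h0' h1'
    have hB : Zr Bᶜ b₁ := h1'.anti (compl_subset_compl.2 hWB)
    have h2 : Dg X (3 - 1) b₁ := by
      have h : (3 : ℤ) - 1 = 2 := by norm_num
      rwa [h]
    have h3 : CyO 3 B (dd b₁) :=
      ⟨h2.dd', hB.dd, by rw [dd_dd]; exact Zr.zero _⟩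
    have h4 : p (dd b₁) = 0 := hp _ h3 (Bd.of_dd h2 hB)
    rw [LinearMap.sub_apply, LinearMap.comp_apply, LinearMap.snd_apply, h4, sub_zero]
    exact hP.b b₀ b₁ h0 h1 h0' h1'
  · intro z₀ z₁ h0 h1 h0' h1'
    have h4 : p z₁ = 0 := hp _ (CyO.of_Zr h1 h1') (BdO.of_Zr h1')
    rw [LinearMap.sub_apply, LinearMap.comp_apply, LinearMap.snd_apply, h4, sub_zero]
    exact hP.c z₀ z₁ h0 h1 h0' h1'
  · intro c hc
    rw [LinearMap.sub_apply, LinearMap.comp_apply, LinearMap.snd_apply, hpc c hc, sub_self]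

end BBH
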