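import Pool.Agent.BBH.StmtsF

/-!
# Module KD: local triviality of the twisting cochain
-/

set_option autoImplicit false

namespace BBH

open Set Topology CTO

theorem t_KD : M_KD := by
  intro hP k X _ _ hL B B' D O N K W θ Θ hK hT y hy
  have hyN : {y} ⊆ Nᶜ := by
    rw [singleton_subset_iff]
    exact fun h => (hK.subW hy).2 (hK.subN h)
  have h1 : Zr {y} (dd Θ) := by
    have h := (hT.cy.rel.anti hyN).sub (hT.eq.anti (subset_univ {y}))
    rwa [sub_sub_cancel] at h
  obtain ⟨b, hb, -, hz⟩ := (hP k X y).1 1 le_rfl Θ ⟨hT.deg, Zr.empty hT.deg, h1⟩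
  have e10 : (1 : ℤ) - 1 = 0 := by norm_num
  rw [e10] at hb
  rw [hb.eq_c0] at hz
  obtain ⟨r, hr, hrz⟩ := hz.nhds
  have hO : IsOpen (W ∩ Metric.ball y r) := hK.opW.inter Metric.isOpen_ball
  have hyO : y ∈ W ∩ Metric.ball y r := ⟨hy, Metric.mem_ball_self hr⟩
  have hVs : connectedComponentIn (W ∩ Metric.ball y r) y ⊆ W ∩ Metric.ball y r :=
    connectedComponentIn_subset _ _
  refine ⟨connectedComponentIn (W ∩ Metric.ball y r) y, hVs.trans inter_subset_left,
    hO.connectedComponentIn, isConnected_connectedComponentIn_iff.2 hyO,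
    mem_connectedComponentIn hyO, fun x => b [x], hrz _ (hVs.trans fun z hz => ?_)⟩
  rw [Metric.thickening_singleton]
  exact hz.2

end BBH
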