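import Pool.Agent.BBH.StmtsF

/-!
# Module KE: the functional `q c = P (- cup (c0 u) c, c)`
-/

set_option autoImplicit false

namespace BBH

open Set Topology CTO

namespace KE

variable {k X : Type} [Field k]

theorem cup_top (g e : Cc k X) (h : ∀ l, l ≠ [] → g l = 0) (l : List X) : cup g e l = 0 := by
  rcases l with _ | ⟨x, l⟩
  · exact cup_nil g e
  · have h1 : sh g x = 0 := by
      funext l'
      exact h _ (List.cons_ne_nil x l')
    rw [cup_cons, h1, cup_zero_left, h [x] (List.cons_ne_nil x []), zero_smul, Pi.zero_apply,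
      add_zero]

theorem cup_c0_cons (f : X → k) (e : Cc k X) (x : X) (l : List X) :
    cup (c0 f) e (x :: l) = f x • e (x :: l) := by
  rw [cup_cons, cup_top (sh (c0 f) x) e, add_zero, c0_single]
  intro l' hl'
  rcases l' with _ | ⟨y, l'⟩
  · exact absurd rfl hl'
  · rfl

theorem cup_c0_const (a : k) {e : Cc k X} (h : e [] = 0) :
    cup (c0 fun _ => a) e = a • e := by
  funext l
  rcases l with _ | ⟨x, l⟩
  · rw [cup_nil, Pi.smul_apply, h, smul_zero]
  · rw [cup_c0_cons, Pi.smul_apply]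

end KE

theorem t_KE : S_KE := by
  intro k X _ _ W Θ s P hΘ hP V hVW hV u hu
  have hWV : Wᶜ ⊆ Vᶜ := compl_subset_compl.2 hVW
  -- cochains near `univ`
  have hz : ∀ z : Cc k X, Dg X 3 z → Zr univ z → P (-cup (c0 u) z, z) = 0 := by
    intro z hz hz'
    have hd : Dg X 3 (-cup (c0 u) z) := by
      have h1 := (Dg.cup (Dg.c0 u) hz).neg
      rwa [zero_add] at h1
    exact hP.c _ _ hd hz (hz'.cup_right (c0 u)).neg hz'
  have hd1 : Dg X 1 (dd (c0 u)) := by
    have h1 := (Dg.c0 u).dd
    rwa [zero_add] at h1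
  refine ⟨?_, ?_⟩
  · intro c hc hb
    obtain ⟨b, hb1, hb2, hb3⟩ := hb
    have hb1' : Dg X 2 b := by
      have e : (3 : ℤ) - 1 = 2 := by norm_num
      rwa [e] at hb1
    have hbW : Zr Wᶜ b := hb2.anti hWV
    have hb0 : Dg X 2 (-cup (c0 u) b) := by
      have h1 := (Dg.cup (Dg.c0 u) hb1').neg
      rwa [zero_add] at h1
    have hb0z : Zr Wᶜ (-cup (c0 u) b) := (hbW.cup_right (c0 u)).neg
    have hmain := hP.b (-cup (c0 u) b) b hb0 hb1' hb0z hbW
    have hleib : dd (cup (c0 u) b) = cup (dd (c0 u)) b + cup (c0 u) (dd b) := by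
      have h1 := dd_cup (p := 0) (Dg.c0 u) hb1'
      rwa [pow_zero, one_smul] at h1
    have hr : Dg X 3 (cup (Θ - dd (c0 u)) b) := by
      have h1 := Dg.cup (hΘ.sub hd1) hb1'
      have e : (1 : ℤ) + 2 = 3 := by norm_num
      rwa [e] at h1
    have hrz : Zr univ (cup (Θ - dd (c0 u)) b) :=
      Zr.univ_of (hu.cup_left b) (hb2.cup_right _)
    have hr0 : P (cup (Θ - dd (c0 u)) b, 0) = 0 := hP.c _ _ hr Dg.zero hrz (Zr.zero _)
    have hddb : P (-cup (c0 u) (dd b), dd b) = 0 := by
      have e : ((-cup (c0 u) (dd b), dd b) : Cc k X × Cc k X)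
          = (dd (-cup (c0 u) b) + cup Θ b, dd b) - (cup (Θ - dd (c0 u)) b, 0) := by
        refine Prod.ext ?_ ?_
        · show -cup (c0 u) (dd b) = dd (-cup (c0 u) b) + cup Θ b - cup (Θ - dd (c0 u)) b
          rw [dd_neg, hleib, cup_sub_left]
          abel
        · show dd b = dd b - 0
          rw [sub_zero]
      rw [e, map_sub, hmain, hr0, sub_zero]
    have hzd : Dg X 3 (c - dd b) := hc.deg.sub hb1.dd'
    have hz0 := hz (c - dd b) hzd hb3
    have e : ((-cup (c0 u) c, c) : Cc k X × Cc k X)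
        = (-cup (c0 u) (dd b), dd b) + (-cup (c0 u) (c - dd b), c - dd b) := by
      refine Prod.ext ?_ ?_
      · show -cup (c0 u) c = -cup (c0 u) (dd b) + -cup (c0 u) (c - dd b)
        rw [cup_sub_right]
        abel
      · show c = dd b + (c - dd b)
        abel
    rw [e, map_add, hddb, hz0, add_zero]
  · intro u' a hua c hc
    have hcW : CyO 3 W c := hc.mono hVW
    have hg : Dg X 0 (c0 u - c0 u' - c0 fun _ => a) :=
      ((Dg.c0 u).sub (Dg.c0 u')).sub (Dg.c0 _)
    have hd : Dg X 3 (cup (c0 u - c0 u' - c0 fun _ => a) c) := by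
      have h1 := Dg.cup hg hc.deg
      rwa [zero_add] at h1
    have hzr : Zr univ (cup (c0 u - c0 u' - c0 fun _ => a) c) :=
      Zr.univ_of (hua.cup_left c) (hc.rel.cup_right _)
    have h0 : P (cup (c0 u - c0 u' - c0 fun _ => a) c, 0) = 0 :=
      hP.c _ _ hd Dg.zero hzr (Zr.zero _)
    have ha : P (a • c, 0) = a * s c := by
      have e : ((a • c, 0) : Cc k X × Cc k X) = a • (c, 0) := by
        refine Prod.ext rfl ?_
        show (0 : Cc k X) = a • 0
        rw [smul_zero]
      rw [e, map_smul, hP.a c hcW, smul_eq_mul]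
    have e : ((-cup (c0 u) c, c) : Cc k X × Cc k X)
        = (-cup (c0 u') c, c) - (cup (c0 u - c0 u' - c0 fun _ => a) c, 0) - (a • c, 0) := by
      refine Prod.ext ?_ ?_
      · show -cup (c0 u) c
          = -cup (c0 u') c - cup (c0 u - c0 u' - c0 fun _ => a) c - a • c
        rw [cup_sub_left, cup_sub_left, KE.cup_c0_const a hc.deg.nil]
        abel
      · show c = c - 0 - 0
        rw [sub_zero, sub_zero]
    rw [e, map_sub, map_sub, h0, ha, sub_zero]

end BBH
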