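import Pool.Agent.BBH.StmtsF

/-!
# Module KEY: the key lemma, assembly
-/

set_option autoImplicit false

namespace BBH

open Set Topology CTO

theorem t_KEY : M_KEY := by
  intro hKA hKB hKC hKF hKG hKH k X _ _ _ hL hSj B B' D O N K W N' θ s hK hθ hb hs hne hg hN' hBW
  obtain ⟨Θ, hΘd, hΘz, hΘe⟩ := hb
  have hΘd' : Dg X 1 Θ := by
    have h : (2 : ℤ) - 1 = 1 := by norm_num
    rw [h] at hΘd
    exact hΘd
  have hP : Pri O N θ Θ := ⟨hθ, hΘd', hΘz, hΘe⟩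
  have hA := hKA k X B B' D O N K W θ Θ s hK hP hs hg
  have hWB : W ⊆ B := fun y hy => (hK.subW hy).1
  have hsW : Kil 3 W s := fun c hc hbc => hs c (hc.mono hWB) (hbc.mono hWB)
  obtain ⟨P, hP1⟩ := hKB k X W Θ s hΘd' hsW hA
  obtain ⟨P', hP2, hP3⟩ := hKC k X B B' D O N K W θ Θ s P hSj hK hP hP1
  have hF := hKF k X hL hSj B B' D O N K W θ Θ s P' hK hP hP2 hP3
  obtain ⟨U, hU1, hU2, hU3⟩ := hKG k X hL hSj B B' D O N K W θ Θ s P' hK hP hP2 hs hne hP3 hF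
  exact hKH k X B B' D O N K W N' θ Θ U hK hP hU1 hU2 hU3 hN' hBW

end BBH
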