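import Pool.Agent.BBH.StmtsF

/-!
# BBH, module KF: all points of `W` are good
-/

set_option autoImplicit false

namespace BBH

open Set Topology CTO

namespace KF

lemma dd_const {k X : Type} [Field k] (m : k) : dd (c0 fun _ : X => m) = 0 := by
  funext l
  rcases l with _ | ⟨x, _ | ⟨y, _ | ⟨z, l⟩⟩⟩
  · simp
  · simp
  · rw [dd_c0_two]
    simp
  · by_contra h
    have h1 := ((Dg.c0 (fun _ : X => m)).dd _ h).2
    simp only [List.length_cons] at h1
    push_cast at h1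
    have h2 : (0 : ℤ) ≤ (l.length : ℤ) := Int.natCast_nonneg _
    omega

lemma split {k X : Type} [Field k] (P : (Cc k X × Cc k X) →ₗ[k] k) (e c c' : Cc k X) :
    P (-cup e c, c) = P (-cup e (c - c'), c - c') + P (-cup e c', c') := by
  rw [← map_add]
  congr 1
  ext1
  · simp only [Prod.fst_add]
    rw [cup_sub_right]
    abel
  · simp only [Prod.snd_add]
    abel

end KF

theorem t_KF : M_KF := by
  intro hCON hKD hKE k X _ _ hLPC hSj B B' D O N K W θ Θ s P hK hPri hP h0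
  have hopen : IsOpen {y | Gd W Θ P y} := by
    rw [isOpen_iff_forall_mem_open]
    rintro y ⟨V, hVW, hVo, hVc, hyV, u, hu, hc⟩
    exact ⟨V, fun z hz => ⟨V, hVW, hVo, hVc, hz, u, hu, hc⟩, hVo, hyV⟩
  refine hK.conW.isPreconnected.subset_of_closure_inter_subset hopen ?_ ?_
  · obtain ⟨y, hy⟩ := hK.conD.nonempty
    refine ⟨y, hK.outW hy, B \ D, hK.outW, hK.opB.sdiff hK.cD.isClosed, hK.conD, hy,
      fun _ => 0, ?_, ?_⟩
    · rw [KF.dd_const, sub_zero]
      exact hPri.zer.anti fun z hz hzO => hz.2 (hK.subO hzO)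
    · intro c hc
      have h1 : (c0 fun _ : X => (0 : k)) = 0 := by
        funext l
        rcases l with _ | ⟨x, _ | ⟨y, l⟩⟩ <;> simp
      rw [h1, cup_zero_left, neg_zero]
      exact h0 c hc
  · rintro y ⟨hyG, hyW⟩
    obtain ⟨V, hVW, hVo, hVc, hyV, u, hu⟩ := hKD k X hLPC B B' D O N K W θ Θ hK hPri y hyW
    obtain ⟨z, hzV, Vz, hVzW, hVzo, hVzc, hzVz, uz, huz, hcz⟩ :=
      mem_closure_iff.1 hyG V hVo hyV
    have hVV : IsOpen (V ∩ Vz) := hVo.inter hVzo
    have hzVV : z ∈ V ∩ Vz := ⟨hzV, hzVz⟩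
    obtain ⟨V', hV'⟩ : ∃ V', V' = connectedComponentIn (V ∩ Vz) z := ⟨_, rfl⟩
    have hV'o : IsOpen V' := by
      rw [hV']
      exact hVV.connectedComponentIn
    have hzV' : z ∈ V' := by
      rw [hV']
      exact mem_connectedComponentIn hzVV
    have hV's : V' ⊆ V ∩ Vz := by
      rw [hV']
      exact connectedComponentIn_subset _ _
    have hV'c : IsConnected V' := by
      rw [hV']
      exact isConnected_connectedComponentIn_iff.2 hzVV
    have hV'V : V' ⊆ V := fun w hw => (hV's hw).1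
    have hV'Vz : V' ⊆ Vz := fun w hw => (hV's hw).2
    have hcyc : Cyc 0 V' ∅ (c0 u - c0 uz) := by
      have hdeg : Dg X 0 (c0 u - c0 uz) := (Dg.c0 u).sub (Dg.c0 uz)
      refine ⟨hdeg, Zr.empty hdeg, ?_⟩
      have h1 := (huz.anti hV'Vz).sub (hu.anti hV'V)
      have h2 : Θ - dd (c0 uz) - (Θ - dd (c0 u)) = dd (c0 u - c0 uz) := by
        rw [dd_sub]
        abel
      rwa [h2] at h1
    obtain ⟨m, hm⟩ := hCON k X V' hV'c.isPreconnected _ hcyc
    have hE1 := (hKE k X W Θ s P hPri.deg hP V' (hV'V.trans hVW) hV'o u (hu.anti hV'V)).2 uz m hm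
    have hE2 : ∀ c, CyO 3 V' c → P (-cup (c0 u) c, c) = -(m * s c) := by
      intro c hc
      rw [hE1 c hc, hcz c (hc.mono hV'Vz), zero_sub]
    have hu'0 : c0 (u - fun _ => m) = c0 u - c0 fun _ => m := c0_sub _ _
    have hu' : Zr V (Θ - dd (c0 (u - fun _ => m))) := by
      rw [hu'0, dd_sub, KF.dd_const, sub_zero]
      exact hu
    have hE3 := hKE k X W Θ s P hPri.deg hP V hVW hVo (u - fun _ => m) hu'
    have hE4 : ∀ c, CyO 3 V c → P (-cup (c0 (u - fun _ => m)) c, c) =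
        P (-cup (c0 u) c, c) - -m * s c := by
      refine hE3.2 u (-m) ?_
      have h1 : c0 (u - fun _ => m) - c0 u - c0 (fun _ : X => -m) = 0 := by
        funext l
        rcases l with _ | ⟨x, _ | ⟨y, l⟩⟩ <;> simp
      rw [h1]
      exact Zr.zero _
    refine ⟨V, hVW, hVo, hVc, hyV, u - fun _ => m, hu', ?_⟩
    intro c hc
    obtain ⟨c', hc', hcc⟩ := hSj V V' hVo hVc hV'o hV'V ⟨z, hzV'⟩ c hc
    rw [KF.split P _ c c', hE3.1 _ (hc.sub (hc'.mono hV'V)) hcc, hE4 c' (hc'.mono hV'V),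
      hE2 c' hc']
    ring

end BBH
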