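import Pool.Agent.BBH.StmtsF

/-!
# BBH, module KG: the primitive on `W`
-/

set_option autoImplicit false

namespace BBH

open Set Topology CTO

namespace KG

/-- a good pair -/
def GP {k X : Type} [Field k] [MetricSpace X] (W : Set X) (Θ : Cc k X)
    (P : (Cc k X × Cc k X) →ₗ[k] k) (V : Set X) (u : X → k) : Prop :=
  V ⊆ W ∧ IsOpen V ∧ Zr V (Θ - dd (c0 u)) ∧ ∀ c, CyO 3 V c → P (-cup (c0 u) c, c) = 0

lemma dd_c0_zero {k X : Type} [Field k] : dd (c0 fun _ : X => (0 : k)) = 0 := by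
  have h1 : (c0 fun _ : X => (0 : k)) = 0 := by
    funext l
    rcases l with _ | ⟨x, _ | ⟨y, l⟩⟩ <;> simp
  rw [h1, dd_zero]

lemma agree (hCON : S_CON) (hKE : S_KE) {k X : Type} [Field k] [MetricSpace X]
    (hLPC : LocallyPathConnectedSpace X) (hSj : Sj k X) {B W : Set X} {Θ : Cc k X}
    {s : Cc k X →ₗ[k] k} {P : (Cc k X × Cc k X) →ₗ[k] k} (hΘ : Dg X 1 Θ) (hP : TwP W Θ s P)
    (hBo : IsOpen B) (hBc : IsConnected B) (hWB : W ⊆ B)
    (hs : Kil 3 B s) (hne : ∃ c, CyO 3 B c ∧ s c ≠ 0) {V V' : Set X} {u u' : X → k}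
    (h : GP W Θ P V u) (h' : GP W Θ P V' u') {z : X} (hz : z ∈ V) (hz' : z ∈ V') :
    u z = u' z := by
  obtain ⟨hVW, hVo, hu, hc⟩ := h
  obtain ⟨hV'W, hV'o, hu', hc'⟩ := h'
  have hVV : IsOpen (V ∩ V') := hVo.inter hV'o
  have hzVV : z ∈ V ∩ V' := ⟨hz, hz'⟩
  obtain ⟨U, hU⟩ : ∃ U, U = connectedComponentIn (V ∩ V') z := ⟨_, rfl⟩
  have hUo : IsOpen U := by
    rw [hU]
    exact hVV.connectedComponentIn
  have hzU : z ∈ U := by
    rw [hU]
    exact mem_connectedComponentIn hzVV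
  have hUs : U ⊆ V ∩ V' := by
    rw [hU]
    exact connectedComponentIn_subset _ _
  have hUc : IsConnected U := by
    rw [hU]
    exact isConnected_connectedComponentIn_iff.2 hzVV
  have hUV : U ⊆ V := fun w hw => (hUs hw).1
  have hUV' : U ⊆ V' := fun w hw => (hUs hw).2
  have hcyc : Cyc 0 U ∅ (c0 u - c0 u') := by
    have hdeg : Dg X 0 (c0 u - c0 u') := (Dg.c0 u).sub (Dg.c0 u')
    refine ⟨hdeg, Zr.empty hdeg, ?_⟩
    have h1 := (hu'.anti hUV').sub (hu.anti hUV)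
    have h2 : Θ - dd (c0 u') - (Θ - dd (c0 u)) = dd (c0 u - c0 u') := by
      rw [dd_sub]
      abel
    rwa [h2] at h1
  obtain ⟨m, hm⟩ := hCON k X U hUc.isPreconnected _ hcyc
  have hE := (hKE k X W Θ s P hΘ hP U (hUV.trans hVW) hUo u (hu.anti hUV)).2 u' m hm
  have hms : ∀ c, CyO 3 U c → m * s c = 0 := by
    intro c hcU
    have h1 := hE c hcU
    rw [hc c (hcU.mono hUV), hc' c (hcU.mono hUV'), zero_sub] at h1
    exact neg_eq_zero.1 h1.symm
  have hm0 : m = 0 := by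
    by_contra hm0
    obtain ⟨c, hcB, hsc⟩ := hne
    have hUB : U ⊆ B := (hUV.trans hVW).trans hWB
    obtain ⟨c', hc'U, hcc⟩ := hSj B U hBo hBc hUo hUB ⟨z, hzU⟩ c hcB
    have h1 : s c' = 0 := (mul_eq_zero.1 (hms c' hc'U)).resolve_left hm0
    have h2 : s (c - c') = 0 := hs _ (Cyc.sub hcB (hc'U.mono hUB)) hcc
    rw [map_sub, h1, sub_zero] at h2
    exact hsc h2
  obtain ⟨ε, hε, hz0⟩ := hm
  have h3 := hz0 [z] ⟨fun x hx => by
      rw [List.mem_singleton] at hx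
      rw [hx]
      exact Metric.self_subset_thickening hε U hzU, fun x hx y hy => by
      rw [List.mem_singleton] at hx hy
      rw [hx, hy, dist_self]
      exact hε⟩
  simp only [Pi.sub_apply, c0_single, hm0, sub_zero] at h3
  exact sub_eq_zero.1 h3

/-- `Θ - dd (c0 U)` vanishes near a small ball if `U = u` near the centre -/
lemma loc {k X : Type} [Field k] [MetricSpace X] {Θ : Cc k X} {V : Set X} {u U : X → k}
    (hVo : IsOpen V) (hu : Zr V (Θ - dd (c0 u))) (h : ∀ z ∈ V, U z = u z) {y : X} (hy : y ∈ V) :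
    ∃ V' : Set X, IsOpen V' ∧ y ∈ V' ∧ Zr V' (Θ - dd (c0 U)) := by
  obtain ⟨r, hr, hrV⟩ := Metric.isOpen_iff.1 hVo y hy
  refine ⟨Metric.ball y (r / 2), Metric.isOpen_ball, Metric.mem_ball_self (by positivity), ?_⟩
  have hsub : Metric.ball y (r / 2) ⊆ V := fun z hz =>
    hrV (Metric.ball_subset_ball (by linarith) hz)
  have h1 : Zr (Metric.ball y (r / 2)) (dd (c0 u - c0 U)) := by
    refine Zr.dd ⟨r / 2, by positivity, fun l hl => ?_⟩
    rcases l with _ | ⟨x, _ | ⟨w, l⟩⟩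
    · simp
    · have hx := hl.1 x (by simp)
      obtain ⟨w, hw, hxw⟩ := Metric.mem_thickening_iff.1 hx
      have hxV : x ∈ V := by
        refine hrV ?_
        rw [Metric.mem_ball] at hw ⊢
        have := dist_triangle x w y
        linarith
      simp only [Pi.sub_apply, c0_single, h x hxV, sub_self]
    · simp
  have h2 := (hu.anti hsub).add h1
  have h3 : Θ - dd (c0 u) + dd (c0 u - c0 U) = Θ - dd (c0 U) := by
    rw [dd_sub]
    abel
  rwa [h3] at h2

end KG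

open KG in
theorem t_KG : M_KG := by
  intro hCON hKE k X _ _ hLPC hSj B B' D O N K W θ Θ s P hK hPri hP hs hne h0 hG
  classical
  have hg : ∀ y : X, ∃ u : X → k, y ∈ W → ∃ V : Set X, y ∈ V ∧ GP W Θ P V u := by
    intro y
    by_cases hy : y ∈ W
    · obtain ⟨V, hVW, hVo, -, hyV, u, hu, hc⟩ := hG y hy
      exact ⟨u, fun _ => ⟨V, hyV, hVW, hVo, hu, hc⟩⟩
    · exact ⟨fun _ => 0, fun h => absurd h hy⟩
  choose u hu using hg
  have hWB : W ⊆ B := fun w hw => (hK.subW hw).1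
  obtain ⟨U, hU⟩ : ∃ U : X → k, U = fun y => if y ∈ W then u y y else 0 := ⟨_, rfl⟩
  have hUe : ∀ (V : Set X) (v : X → k), GP W Θ P V v → ∀ z ∈ V, U z = v z := by
    intro V v hV z hz
    have hzW : z ∈ W := hV.1 hz
    obtain ⟨V', hzV', hV'⟩ := hu z hzW
    have h1 : U z = u z z := by
      rw [hU]
      exact if_pos hzW
    rw [h1]
    exact agree hCON hKE hLPC hSj hPri.deg hP hK.opB hK.conB hWB hs hne hV' hV hzV' hz
  refine ⟨U, ?_, ?_, ?_⟩
  · intro y hy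
    obtain ⟨V, hyV, hV⟩ := hu y hy
    exact loc hV.2.1 hV.2.2.1 (hUe V (u y) hV) hyV
  · intro y hy
    refine hUe (B \ D) (fun _ => 0) ⟨hK.outW, hK.opB.sdiff hK.cD.isClosed, ?_, ?_⟩ y hy
    · rw [dd_c0_zero, sub_zero]
      exact hPri.zer.anti fun z hz hzO => hz.2 (hK.subO hzO)
    · intro c hc
      have h1 : (c0 fun _ : X => (0 : k)) = 0 := by
        funext l
        rcases l with _ | ⟨x, _ | ⟨y, l⟩⟩ <;> simp
      rw [h1, cup_zero_left, neg_zero]
      exact h0 c hc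
  · intro y hy
    rw [hU]
    exact if_neg hy

end BBH
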