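import Pool.Agent.BBH.StmtsF

/-!
# KH: the end of the proof of the key lemma
-/

set_option autoImplicit false

namespace BBH

open Set Topology CTO

theorem t_KH : S_KH := by
  intro k X _ _ _ B B' D O N K W N' θ Θ U hKy hPri hloc hUD hUW hN' hBW
  have hU : ∀ y ∉ D, U y = 0 := by
    intro y hy
    by_cases hyB : y ∈ B
    · exact hUD y ⟨hyB, hy⟩
    · exact hUW y (fun h => hyB (hKy.subW h).1)
  have hdd : Dg X 1 (dd (c0 U)) := by
    have h := (Dg.c0 (X := X) U).dd
    simpa using h
  have hdeg : Dg X 1 (Θ - dd (c0 U)) := hPri.deg.sub hdd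
  refine ⟨Θ - dd (c0 U), by simpa using hdeg, ?_, ?_⟩
  · refine Zr.local hN'.isClosed_compl.isCompact hdeg.nil ?_
    intro y hy
    by_cases hyD : y ∈ D
    · refine hloc y ?_
      by_contra hyW
      exact hy (hBW ⟨hKy.subD hyD, hyW⟩)
    · obtain ⟨r, hr, hball⟩ := Metric.isOpen_iff.1 hKy.cD.isClosed.isOpen_compl y hyD
      refine ⟨Metric.ball y (r / 2), Metric.isOpen_ball, Metric.mem_ball_self (by linarith), ?_⟩
      refine Zr.sub (hPri.zer.anti ?_) (Zr.dd ?_)
      · intro x hx hxO
        exact hball (Metric.ball_subset_ball (by linarith) hx) (hKy.subO hxO)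
      · refine ⟨r / 2, by linarith, fun l hl => ?_⟩
        rcases l with _ | ⟨x, _ | ⟨z, l⟩⟩
        · rfl
        · rw [c0_single]
          apply hU
          have hx := hl.1 x (by simp)
          obtain ⟨w, hw, hxw⟩ := Metric.mem_thickening_iff.1 hx
          apply hball
          rw [Metric.mem_ball] at hw ⊢
          have := dist_triangle x w y
          linarith
        · rfl
  · rw [dd_sub, dd_dd, sub_zero]
    exact hPri.eq

end BBH
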