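import Pool.Agent.BBH.Hmod

/-!
# BBH: functionals, local properties; definitions and small lemmas

* `exists_total`, `exists_fun`: linear functionals on `HO k k p V` and total functionals `s` with `Kil p V s`.
* `Zr.local`: vanishing near a compact set is a local property.
* `LT M p x`: `H^p_c` is locally trivial at `x`.  `GB k B`, `GN B`, `NZat k x`, `Sj k X`, `UCat k p x`: see the comments.
-/

set_option autoImplicit false
set_option linter.unusedSectionVars false

namespace BBH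

open Set Topology

section

variable {k X : Type} [Field k] [MetricSpace X]

/-- a functional on `H^p_c(V)` as a total functional -/
theorem exists_total {p : ℤ} {V : Set X} (φ : HO k k p V →ₗ[k] k) :
    ∃ s : Cc k X →ₗ[k] k, Kil p V s ∧ ∀ c (h : CyO p V c), s c = φ (cls k c h) := by
  obtain ⟨s, hs⟩ := LinearMap.exists_extend (φ ∘ₗ (BB k k p univ Vᶜ).mkQ)
  have h1 : ∀ c (h : CyO p V c), s c = φ (cls k c h) := by
    intro c h
    have h2 := LinearMap.congr_fun hs ⟨c, h⟩
    exact h2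
  refine ⟨s, fun c hc hb => ?_, h1⟩
  rw [h1 c hc, (cls_eq_zero (R := k) hc).2 hb, map_zero]

/-- a total functional as a functional on `H^p_c(V)` -/
theorem exists_fun {p : ℤ} {V : Set X} {s : Cc k X →ₗ[k] k} (hs : Kil p V s) :
    ∃ φ : HO k k p V →ₗ[k] k, ∀ c (h : CyO p V c), φ (cls k c h) = s c := by
  obtain ⟨F, hF⟩ := exists_lift (R := k) (p := p) (A := univ) (B := Vᶜ)
    (s ∘ₗ (ZZ k k p univ Vᶜ).subtype) (fun c hc => hs c.1 c.2 hc)
  exact ⟨F, fun c h => hF c h⟩

end

section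

variable {M X : Type} [AddCommGroup M] [MetricSpace X]

/-- vanishing near a compact set is a local property -/
theorem Zr.local {C : Set X} (hC : IsCompact C) {c : Cc M X} (h0 : c [] = 0)
    (h : ∀ y ∈ C, ∃ V : Set X, IsOpen V ∧ y ∈ V ∧ Zr V c) : Zr C c := by
  refine hC.induction_on (p := fun S => Zr S c) ?_ ?_ ?_ ?_
  · refine ⟨1, one_pos, fun l hl => ?_⟩
    rcases l with _ | ⟨x, l⟩
    · exact h0
    · have := hl.1 x (by simp)
      simp [Metric.thickening_empty] at this
  · exact fun s t hst ht => Zr.anti ht hst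
  · exact fun s t hs ht => Zr.union hs ht
  · intro y hy
    obtain ⟨V, hV, hyV, hz⟩ := h y hy
    exact ⟨V, mem_nhdsWithin_of_mem_nhds (hV.mem_nhds hyV), hz⟩

/-- cochains that vanish near `univ` are trivial -/
theorem CyO.of_Zr {p : ℤ} {V : Set X} {c : Cc M X} (hd : Dg X p c) (h : Zr univ c) :
    CyO p V c := ⟨hd, h.anti (subset_univ _), h.dd⟩

theorem BdO.of_Zr {p : ℤ} {V : Set X} {c : Cc M X} (h : Zr univ c) : BdO p V c :=
  Bd.of_Zr h

theorem Zr.univ_of {V : Set X} {c : Cc M X} (h : Zr V c) (h' : Zr Vᶜ c) : Zr univ c := by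
  have := h.union h'
  rwa [union_compl_self] at this

/-- `H^p_c( ; M)` is locally trivial at `x` -/
def LT (M : Type) {X : Type} [AddCommGroup M] [MetricSpace X] (p : ℤ) (x : X) : Prop :=
  ∀ U : Set X, IsOpen U → x ∈ U → ∃ V ⊆ U, IsOpen V ∧ x ∈ V ∧
    ∀ c : Cc M X, CyO p V c → BdO p U c

/-- good sets with respect to the field `k`: connected, all nonempty open subsets have `H^3_c ≠ 0` -/
def GB (k : Type) {X : Type} [Field k] [MetricSpace X] (B : Set X) : Prop :=
  IsOpen B ∧ IsConnected B ∧ ∀ V ⊆ B, IsOpen V → V.Nonempty → ¬ VanO k 3 V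

/-- connected open sets such that no point and no finite union of arcs separates a connected open subset -/
def GN {X : Type} [MetricSpace X] (B : Set X) : Prop :=
  IsOpen B ∧ IsConnected B ∧ ∀ B' ⊆ B, IsOpen B' → IsConnected B' →
    (∀ y ∈ B', IsConnected (B' \ {y})) ∧
    ∀ (n : ℕ) (A : Fin n → Set X), (∀ i, ∃ α : ℝ → X, ContinuousOn α (Icc 0 1) ∧
      InjOn α (Icc 0 1) ∧ A i = α '' Icc 0 1) → (⋃ i, A i) ⊆ B' →
      IsPreconnected (B' \ ⋃ i, A i)

/-- small open neighbourhoods of `x` have `H^3_c( ; k) ≠ 0` -/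
def NZat (k : Type) {X : Type} [Field k] [MetricSpace X] (x : X) : Prop :=
  ∃ U : Set X, IsOpen U ∧ x ∈ U ∧ ∀ V ⊆ U, IsOpen V → x ∈ V → ¬ VanO k 3 V

/-- surjectivity: `H^3_c(W) → H^3_c(V)` is onto if `V` is connected and `W ≠ ∅` -/
def Sj (k X : Type) [Field k] [MetricSpace X] : Prop :=
  ∀ V W : Set X, IsOpen V → IsConnected V → IsOpen W → W ⊆ V → W.Nonempty →
    ∀ c : Cc k X, CyO 3 V c → ∃ c' : Cc k X, CyO 3 W c' ∧ BdO 3 V (c - c')

/-- unique continuation at `x`: functionals with nonzero germ at `x` have nonzero germs near `x` -/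
def UCat (k : Type) {X : Type} [Field k] [MetricSpace X] (p : ℤ) (x : X) : Prop :=
  ∀ (V : Set X) (s : Cc k X →ₗ[k] k), IsOpen V → x ∈ V → Kil p V s → ¬ Zg p s x →
    ∃ W : Set X, IsOpen W ∧ x ∈ W ∧ ∀ y ∈ W, ¬ Zg p s y

end

end BBH
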