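import Pool.Agent.BBH.StmtsG

/-!
# Module ARI: arcs have no interior
-/

set_option autoImplicit false

namespace BBH

open Set Topology CTO

namespace ARI

variable {X : Type} [MetricSpace X]

/-- the images of small open intervals are open -/
theorem isOpen_image {α : ℝ → X} (hc : ContinuousOn α (Icc 0 1)) (hi : InjOn α (Icc 0 1))
    {U : Set X} (hU : IsOpen U) (hUA : U ⊆ α '' Icc 0 1) {s t : ℝ}
    (h1 : Ioo s t ⊆ Icc 0 1) (h2 : α '' Ioo s t ⊆ U) : IsOpen (α '' Ioo s t) := by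
  have hK : IsCompact (α '' (Icc 0 1 \ Ioo s t)) :=
    (isCompact_Icc.diff isOpen_Ioo).image_of_continuousOn (hc.mono sdiff_subset)
  have hG : IsOpen (U ∩ (α '' (Icc 0 1 \ Ioo s t))ᶜ) := hU.inter hK.isClosed.isOpen_compl
  have he : U ∩ (α '' (Icc 0 1 \ Ioo s t))ᶜ = α '' Ioo s t := by
    apply Subset.antisymm
    · rintro x ⟨hxU, hx⟩
      obtain ⟨r, hr, rfl⟩ := hUA hxU
      by_contra hcon
      exact hx ⟨r, ⟨hr, fun h => hcon ⟨r, h, rfl⟩⟩, rfl⟩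
    · rintro x ⟨r, hr, rfl⟩
      refine ⟨h2 ⟨r, hr, rfl⟩, ?_⟩
      rintro ⟨q, ⟨hq, hq'⟩, hqr⟩
      have := hi hq (h1 hr) hqr
      rw [this] at hq'
      exact hq' hr
  rwa [he] at hG

end ARI

theorem t_ARI : S_ARI := by
  intro X _ O A U a b hO hA hU hUA hUO
  by_contra hne
  obtain ⟨α, hc, hi, -, -, rfl⟩ := hA
  obtain ⟨x, hx⟩ := nonempty_iff_ne_empty.2 hne
  obtain ⟨t0, ht0, rfl⟩ := hUA hx
  have hn : α ⁻¹' U ∈ 𝓝[Icc 0 1] t0 := (hc t0 ht0) (hU.mem_nhds hx)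
  obtain ⟨ε, hε, hball⟩ := Metric.mem_nhdsWithin_iff.1 hn
  set s : ℝ := max 0 (t0 - ε) with hs
  set t : ℝ := min 1 (t0 + ε) with ht
  have hs0 : 0 ≤ s := le_max_left _ _
  have hs1 : t0 - ε ≤ s := le_max_right _ _
  have ht1 : t ≤ 1 := min_le_left _ _
  have ht2 : t ≤ t0 + ε := min_le_right _ _
  have hst : s < t := by
    rw [hs, ht, max_lt_iff, lt_min_iff, lt_min_iff]
    refine ⟨⟨one_pos, ?_⟩, ⟨?_, ?_⟩⟩
    · linarith [ht0.1]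
    · linarith [ht0.2]
    · linarith
  have hsub : ∀ {s' t' : ℝ}, s ≤ s' → t' ≤ t → Ioo s' t' ⊆ Icc 0 1 := by
    intro s' t' h1 h2 r hr
    exact ⟨by linarith [hr.1], by linarith [hr.2]⟩
  have himg : ∀ {s' t' : ℝ}, s ≤ s' → t' ≤ t → α '' Ioo s' t' ⊆ U := by
    rintro s' t' h1 h2 _ ⟨r, hr, rfl⟩
    refine hball ⟨?_, hsub h1 h2 hr⟩
    rw [Metric.mem_ball, Real.dist_eq, abs_lt]
    exact ⟨by linarith [hr.1], by linarith [hr.2]⟩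
  have hop : ∀ {s' t' : ℝ}, s ≤ s' → t' ≤ t → IsOpen (α '' Ioo s' t') := fun h1 h2 =>
    ARI.isOpen_image hc hi hU hUA (hsub h1 h2) (himg h1 h2)
  set m : ℝ := (s + t) / 2 with hm
  have hsm : s < m := by rw [hm]; linarith
  have hmt : m < t := by rw [hm]; linarith
  have hcon : IsConnected (α '' Ioo s t) :=
    (isConnected_Ioo hst).image α (hc.mono (hsub le_rfl le_rfl))
  have hmB : α m ∈ α '' Ioo s t := ⟨m, ⟨hsm, hmt⟩, rfl⟩
  have hkey := (hO.2.2 (α '' Ioo s t) ((himg le_rfl le_rfl).trans hUO) (hop le_rfl le_rfl)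
    hcon).1 (α m) hmB
  have hmI : m ∈ Icc (0 : ℝ) 1 := hsub le_rfl le_rfl ⟨hsm, hmt⟩
  obtain ⟨z, -, ⟨r1, hr1, hz1⟩, ⟨r2, hr2, hz2⟩⟩ := hkey.isPreconnected (α '' Ioo s m)
    (α '' Ioo m t) (hop le_rfl hmt.le) (hop hsm.le le_rfl) (by
      rintro y ⟨⟨r, hr, rfl⟩, hy⟩
      rcases lt_trichotomy r m with h | h | h
      · exact Or.inl ⟨r, ⟨hr.1, h⟩, rfl⟩
      · exact absurd (by rw [h]; rfl) hy
      · exact Or.inr ⟨r, ⟨h, hr.2⟩, rfl⟩) (by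
      obtain ⟨r, hr⟩ := exists_between hsm
      refine ⟨α r, ⟨⟨r, ⟨hr.1, hr.2.trans hmt⟩, rfl⟩, ?_⟩, ⟨r, hr, rfl⟩⟩
      intro h
      have := hi (hsub le_rfl hmt.le ⟨hr.1, hr.2⟩) hmI h
      exact hr.2.ne this) (by
      obtain ⟨r, hr⟩ := exists_between hmt
      refine ⟨α r, ⟨⟨r, ⟨hsm.trans hr.1, hr.2⟩, rfl⟩, ?_⟩, ⟨r, hr, rfl⟩⟩
      intro h
      have := hi (hsub hsm.le le_rfl ⟨hr.1, hr.2⟩) hmI h
      exact hr.1.ne this.symm)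
  have h12 := hi (hsub le_rfl hmt.le hr1) (hsub hsm.le le_rfl hr2) (hz1.trans hz2.symm)
  rw [h12] at hr1
  exact absurd hr1.2 (not_lt.2 hr2.1.le)

end BBH
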