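import Pool.Agent.BBH.StmtsG

set_option autoImplicit false

namespace BBH

open Set Topology CTO

namespace CFG

/-- cutting an interval into three pieces -/
theorem icc_cut {a b : ℝ} (h0 : 0 ≤ a) (hab : a ≤ b) (h1 : b ≤ 1) :
    Icc (0 : ℝ) a ∪ Icc b 1 ∪ Icc a b = Icc 0 1 := by
  ext t
  simp only [mem_union, mem_Icc]
  constructor
  · rintro ((⟨h, h'⟩ | ⟨h, h'⟩) | ⟨h, h'⟩) <;> constructor <;> linarith
  · rintro ⟨h, h'⟩
    by_cases h2 : t ≤ a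
    · exact Or.inl (Or.inl ⟨h, h2⟩)
    · by_cases h3 : b ≤ t
      · exact Or.inl (Or.inr ⟨h3, h'⟩)
      · exact Or.inr ⟨le_of_not_ge h2, le_of_not_ge h3⟩

end CFG

theorem t_CFG : M_CFG := by
  intro hLAM X _ _ hlpc O Dp D₀ V₀ hGN hDp hDpO hne hD₀ hD₀c hD₀Dp hV₀ hV₀n hV₀D
  obtain ⟨La, P, Q, hArc, hLaO, hint, hnot⟩ := hLAM X hlpc O Dp D₀ V₀ hGN hDp hDpO hne hD₀
    hD₀Dp hV₀ hV₀n hV₀D
  obtain ⟨α, hc, hi, hα0, hα1, hLa⟩ := id hArc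
  have hP : P ∈ D₀ := by
    have : P ∈ D₀ ∩ La := by rw [hint]; exact mem_insert _ _
    exact this.1
  have hQ : Q ∈ D₀ := by
    have : Q ∈ D₀ ∩ La := by rw [hint]; exact mem_insert_of_mem _ (mem_singleton _)
    exact this.1
  obtain ⟨t₀, ht₀, ht₀D⟩ : ∃ t ∈ Icc (0 : ℝ) 1, α t ∉ Dp := by
    by_contra hcon
    push Not at hcon
    apply hnot
    rw [hLa]
    rintro _ ⟨t, ht, rfl⟩
    exact hcon t ht
  have h0 : t₀ ≠ 0 := by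
    rintro rfl
    exact ht₀D (hD₀Dp (by rw [hα0]; exact hP))
  have h1 : t₀ ≠ 1 := by
    rintro rfl
    exact ht₀D (hD₀Dp (by rw [hα1]; exact hQ))
  have hIoo : t₀ ∈ Ioo (0 : ℝ) 1 := ⟨lt_of_le_of_ne ht₀.1 h0.symm, lt_of_le_of_ne ht₀.2 h1⟩
  have hca : ContinuousAt α t₀ := hc.continuousAt (Icc_mem_nhds hIoo.1 hIoo.2)
  have hmem : α ⁻¹' Dpᶜ ∩ Ioo 0 1 ∈ 𝓝 t₀ :=
    Filter.inter_mem (hca (hDp.isClosed.isOpen_compl.mem_nhds ht₀D)) (Ioo_mem_nhds hIoo.1 hIoo.2)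
  obtain ⟨ε, hε, hball⟩ := Metric.nhds_basis_closedBall.mem_iff.1 hmem
  rw [Real.closedBall_eq_Icc] at hball
  obtain ⟨a, ha⟩ : ∃ a, a = t₀ - ε := ⟨_, rfl⟩
  obtain ⟨b, hb⟩ : ∃ b, b = t₀ + ε := ⟨_, rfl⟩
  rw [← ha, ← hb] at hball
  have hab : a < b := by rw [ha, hb]; linarith
  have haI : a ∈ Ioo (0 : ℝ) 1 := (hball ⟨le_rfl, hab.le⟩).2
  have hbI : b ∈ Ioo (0 : ℝ) 1 := (hball ⟨hab.le, le_rfl⟩).2
  have hs0 : Icc (0 : ℝ) a ⊆ Icc 0 1 := Icc_subset_Icc le_rfl haI.2.le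
  have hs1 : Icc b (1 : ℝ) ⊆ Icc 0 1 := Icc_subset_Icc hbI.1.le le_rfl
  have hs2 : Icc a b ⊆ Icc (0 : ℝ) 1 := Icc_subset_Icc haI.1.le hbI.2.le
  have hcomp : ∀ s t : ℝ, Icc s t ⊆ Icc (0 : ℝ) 1 → IsCompact (α '' Icc s t) :=
    fun s t h => isCompact_Icc.image_of_continuousOn (hc.mono h)
  have hconn : ∀ s t : ℝ, s ≤ t → Icc s t ⊆ Icc (0 : ℝ) 1 → IsConnected (α '' Icc s t) :=
    fun s t hst h => (isConnected_Icc hst).image α (hc.mono h)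
  have hunion : α '' Icc 0 a ∪ α '' Icc b 1 ∪ α '' Icc a b = La := by
    rw [← image_union, ← image_union, CFG.icc_cut haI.1.le hab.le hbI.2.le, hLa]
  have hcon1 : IsConnected (D₀ ∪ α '' Icc 0 a) :=
    IsConnected.union ⟨P, hP, ⟨0, ⟨le_rfl, haI.1.le⟩, hα0⟩⟩ hD₀c (hconn 0 a haI.1.le hs0)
  have hcon2 : IsConnected (D₀ ∪ α '' Icc 0 a ∪ α '' Icc b 1) :=
    IsConnected.union ⟨Q, Or.inl hQ, ⟨1, ⟨hbI.2.le, le_rfl⟩, hα1⟩⟩ hcon1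
      (hconn b 1 hbI.2.le hs1)
  refine ⟨La, D₀ ∪ α '' Icc 0 a ∪ α '' Icc b 1, Dp ∪ α '' Icc 0 a ∪ α '' Icc b 1,
    α '' Icc a b, P, Q, α a, α b, ?_⟩
  exact {
    arc := hArc
    int := hint
    sub := union_subset hDpO hLaO
    cAs := (hD₀.union (hcomp 0 a hs0)).union (hcomp b 1 hs1)
    conAs := hcon2
    D₀As := fun z hz => Or.inl (Or.inl hz)
    AsAp := by
      rintro z ((hz | hz) | hz)
      · exact Or.inl (Or.inl (hD₀Dp hz))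
      · exact Or.inl (Or.inr hz)
      · exact Or.inr hz
    cAp := (hDp.union (hcomp 0 a hs0)).union (hcomp b 1 hs1)
    cGa := hcomp a b hs2
    conGa := hconn a b hab.le hs2
    ne := fun h => hab.ne (hi (hs2 ⟨le_rfl, hab.le⟩) (hs2 ⟨hab.le, le_rfl⟩) h)
    xAs := Or.inl (Or.inr ⟨a, ⟨haI.1.le, le_rfl⟩, rfl⟩)
    yAs := Or.inr ⟨b, ⟨le_rfl, hbI.2.le⟩, rfl⟩
    inter := by
      ext z
      constructor
      · rintro ⟨hz, ⟨t, ht, rfl⟩⟩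
        rcases hz with (hz | ⟨s, hs, hst⟩) | ⟨s, hs, hst⟩
        · exact absurd hz (hball ht).1
        · have h := hi (hs0 hs) (hs2 ht) hst
          have : t = a := le_antisymm (h ▸ hs.2) ht.1
          rw [this]
          exact mem_insert _ _
        · have h := hi (hs1 hs) (hs2 ht) hst
          have : t = b := le_antisymm ht.2 (h ▸ hs.1)
          rw [this]
          exact mem_insert_of_mem _ (mem_singleton _)
      · rintro (rfl | hz)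
        · exact ⟨Or.inl (Or.inr ⟨a, ⟨haI.1.le, le_rfl⟩, rfl⟩), ⟨a, ⟨le_rfl, hab.le⟩, rfl⟩⟩
        · rw [mem_singleton_iff] at hz
          rw [hz]
          exact ⟨Or.inr ⟨b, ⟨le_rfl, hbI.2.le⟩, rfl⟩, ⟨b, ⟨hab.le, le_rfl⟩, rfl⟩⟩
    uJ := by rw [← hunion]; simp only [union_assoc]
    uJp := by rw [← hunion]; simp only [union_assoc] }

end BBH
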