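import Pool.Agent.BBH.StmtsG

/-!
# CNT: the count
-/

set_option autoImplicit false

namespace BBH

open Set Topology CTO

namespace CNT

lemma ext_surj {k X : Type} [Field k] [MetricSpace X] (hSj : Sj k X) {V W : Set X}
    (hV : IsOpen V) (hVc : IsConnected V) (hW : IsOpen W) (hWV : W ⊆ V) (hWn : W.Nonempty) :
    Function.Surjective (ext k k (p := 3) hWV) := by
  intro a
  obtain ⟨c, hc, rfl⟩ := cls_surj a
  obtain ⟨c', hc', hb⟩ := hSj V W hV hVc hW hWV hWn c hc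
  refine ⟨cls k c' hc', ?_⟩
  have h1 : cls k c hc = cls k c' (CyO.mono hc' hWV) :=
    (cls_eq (R := k) hc (CyO.mono hc' hWV)).2 hb
  exact h1.symm

end CNT

theorem t_CNT : M_CNT := by
  intro hLNL hFDV hMVO k X _ _ _ hX hSj B Na Ng Vx Vy hB hBc hNa hNac hNg hNgc hVx hVxc hVy hNaB
    hNgB hint hdis hneX hneY hrk h2
  have fN : Module.Finite k (HO k k 3 Na) := hFDV k X hX hSj Na hNa hNac
  have fV : Module.Finite k (HO k k 3 Vx) := hFDV k X hX hSj Vx hVx hVxc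
  have hWxo : IsOpen (Na ∩ Ng ∩ Vx) := (hNa.inter hNg).inter hVx
  have hWyo : IsOpen (Na ∩ Ng ∩ Vy) := (hNa.inter hNg).inter hVy
  have hxV : Na ∩ Ng ∩ Vx ⊆ Vx := inter_subset_right
  have hyV : Na ∩ Ng ∩ Vy ⊆ Vy := inter_subset_right
  have hxI : Na ∩ Ng ∩ Vx ⊆ Na ∩ Ng := inter_subset_left
  have hyI : Na ∩ Ng ∩ Vy ⊆ Na ∩ Ng := inter_subset_left
  have hxa : Na ∩ Ng ∩ Vx ⊆ Na := hxI.trans inter_subset_left
  have hya : Na ∩ Ng ∩ Vy ⊆ Na := hyI.trans inter_subset_left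
  have hxg : Na ∩ Ng ∩ Vx ⊆ Ng := hxI.trans inter_subset_right
  have hyg : Na ∩ Ng ∩ Vy ⊆ Ng := hyI.trans inter_subset_right
  let iG : (HO k k 3 (Na ∩ Ng ∩ Vx) × HO k k 3 (Na ∩ Ng ∩ Vy)) →ₗ[k] HO k k 3 Ng :=
    LinearMap.coprod (ext k k hxg) (ext k k hyg)
  let iA : (HO k k 3 (Na ∩ Ng ∩ Vx) × HO k k 3 (Na ∩ Ng ∩ Vy)) →ₗ[k] HO k k 3 Na :=
    LinearMap.coprod (ext k k hxa) (ext k k hya)
  let Z := LinearMap.ker iG
  let π : Z →ₗ[k] HO k k 3 Vx := (ext k k hxV).comp ((LinearMap.fst k _ _).comp Z.subtype)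
  let f : Z →ₗ[k] HO k k 3 Na := iA.comp Z.subtype
  let g : HO k k 3 Na →ₗ[k] HO k k 3 B := ext k k hNaB
  have hπ : Function.Surjective π := by
    intro w
    obtain ⟨u, hu⟩ := CNT.ext_surj hSj hVx hVxc hWxo hxV hneX w
    obtain ⟨v, hv⟩ := CNT.ext_surj hSj hNg hNgc hWyo hyg hneY (-(ext k k hxg u))
    refine ⟨⟨(u, v), ?_⟩, hu⟩
    show iG (u, v) = 0
    simp only [iG, LinearMap.coprod_apply]
    rw [hv, add_neg_cancel]
  have hg : Function.Surjective g :=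
    CNT.ext_surj hSj hB hBc hNa hNaB hNac.nonempty
  have hgf : ∀ z, g (f z) = 0 := by
    rintro ⟨⟨u, v⟩, hz⟩
    have hz' : ext k k hxg u + ext k k hyg v = 0 := hz
    show ext k k hNaB (ext k k hxa u + ext k k hya v) = 0
    rw [map_add, ext_ext, ext_ext]
    have h3 : ext k k hNgB (ext k k hxg u + ext k k hyg v) = 0 := by rw [hz', map_zero]
    rw [map_add, ext_ext, ext_ext] at h3
    exact h3
  obtain ⟨z₁, z₂, hf1, hf2, hind⟩ := hLNL k Z (HO k k 3 Na) (HO k k 3 Vx) (HO k k 3 B) π f g hπ hg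
    hgf hrk h2
  -- representatives
  have key : ∀ z : Z, f z = 0 → ∃ (cu cv : Cc k X) (hu : CyO 3 (Na ∩ Ng ∩ Vx) cu)
      (_ : CyO 3 (Na ∩ Ng ∩ Vy) cv), BdO 3 Na (cu + cv) ∧ BdO 3 Ng (cu + cv) ∧
      π z = cls k cu (CyO.mono hu hxV) := by
    rintro ⟨⟨u, v⟩, hz⟩ hfz
    obtain ⟨cu, hu, rfl⟩ := cls_surj u
    obtain ⟨cv, hv, rfl⟩ := cls_surj v
    refine ⟨cu, cv, hu, hv, ?_, ?_, rfl⟩
    · exact (cls_eq_zero (R := k) ((CyO.mono hu hxa).add (CyO.mono hv hya))).1 hfz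
    · exact (cls_eq_zero (R := k) ((CyO.mono hu hxg).add (CyO.mono hv hyg))).1 hz
  obtain ⟨u1, v1, hu1, hv1, ha1, hg1, e1⟩ := key z₁ hf1
  obtain ⟨u2, v2, hu2, hv2, ha2, hg2, e2⟩ := key z₂ hf2
  refine ⟨u1 + v1, u2 + v2, (CyO.mono hu1 hxI).add (CyO.mono hv1 hyI),
    (CyO.mono hu2 hxI).add (CyO.mono hv2 hyI), ha1, ha2, hg1, hg2, fun a b hab => ?_⟩
  apply hind a b
  have hc1 : CyO 3 Vx (a • u1 + b • u2) :=
    (Cyc.smul a (CyO.mono hu1 hxV)).add (Cyc.smul b (CyO.mono hu2 hxV))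
  have hc2 : CyO 3 Vy (a • v1 + b • v2) :=
    (Cyc.smul a (CyO.mono hv1 hyV)).add (Cyc.smul b (CyO.mono hv2 hyV))
  have hsum : (a • u1 + b • u2) + (a • v1 + b • v2) = a • (u1 + v1) + b • (u2 + v2) := by
    rw [smul_add, smul_add]
    abel
  obtain ⟨e, he, hb1, -⟩ := (hMVO k X 3 Vx Vy hVx hVy).2.2.2.1 (a • u1 + b • u2) (a • v1 + b • v2)
    hc1 hc2 (by rw [hsum]; exact hab)
  have hez : Zr univ e := by
    have h4 := he.rel
    rw [hdis, compl_empty] at h4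
    exact h4
  have hb : BdO 3 Vx (a • u1 + b • u2) := Bd.of_sub hb1 (Bd.of_Zr hez)
  rw [e1, e2]
  exact (cls_eq_zero (R := k) hc1).2 hb

end BBH
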