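import Pool.Agent.BBH.StmtsG

/-!
# BBH, module DPL: the sets `Dp`, `D₀`, `V₀`
-/

set_option autoImplicit false

namespace BBH

open Set Topology CTO

namespace DPL

theorem gb_mono {k X : Type} [Field k] [MetricSpace X] {B O : Set X} (h : GB k B)
    (hO : IsOpen O) (hc : IsConnected O) (hs : O ⊆ B) : GB k O :=
  ⟨hO, hc, fun V hV => h.2.2 V (hV.trans hs)⟩

theorem gn_mono {X : Type} [MetricSpace X] {B O : Set X} (h : GN B)
    (hO : IsOpen O) (hc : IsConnected O) (hs : O ⊆ B) : GN O :=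
  ⟨hO, hc, fun V hV => h.2.2 V (hV.trans hs)⟩

theorem ctr_mono {X : Type} [TopologicalSpace X] {K K' K'' : Set X} (h : Ctr K K')
    (hs : K' ⊆ K'') : Ctr K K'' := by
  obtain ⟨w, F, h1, h2, h3, h4, h5⟩ := h
  exact ⟨w, F, hs h1, h2, fun z hz => hs (h3 hz), h4, h5⟩

end DPL

open DPL in
theorem t_DPL : M_DPL := by
  intro hHAR hHAS hLPX hCTR k X _ _ _ hlp hANR hSj B B' D O₁ O₂ hS
  obtain ⟨x, hx⟩ := hS.con2.nonempty
  have hOB : O₂ ⊆ B := (hS.sub2.trans hS.sub1).trans hS.subD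
  have hgb : GB k O₂ := gb_mono hS.gb hS.op2 hS.con2 hOB
  have hgn : GN O₂ := gn_mono hS.gn hS.op2 hS.con2 hOB
  obtain ⟨Dp, hDc, hDs, hxD, hcon, hinj⟩ :=
    hHAR k X hANR hSj O₂ univ x hgb hgn hx isOpen_univ (mem_univ x)
  have hDO : Dp ⊆ O₂ := fun z hz => (hDs hz).1
  have hvan : Van k 2 Dp ∅ := hHAS k X O₂ O₁ Dp hS.op2 hS.sub2 hDc hDO hinj hS.tr2
  obtain ⟨V, hVo, hxV, hVc, hctr⟩ := (hLPX X hANR).2 x (interior Dp) isOpen_interior hxD
  have hVD : closure V ⊆ Dp := hVc.trans interior_subset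
  have hbd := hCTR k X (closure V) Dp isClosed_closure.isCompact hVD
    (ctr_mono hctr interior_subset) 1 le_rfl
  have hV₀ : connectedComponentIn V x ⊆ V := connectedComponentIn_subset V x
  have hcl : closure (connectedComponentIn V x) ⊆ closure V := closure_mono hV₀
  have hV₀c : IsConnected (connectedComponentIn V x) :=
    isConnected_connectedComponentIn_iff.2 hxV
  refine ⟨Dp, closure (connectedComponentIn V x), connectedComponentIn V x, hgn, hDc, hDO,
    hcon.nonempty, hvan, isClosed_closure.isCompact, hV₀c.closure, hcl.trans hVD,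
    hVo.connectedComponentIn, hV₀c, subset_closure, fun g hg => ?_⟩
  exact (hbd g hg).mono hcl Subset.rfl

end BBH
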