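import Pool.Agent.BBH.StmtsG

/-!
# FRH: by homogeneity there are small connected open sets with large top cohomology
-/

set_option autoImplicit false

namespace BBH

open Set Topology CTO

namespace FRH

/-- a homeomorphism induces an isomorphism of the top cohomology with compact supports -/
theorem finrank_preimage (hT : S_TRP) {k X : Type} [Field k] [MetricSpace X] [CompactSpace X]
    (e : X ≃ₜ X) (V : Set X) :
    Module.finrank k (HO k k 3 V) = Module.finrank k (HO k k 3 (e ⁻¹' V)) := by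
  have hcy : ∀ c : Cc k X, CyO 3 V c ↔ CyO 3 (e ⁻¹' V) (pull e c) := fun c =>
    (hT k X e 3 V c).1
  have hbd : ∀ c : Cc k X, BdO 3 V c ↔ BdO 3 (e ⁻¹' V) (pull e c) := fun c =>
    (hT k X e 3 V c).2
  let f : ZZ k k 3 univ Vᶜ →ₗ[k] HO k k 3 (e ⁻¹' V) :=
    { toFun := fun c => cls k (pull e c.1) ((hcy c.1).1 c.2)
      map_add' := fun _ _ => rfl
      map_smul' := fun _ _ => rfl }
  obtain ⟨F, hF⟩ := exists_lift (R := k) (p := 3) (A := univ) (B := Vᶜ) f (by
    intro c hc
    exact (cls_eq_zero (R := k) ((hcy c.1).1 c.2)).2 ((hbd c.1).1 hc))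
  have hbij : Function.Bijective F := by
    constructor
    · rw [← LinearMap.ker_eq_bot, LinearMap.ker_eq_bot']
      intro a ha
      obtain ⟨c, h, rfl⟩ := cls_surj a
      rw [hF] at ha
      have h1 : BdO 3 (e ⁻¹' V) (pull e c) := (cls_eq_zero (R := k) ((hcy c).1 h)).1 ha
      exact (cls_eq_zero (R := k) h).2 ((hbd c).2 h1)
    · intro a
      obtain ⟨c, h, rfl⟩ := cls_surj a
      have e1 : pull e (pull e.symm c) = c := by
        rw [pull_pull]
        have : (e.symm ∘ e : X → X) = id := by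
          funext x
          simp
        rw [this, pull_id]
      have h1 : CyO 3 V (pull e.symm c) := by
        rw [hcy, e1]
        exact h
      refine ⟨cls k (pull e.symm c) h1, ?_⟩
      rw [hF]
      change cls k (pull e (pull e.symm c)) _ = cls k c h
      simp only [e1]
  exact (LinearEquiv.ofBijective F hbij).finrank_eq

end FRH

theorem t_FRH : M_FRH := by
  intro hTRP hFRS k X _ _ _ hL hX hH hSj V₀ hV₀ hV₀c x N hN hxN
  obtain ⟨v₀, hv₀⟩ := hV₀c.nonempty
  obtain ⟨h, hh⟩ := hH v₀ x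
  have hx : h.symm x = v₀ := by rw [← hh]; simp
  have hV₁ : IsOpen (h.symm ⁻¹' V₀) := hV₀.preimage h.symm.continuous
  have hV₁c : IsConnected (h.symm ⁻¹' V₀) := by
    have : h.symm ⁻¹' V₀ = h '' V₀ := by
      rw [Homeomorph.preimage_symm]
    rw [this]
    exact hV₀c.image h h.continuous.continuousOn
  have hx₁ : x ∈ h.symm ⁻¹' V₀ := by
    rw [mem_preimage, hx]
    exact hv₀
  have hxI : x ∈ h.symm ⁻¹' V₀ ∩ N := ⟨hx₁, hxN⟩
  have hsub := connectedComponentIn_subset (h.symm ⁻¹' V₀ ∩ N) x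
  have hW : IsOpen (connectedComponentIn (h.symm ⁻¹' V₀ ∩ N) x) :=
    (hV₁.inter hN).connectedComponentIn
  have hWc : IsConnected (connectedComponentIn (h.symm ⁻¹' V₀ ∩ N) x) :=
    isConnected_connectedComponentIn_iff.2 hxI
  refine ⟨connectedComponentIn (h.symm ⁻¹' V₀ ∩ N) x, fun y hy => (hsub hy).2, hW, hWc,
    mem_connectedComponentIn hxI, ?_⟩
  rw [FRH.finrank_preimage hTRP h.symm V₀]
  exact hFRS k X hX hSj _ _ hV₁ hV₁c hW hWc fun y hy => (hsub hy).1

end BBH
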