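import Pool.Agent.BBH.StmtsG

/-!
# FRS: the dimension of the top cohomology with compact supports decreases with the open set
-/

set_option autoImplicit false

namespace BBH

open Set Topology CTO

theorem t_FRS : M_FRS := by
  intro hFDV k X _ _ _ hX hSj V W hV hVc hW hWc hWV
  have hfin : Module.Finite k (HO k k 3 W) := hFDV k X hX hSj W hW hWc
  have hsurj : Function.Surjective (ext k k (p := 3) hWV) := by
    intro a
    obtain ⟨c, hc, rfl⟩ := cls_surj a
    obtain ⟨c', hc', hb⟩ := hSj V W hV hVc hW hWV hWc.nonempty c hc
    refine ⟨cls k c' hc', ?_⟩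
    have h1 : cls k c hc = cls k c' (CyO.mono hc' hWV) :=
      (cls_eq (R := k) hc (CyO.mono hc' hWV)).2 hb
    exact h1.symm
  exact LinearMap.finrank_le_finrank_of_surjective hsurj

end BBH
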