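import Pool.Agent.BBH.StmtsG

/-!
# BBH, module LAM: an arc with the ends in a compact set
-/

set_option autoImplicit false

namespace BBH

open Set Topology CTO

namespace LAM

/-- the first point of a path in a closed set -/
theorem first_point {X : Type} [MetricSpace X] {S F : Set X} {a b : X} (hF : IsClosed F)
    (h : JoinedIn S a b) (ha : a ∉ F) (hb : b ∈ F) :
    ∃ q ∈ F ∩ S, JoinedIn ({q} ∪ (S \ F)) a q := by
  obtain ⟨γ, hγ⟩ := h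
  have hcont : Continuous γ.extend := γ.continuous_extend
  have hS : ∀ t ∈ Icc (0 : ℝ) 1, γ.extend t ∈ S := by
    intro t ht
    rw [γ.extend_apply ht]
    exact hγ _
  have hT : IsCompact (Icc (0 : ℝ) 1 ∩ γ.extend ⁻¹' F) :=
    isCompact_Icc.inter_right (hF.preimage hcont)
  have hne : (Icc (0 : ℝ) 1 ∩ γ.extend ⁻¹' F).Nonempty := by
    refine ⟨1, ⟨by norm_num, by norm_num⟩, ?_⟩
    rw [mem_preimage, γ.extend_one]
    exact hb
  obtain ⟨t, ht, hmin⟩ := hT.exists_isLeast hne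
  have ht0 : 0 ≤ t := ht.1.1
  refine ⟨γ.extend t, ⟨ht.2, hS t ht.1⟩, ?_⟩
  have hpc : IsPathConnected (γ.extend '' Icc 0 t) :=
    ((convex_Icc (0 : ℝ) t).isPathConnected ⟨0, le_rfl, ht0⟩).image hcont
  have hj : JoinedIn (γ.extend '' Icc 0 t) (γ.extend 0) (γ.extend t) :=
    hpc.joinedIn _ ⟨0, ⟨le_rfl, ht0⟩, rfl⟩ _ ⟨t, ⟨ht0, le_rfl⟩, rfl⟩
  rw [γ.extend_zero] at hj
  refine hj.mono ?_
  rintro z ⟨s, hs, rfl⟩
  have hs1 : s ∈ Icc (0 : ℝ) 1 := ⟨hs.1, hs.2.trans ht.1.2⟩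
  by_cases h1 : γ.extend s ∈ F
  · left
    have h2 : t ≤ s := hmin ⟨hs1, h1⟩
    rw [le_antisymm hs.2 h2]
    exact mem_singleton _
  · right
    exact ⟨hS s hs1, h1⟩

end LAM

theorem t_LAM : M_LAM := by
  intro hPTA hARB hGLU hARI X _ _ hloc O Dp D₀ V₀ hO hDp hDpO hne hD₀ hD₀p hV₀ hV₀ne hV₀D
  obtain ⟨p₁, hp₁O, hp₁D⟩ := hne
  obtain ⟨a₁, ha₁⟩ := hV₀ne
  have hOpen : IsOpen O := hO.1
  have hOpc : IsPathConnected O := hOpen.isConnected_iff_isPathConnected.1 hO.2.1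
  have ha₁O : a₁ ∈ O := hDpO (hD₀p (hV₀D ha₁))
  have hne₁ : a₁ ≠ p₁ := by
    rintro rfl
    exact hp₁D (hD₀p (hV₀D ha₁))
  obtain ⟨Sg, hSgO, hSg⟩ := hPTA.2 X O a₁ p₁ (hOpc.joinedIn _ ha₁O _ hp₁O) hne₁
  obtain ⟨-, ha₁S, hp₁S, -, hSgc, -, -, hsub, -⟩ := hARB X Sg a₁ p₁ hSg
  -- the path component of `p₁`
  have hUo : IsOpen (O \ Dp) := hOpen.sdiff hDp.isClosed
  set P : Set X := pathComponentIn (O \ Dp) p₁ with hP
  have hPo : IsOpen P := hUo.pathComponentIn p₁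
  have hPsub : P ⊆ O \ Dp := pathComponentIn_subset
  have hp₁P : p₁ ∈ P := mem_pathComponentIn_self ⟨hp₁O, hp₁D⟩
  obtain ⟨p₂, hp₂P, hp₂S⟩ : ∃ p₂ ∈ P, p₂ ∉ Sg := by
    by_contra hcon
    push Not at hcon
    have h1 := hARI X O Sg P a₁ p₁ hO hSg hPo hcon (hPsub.trans diff_subset)
    rw [h1] at hp₁P
    exact hp₁P
  obtain ⟨a₂, ha₂V, ha₂S⟩ : ∃ a₂ ∈ V₀, a₂ ∉ Sg := by
    by_contra hcon
    push Not at hcon
    have h1 := hARI X O Sg V₀ a₁ p₁ hO hSg hV₀ hcon ((hV₀D.trans hD₀p).trans hDpO)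
    rw [h1] at ha₁
    exact ha₁
  -- the complement of the arc
  have hOS : IsOpen (O \ Sg) := hOpen.sdiff hSgc.isClosed
  have hpre : IsPreconnected (O \ Sg) := by
    have h1 := (hO.2.2 O Subset.rfl hOpen hO.2.1).2 1 (fun _ => Sg) (fun _ => ?_) ?_
    · have h2 : (⋃ _ : Fin 1, Sg) = Sg := iUnion_const Sg
      rw [h2] at h1
      exact h1
    · obtain ⟨α, h1, h2, -, -, h3⟩ := hSg
      exact ⟨α, h1, h2, h3⟩
    · exact iUnion_subset fun _ => hSgO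
  have hp₂O : p₂ ∈ O \ Sg := ⟨(hPsub hp₂P).1, hp₂S⟩
  have ha₂O : a₂ ∈ O \ Sg := ⟨hDpO (hD₀p (hV₀D ha₂V)), ha₂S⟩
  have hpc2 : IsPathConnected (O \ Sg) :=
    hOS.isConnected_iff_isPathConnected.1 ⟨⟨p₂, hp₂O⟩, hpre⟩
  have hj2 : JoinedIn (O \ Sg) p₂ a₂ := hpc2.joinedIn _ hp₂O _ ha₂O
  -- the first point of a path from `p₂` to `p₁`
  have hj1 : JoinedIn (O \ Dp) p₂ p₁ := by
    have h1 : JoinedIn (O \ Dp) p₁ p₂ := hp₂P
    exact h1.symm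
  obtain ⟨q, ⟨hqS, hqO⟩, hj3⟩ := LAM.first_point hSgc.isClosed hj1 hp₂S hp₁S
  have hj4 : JoinedIn ({q} ∪ (O \ Sg)) q a₂ := by
    refine (hj3.symm.mono ?_).trans (hj2.mono subset_union_right)
    exact union_subset_union_right _ (diff_subset_diff_left diff_subset)
  have hqa₂ : q ≠ a₂ := by
    rintro rfl
    exact ha₂S hqS
  obtain ⟨B, hBsub, hB⟩ := hPTA.2 X _ q a₂ hj4 hqa₂
  have hqD : q ∉ D₀ := fun h => hqO.2 (hD₀p h)
  obtain ⟨-, -, -, -, -, -, -, -, -, -, -, hhitB, -⟩ := hARB X B q a₂ hB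
  obtain ⟨w, hwD, B', hB'B, hB', hB'D⟩ := hhitB D₀ hD₀.isClosed (hV₀D ha₂V) hqD
  have hqa₁ : q ≠ a₁ := by
    rintro rfl
    exact hqD (hV₀D ha₁)
  obtain ⟨C, hCS, hC⟩ := hsub q hqS a₁ ha₁S hqa₁
  obtain ⟨-, -, -, -, -, -, -, -, -, -, -, hhitC, -⟩ := hARB X C q a₁ hC
  obtain ⟨w', hw'D, C', hC'C, hC', hC'D⟩ := hhitC D₀ hD₀.isClosed (hV₀D ha₁) hqD
  have hqB' : q ∈ B' := (hARB X B' q w hB').2.1
  have hqC' : q ∈ C' := (hARB X C' q w' hC').2.1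
  have hCr : BBP.Arc C' w' q := (hARB X C' q w' hC').2.2.2.1
  have hint : C' ∩ B' = {q} := by
    refine Subset.antisymm ?_ ?_
    · rintro z ⟨hzC, hzB⟩
      rcases hBsub (hB'B hzB) with h1 | h1
      · exact h1
      · exact absurd (hCS (hC'C hzC)) h1.2
    · rintro z hz
      rw [mem_singleton_iff.1 hz]
      exact ⟨hqC', hqB'⟩
  refine ⟨C' ∪ B', w', w, hGLU.2 X C' B' w' q w hCr hB' hint, ?_, ?_, ?_⟩
  · refine union_subset ((hC'C.trans hCS).trans hSgO) ?_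
    intro z hz
    rcases hBsub (hB'B hz) with h1 | h1
    · rw [mem_singleton_iff.1 h1]
      exact hqO.1
    · exact h1.1
  · rw [inter_comm, union_inter_distrib_right, hC'D, hB'D]
    rfl
  · intro h1
    exact hqO.2 (h1 (Or.inl hqC'))

end BBH
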