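import Pool.Agent.BBH.StmtsG

/-!
# LEC: the choices
-/

set_option autoImplicit false

namespace BBH

open Set Topology CTO

theorem t_LEC : M_LEC := by
  intro hDPL hCFG hARC hFRH hTHK hOUT hNSB hRKA hRKB hFRS hPRG
  intro k X _ _ _ hlp hANR hHom hSj B B' D O₁ O₂ hS
  obtain ⟨Dp, D₀, V₀, hGN, hcDp, hDpO, hne, hVan, hcD₀, hconD₀, hD₀Dp, hopV₀, hconV₀, hV₀D₀, hD₀⟩ :=
    hDPL k X hlp hANR hSj B B' D O₁ O₂ hS
  obtain ⟨La, As, Ap, Ga, P, Q, x, y, hC⟩ := hCFG X hlp O₂ Dp D₀ V₀ hGN hcDp hDpO hne hcD₀ hconD₀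
    hD₀Dp hopV₀ hconV₀.nonempty hV₀D₀
  have hcLa : IsCompact La := by
    obtain ⟨α, hα, -, -, -, rfl⟩ := hC.arc
    exact isCompact_Icc.image_of_continuousOn hα
  have hcJ : IsCompact (D₀ ∪ La) := hcD₀.union hcLa
  have hcJp : IsCompact (Dp ∪ La) := hcDp.union hcLa
  have hO₂D : O₂ ⊆ D := hS.sub2.trans hS.sub1
  have hO₂B : O₂ ⊆ B := hO₂D.trans hS.subD
  have hJpne : (Dp ∪ La).Nonempty := by
    obtain ⟨v, hv⟩ := hconV₀.nonempty
    exact ⟨v, Or.inl (hD₀Dp (hV₀D₀ hv))⟩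
  have hVanJ : Van k 2 (Dp ∪ La) ∅ := hARC.2.2 k X Dp La P Q hcDp hC.arc 2 le_rfl hVan
  obtain ⟨w, hwB, hwD⟩ := hS.conD.nonempty
  have hwJ : w ∈ B \ (Dp ∪ La) := ⟨hwB, fun h => hwD (hO₂D (hC.sub h))⟩
  have hconJ : IsConnected (B \ (Dp ∪ La)) :=
    ⟨⟨w, hwJ⟩, hNSB k X hSj B (Dp ∪ La) hS.gb hcJp (hC.sub.trans hO₂B) hVanJ⟩
  -- the points
  obtain ⟨Ox, Oy, hOx, hOy, hxO, hyO, hdis⟩ := t2_separation hC.ne
  obtain ⟨Vx, hVxO, hopVx, hconVx, hxV, hrk⟩ :=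
    hFRH k X hlp hANR hHom hSj V₀ hopV₀ hconV₀ x Ox hOx hxO
  obtain ⟨Pa, Pg, hopPa, hopPg, hApPa, hGaPg, hPaO, hPgO, hint⟩ := hTHK.1 X Ap Ga O₂ Vx Oy x y hC.cAp
    hC.cGa hC.inter hS.op2 (by rw [hC.uJp]; exact hC.sub) hopVx hxV hOy hyO
  have hJpP : Dp ∪ La ⊆ Pa ∪ Pg := by
    rw [← hC.uJp]
    exact union_subset_union hApPa hGaPg
  obtain ⟨K, W, hcK, hJK, hKN, hwW, hopW, hconW, hWK, hWcl, hcBW, hBWN⟩ := hOUT X hlp B (Dp ∪ La)
    (Pa ∪ Pg) w hS.gb.1 hS.gb.2.1 hcJp hJpne (hC.sub.trans hO₂B) hconJ hwJ (hopPa.union hopPg) hJpP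
  have hKO : K ⊆ O₂ := by
    intro z hz
    rcases (hKN hz).2 with h | h
    · exact hPaO h
    · exact hPgO h
  have hout : B \ D ⊆ W := by
    refine hS.conD.isPreconnected.subset_of_closure_inter_subset hopW ⟨w, ⟨hwB, hwD⟩, hwW⟩ ?_
    rintro z ⟨hz1, hz2⟩
    exact hWcl ⟨hz1, hz2.1, fun h => hz2.2 (hO₂D (hKO h))⟩
  -- ranks
  have hJJp : D₀ ∪ La ⊆ Dp ∪ La := union_subset_union_left _ hD₀Dp
  obtain ⟨g1, hg1⟩ := hRKA k X Dp D₀ La P Q hcD₀ hD₀Dp hC.arc hC.int hD₀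
  obtain ⟨N₀, g0, hopN₀, hJN₀, hg0, hN₀⟩ := hRKB k X hANR K (D₀ ∪ La) g1 hcK hcJ (hJJp.trans hJK)
    (fun g hg => hg1 g (hg.mono (hJK.trans interior_subset) Subset.rfl))
  have hAsJ : As ⊆ D₀ ∪ La := by rw [← hC.uJ]; exact subset_union_left
  have hGaJ : Ga ⊆ D₀ ∪ La := by rw [← hC.uJ]; exact subset_union_right
  obtain ⟨Na, hNaU, hopNa, hconNa, hAsNa⟩ := hTHK.2 X hlp As (Pa ∩ N₀ ∩ interior K)
    ((hopPa.inter hopN₀).inter isOpen_interior) hC.conAs (fun z hz =>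
      ⟨⟨hApPa (hC.AsAp hz), hJN₀ (hAsJ hz)⟩, hJK (hJJp (hAsJ hz))⟩)
  obtain ⟨Ng, hNgU, hopNg, hconNg, hGaNg⟩ := hTHK.2 X hlp Ga (Pg ∩ N₀ ∩ interior K)
    ((hopPg.inter hopN₀).inter isOpen_interior) hC.conGa (fun z hz =>
      ⟨⟨hGaPg hz, hJN₀ (hGaJ hz)⟩, hJK (hJJp (hGaJ hz))⟩)
  have hNK : Na ∪ Ng ⊆ K := union_subset (fun z hz => interior_subset (hNaU hz).2)
    (fun z hz => interior_subset (hNgU hz).2)
  have hNN₀ : Na ∪ Ng ⊆ N₀ := union_subset (fun z hz => (hNaU hz).1.2) (fun z hz => (hNgU hz).1.2)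
  have hxG : x ∈ Ap ∩ Ga := by rw [hC.inter]; simp
  have hyG : y ∈ Ap ∩ Ga := by rw [hC.inter]; simp
  refine ⟨K, W, Na, Ng, Pa, Pg, Vx, Oy, g0, ?_⟩
  exact
    { ky :=
        { opB := hS.gb.1
          conB := hS.gb.2.1
          opB' := hS.opB'
          subB := hS.subB
          tr := hS.tr
          cD := hS.cD
          subD := hS.subD
          conD := hS.conD
          inj := hS.inj
          opO := hS.op1
          subO := hS.sub1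
          opN := hopNa.union hopNg
          subN := hNK
          opW := hopW
          conW := hconW
          subW := hWK
          outW := hout }
      NB := hNK.trans (hKO.trans hO₂B)
      opNa := hopNa
      conNa := hconNa
      opNg := hopNg
      conNg := hconNg
      NaPa := fun z hz => (hNaU hz).1.1
      NgPg := fun z hz => (hNgU hz).1.1
      opPa := hopPa
      opPg := hopPg
      out := hBWN
      opVx := hopVx
      conVx := hconVx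
      opVy := hOy
      int := hint
      dis := (hdis.mono_left hVxO).inter_eq
      neX := ⟨x, ⟨hAsNa hC.xAs, hGaNg hxG.2⟩, hxV⟩
      neY := ⟨y, ⟨hAsNa hC.yAs, hGaNg hyG.2⟩, hyO⟩
      rk := (hFRS k X hANR hSj Na V₀ hopNa hconNa hopV₀ hconV₀
        (hV₀D₀.trans (hC.D₀As.trans hAsNa))).trans hrk
      one := by
        intro g hg
        obtain ⟨t, ht⟩ := hN₀ g hg
        refine ⟨t, fun θ s hθ hs => ?_⟩
        exact hPRG k X B K (Na ∪ Ng) N₀ g g0 t (hNK.trans (hKO.trans hO₂B)) hNK hNN₀ hg hg0 ht θ s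
          hθ hs
      bd := fun c hc => hS.tr2 c (hc.mono (hNK.trans hKO)) }

end BBH
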