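import Pool.Agent.BBH.StmtsG

/-!
# BBH, module LED: the contradiction, the local groups in degree three have dimension at most one
-/

set_option autoImplicit false

namespace BBH

open Set Topology CTO

namespace LED

variable {k X : Type} [Field k] [MetricSpace X]

/-- a linear combination of two relations, on larger open sets -/
theorem MVr.comb {p : ℤ} {U V U' V' : Set X} {c c' d d' : Cc k X} (hU : U ⊆ U') (hV : V ⊆ V')
    (h : MVr p U V c d) (h' : MVr p U V c' d') (a b : k) :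
    MVr p U' V' (a • c + b • c') (a • d + b • d') := by
  obtain ⟨c₁, c₂, h1, h2, h3, h4, h5, h6⟩ := h
  obtain ⟨e₁, e₂, g1, g2, g3, g4, g5, g6⟩ := h'
  refine ⟨a • c₁ + b • e₁, a • c₂ + b • e₂, (h1.smul a).add (g1.smul b),
    (h2.smul a).add (g2.smul b),
    ((h3.smul a).add (g3.smul b)).anti (compl_subset_compl.2 hU),
    ((h4.smul a).add (g4.smul b)).anti (compl_subset_compl.2 hV), ?_, ?_⟩
  · have h7 := (h5.smul a).add (g5.smul b)
    have h8 : a • (c - c₁ - c₂) + b • (c' - e₁ - e₂) =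
        a • c + b • c' - (a • c₁ + b • e₁) - (a • c₂ + b • e₂) := by
      simp only [smul_sub]
      abel
    rwa [h8] at h7
  · have h7 := (h6.smul a).add (g6.smul b)
    have h8 : a • (d - dd c₁) + b • (d' - dd e₁) =
        a • d + b • d' - dd (a • c₁ + b • e₁) := by
      rw [dd_add, dd_smul, dd_smul, smul_sub, smul_sub]
      abel
    rwa [h8] at h7

/-- a nontrivial solution of one linear equation in two unknowns -/
theorem exists_pair (u v : k) : ∃ a b : k, a * u + b * v = 0 ∧ ¬ (a = 0 ∧ b = 0) := by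
  by_cases hu : u = 0
  · exact ⟨1, 0, by rw [hu]; ring, fun h => one_ne_zero h.1⟩
  · exact ⟨-v, u, by ring, fun h => hu h.2⟩

/-- a functional that is not zero -/
theorem exists_fn {p : ℤ} {B : Set X} (h : 2 ≤ Module.finrank k (HO k k p B)) :
    ∃ s : Cc k X →ₗ[k] k, Kil p B s ∧ ∃ c, CyO p B c ∧ s c ≠ 0 := by
  have hn : Nontrivial (HO k k p B) :=
    Module.nontrivial_of_finrank_pos (R := k) (lt_of_lt_of_le (by norm_num) h)
  obtain ⟨z, hz⟩ := exists_ne (0 : HO k k p B)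
  obtain ⟨φ, hφ⟩ : ∃ φ : HO k k p B →ₗ[k] k, φ z ≠ 0 := by
    by_contra hcon
    push Not at hcon
    exact hz ((Module.forall_dual_apply_eq_zero_iff k z).1 hcon)
  obtain ⟨c, hc, rfl⟩ := cls_surj z
  obtain ⟨s, hs, hs'⟩ := exists_total φ
  exact ⟨s, hs, c, hc, by rw [hs' c hc]; exact hφ⟩

theorem core (hCNT : S_CNT) (hMVO : S_MVO) (hKEY : S_KEY) [CompactSpace X]
    (lpc : LocallyPathConnectedSpace X) (anr : IsANR X) (sj : Sj k X)
    (B B' D O₁ K W Na Ng Pa Pg Vx Vy : Set X) (g0 : Cc k X)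
    (F : Fic k B B' D O₁ K W Na Ng Pa Pg Vx Vy g0) (NB : Na ∪ Ng ⊆ B) :
    Module.finrank k (HO k k 3 B) ≤ 1 := by
  by_contra hcon
  have h2 : 2 ≤ Module.finrank k (HO k k 3 B) := by omega
  obtain ⟨d₁, d₂, hd₁, hd₂, ha₁, ha₂, hg₁, hg₂, hind⟩ := hCNT k X anr sj B Na Ng Vx Vy
    F.ky.opB F.ky.conB F.opNa F.conNa F.opNg F.conNg F.opVx F.conVx F.opVy
    (subset_union_left.trans NB) (subset_union_right.trans NB)
    ((inter_subset_inter F.NaPa F.NgPg).trans F.int) F.dis F.neX F.neY F.rk h2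
  obtain ⟨-, -, h3, -, -⟩ := hMVO k X 2 Na Ng F.opNa F.opNg
  obtain ⟨θ₁, hθ₁, hr₁⟩ := h3 d₁ hd₁ ha₁ hg₁
  obtain ⟨θ₂, hθ₂, hr₂⟩ := h3 d₂ hd₂ ha₂ hg₂
  obtain ⟨s, hs, hsc⟩ := exists_fn h2
  obtain ⟨a, b, hab, hne⟩ := exists_pair (s (cup θ₁ g0)) (s (cup θ₂ g0))
  have hθ : CyO 2 (Na ∪ Ng) (a • θ₁ + b • θ₂) := (Cyc.smul a hθ₁).add (Cyc.smul b hθ₂)
  have hd : CyO 3 (Na ∩ Ng) (a • d₁ + b • d₂) := (Cyc.smul a hd₁).add (Cyc.smul b hd₂)
  have h0 : s (cup (a • θ₁ + b • θ₂) g0) = 0 := by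
    rw [cup_add_left, cup_smul_left, cup_smul_left, map_add, map_smul, map_smul, smul_eq_mul,
      smul_eq_mul, hab]
  have hbd : BdO 2 (Pa ∪ Pg) (a • θ₁ + b • θ₂) := by
    refine hKEY k X lpc sj B B' D O₁ (Na ∪ Ng) K W (Pa ∪ Pg) _ s F.ky hθ (F.bd _ hθ) hs hsc
      ?_ (F.opPa.union F.opPg) F.out
    intro g hg
    obtain ⟨t, ht⟩ := F.one g hg
    rw [ht _ s hθ hs, h0, mul_zero]
  obtain ⟨-, h4, -, -, -⟩ := hMVO k X 2 Pa Pg F.opPa F.opPg
  have h5 : BdO (2 + 1) (Pa ∩ Pg) (a • d₁ + b • d₂) :=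
    h4 _ _ (hθ.mono (union_subset_union F.NaPa F.NgPg))
      (CyO.mono hd (inter_subset_inter F.NaPa F.NgPg)) (MVr.comb F.NaPa F.NgPg hr₁ hr₂ a b) hbd
  exact hne (hind a b (BdO.mono h5 F.int))

end LED

theorem t_LED : M_LED := by
  intro hCNT hMVO hKEY k X _ _ _ lpc anr sj B B' D O₁ K W Na Ng Pa Pg Vx Vy g0 F
  exact LED.core hCNT hMVO hKEY lpc anr sj B B' D O₁ K W Na Ng Pa Pg Vx Vy g0 F F.NB

end BBH
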