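import Pool.Agent.BBH.StmtsG

/-!
# BBH, module LEV: the local groups in degree three have dimension at most one
-/

set_option autoImplicit false

namespace BBH

open Set Topology CTO

theorem t_LEV : M_LEV := by
  intro hSTP hLEC hLED hFRS k X _ _ _ hLPC hANR hHom hSj hGN hNZ hLT V hV hcV
  obtain ⟨x, hx⟩ := hcV.nonempty
  obtain ⟨B, B', D, O₁, O₂, hBV, _, hst⟩ := hSTP k X hLPC hANR hSj hGN hNZ hLT x V hV hx
  obtain ⟨K, W, Na, Ng, Pa, Pg, Vx, Vy, g0, hfic⟩ :=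
    hLEC k X hLPC hANR hHom hSj B B' D O₁ O₂ hst
  exact (hFRS k X hANR hSj V B hV hcV hst.gb.1 hst.gb.2.1 hBV).trans
    (hLED k X hLPC hANR hSj B B' D O₁ K W Na Ng Pa Pg Vx Vy g0 hfic)

end BBH
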