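import Pool.Agent.BBH.StmtsG

/-!
# BBH: linear algebra (S_LNL)
-/

set_option autoImplicit false

namespace BBH

open Set Topology

theorem t_LNL : S_LNL := by
  intro k Z A V D _ _ _ _ _ _ _ _ _ _ _ π f g hπ hg hgf hAV hD
  set W : Submodule k V := (LinearMap.ker f).map π with hW
  let ψ : Z →ₗ[k] V ⧸ W := W.mkQ ∘ₗ π
  have hψ : LinearMap.ker f ≤ LinearMap.ker ψ := by
    intro z hz
    rw [LinearMap.mem_ker]
    change W.mkQ (π z) = 0
    rw [Submodule.mkQ_apply, Submodule.Quotient.mk_eq_zero]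
    exact Submodule.mem_map_of_mem hz
  have hψs : Function.Surjective ψ := (W.mkQ_surjective).comp hπ
  let χ : (Z ⧸ LinearMap.ker f) →ₗ[k] V ⧸ W := (LinearMap.ker f).liftQ ψ hψ
  have hχ : Function.Surjective χ := by
    intro y
    obtain ⟨z, hz⟩ := hψs y
    exact ⟨Submodule.Quotient.mk z, hz⟩
  have h1 : Module.finrank k (V ⧸ W) ≤ Module.finrank k (LinearMap.range f) := by
    have h2 : Function.Surjective (χ ∘ₗ (f.quotKerEquivRange.symm : LinearMap.range f →ₗ[k] _)) :=
      hχ.comp f.quotKerEquivRange.symm.surjective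
    exact LinearMap.finrank_le_finrank_of_surjective h2
  have h3 : Module.finrank k (LinearMap.range f) ≤ Module.finrank k (LinearMap.ker g) := by
    apply Submodule.finrank_mono
    rintro _ ⟨z, rfl⟩
    exact hgf z
  have h4 : Module.finrank k D + Module.finrank k (LinearMap.ker g) = Module.finrank k A := by
    have h5 := LinearMap.finrank_range_add_finrank_ker g
    rwa [LinearMap.range_eq_top.2 hg, finrank_top] at h5
  have h6 : Module.finrank k (V ⧸ W) + Module.finrank k W = Module.finrank k V :=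
    Submodule.finrank_quotient_add_finrank W
  have h7 : 2 ≤ Module.finrank k W := by omega
  let b := Module.finBasis k W
  have hi : LinearIndependent k ![b ⟨0, by omega⟩, b ⟨1, by omega⟩] := by
    have h8 := b.linearIndependent.comp ![⟨0, by omega⟩, ⟨1, by omega⟩] (by
      intro i j hij
      fin_cases i <;> fin_cases j <;> simp_all)
    have h9 : b ∘ ![⟨0, by omega⟩, ⟨1, by omega⟩] = ![b ⟨0, by omega⟩, b ⟨1, by omega⟩] := by
      funext i
      fin_cases i <;> rfl
    rwa [h9] at h8
  obtain ⟨z₁, hz₁, e₁⟩ := (b ⟨0, by omega⟩).2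
  obtain ⟨z₂, hz₂, e₂⟩ := (b ⟨1, by omega⟩).2
  refine ⟨z₁, z₂, hz₁, hz₂, fun s t hst => ?_⟩
  rw [e₁, e₂] at hst
  exact LinearIndependent.pair_iff.1 hi s t (Subtype.ext hst)

end BBH
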