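import Pool.Agent.BBH.StmtsG

/-!
# ONE: the groups in degree three have dimension at most one, for countable fields
-/

set_option autoImplicit false

namespace BBH

open Set Topology CTO

namespace ONE

variable {k X : Type} [Field k] [MetricSpace X]

/-- a one-dimensional group is generated by one class -/
theorem gen_one {V : Set X} (hfin : Module.Finite k (HO k k 3 V))
    (hle : Module.finrank k (HO k k 3 V) ≤ 1) :
    ∃ g : Cc k X, CyO 3 V g ∧ ∀ c : Cc k X, CyO 3 V c → ∃ t : k, BdO 3 V (c - t • g) := by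
  obtain ⟨v, hv⟩ := finrank_le_one_iff.1 hle
  obtain ⟨g, hg, rfl⟩ := cls_surj v
  refine ⟨g, hg, fun c hc => ?_⟩
  obtain ⟨t, ht⟩ := hv (cls k c hc)
  refine ⟨t, ?_⟩
  have h1 : cls k c hc = cls k (t • g) (Cyc.smul t hg) := ht.symm
  exact (cls_eq (R := k) hc (Cyc.smul t hg)).1 h1

theorem ext_surj (hSj : Sj k X) {V W : Set X} (hV : IsOpen V) (hVc : IsConnected V)
    (hW : IsOpen W) (hWV : W ⊆ V) (hWne : W.Nonempty) :
    Function.Surjective (ext k k (p := 3) hWV) := by
  intro a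
  obtain ⟨c, hc, rfl⟩ := cls_surj a
  obtain ⟨c', hc', hb⟩ := hSj V W hV hVc hW hWV hWne c hc
  refine ⟨cls k c' hc', ?_⟩
  have h1 : cls k c hc = cls k c' (CyO.mono hc' hWV) :=
    (cls_eq (R := k) hc (CyO.mono hc' hWV)).2 hb
  exact h1.symm

theorem finrank_pos_of {V : Set X} (hfin : Module.Finite k (HO k k 3 V))
    (h : ¬ VanO k 3 V) : 0 < Module.finrank k (HO k k 3 V) := by
  unfold VanO at h
  push Not at h
  obtain ⟨c, hc, hb⟩ := h
  have hne : cls k c hc ≠ 0 := fun h0 => hb ((cls_eq_zero (R := k) hc).1 h0)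
  exact Module.finrank_pos_iff_exists_ne_zero.2 ⟨_, hne⟩

end ONE

theorem t_ONE : M_ONE := by
  intro hLEV hLPX hSRJ hGNX hNZK hLT2 hFDV hNZB k X _ _ _ _ hX hH hS hS2
  have hLP : LocallyPathConnectedSpace X := (hLPX X hX).1
  have hSj : Sj k X := hSRJ k X hX hH hS
  have hGNs : GNs X := hGNX X hX hH hS hS2
  have hNZ : ∀ x : X, NZat k x := by
    intro x
    have : Nonempty X := ⟨x⟩
    exact hNZK k X hX hH hS hGNs x
  have hLT : ∀ x : X, LT k 2 x := hLT2 k X hX hH hGNs
  have hfin : ∀ V : Set X, IsOpen V → IsConnected V → Module.Finite k (HO k k 3 V) :=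
    hFDV k X hX hSj
  have hle : ∀ V : Set X, IsOpen V → IsConnected V → Module.finrank k (HO k k 3 V) ≤ 1 :=
    hLEV k X hLP hX hH hSj hGNs hNZ hLT
  refine ⟨fun V hV hVc => ONE.gen_one (hfin V hV hVc) (hle V hV hVc), fun x N hN hx => ?_⟩
  obtain ⟨B, hBN, hxB, hB⟩ := hNZB k X hLP hSj hNZ x N hN hx
  refine ⟨B, hBN, hxB, hB, fun V W hWB hVW hV hVc hW hWc c hc hb => ?_⟩
  have := hfin V hV hVc
  have := hfin W hW hWc
  have hV1 : Module.finrank k (HO k k 3 V) = 1 := le_antisymm (hle V hV hVc)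
    (ONE.finrank_pos_of (hfin V hV hVc) (hB.2.2 V (hVW.trans hWB) hV hVc.nonempty))
  have hW1 : Module.finrank k (HO k k 3 W) = 1 := le_antisymm (hle W hW hWc)
    (ONE.finrank_pos_of (hfin W hW hWc) (hB.2.2 W hWB hW hWc.nonempty))
  have hsurj : Function.Surjective (ext k k (p := 3) hVW) :=
    ONE.ext_surj hSj hW hWc hV hVW hVc.nonempty
  have hinj : Function.Injective (ext k k (p := 3) hVW) :=
    (LinearMap.injective_iff_surjective_of_finrank_eq_finrank (hV1.trans hW1.symm)).2 hsurj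
  have h0 : ext k k (p := 3) hVW (cls k c hc) = 0 := by
    have h1 : cls k c (CyO.mono hc hVW) = 0 := (cls_eq_zero (R := k) (CyO.mono hc hVW)).2 hb
    exact h1
  have h2 : cls k c hc = 0 := hinj (h0.trans (map_zero _).symm)
  exact (cls_eq_zero (R := k) hc).1 h2

end BBH
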