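import Pool.Agent.BBH.StmtsG

/-!
# BBH: the pairing
-/

set_option autoImplicit false

namespace BBH

open Set Topology CTO

namespace PRG

variable {k X : Type} [Field k] [MetricSpace X]

theorem zr_cup {N : Set X} {θ e : Cc k X} (hθ : Zr Nᶜ θ) (he : Zr N e) : Zr univ (cup θ e) := by
  have h := Zr.union (Zr.cup_right θ he) (Zr.cup_left e hθ)
  rwa [union_compl_self] at h

theorem cyc_cup {B K N : Set X} {θ g : Cc k X} (hNB : N ⊆ B) (hNK : N ⊆ K)
    (hg : Cyc 1 K ∅ g) (hθ : CyO 2 N θ) : CyO 3 B (cup θ g) := by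
  refine ⟨?_, ?_, ?_⟩
  · exact Dg.cup hθ.deg hg.deg
  · exact (Zr.cup_left g hθ.rel).anti (compl_subset_compl.2 hNB)
  · have h1 : Dg X ((2 : ℕ) : ℤ) θ := hθ.deg
    rw [dd_cup h1 hg.deg]
    refine (Zr.cup_left g hθ.cyc).add (Zr.smul _ (zr_cup hθ.rel (hg.cyc.anti hNK)))

end PRG

theorem t_PRG : S_PRG := by
  intro k X _ _ B K N N₀ g g0 t hNB hNK hNN hg hg0 hb θ s hθ hs
  obtain ⟨b, db, -, kb⟩ := hb
  have hc : CyO 3 B (cup θ g - t • cup θ g0) :=
    Cyc.sub (PRG.cyc_cup hNB hNK hg hθ) (Cyc.smul t (PRG.cyc_cup hNB hNK hg0 hθ))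
  have hbd : BdO 3 B (cup θ g - t • cup θ g0) := by
    have h0 : Dg X (0 : ℤ) b := by
      have : (1 : ℤ) - 1 = 0 := by norm_num
      rwa [this] at db
    refine ⟨cup θ b, ?_, (Zr.cup_left b hθ.rel).anti (compl_subset_compl.2 hNB), ?_⟩
    · have h2 := Dg.cup hθ.deg h0
      have : (2 : ℤ) + 0 = 3 - 1 := by norm_num
      rwa [this] at h2
    · have h1 : Dg X ((2 : ℕ) : ℤ) θ := hθ.deg
      have h3 : cup θ g - t • cup θ g0 - dd (cup θ b) =
          cup θ (g - t • g0 - dd b) - cup (dd θ) b := by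
        rw [dd_cup h1 h0, cup_sub_right, cup_sub_right, cup_smul_right]
        have : ((-1 : k)) ^ 2 = 1 := by norm_num
        rw [this, one_smul]
        abel
      rw [h3]
      exact (PRG.zr_cup hθ.rel (kb.anti hNN)).sub (Zr.cup_left b hθ.cyc)
  have h4 := hs _ hc hbd
  rw [map_sub, map_smul, smul_eq_mul, sub_eq_zero] at h4
  exact h4

end BBH
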