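import Pool.Agent.BBH.StmtsG

/-!
# Module RKA: a restriction of rank at most one
-/

set_option autoImplicit false

namespace BBH

open Set Topology CTO

namespace RKA

theorem dd_const {M X : Type} [AddCommGroup M] (m : M) :
    dd (c0 (fun _ : X => m)) = (0 : Cc M X) := by
  funext l
  by_contra h
  have h1 := dd_len (c := c0 (fun _ : X => m)) (m := 1) (fun l hl => by
    have := (Dg.c0 (fun _ : X => m) l hl).2
    omega) l h
  match l, h, h1 with
  | [], h, _ => exact h (dd_nil _)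
  | [x], h, h1 => simp at h1
  | [x, y], h, _ =>
    apply h
    rw [dd_c0_two, sub_self]
    rfl
  | x :: y :: z :: l, _, h1 =>
    simp only [List.length_cons, Nat.cast_add, Nat.cast_one] at h1
    omega

/-- an element of degree zero with small coboundary near a point and value zero there vanishes near the point -/
theorem zr_pt (hPNT : S_PNT) {M X : Type} [AddCommGroup M] [MetricSpace X] {e : Cc M X}
    (hd : Dg X 0 e) {A : Set X} (hA : Zr A (dd e)) {x : X} (hx : x ∈ A) (h0 : e [x] = 0) :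
    Zr {x} e := by
  have h1 : Cyc 0 {x} ∅ e := ⟨hd, Zr.empty hd, hA.anti (singleton_subset_iff.2 hx)⟩
  have h2 := (hPNT M X x).2 e h1
  have h3 : e - c0 (fun _ => e [x]) = e := by
    rw [h0]
    have h4 : (c0 (fun _ : X => (0 : M)) : Cc M X) = 0 := by
      funext l
      rcases l with _ | ⟨y, _ | ⟨z, l⟩⟩ <;> simp
    rw [h4, sub_zero]
  rwa [h3] at h2

theorem glue (hPNT : S_PNT) {M X : Type} [AddCommGroup M] [MetricSpace X] {D La : Set X}
    {P Q : X} (hD : IsCompact D) (hLa : IsClosed La) (hI : D ∩ La = {P, Q}) {g b₁ b₂ : Cc M X}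
    (h1 : Dg X 0 b₁) (h2 : Dg X 0 b₂) (hz1 : Zr D (g - dd b₁)) (hz2 : Zr La (g - dd b₂))
    (hPQ : (b₁ - b₂) [P] = (b₁ - b₂) [Q]) : Bd 1 (D ∪ La) ∅ g := by
  set m : M := (b₁ - b₂) [P] with hm
  set b₃ : Cc M X := b₂ + c0 (fun _ => m) with hb₃
  have h3 : Dg X 0 b₃ := h2.add (Dg.c0 _)
  have hdd : dd b₃ = dd b₂ := by rw [hb₃, dd_add, dd_const, add_zero]
  have hz3 : Zr La (g - dd b₃) := by rw [hdd]; exact hz2
  have he : Dg X 0 (b₁ - b₃) := h1.sub h3
  have heP : (b₁ - b₃) [P] = 0 := by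
    have h : (b₁ - b₃) [P] = (b₁ - b₂) [P] - m := by
      rw [hb₃]
      simp only [Pi.sub_apply, Pi.add_apply, c0_single]
      abel
    rw [h, ← hm, sub_self]
  have heQ : (b₁ - b₃) [Q] = 0 := by
    have h : (b₁ - b₃) [Q] = (b₁ - b₂) [Q] - m := by
      rw [hb₃]
      simp only [Pi.sub_apply, Pi.add_apply, c0_single]
      abel
    rw [h, ← hPQ, sub_self]
  have hdz : Zr (D ∩ La) (dd (b₁ - b₃)) := by
    have h : dd (b₁ - b₃) = (g - dd b₃) - (g - dd b₁) := by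
      rw [dd_sub]
      abel
    rw [h]
    exact (hz3.anti inter_subset_right).sub (hz1.anti inter_subset_left)
  have hP : P ∈ D ∩ La := by rw [hI]; simp
  have hQ : Q ∈ D ∩ La := by rw [hI]; simp
  have hzP := zr_pt hPNT he hdz hP heP
  have hzQ := zr_pt hPNT he hdz hQ heQ
  have hz : Zr (D ∩ La) (b₁ - b₃) := by
    rw [hI, insert_eq]
    exact hzP.union hzQ
  obtain ⟨K, hK1, hK2⟩ := hz.inter hD hLa
  have hsum := ind_add_compl K (b₁ - b₃)
  refine ⟨b₁ - ind K (b₁ - b₃), ?_, ?_, ?_⟩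
  · have h0 : (1 : ℤ) - 1 = 0 := by norm_num
    rw [h0]
    exact h1.sub he.ind
  · exact Zr.empty (h1.sub he.ind)
  · refine Zr.union ?_ ?_
    · have h : g - dd (b₁ - ind K (b₁ - b₃)) = (g - dd b₁) + dd (ind K (b₁ - b₃)) := by
        rw [dd_sub]
        abel
      rw [h]
      exact hz1.add hK1.dd
    · have h4 : b₁ - ind K (b₁ - b₃) = b₃ + ind Kᶜ (b₁ - b₃) := by
        rw [ind_compl]
        abel
      have h : g - dd (b₁ - ind K (b₁ - b₃)) = (g - dd b₃) - dd (ind Kᶜ (b₁ - b₃)) := by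
        rw [h4, dd_add]
        abel
      rw [h]
      exact hz3.sub hK2.dd

end RKA

theorem t_RKA : M_RKA := by
  intro hPNT hARC k X _ _ Dp D₀ La P Q hD hDp hArc hI hres
  have hLa : IsClosed La := by
    obtain ⟨α, hα, _, _, _, rfl⟩ := hArc
    exact (isCompact_Icc.image_of_continuousOn hα).isClosed
  have key : ∀ g : Cc k X, Cyc 1 (Dp ∪ La) ∅ g → ∃ b₁ b₂ : Cc k X, Dg X 0 b₁ ∧ Dg X 0 b₂ ∧
      Zr D₀ (g - dd b₁) ∧ Zr La (g - dd b₂) := by
    intro g hg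
    obtain ⟨b₁, h1, _, h3⟩ := hres g (hg.mono subset_union_left subset_rfl)
    obtain ⟨b₂, h4, _, h6⟩ := hARC.1 k X La La P Q hArc hLa subset_rfl 1 le_rfl g
      (hg.mono subset_union_right subset_rfl)
    have h0 : (1 : ℤ) - 1 = 0 := by norm_num
    rw [h0] at h1 h4
    exact ⟨b₁, b₂, h1, h4, h3, h6⟩
  by_cases hall : ∀ g b₁ b₂ : Cc k X, Cyc 1 (Dp ∪ La) ∅ g → Dg X 0 b₁ → Dg X 0 b₂ →
      Zr D₀ (g - dd b₁) → Zr La (g - dd b₂) → (b₁ - b₂) [P] = (b₁ - b₂) [Q]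
  · refine ⟨0, fun g hg => ⟨0, ?_⟩⟩
    obtain ⟨b₁, b₂, h1, h2, h3, h4⟩ := key g hg
    rw [smul_zero, sub_zero]
    exact RKA.glue hPNT hD hLa hI h1 h2 h3 h4 (hall g b₁ b₂ hg h1 h2 h3 h4)
  · push Not at hall
    obtain ⟨g1, c₁, c₂, hg1, hc1, hc2, hz1, hz2, hne⟩ := hall
    refine ⟨g1, fun g hg => ?_⟩
    obtain ⟨b₁, b₂, h1, h2, h3, h4⟩ := key g hg
    set φ' : k := (c₁ - c₂) [P] - (c₁ - c₂) [Q] with hφ'
    have hφ'0 : φ' ≠ 0 := sub_ne_zero.2 hne
    set φ : k := (b₁ - b₂) [P] - (b₁ - b₂) [Q] with hφ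
    refine ⟨φ / φ', ?_⟩
    refine RKA.glue hPNT hD hLa hI (b₁ := b₁ - (φ / φ') • c₁) (b₂ := b₂ - (φ / φ') • c₂)
      (h1.sub (hc1.smul _)) (h2.sub (hc2.smul _)) ?_ ?_ ?_
    · have h : g - (φ / φ') • g1 - dd (b₁ - (φ / φ') • c₁) =
          (g - dd b₁) - (φ / φ') • (g1 - dd c₁) := by
        rw [dd_sub, dd_smul, smul_sub]
        abel
      rw [h]
      exact h3.sub (hz1.smul _)
    · have h : g - (φ / φ') • g1 - dd (b₂ - (φ / φ') • c₂) =
          (g - dd b₂) - (φ / φ') • (g1 - dd c₂) := by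
        rw [dd_sub, dd_smul, smul_sub]
        abel
      rw [h]
      exact h4.sub (hz2.smul _)
    · rw [← sub_eq_zero]
      have h : (b₁ - (φ / φ') • c₁ - (b₂ - (φ / φ') • c₂)) [P] -
          (b₁ - (φ / φ') • c₁ - (b₂ - (φ / φ') • c₂)) [Q] = φ - (φ / φ') * φ' := by
        rw [hφ, hφ']
        simp only [Pi.sub_apply, Pi.smul_apply, smul_eq_mul]
        ring
      rw [h, div_mul_cancel₀ _ hφ'0, sub_self]

end BBH
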