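import Pool.Agent.BBH.StmtsG

/-!
# BBH, module RKB: from `J` to a neighbourhood of `J`
-/

set_option autoImplicit false

namespace BBH

open Set Topology CTO

namespace RKB

/-- The coboundary near `J` gives a coboundary near an open neighbourhood of `J`. -/
theorem bd_nbhd (hN : S_NBH) {k X : Type} [Field k] [MetricSpace X] [CompactSpace X]
    {J : Set X} (hJ : IsCompact J) {g : Cc k X} (h : Bd 1 J ∅ g) :
    ∃ N : Set X, IsOpen N ∧ J ⊆ N ∧ Bd 1 N ∅ g := by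
  obtain ⟨b, hb, hb0, hz⟩ := h
  obtain ⟨N, hNo, hJN, hzN⟩ := (hN k X (g - dd b)).2.2.1 J hJ hz
  exact ⟨N, hNo, hJN, b, hb, hb0, hzN.anti subset_closure⟩

/-- One neighbourhood for all cocycles on `K` that are coboundaries near `J`. -/
theorem uniform (hN : S_NBH) (hF : S_FIN) {k X : Type} [Field k] [MetricSpace X]
    [CompactSpace X] (hX : IsANR X) {K J : Set X} (hJ : IsCompact J)
    (hJK : J ⊆ interior K) : ∃ N₀ : Set X, IsOpen N₀ ∧ J ⊆ N₀ ∧
      ∀ g : Cc k X, Cyc 1 K ∅ g → Bd 1 J ∅ g → Bd 1 N₀ ∅ g := by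
  classical
  obtain ⟨K₀, hK₀, hJ₀, h₀K⟩ := exists_compact_between hJ isOpen_interior hJK
  have hK₀K : K₀ ⊆ K := h₀K.trans interior_subset
  have hJK' : J ⊆ K := hJK.trans interior_subset
  have hfg := hF k k X hX 1 K₀ K ∅ ∅ hK₀.isClosed isClosed_empty h₀K (empty_subset _)
    (empty_subset _) (empty_subset _) hK₀K Subset.rfl
  set ρ := res k k (p := 1) (A := K) (B := (∅ : Set X)) hK₀K Subset.rfl with hρ
  set σ := res k k (p := 1) (A := K) (B := (∅ : Set X)) hJK' Subset.rfl with hσ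
  set S := (LinearMap.ker σ).map ρ with hS
  have hSfg : S.FG := by
    refine Submodule.FG.of_le hfg ?_
    rw [hS]
    exact LinearMap.map_le_range
  obtain ⟨T, hT⟩ := hSfg
  have h1 : ∀ t : H k k 1 K₀ (∅ : Set X), t ∈ T → ∃ (g : Cc k X) (h : Cyc 1 K ∅ g) (N : Set X),
      IsOpen N ∧ J ⊆ N ∧ Bd 1 N ∅ g ∧ ρ (cls k g h) = t := by
    intro t ht
    have h2 : t ∈ S := by
      rw [← hT]
      exact Submodule.subset_span ht
    obtain ⟨a, ha, hat⟩ := Submodule.mem_map.1 h2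
    obtain ⟨g, hg, rfl⟩ := cls_surj a
    have h3 : Bd 1 J ∅ g := by
      have h4 : σ (cls k g hg) = 0 := LinearMap.mem_ker.1 ha
      rw [hσ, res_cls, cls_eq_zero] at h4
      exact h4
    obtain ⟨N, hNo, hJN, hbd⟩ := bd_nbhd hN hJ h3
    exact ⟨g, hg, N, hNo, hJN, hbd, hat⟩
  choose! gg hgg NN hNNo hJNN hbd hcls using h1
  refine ⟨interior K₀ ∩ ⋂ t ∈ T, NN t, ?_, ?_, ?_⟩
  · exact isOpen_interior.inter (isOpen_biInter_finset fun t ht => hNNo t ht)
  · exact subset_inter hJ₀ (subset_iInter₂ fun t ht => hJNN t ht)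
  · intro g hg hgJ
    set N₀ : Set X := interior K₀ ∩ ⋂ t ∈ T, NN t with hN₀
    have hN₀K₀ : N₀ ⊆ K₀ := inter_subset_left.trans interior_subset
    set τ := res k k (p := 1) (A := K₀) (B := (∅ : Set X)) hN₀K₀ Subset.rfl with hτ
    have h2 : S ≤ LinearMap.ker τ := by
      rw [← hT, Submodule.span_le]
      intro t ht
      have ht' : t ∈ T := ht
      rw [SetLike.mem_coe, LinearMap.mem_ker, ← hcls t ht', hρ, hτ, res_cls, res_cls, cls_eq_zero]
      exact (hbd t ht').mono (inter_subset_right.trans (iInter₂_subset t ht')) Subset.rfl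
    have h3 : ρ (cls k g hg) ∈ S := by
      refine Submodule.mem_map_of_mem ?_
      rw [LinearMap.mem_ker, hσ, res_cls, cls_eq_zero]
      exact hgJ
    have h4 := LinearMap.mem_ker.1 (h2 h3)
    rw [hρ, hτ, res_cls, res_cls, cls_eq_zero] at h4
    exact h4

end RKB

theorem t_RKB : M_RKB := by
  intro hN hF k X _ _ _ hX K J g1 hK hJ hJK hrk
  obtain ⟨N₀, hN₀, hJN₀, huni⟩ := RKB.uniform (k := k) hN hF hX hJ hJK
  by_cases hall : ∀ g : Cc k X, Cyc 1 K ∅ g → Bd 1 J ∅ g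
  · refine ⟨N₀, 0, hN₀, hJN₀, Cyc.zero, fun g hg => ⟨0, ?_⟩⟩
    rw [smul_zero, sub_zero]
    exact huni g hg (hall g hg)
  · push Not at hall
    obtain ⟨g0, hg0, hg0J⟩ := hall
    obtain ⟨t₀, ht₀⟩ := hrk g0 hg0
    have ht₀0 : t₀ ≠ 0 := by
      rintro rfl
      rw [zero_smul, sub_zero] at ht₀
      exact hg0J ht₀
    refine ⟨N₀, g0, hN₀, hJN₀, hg0, fun g hg => ?_⟩
    obtain ⟨t, ht⟩ := hrk g hg
    refine ⟨t / t₀, huni _ (hg.sub (hg0.smul _)) ?_⟩
    have h1 : g - (t / t₀) • g0 = (g - t • g1) - (t / t₀) • (g0 - t₀ • g1) := by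
      rw [smul_sub, smul_smul, div_mul_cancel₀ _ ht₀0]
      abel
    rw [h1]
    exact ht.sub (ht₀.smul _)

end BBH
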