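import Pool.Agent.BBH.StmtsG

/-!
# Module STP: the basic neighbourhoods
-/

set_option autoImplicit false

namespace BBH

open Set Topology CTO

/-- connected open subsets inherit `GN` -/
theorem STP.gn_mono {X : Type} [MetricSpace X] {B B₁ : Set X} (h : GN B₁) (hB : B ⊆ B₁)
    (ho : IsOpen B) (hc : IsConnected B) : GN B :=
  ⟨ho, hc, fun B' hB' => h.2.2 B' (hB'.trans hB)⟩

theorem t_STP : M_STP := by
  intro hNZB hHAR k X _ _ _ hLPC hANR hSj hGNs hNZ hLT x N hN hxN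
  obtain ⟨V, -, hVo, hxV, hV⟩ := hLT x univ isOpen_univ (mem_univ x)
  obtain ⟨B₁, hB₁, hxB₁, hGN₁⟩ := hGNs x (N ∩ V) (hN.inter hVo) ⟨hxN, hxV⟩
  obtain ⟨B, hBB₁, hxB, hGB⟩ := hNZB k X hLPC hSj hNZ x B₁ hGN₁.1 hxB₁
  have hGN : GN B := STP.gn_mono hGN₁ hBB₁ hGB.1 hGB.2.1
  obtain ⟨D, hDc, hDB, hxD, hDcon, hDinj⟩ :=
    hHAR k X hANR hSj B univ x hGB hGN hxB isOpen_univ (mem_univ x)
  obtain ⟨V₂, hV₂s, hV₂o, hxV₂, hV₂⟩ := hLT x (interior D) isOpen_interior hxD
  have hO₂o : IsOpen (connectedComponentIn V₂ x) := hV₂o.connectedComponentIn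
  have hO₂c : IsConnected (connectedComponentIn V₂ x) :=
    isConnected_connectedComponentIn_iff.2 hxV₂
  have hO₂s : connectedComponentIn V₂ x ⊆ V₂ := connectedComponentIn_subset _ _
  refine ⟨B, univ, D, interior D, connectedComponentIn V₂ x,
    fun y hy => (hB₁ (hBB₁ hy)).1, hxB, ?_⟩
  exact
    { gb := hGB
      gn := hGN
      opB' := isOpen_univ
      subB := subset_univ _
      tr := fun c hc => hV c (hc.mono fun y hy => (hB₁ (hBB₁ hy)).2)
      cD := hDc
      subD := fun y hy => (hDB hy).1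
      conD := hDcon
      inj := hDinj
      op1 := isOpen_interior
      sub1 := interior_subset
      op2 := hO₂o
      con2 := hO₂c
      sub2 := hO₂s.trans hV₂s
      tr2 := fun c hc => hV₂ c (hc.mono hO₂s) }

end BBH
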