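import Pool.Agent.BBH.StmtsG

/-!
# THK: thickenings
-/

set_option autoImplicit false

namespace BBH

open Set Topology

theorem t_THK : S_THK := by
  refine ⟨?_, ?_⟩
  · intro X _ Ap Ga O Vx Vy x y hAp hGa hint hO hsub hVx hx hVy hy
    have hV : IsOpen (Vx ∪ Vy) := hVx.union hVy
    have h1 : IsCompact (Ap \ (Vx ∪ Vy)) := hAp.diff hV
    have hdis : Disjoint (Ap \ (Vx ∪ Vy)) Ga := by
      rw [Set.disjoint_left]
      rintro z ⟨hz1, hz2⟩ hz3
      have h2 : z ∈ ({x, y} : Set X) := hint ▸ ⟨hz1, hz3⟩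
      rcases h2 with rfl | h2
      · exact hz2 (Or.inl hx)
      · rw [Set.mem_singleton_iff] at h2
        subst h2
        exact hz2 (Or.inr hy)
    obtain ⟨P₁, P₂, o1, o2, s1, s2, hd⟩ := SeparatedNhds.of_isCompact_isCompact h1 hGa hdis
    refine ⟨(P₁ ∪ (Vx ∪ Vy)) ∩ O, P₂ ∩ O, (o1.union hV).inter hO, o2.inter hO, ?_, ?_,
      Set.inter_subset_right, Set.inter_subset_right, ?_⟩
    · intro z hz
      refine ⟨?_, hsub (Or.inl hz)⟩
      by_cases h : z ∈ Vx ∪ Vy
      · exact Or.inr h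
      · exact Or.inl (s1 ⟨hz, h⟩)
    · intro z hz
      exact ⟨s2 hz, hsub (Or.inr hz)⟩
    · rintro z ⟨⟨h1 | h1, _⟩, h3, _⟩
      · exact absurd h3 (Set.disjoint_left.1 hd h1)
      · exact h1
  · intro X _ hX C U hU hC hCU
    obtain ⟨c, hc⟩ := hC.nonempty
    have hcU : c ∈ U := hCU hc
    exact ⟨connectedComponentIn U c, connectedComponentIn_subset U c, hU.connectedComponentIn,
      isConnected_connectedComponentIn_iff.2 hcU, hC.isPreconnected.subset_connectedComponentIn hc hCU⟩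

end BBH
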