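import Pool.Agent.BBH.Core

/-!
# BBH: small lists, germs of cochains, cocycles and coboundaries of pairs

`Z A` (as a predicate `Zr A c`): the cochain `c` vanishes on the small lists near `A`.
`Cyc p A B c`: `c` is a cocycle of degree `p` of the pair `(A, B)`; `Bd p A B c`: `c` is a coboundary.
`CyO p V c`, `BdO p V c`: the same for the pair `(X, X \ V)`, `V` open: compact support in `V` (for compact `X`).
-/

set_option autoImplicit false
set_option linter.unusedSectionVars false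
set_option linter.unusedSimpArgs false

namespace BBH

open Set Filter Topology

variable {M X Y : Type} [AddCommGroup M] [MetricSpace X] [MetricSpace Y]

/-- lists of points near `A` with small distances -/
def Small (A : Set X) (ε : ℝ) : Set (List X) :=
  {l | (∀ x ∈ l, x ∈ Metric.thickening ε A) ∧ ∀ x ∈ l, ∀ y ∈ l, dist x y < ε}

theorem Small.cl (A : Set X) (ε : ℝ) : Cl (Small A ε) := fun _ hl _ hl' =>
  ⟨fun x hx => hl.1 x (hl' hx), fun x hx y hy => hl.2 x (hl' hx) y (hl' hy)⟩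

theorem Small.mono {A B : Set X} {ε δ : ℝ} (hAB : A ⊆ B) (hε : ε ≤ δ) : Small A ε ⊆ Small B δ :=
  fun _ hl => ⟨fun x hx => Metric.thickening_mono hε _ (Metric.thickening_subset_of_subset ε hAB
    (hl.1 x hx)), fun x hx y hy => lt_of_lt_of_le (hl.2 x hx y hy) hε⟩

/-- `c` vanishes on the small lists near `A` -/
def Zr (A : Set X) (c : Cc M X) : Prop := ∃ ε > 0, ∀ l ∈ Small A ε, c l = 0

theorem Zr.zero (A : Set X) : Zr A (0 : Cc M X) := ⟨1, one_pos, fun _ _ => rfl⟩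

theorem Zr.add {A : Set X} {a b : Cc M X} (ha : Zr A a) (hb : Zr A b) : Zr A (a + b) := by
  obtain ⟨ε, hε, ha⟩ := ha
  obtain ⟨δ, hδ, hb⟩ := hb
  refine ⟨min ε δ, lt_min hε hδ, fun l hl => ?_⟩
  rw [Pi.add_apply, ha l (Small.mono Subset.rfl (min_le_left _ _) hl),
    hb l (Small.mono Subset.rfl (min_le_right _ _) hl), add_zero]

theorem Zr.neg {A : Set X} {a : Cc M X} (ha : Zr A a) : Zr A (-a) := by
  obtain ⟨ε, hε, ha⟩ := ha
  exact ⟨ε, hε, fun l hl => by rw [Pi.neg_apply, ha l hl, neg_zero]⟩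

theorem Zr.sub {A : Set X} {a b : Cc M X} (ha : Zr A a) (hb : Zr A b) : Zr A (a - b) := by
  rw [sub_eq_add_neg]
  exact ha.add hb.neg

theorem Zr.smul {R : Type} [CommRing R] [Module R M] {A : Set X} {a : Cc M X} (r : R)
    (ha : Zr A a) : Zr A (r • a) := by
  obtain ⟨ε, hε, ha⟩ := ha
  exact ⟨ε, hε, fun l hl => by rw [Pi.smul_apply, ha l hl, smul_zero]⟩

theorem Zr.anti {A B : Set X} {c : Cc M X} (hc : Zr B c) (h : A ⊆ B) : Zr A c := by
  obtain ⟨ε, hε, hc⟩ := hc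
  exact ⟨ε, hε, fun l hl => hc l (Small.mono h le_rfl hl)⟩

theorem Zr.dd {A : Set X} {c : Cc M X} (h : Zr A c) : Zr A (BBH.dd c) := by
  obtain ⟨ε, hε, hc⟩ := h
  exact ⟨ε, hε, dd_van (Small.cl A ε) hc⟩

theorem Zr.cup_left {R : Type} [CommRing R] [Module R M] {A : Set X} {c : Cc R X} (e : Cc M X)
    (h : Zr A c) : Zr A (cup c e) := by
  obtain ⟨ε, hε, hc⟩ := h
  exact ⟨ε, hε, cup_van_left (Small.cl A ε) e hc⟩

theorem Zr.cup_right {R : Type} [CommRing R] [Module R M] {A : Set X} (c : Cc R X) {e : Cc M X}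
    (h : Zr A e) : Zr A (cup c e) := by
  obtain ⟨ε, hε, he⟩ := h
  exact ⟨ε, hε, cup_van_right (Small.cl A ε) c he⟩

theorem Zr.ind {K : Set (List X)} {c : Cc M X} {A : Set X} (h : Zr A c) :
    Zr A (BBH.ind K c) := by
  obtain ⟨ε, hε, hc⟩ := h
  exact ⟨ε, hε, fun l hl => ind_van (hc l hl)⟩

/-- Cochains of some degree vanish on the empty list, so they are zero near the empty set. -/
theorem Zr.empty {p : ℤ} {c : Cc M X} (h : Dg X p c) : Zr (∅ : Set X) c := by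
  refine ⟨1, one_pos, fun l hl => ?_⟩
  rcases l with _ | ⟨x, l⟩
  · exact Dg.nil h
  · have := hl.1 x (by simp)
    simp [Metric.thickening_empty] at this

/-- gluing -/
theorem Zr.union {A B : Set X} {c : Cc M X} (hA : Zr A c) (hB : Zr B c) : Zr (A ∪ B) c := by
  obtain ⟨ε, hε, ha⟩ := hA
  obtain ⟨δ, hδ, hb⟩ := hB
  set m : ℝ := min ε δ with hm
  have hm0 : 0 < m := lt_min hε hδ
  refine ⟨m / 2, by positivity, fun l hl => ?_⟩
  have key : ∀ (S : Set X), (∃ x ∈ l, x ∈ Metric.thickening (m / 2) S) → l ∈ Small S m := by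
    rintro S ⟨x, hx, hxS⟩
    refine ⟨fun y hy => ?_, fun y hy z hz => lt_of_lt_of_le (hl.2 y hy z hz) (by linarith)⟩
    rw [Metric.mem_thickening_iff] at hxS ⊢
    obtain ⟨z, hz, hxz⟩ := hxS
    refine ⟨z, hz, ?_⟩
    have h1 := hl.2 y hy x hx
    have h2 := dist_triangle y x z
    linarith
  rcases l with _ | ⟨x, l⟩
  · exact ha [] ⟨by simp, by simp⟩
  · have hx := hl.1 x (by simp)
    rw [Metric.mem_thickening_iff] at hx
    obtain ⟨z, hz, hxz⟩ := hx
    rcases hz with hz | hz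
    · exact ha _ (Small.mono Subset.rfl (min_le_left _ _) (key A ⟨x, by simp,
        Metric.mem_thickening_iff.2 ⟨z, hz, hxz⟩⟩))
    · exact hb _ (Small.mono Subset.rfl (min_le_right _ _) (key B ⟨x, by simp,
        Metric.mem_thickening_iff.2 ⟨z, hz, hxz⟩⟩))

/-- near the intersection of two compact sets -/
theorem exists_thickening_inter {A B : Set X} (hA : IsCompact A) (hB : IsClosed B) {ε : ℝ}
    (hε : 0 < ε) : ∃ η > 0, Metric.thickening η A ∩ Metric.thickening η B ⊆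
      Metric.thickening ε (A ∩ B) := by
  by_contra hcon
  push Not at hcon
  have h1 : ∀ n : ℕ, ∃ x, x ∈ Metric.thickening (1 / ((n : ℝ) + 1)) A ∧
      x ∈ Metric.thickening (1 / ((n : ℝ) + 1)) B ∧ x ∉ Metric.thickening ε (A ∩ B) := by
    intro n
    have := hcon (1 / ((n : ℝ) + 1)) (by positivity)
    rw [not_subset] at this
    obtain ⟨x, hx, hx'⟩ := this
    exact ⟨x, hx.1, hx.2, hx'⟩
  choose x hxA hxB hx using h1
  have h2 : ∀ n : ℕ, ∃ a ∈ A, dist (x n) a < 1 / ((n : ℝ) + 1) := fun n =>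
    Metric.mem_thickening_iff.1 (hxA n)
  have h3 : ∀ n : ℕ, ∃ b ∈ B, dist (x n) b < 1 / ((n : ℝ) + 1) := fun n =>
    Metric.mem_thickening_iff.1 (hxB n)
  choose a haA ha using h2
  choose b hbB hb using h3
  obtain ⟨y, hyA, φ, hφ, hlim⟩ := hA.tendsto_subseq haA
  have hz : Tendsto (fun n : ℕ => 1 / ((n : ℝ) + 1)) atTop (𝓝 0) :=
    tendsto_one_div_add_atTop_nhds_zero_nat
  have hz' : Tendsto (fun n : ℕ => 1 / ((φ n : ℝ) + 1)) atTop (𝓝 0) :=
    hz.comp hφ.tendsto_atTop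
  have hxlim : Tendsto (fun n => x (φ n)) atTop (𝓝 y) := by
    rw [tendsto_iff_dist_tendsto_zero]
    have h5 : Tendsto (fun n => 1 / ((φ n : ℝ) + 1) + dist (a (φ n)) y) atTop (𝓝 0) := by
      have := hz'.add (tendsto_iff_dist_tendsto_zero.1 hlim)
      simpa using this
    refine squeeze_zero (fun _ => dist_nonneg) (fun n => ?_) h5
    have := dist_triangle (x (φ n)) (a (φ n)) y
    have := ha (φ n)
    linarith
  have hblim : Tendsto (fun n => b (φ n)) atTop (𝓝 y) := by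
    rw [tendsto_iff_dist_tendsto_zero]
    have h5 : Tendsto (fun n => 1 / ((φ n : ℝ) + 1) + dist (x (φ n)) y) atTop (𝓝 0) := by
      have := hz'.add (tendsto_iff_dist_tendsto_zero.1 hxlim)
      simpa using this
    refine squeeze_zero (fun _ => dist_nonneg) (fun n => ?_) h5
    have := dist_triangle (b (φ n)) (x (φ n)) y
    have h6 := hb (φ n)
    rw [dist_comm] at h6
    linarith
  have hyB : y ∈ B := hB.mem_of_tendsto hblim (Eventually.of_forall fun n => hbB _)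
  have h7 : ∀ᶠ n in atTop, dist (x (φ n)) y < ε := by
    have := Metric.tendsto_nhds.1 hxlim ε hε
    exact this
  obtain ⟨n, hn⟩ := h7.exists
  exact hx (φ n) (Metric.mem_thickening_iff.2 ⟨y, ⟨hyA, hyB⟩, hn⟩)

/-- splitting: a cochain that vanishes near `A ∩ B` is the sum of a cochain that vanishes near `A` and one that
vanishes near `B`; the splitting keeps every kind of vanishing -/
theorem Zr.inter {A B : Set X} (hA : IsCompact A) (hB : IsClosed B) {c : Cc M X}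
    (h : Zr (A ∩ B) c) : ∃ K : Set (List X), Zr A (BBH.ind K c) ∧ Zr B (BBH.ind Kᶜ c) := by
  obtain ⟨ε, hε, hc⟩ := h
  obtain ⟨η, hη, hsub⟩ := exists_thickening_inter hA hB hε
  refine ⟨{l | ¬ ∀ x ∈ l, x ∈ Metric.thickening η A}, ⟨η, hη, fun l hl => ?_⟩,
    ⟨min η ε, lt_min hη hε, fun l hl => ?_⟩⟩
  · exact ind_of_notMem (fun h => h hl.1)
  · by_cases h1 : ∀ x ∈ l, x ∈ Metric.thickening η A
    · refine ind_van (hc l ⟨fun x hx => hsub ⟨h1 x hx, ?_⟩, fun x hx y hy =>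
        lt_of_lt_of_le (hl.2 x hx y hy) (min_le_right _ _)⟩)
      exact Metric.thickening_mono (min_le_left _ _) _ (hl.1 x hx)
    · exact ind_of_notMem (fun h => h h1)

/-- continuity: a cochain that vanishes near `A` vanishes near every `B` in a neighbourhood of `A` -/
theorem Zr.nhds {A : Set X} {c : Cc M X} (h : Zr A c) :
    ∃ r > 0, ∀ B ⊆ Metric.thickening r A, Zr B c := by
  obtain ⟨ε, hε, hc⟩ := h
  refine ⟨ε / 2, by positivity, fun B hB => ⟨ε / 2, by positivity, fun l hl => hc l ⟨?_, ?_⟩⟩⟩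
  · intro x hx
    obtain ⟨y, hy, hxy⟩ := Metric.mem_thickening_iff.1 (hl.1 x hx)
    obtain ⟨z, hz, hyz⟩ := Metric.mem_thickening_iff.1 (hB hy)
    refine Metric.mem_thickening_iff.2 ⟨z, hz, ?_⟩
    have := dist_triangle x y z
    linarith
  · intro x hx y hy
    have := hl.2 x hx y hy
    linarith

/-! ### Cocycles and coboundaries of pairs -/

/-- `c` is a cocycle of degree `p` of the pair `(A, B)` -/
structure Cyc (p : ℤ) (A B : Set X) (c : Cc M X) : Prop where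
  deg : Dg X p c
  rel : Zr B c
  cyc : Zr A (dd c)

/-- `c` is a coboundary of degree `p` of the pair `(A, B)` -/
def Bd (p : ℤ) (A B : Set X) (c : Cc M X) : Prop :=
  ∃ b : Cc M X, Dg X (p - 1) b ∧ Zr B b ∧ Zr A (c - dd b)

/-- `H^p(A, B; M) = 0` -/
def Van (M : Type) [AddCommGroup M] (p : ℤ) (A B : Set X) : Prop :=
  ∀ c : Cc M X, Cyc p A B c → Bd p A B c

theorem Cyc.zero {p : ℤ} {A B : Set X} : Cyc p A B (0 : Cc M X) :=
  ⟨Dg.zero, Zr.zero _, by rw [dd_zero]; exact Zr.zero _⟩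

theorem Cyc.add {p : ℤ} {A B : Set X} {c c' : Cc M X} (h : Cyc p A B c) (h' : Cyc p A B c') :
    Cyc p A B (c + c') :=
  ⟨h.deg.add h'.deg, h.rel.add h'.rel, by rw [dd_add]; exact h.cyc.add h'.cyc⟩

theorem Cyc.neg {p : ℤ} {A B : Set X} {c : Cc M X} (h : Cyc p A B c) : Cyc p A B (-c) :=
  ⟨h.deg.neg, h.rel.neg, by rw [dd_neg]; exact h.cyc.neg⟩

theorem Cyc.sub {p : ℤ} {A B : Set X} {c c' : Cc M X} (h : Cyc p A B c) (h' : Cyc p A B c') :
    Cyc p A B (c - c') :=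
  ⟨h.deg.sub h'.deg, h.rel.sub h'.rel, by rw [dd_sub]; exact h.cyc.sub h'.cyc⟩

theorem Cyc.smul {R : Type} [CommRing R] [Module R M] {p : ℤ} {A B : Set X} {c : Cc M X} (a : R)
    (h : Cyc p A B c) : Cyc p A B (a • c) :=
  ⟨h.deg.smul a, h.rel.smul a, by rw [dd_smul]; exact h.cyc.smul a⟩

theorem Cyc.mono {p : ℤ} {A B A' B' : Set X} {c : Cc M X} (h : Cyc p A B c) (hA : A' ⊆ A)
    (hB : B' ⊆ B) : Cyc p A' B' c := ⟨h.deg, h.rel.anti hB, h.cyc.anti hA⟩

theorem Bd.mono {p : ℤ} {A B A' B' : Set X} {c : Cc M X} (h : Bd p A B c) (hA : A' ⊆ A)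
    (hB : B' ⊆ B) : Bd p A' B' c := by
  obtain ⟨b, h1, h2, h3⟩ := h
  exact ⟨b, h1, h2.anti hB, h3.anti hA⟩

theorem Bd.zero {p : ℤ} {A B : Set X} : Bd p A B (0 : Cc M X) :=
  ⟨0, Dg.zero, Zr.zero _, by rw [dd_zero, sub_zero]; exact Zr.zero _⟩

theorem Bd.add {p : ℤ} {A B : Set X} {c c' : Cc M X} (h : Bd p A B c) (h' : Bd p A B c') :
    Bd p A B (c + c') := by
  obtain ⟨b, h1, h2, h3⟩ := h
  obtain ⟨b', h1', h2', h3'⟩ := h'
  refine ⟨b + b', h1.add h1', h2.add h2', ?_⟩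
  rw [dd_add, add_sub_add_comm]
  exact h3.add h3'

theorem Bd.neg {p : ℤ} {A B : Set X} {c : Cc M X} (h : Bd p A B c) : Bd p A B (-c) := by
  obtain ⟨b, h1, h2, h3⟩ := h
  refine ⟨-b, h1.neg, h2.neg, ?_⟩
  have h4 := h3.neg
  rw [neg_sub'] at h4
  rwa [dd_neg]

theorem Bd.sub {p : ℤ} {A B : Set X} {c c' : Cc M X} (h : Bd p A B c) (h' : Bd p A B c') :
    Bd p A B (c - c') := by
  rw [sub_eq_add_neg]
  exact h.add h'.neg

theorem Bd.smul {R : Type} [CommRing R] [Module R M] {p : ℤ} {A B : Set X} {c : Cc M X} (a : R)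
    (h : Bd p A B c) : Bd p A B (a • c) := by
  obtain ⟨b, h1, h2, h3⟩ := h
  refine ⟨a • b, h1.smul a, h2.smul a, ?_⟩
  rw [dd_smul, ← smul_sub]
  exact h3.smul a

/-- cochains that vanish near `A` are coboundaries -/
theorem Bd.of_Zr {p : ℤ} {A B : Set X} {c : Cc M X} (h : Zr A c) : Bd p A B c :=
  ⟨0, Dg.zero, Zr.zero _, by rw [dd_zero, sub_zero]; exact h⟩

theorem Bd.of_dd {p : ℤ} {A B : Set X} {b : Cc M X} (h : Dg X (p - 1) b) (hb : Zr B b) :
    Bd p A B (dd b) := ⟨b, h, hb, by rw [sub_self]; exact Zr.zero _⟩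

/-- a coboundary is a cocycle -/
theorem Bd.cyc {p : ℤ} {A B : Set X} {c : Cc M X} (hd : Dg X p c) (hB : Zr B c)
    (h : Bd p A B c) : Cyc p A B c := by
  obtain ⟨b, h1, h2, h3⟩ := h
  refine ⟨hd, hB, ?_⟩
  have := h3.dd
  rwa [dd_sub, dd_dd, sub_zero] at this

theorem Bd.trans {p : ℤ} {A B : Set X} {a b c : Cc M X} (h : Bd p A B (a - b))
    (h' : Bd p A B (b - c)) : Bd p A B (a - c) := by
  have := h.add h'
  rwa [sub_add_sub_cancel] at this

theorem Bd.symm {p : ℤ} {A B : Set X} {a b : Cc M X} (h : Bd p A B (a - b)) :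
    Bd p A B (b - a) := by
  have := h.neg
  rwa [neg_sub] at this

theorem Bd.of_sub {p : ℤ} {A B : Set X} {a b : Cc M X} (h : Bd p A B (a - b))
    (h' : Bd p A B b) : Bd p A B a := by
  have := h.add h'
  rwa [sub_add_cancel] at this

/-- negative degrees -/
theorem Van.neg {p : ℤ} (hp : p < 0) (A B : Set X) : Van M p A B := by
  intro c hc
  rw [hc.deg.eq_zero hp]
  exact Bd.zero

theorem Van.empty (p : ℤ) (B : Set X) : Van M p (∅ : Set X) B := by
  intro c hc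
  exact Bd.of_Zr (Zr.empty hc.deg)

theorem Van.self (p : ℤ) (A : Set X) : Van M p A A := by
  intro c hc
  exact Bd.of_Zr hc.rel

/-! ### Long exact sequence of a triple `C ⊆ B ⊆ A` -/

section les

variable {A B C : Set X} {p : ℤ} {c : Cc M X}

/-- exactness at `H^p(A, C)` -/
theorem les_mid (h : Cyc p A C c) (hb : Bd p B C c) :
    ∃ c' : Cc M X, Cyc p A B c' ∧ Bd p A C (c - c') := by
  obtain ⟨b, h1, h2, h3⟩ := hb
  refine ⟨c - dd b, ⟨h.deg.sub h1.dd', h3, ?_⟩, ?_⟩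
  · rw [dd_sub, dd_dd, sub_zero]
    exact h.cyc
  · rw [sub_sub_cancel]
    exact Bd.of_dd h1 h2

/-- the connecting homomorphism is the coboundary -/
theorem les_conn (h : Cyc p B C c) : Cyc (p + 1) A B (dd c) :=
  ⟨h.deg.dd, h.cyc, by rw [dd_dd]; exact Zr.zero _⟩

theorem les_conn_bd (hd : Dg X p c) (h : Bd p B C c) : Bd (p + 1) A B (dd c) := by
  obtain ⟨b, h1, h2, h3⟩ := h
  have h4 : dd c = dd (c - dd b) := by rw [dd_sub, dd_dd, sub_zero]
  rw [h4]
  refine Bd.of_dd ?_ h3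
  rw [add_sub_cancel_right]
  exact hd.sub h1.dd'

/-- exactness at `H^p(B, C)` -/
theorem les_right (hBC : C ⊆ B) (h : Cyc p B C c) (hb : Bd (p + 1) A B (dd c)) :
    ∃ c' : Cc M X, Cyc p A C c' ∧ Bd p B C (c - c') := by
  obtain ⟨b, h1, h2, h3⟩ := hb
  rw [add_sub_cancel_right] at h1
  refine ⟨c - b, ⟨h.deg.sub h1, h.rel.sub (h2.anti hBC), ?_⟩, ?_⟩
  · rw [dd_sub]
    exact h3
  · rw [sub_sub_cancel]
    exact Bd.of_Zr h2

/-- exactness at `H^{p+1}(A, B)` -/
theorem les_left (hAB : B ⊆ A) (h : Cyc (p + 1) A B c) (hb : Bd (p + 1) A C c) :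
    ∃ b : Cc M X, Cyc p B C b ∧ Bd (p + 1) A B (c - dd b) := by
  obtain ⟨b, h1, h2, h3⟩ := hb
  rw [add_sub_cancel_right] at h1
  refine ⟨b, ⟨h1, h2, ?_⟩, Bd.of_Zr h3⟩
  have h4 := h.rel.sub (h3.anti hAB)
  rwa [sub_sub_cancel] at h4

end les

/-! ### Open sets: compact supports -/

/-- `c` is a cocycle of degree `p` with compact support in the open set `V` (`X` compact) -/
def CyO (p : ℤ) (V : Set X) (c : Cc M X) : Prop := Cyc p univ Vᶜ c

/-- `c` is a coboundary in this sense -/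
def BdO (p : ℤ) (V : Set X) (c : Cc M X) : Prop := Bd p univ Vᶜ c

/-- `H^p_c(V; M) = 0` -/
def VanO (M : Type) [AddCommGroup M] (p : ℤ) (V : Set X) : Prop :=
  ∀ c : Cc M X, CyO p V c → BdO p V c

theorem CyO.mono {p : ℤ} {V W : Set X} {c : Cc M X} (h : CyO p V c) (hV : V ⊆ W) :
    CyO p W c := Cyc.mono h Subset.rfl (compl_subset_compl.2 hV)

theorem BdO.mono {p : ℤ} {V W : Set X} {c : Cc M X} (h : BdO p V c) (hV : V ⊆ W) :
    BdO p W c := Bd.mono h Subset.rfl (compl_subset_compl.2 hV)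

end BBH
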