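import Pool.Agent.BBH.StmtsH

/-!
# Module ALZ: a finitely generated abelian group with one dimensional reductions
-/

set_option autoImplicit false

namespace BBH

open Set Topology

open scoped DirectSum

namespace ALZ

theorem dvd_of_zmod (p e : ℕ) (he : e ≠ 0) (t x : ℤ)
    (h : ((t : ℤ) : ZMod (p ^ e)) = (p : ℤ) • ((x : ℤ) : ZMod (p ^ e))) : (p : ℤ) ∣ t := by
  have h1 : (((t - p * x : ℤ)) : ZMod (p ^ e)) = 0 := by
    push_cast
    rw [h]
    simp
  rw [ZMod.intCast_zmod_eq_zero_iff_dvd] at h1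
  have h2 : (p : ℤ) ∣ ((p ^ e : ℕ) : ℤ) := by
    push_cast
    exact dvd_pow_self _ he
  have h3 := (h2.trans h1)
  have h4 : (p : ℤ) ∣ p * x := Dvd.intro _ rfl
  have h5 := dvd_add h3 h4
  rwa [sub_add_cancel] at h5

end ALZ

theorem t_ALZ : S_ALZ := by
  classical
  intro A _ hfin hnt hp
  have hfg : AddGroup.FG A := Module.Finite.iff_addGroup_fg.1 hfin
  obtain ⟨n, ι, _, p, hpp, e, ⟨φ⟩⟩ := AddCommGroup.equiv_free_prod_directSum_zmod A
  have hn0 : n ≠ 0 := by
    rintro rfl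
    obtain ⟨a, ha⟩ := hnt
    have hN : ((∏ i, p i ^ e i : ℕ) : ℤ) ≠ 0 := by
      exact_mod_cast (Finset.prod_ne_zero_iff.2 fun i _ => pow_ne_zero _ (hpp i).ne_zero)
    apply ha _ hN
    apply φ.injective
    rw [map_zsmul, map_zero]
    refine Prod.ext (Subsingleton.elim _ _) ?_
    rw [Prod.smul_snd, Prod.snd_zero]
    refine DFinsupp.ext fun i => ?_
    rw [DFinsupp.smul_apply, DFinsupp.zero_apply, zsmul_eq_mul]
    have h1 : (((∏ i, p i ^ e i : ℕ) : ℤ) : ZMod (p i ^ e i)) = 0 := by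
      rw [ZMod.intCast_zmod_eq_zero_iff_dvd]
      exact_mod_cast Finset.dvd_prod_of_mem (fun i => p i ^ e i) (Finset.mem_univ i)
    rw [h1, zero_mul]
  have hn1 : ∀ i j : Fin n, i = j := by
    intro i j
    by_contra hij
    obtain ⟨s, t, x, hst, hx⟩ := hp 2 Nat.prime_two (φ.symm (Finsupp.single i 1, 0))
      (φ.symm (Finsupp.single j 1, 0))
    have h1 := congrArg φ hx
    rw [map_add, map_zsmul, map_zsmul, map_zsmul, φ.apply_symm_apply, φ.apply_symm_apply] at h1
    have h2 := congrArg Prod.fst h1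
    have h3 := DFunLike.congr_fun h2 i
    have h4 := DFunLike.congr_fun h2 j
    simp [hij, Ne.symm hij] at h3 h4
    apply hst
    exact ⟨⟨_, h3⟩, ⟨_, h4⟩⟩
  have he : ∀ i, e i = 0 := by
    intro i
    by_contra hei
    have h0 : 0 < n := Nat.pos_of_ne_zero hn0
    obtain ⟨s, t, x, hst, hx⟩ := hp (p i) (hpp i) (φ.symm (Finsupp.single ⟨0, h0⟩ 1, 0))
      (φ.symm (0, DirectSum.of (fun i => ZMod (p i ^ e i)) i 1))
    have h1 := congrArg φ hx
    rw [map_add, map_zsmul, map_zsmul, map_zsmul, φ.apply_symm_apply, φ.apply_symm_apply] at h1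
    have h2 := DFunLike.congr_fun (congrArg Prod.fst h1) ⟨0, h0⟩
    have h3 := DFunLike.congr_fun (congrArg Prod.snd h1) i
    have h2' : s = (p i : ℤ) * (φ x).1 ⟨0, h0⟩ := by
      have e1 : (s • ((Finsupp.single ⟨0, h0⟩ 1, 0) : (Fin n →₀ ℤ) × ⨁ i : ι, ZMod (p i ^ e i)) +
          t • ((0, DirectSum.of (fun i => ZMod (p i ^ e i)) i 1) :
            (Fin n →₀ ℤ) × ⨁ i : ι, ZMod (p i ^ e i))).1 ⟨0, h0⟩ = s := by
        simp
      rw [← e1, h2]
      simp
    have h3' : ((t : ℤ) : ZMod (p i ^ e i)) = (p i : ℤ) • ((φ x).2 i) := by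
      have e1 : (s • ((Finsupp.single ⟨0, h0⟩ 1, 0) : (Fin n →₀ ℤ) × ⨁ i : ι, ZMod (p i ^ e i)) +
          t • ((0, DirectSum.of (fun i => ZMod (p i ^ e i)) i 1) :
            (Fin n →₀ ℤ) × ⨁ i : ι, ZMod (p i ^ e i))).2 i = (t : ZMod (p i ^ e i)) := by
        rw [Prod.snd_add, Prod.smul_snd, Prod.smul_snd, smul_zero, zero_add, DirectSum.smul_apply,
          DirectSum.of_eq_same, zsmul_eq_mul, mul_one]
      rw [← e1, h3]
      rfl
    apply hst
    refine ⟨Dvd.intro _ h2'.symm, ?_⟩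
    obtain ⟨z, hz⟩ := ZMod.intCast_surjective ((φ x).2 i)
    rw [← hz] at h3'
    exact ALZ.dvd_of_zmod _ _ hei t z h3'
  have hT : Subsingleton (⨁ i : ι, ZMod (p i ^ e i)) := by
    refine ⟨fun a b => DFinsupp.ext fun i => ?_⟩
    have h1 : Subsingleton (ZMod (p i ^ e i)) := by
      rw [he i, pow_zero]
      infer_instance
    exact Subsingleton.elim _ _
  obtain rfl : n = 1 := by
    by_contra h1
    have h2 : 2 ≤ n := by omega
    have h3 := hn1 ⟨0, by omega⟩ ⟨1, by omega⟩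
    simp at h3
  have ψ : (Fin 1 →₀ ℤ) × (⨁ i : ι, ZMod (p i ^ e i)) ≃+ ℤ :=
    { toFun := fun a => a.1 0
      invFun := fun z => (Finsupp.single 0 z, 0)
      left_inv := fun a => by
        refine Prod.ext ?_ (Subsingleton.elim _ _)
        refine Finsupp.ext fun j => ?_
        rw [Subsingleton.elim j 0]
        simp
      right_inv := fun z => by simp
      map_add' := fun a b => by simp }
  exact ⟨(φ.trans ψ).toIntLinearEquiv⟩

end BBH
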