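import Pool.Agent.BBH.StmtsH

/-!
# Module CLA: proper closed sets have no cohomology in degree three
-/

set_option autoImplicit false

namespace BBH

open Set Topology CTO

theorem t_CLA : M_CLA := by
  intro hDim M X _ _ _ hS hcon hSj A hA hne c hc
  have h4 : Cyc (3 + 1) (univ : Set X) A (dd c) := les_conn hc
  have hb : Bd (3 + 1) (univ : Set X) A (dd c) :=
    hDim M X 3 hS (3 + 1) univ A (by norm_num) (subset_univ A) (dd c) h4
  obtain ⟨c', hc', hcc'⟩ := les_right (empty_subset A) hc hb
  have hO : CyO 3 (univ : Set X) c' := by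
    have h := hc'
    rw [← compl_univ] at h
    exact h
  obtain ⟨c'', hc'', hbd⟩ := hSj univ Aᶜ isOpen_univ hcon hA.isOpen_compl (subset_univ _)
    (nonempty_compl.2 hne) c' hO
  have hz : Zr A c'' := by
    have h := hc''.rel
    rwa [compl_compl] at h
  have h1 : Bd 3 A ∅ (c' - c'') := by
    refine Bd.mono hbd (subset_univ A) (empty_subset _)
  have h2 : Bd 3 A ∅ c'' := Bd.of_Zr hz
  have h3 := (hcc'.add h1).add h2
  rwa [sub_add_sub_cancel, sub_add_cancel] at h3

end BBH
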