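import Pool.Agent.BBH.StmtsH

/-!
# BBH, CMK: homogeneous compact ANRs of dimension three are cohomology manifolds over countable fields
-/

set_option autoImplicit false

namespace BBH

open Set Topology CTO

namespace CMKx

/-- a module generated by one element that is not zero is isomorphic to the field -/
theorem iso_of_gen {k A : Type} [Field k] [AddCommGroup A] [Module k A] (g : A)
    (hg : ∀ a : A, ∃ t : k, a = t • g) (h0 : ∃ a : A, a ≠ 0) : Nonempty (A ≃ₗ[k] k) := by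
  have hg0 : g ≠ 0 := by
    rintro rfl
    obtain ⟨a, ha⟩ := h0
    obtain ⟨t, ht⟩ := hg a
    exact ha (by rw [ht, smul_zero])
  refine ⟨(LinearEquiv.ofBijective (LinearMap.toSpanSingleton k A g) ⟨?_, ?_⟩).symm⟩
  · rw [← LinearMap.ker_eq_bot]
    exact LinearMap.ker_toSpanSingleton k hg0
  · intro a
    obtain ⟨t, ht⟩ := hg a
    exact ⟨t, by rw [LinearMap.toSpanSingleton_apply, ht]⟩

end CMKx

theorem t_CMK : M_CMK := by
  intro hLT0 hLT1 hLT2 hGNX hDIM hONE hSRJ k X _ _ _ _ hA hH h3 h2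
  have hGN : GNs X := hGNX X hA hH h3 h2
  have hSj : Sj k X := hSRJ k X hA hH h3
  have one := hONE k X hA hH h3 h2
  intro x N hN hx
  refine ⟨?_, ?_⟩
  · obtain ⟨V0, h0N, h0o, h0x, h0⟩ := hLT0 k X hGN x N hN hx
    obtain ⟨V1, h1N, h1o, h1x, h1⟩ := hLT1 k X hA hGN x N hN hx
    obtain ⟨V2, h2N, h2o, h2x, h2'⟩ := hLT2 k X hA hH hGN x N hN hx
    refine ⟨V0 ∩ V1 ∩ V2, fun y hy => h2N hy.2, (h0o.inter h1o).inter h2o,
      ⟨⟨h0x, h1x⟩, h2x⟩, ?_⟩
    intro p hp c hc
    rcases lt_or_ge p 0 with hneg | hnn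
    · exact Van.neg hneg _ _ c (hc.mono (fun y hy => h2N hy.2))
    · rcases lt_or_ge 3 p with hbig | hle
      · exact hDIM k X 3 h3 p univ Nᶜ (by exact_mod_cast hbig) (subset_univ _) c
          (hc.mono (fun y hy => h2N hy.2))
      · have hcase : p = 0 ∨ p = 1 ∨ p = 2 := by omega
        rcases hcase with rfl | rfl | rfl
        · exact h0 c (hc.mono (fun y hy => hy.1.1))
        · exact h1 c (hc.mono (fun y hy => hy.1.2))
        · exact h2' c (hc.mono (fun y hy => hy.2))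
  · obtain ⟨B, hBN, hxB, hGB, hinj⟩ := one.2 x N hN hx
    refine ⟨B, hBN, hGB.1, hxB, ?_⟩
    intro V hVB hV hVc
    refine ⟨?_, fun W h hW hWc => ⟨?_, ?_⟩⟩
    · obtain ⟨g, hg, hgen⟩ := one.1 V hV hVc
      refine CMKx.iso_of_gen (cls k g hg) ?_ ?_
      · intro a
        obtain ⟨c, hc, rfl⟩ := cls_surj a
        obtain ⟨t, ht⟩ := hgen c hc
        refine ⟨t, ?_⟩
        rw [← cls_smul]
        exact (cls_eq _ _).2 ht
      · by_contra hcon
        push Not at hcon
        refine hGB.2.2 V hVB hV hVc.nonempty (fun c hc => ?_)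
        exact (cls_eq_zero (R := k) hc).1 (hcon _)
    · rw [← LinearMap.ker_eq_bot, LinearMap.ker_eq_bot']
      intro a ha
      obtain ⟨c, hc, rfl⟩ := cls_surj a
      rw [ext_cls] at ha
      have hb := (cls_eq_zero _).1 ha
      exact (cls_eq_zero _).2 (hinj W V hVB h hW hWc hV hVc c hc hb)
    · intro a
      obtain ⟨c, hc, rfl⟩ := cls_surj a
      obtain ⟨c', hc', hb⟩ := hSj V W hV hVc hW h hWc.nonempty c hc
      refine ⟨cls k c' hc', ?_⟩
      rw [ext_cls]
      exact ((cls_eq _ _).2 hb).symm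

end BBH
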