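import Pool.Agent.BBH.StmtsH

/-!
# BBH, CMZ: homogeneous compact ANRs of dimension three are cohomology manifolds over the integers
-/

set_option autoImplicit false

namespace BBH

open Set Topology CTO

namespace CMZ

/-- a surjective linear map between modules isomorphic to the ring is bijective -/
theorem bij_of_surj {R A B : Type} [CommRing R] [AddCommGroup A] [Module R A] [AddCommGroup B]
    [Module R B] (eA : A ≃ₗ[R] R) (eB : B ≃ₗ[R] R) (f : A →ₗ[R] B)
    (hf : Function.Surjective f) : Function.Bijective f := by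
  refine ⟨?_, hf⟩
  have hfin : Module.Finite R A := Module.Finite.equiv eA.symm
  have h1 : Function.Surjective (((eB.trans eA.symm).toLinearMap) ∘ₗ f) := by
    rw [LinearMap.coe_comp]
    exact (eB.trans eA.symm).surjective.comp hf
  have h2 := OrzechProperty.injective_of_surjective_endomorphism _ h1
  rw [LinearMap.coe_comp] at h2
  exact Function.Injective.of_comp h2

end CMZ

theorem t_CMZ : M_CMZ := by
  intro hLPX hLT0 hLT1 hLT2 hLTZ hGNX hDIM hONE hSRJ hSJZ hHZ3 X _ _ hA hH h3 h2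
  have hGN : GNs X := hGNX X hA hH h3 h2
  have hLP : LocallyPathConnectedSpace X := (hLPX X hA).1
  have hcount : ∀ p : ℕ, p.Prime → Countable (ZMod p) := by
    intro p hp
    haveI : NeZero p := ⟨hp.ne_zero⟩
    infer_instance
  have hSj : SjM ℤ X := by
    refine hSJZ X hLP hA h3 (fun p hp => ?_)
    haveI := hcount p hp.out
    exact hSRJ (ZMod p) X hA hH h3
  have hLTZ2 : ∀ x : X, LT ℤ 2 x := by
    refine hLTZ X hA 2 (hLT2 ℚ X hA hH hGN) (fun p hp => ?_)
    haveI := Fact.mk hp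
    haveI := hcount p hp
    exact hLT2 (ZMod p) X hA hH hGN
  refine ⟨hSj, ?_⟩
  intro x N hN hx
  refine ⟨?_, ?_⟩
  · obtain ⟨V0, h0N, h0o, h0x, h0⟩ := hLT0 ℤ X hGN x N hN hx
    obtain ⟨V1, h1N, h1o, h1x, h1⟩ := hLT1 ℤ X hA hGN x N hN hx
    obtain ⟨V2, h2N, h2o, h2x, h2'⟩ := hLTZ2 x N hN hx
    refine ⟨V0 ∩ V1 ∩ V2, fun y hy => h2N hy.2, (h0o.inter h1o).inter h2o,
      ⟨⟨h0x, h1x⟩, h2x⟩, ?_⟩
    intro p hp c hc
    rcases lt_or_ge p 0 with hneg | hnn
    · exact Van.neg hneg _ _ c (hc.mono (fun y hy => h2N hy.2))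
    · rcases lt_or_ge 3 p with hbig | hle
      · exact hDIM ℤ X 3 h3 p univ Nᶜ (by exact_mod_cast hbig) (subset_univ _) c
          (hc.mono (fun y hy => h2N hy.2))
      · have hcase : p = 0 ∨ p = 1 ∨ p = 2 := by omega
        rcases hcase with rfl | rfl | rfl
        · exact h0 c (hc.mono (fun y hy => hy.1.1))
        · exact h1 c (hc.mono (fun y hy => hy.1.2))
        · exact h2' c (hc.mono (fun y hy => hy.2))
  · obtain ⟨B, hBN, hxB, hGB, -⟩ := (hONE ℚ X hA hH h3 h2).2 x N hN hx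
    refine ⟨B, hBN, hGB.1, hxB, ?_⟩
    have hiso : ∀ V ⊆ B, IsOpen V → IsConnected V → Nonempty (HO ℤ ℤ 3 V ≃ₗ[ℤ] ℤ) := by
      intro V hVB hV hVc
      refine hHZ3 X hA hSj (fun p hp V hV hVc => ?_) V hV hVc (hGB.2.2 V hVB hV hVc.nonempty)
      haveI := hcount p hp.out
      exact (hONE (ZMod p) X hA hH h3 h2).1 V hV hVc
    intro V hVB hV hVc
    refine ⟨hiso V hVB hV hVc, fun W h hW hWc => ?_⟩
    obtain ⟨e⟩ := hiso V hVB hV hVc
    obtain ⟨f⟩ := hiso W (h.trans hVB) hW hWc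
    refine CMZ.bij_of_surj f e _ ?_
    intro a
    obtain ⟨c, hc, rfl⟩ := cls_surj a
    obtain ⟨c', hc', hb⟩ := hSj V W hV hVc hW h hWc.nonempty c hc
    refine ⟨cls ℤ c' hc', ?_⟩
    rw [ext_cls]
    exact ((cls_eq _ _).2 hb).symm

end BBH
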