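import Pool.Agent.BBH.StmtsH

/-!
# BBH, module COR: the fundamental class mod 2 and its consequences
-/

set_option autoImplicit false

namespace BBH

open Set Topology CTO

namespace COR

variable {X : Type} [MetricSpace X]

theorem not_van {s : Cc (ZMod 2) X →ₗ[ZMod 2] ZMod 2} (hs : Orr (univ : Set X) s) {V : Set X}
    (hV : IsOpen V) (hne : V.Nonempty) : ¬ VanO (ZMod 2) 3 V := by
  intro hv
  obtain ⟨c, hc, hsc⟩ := hs.2 V (subset_univ _) hV hne
  exact hsc ((hs.1.mono (subset_univ V)) c hc (hv c hc))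

theorem line {V : Set X} (hnv : ¬ VanO (ZMod 2) 3 V)
    (h : ∃ g : Cc (ZMod 2) X, CyO 3 V g ∧
      ∀ c : Cc (ZMod 2) X, CyO 3 V c → ∃ t : ZMod 2, BdO 3 V (c - t • g)) :
    Nonempty (HO (ZMod 2) (ZMod 2) 3 V ≃ₗ[ZMod 2] ZMod 2) := by
  obtain ⟨g, hg, hgen⟩ := h
  have hx : cls (ZMod 2) g hg ≠ 0 := by
    intro h0
    refine hnv fun c hc => ?_
    obtain ⟨t, ht⟩ := hgen c hc
    exact Bd.of_sub ht (Bd.smul t ((cls_eq_zero hg).1 h0))
  have hinj : Function.Injective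
      (LinearMap.toSpanSingleton (ZMod 2) (HO (ZMod 2) (ZMod 2) 3 V) (cls (ZMod 2) g hg)) := by
    intro a b hab
    rw [LinearMap.toSpanSingleton_apply, LinearMap.toSpanSingleton_apply, ← sub_eq_zero,
      ← sub_smul, smul_eq_zero] at hab
    exact sub_eq_zero.1 (hab.resolve_right hx)
  have hsur : Function.Surjective
      (LinearMap.toSpanSingleton (ZMod 2) (HO (ZMod 2) (ZMod 2) 3 V) (cls (ZMod 2) g hg)) := by
    intro y
    obtain ⟨c, hc, rfl⟩ := cls_surj y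
    obtain ⟨t, ht⟩ := hgen c hc
    refine ⟨t, ?_⟩
    rw [LinearMap.toSpanSingleton_apply]
    have h1 : cls (ZMod 2) c hc = cls (ZMod 2) (t • g) (Cyc.smul t hg) :=
      (cls_eq hc (Cyc.smul t hg)).2 ht
    exact h1.symm
  exact ⟨(LinearEquiv.ofBijective _ ⟨hinj, hsur⟩).symm⟩

end COR

theorem t_COR : M_COR := by
  intro hLPX hORI hSRJ hONE hNSB hNCT hCLA hCMZ X _ _ _ anr hom shr nshr
  have lpc := (hLPX X anr).1
  have sj := hSRJ (ZMod 2) X anr hom shr
  have one := hONE (ZMod 2) X anr hom shr nshr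
  obtain ⟨s, hs⟩ := hORI X lpc shr sj one.1 (fun x => by
    obtain ⟨B, _, hx, hB, _⟩ := one.2 x univ isOpen_univ (mem_univ x)
    exact ⟨B, hx, hB⟩)
  have hnv : ∀ V : Set X, IsOpen V → V.Nonempty → ¬ VanO (ZMod 2) 3 V :=
    fun V hV hne => COR.not_van hs hV hne
  have h1 := hnv univ isOpen_univ univ_nonempty
  refine ⟨h1, hNCT (ZMod 2) X h1, fun hconn => ?_⟩
  have hcu : IsConnected (univ : Set X) := isConnected_univ
  refine ⟨fun A hA hv => ?_, fun A hA hne => ⟨?_, fun k _ _ => ?_⟩, ?_⟩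
  · have h2 := hNSB (ZMod 2) X sj univ A ⟨isOpen_univ, hcu, fun V _ hV hVn => hnv V hV hVn⟩
      hA.isCompact (subset_univ _) hv
    rwa [← compl_eq_univ_sdiff] at h2
  · exact hCLA ℤ X shr hcu (hCMZ X anr hom shr nshr).1 A hA hne
  · exact hCLA k X shr hcu (hSRJ k X anr hom shr) A hA hne
  · exact COR.line h1 (one.1 univ isOpen_univ hcu)

end BBH
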