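import Pool.Agent.BBH.StmtsH

/-!
# BBH, module DVU: divisibility
-/

set_option autoImplicit false

namespace BBH

open Set Topology CTO

namespace DVU

/-- the reduction of an integral cochain -/
theorem dd_red {X : Type} (p : ℕ) (c : Cc ℤ X) (l : List X) :
    dd (fun l => ((c l : ℤ) : ZMod p)) l = ((dd c l : ℤ) : ZMod p) :=
  dd_map (Int.castAddHom (ZMod p)) c l

end DVU

open DVU in
theorem t_DVU : S_DVU := by
  intro X _ p q V hp c hc hV
  have : NeZero p := ⟨hp.ne'⟩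
  have hp0 : (p : ℤ) ≠ 0 := by exact_mod_cast hp.ne'
  obtain ⟨b', hb1, hb2, hb3⟩ := hV
  -- the lift
  let b : Cc ℤ X := fun l => ((b' l).val : ℤ)
  have hb0 : ∀ l, b' l = 0 → b l = 0 := by
    intro l hl
    change ((b' l).val : ℤ) = 0
    rw [hl, ZMod.val_zero, Nat.cast_zero]
  have hbdeg : Dg X (q - 1) b := fun l hl => hb1 l fun h => hl (hb0 l h)
  have hbrel : Zr Vᶜ b := by
    obtain ⟨ε, hε, h⟩ := hb2
    exact ⟨ε, hε, fun l hl => hb0 l (h l hl)⟩
  have hbred : (fun l => ((b l : ℤ) : ZMod p)) = b' := by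
    funext l
    change ((((b' l).val : ℕ) : ℤ) : ZMod p) = b' l
    rw [Int.cast_natCast, ZMod.natCast_zmod_val]
  let e : Cc ℤ X := c - dd b
  have hedeg : Dg X q e := hc.deg.sub hbdeg.dd'
  have herel : Zr Vᶜ e := hc.rel.sub hbrel.dd
  have hecyc : Zr univ (dd e) := by
    change Zr univ (dd (c - dd b))
    rw [dd_sub, dd_dd, sub_zero]
    exact hc.cyc
  have hdvd : ∃ ε > 0, ∀ l ∈ Small (univ : Set X) ε, (p : ℤ) ∣ e l := by
    obtain ⟨ε, hε, h⟩ := hb3
    refine ⟨ε, hε, fun l hl => ?_⟩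
    rw [← ZMod.intCast_zmod_eq_zero_iff_dvd]
    change (((c l - dd b l : ℤ)) : ZMod p) = 0
    rw [Int.cast_sub, ← dd_red, hbred]
    exact h l hl
  let c' : Cc ℤ X := fun l => e l / (p : ℤ)
  have hc0 : ∀ l, e l = 0 → c' l = 0 := by
    intro l hl
    change e l / (p : ℤ) = 0
    rw [hl, Int.zero_ediv]
  have hdeg : Dg X q c' := fun l hl => hedeg l fun h => hl (hc0 l h)
  have hrel : Zr Vᶜ c' := by
    obtain ⟨ε, hε, h⟩ := herel
    exact ⟨ε, hε, fun l hl => hc0 l (h l hl)⟩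
  have hdiff : Zr univ (e - (p : ℤ) • c') := by
    obtain ⟨ε, hε, h⟩ := hdvd
    refine ⟨ε, hε, fun l hl => ?_⟩
    change e l - (p : ℤ) * (e l / (p : ℤ)) = 0
    rw [Int.mul_ediv_cancel' (h l hl), sub_self]
  have hcyc : Zr univ (dd c') := by
    have h1 := hecyc.sub hdiff.dd
    obtain ⟨ε, hε, h⟩ := h1
    refine ⟨ε, hε, fun l hl => ?_⟩
    have h2 := h l hl
    rw [← dd_sub, sub_sub_cancel, dd_smul] at h2
    change (p : ℤ) * dd c' l = 0 at h2
    exact (mul_eq_zero.1 h2).resolve_left hp0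
  refine ⟨c', ⟨hdeg, hrel, hcyc⟩, b, hbdeg, hbrel, ?_⟩
  have h1 : c - (p : ℤ) • c' - dd b = e - (p : ℤ) • c' := by
    change c - (p : ℤ) • c' - dd b = c - dd b - (p : ℤ) • c'
    abel
  rw [h1]
  exact hdiff

end BBH
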