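import Pool.Agent.BBH.StmtsH

/-!
# BBH: finite selections (S_FSL)
-/

set_option autoImplicit false

namespace BBH

open Set Topology

theorem t_FSL : S_FSL := by
  intro X _ _ ε hε
  obtain ⟨t, -, ht, hcov⟩ := finite_cover_balls_of_compact (isCompact_univ (X := X)) hε
  have h1 : ∀ x : X, ∃ y ∈ t, dist x y < ε := by
    intro x
    have h2 := hcov (mem_univ x)
    simp only [mem_iUnion, Metric.mem_ball, exists_prop] at h2
    exact h2
  choose r hr hr' using h1
  refine ⟨r, ht.subset (range_subset_iff.2 hr), fun x => ?_⟩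
  rw [dist_comm]
  exact hr' x

end BBH
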