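import Pool.Agent.BBH.StmtsH

/-!
# BBH, module HZ3: the third cohomology of a connected open set with integral coefficients
-/

set_option autoImplicit false

namespace BBH

open Set Topology CTO

namespace HZ3

/-- images of cocycles under an additive map -/
theorem map_CyO {M M' X : Type} [AddCommGroup M] [AddCommGroup M'] [MetricSpace X] {q : ℤ}
    {V : Set X} (φ : M →+ M') {c : Cc M X} (h : CyO q V c) : CyO q V (fun l => φ (c l)) := by
  refine ⟨?_, ?_, ?_⟩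
  · intro l hl
    refine h.deg l fun h => hl ?_
    change φ (c l) = 0
    rw [h, map_zero]
  · obtain ⟨ε, hε, h⟩ := h.rel
    refine ⟨ε, hε, fun l hl => ?_⟩
    change φ (c l) = 0
    rw [h l hl, map_zero]
  · obtain ⟨ε, hε, h⟩ := h.cyc
    refine ⟨ε, hε, fun l hl => ?_⟩
    rw [dd_map, h l hl, map_zero]

/-- images of coboundaries under an additive map -/
theorem map_BdO {M M' X : Type} [AddCommGroup M] [AddCommGroup M'] [MetricSpace X] {q : ℤ}
    {V : Set X} (φ : M →+ M') {c : Cc M X} (h : BdO q V c) : BdO q V (fun l => φ (c l)) := by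
  obtain ⟨b, h1, h2, h3⟩ := h
  refine ⟨fun l => φ (b l), ?_, ?_, ?_⟩
  · intro l hl
    refine h1 l fun h => hl ?_
    change φ (b l) = 0
    rw [h, map_zero]
  · obtain ⟨ε, hε, h⟩ := h2
    refine ⟨ε, hε, fun l hl => ?_⟩
    change φ (b l) = 0
    rw [h l hl, map_zero]
  · obtain ⟨ε, hε, h⟩ := h3
    refine ⟨ε, hε, fun l hl => ?_⟩
    have h4 := h l hl
    rw [Pi.sub_apply] at h4 ⊢
    rw [dd_map]
    change φ (c l) - φ (dd b l) = 0
    rw [← map_sub, h4, map_zero]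

end HZ3

open HZ3 in
theorem t_HZ3 : M_HZ3 := by
  intro hALZ hFIO hRAT hDVU X _ _ hX hSj hg V hV hVc hnv
  -- finiteness
  have hfin : Module.Finite ℤ (HO ℤ ℤ 3 V) := by
    obtain ⟨x₀, hx₀⟩ := hVc.nonempty
    obtain ⟨ε, hε, hεV⟩ := Metric.nhds_basis_closedBall.mem_iff.1 (hV.mem_nhds hx₀)
    have hcl : closure (Metric.ball x₀ ε) ⊆ V := Metric.closure_ball_subset_closedBall.trans hεV
    have hWV : Metric.ball x₀ ε ⊆ V := subset_closure.trans hcl
    have hfg := hFIO.1 ℤ ℤ X hX 3 (Metric.ball x₀ ε) V Metric.isOpen_ball hV hcl hWV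
    have htop : LinearMap.range (ext ℤ ℤ (p := 3) hWV) = ⊤ := by
      rw [LinearMap.range_eq_top]
      intro a
      obtain ⟨c, hc, rfl⟩ := cls_surj a
      obtain ⟨c', hc', hb⟩ := hSj V (Metric.ball x₀ ε) hV hVc Metric.isOpen_ball hWV
        ⟨x₀, Metric.mem_ball_self hε⟩ c hc
      refine ⟨cls ℤ c' hc', ?_⟩
      have h1 : cls ℤ c hc = cls ℤ c' (CyO.mono hc' hWV) :=
        (cls_eq (R := ℤ) hc (CyO.mono hc' hWV)).2 hb
      exact h1.symm
    rw [htop] at hfg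
    exact Module.finite_def.2 hfg
  refine hALZ (HO ℤ ℤ 3 V) ?_ ?_
  · -- not torsion
    rw [VanO] at hnv
    push Not at hnv
    obtain ⟨c, hc, hcb⟩ := hnv
    obtain ⟨m, c', hm, hc', hb⟩ := hRAT X 3 V c hc
    refine ⟨cls ℤ c' hc', fun n hn h0 => hcb ?_⟩
    have h1 : BdO 3 V (n • c') := by
      rw [← cls_smul] at h0
      exact (cls_eq_zero (R := ℤ) (Cyc.smul n hc')).1 h0
    have h2 : BdO 3 V (fun l => (Int.castAddHom ℚ) ((n • c') l)) := map_BdO _ h1
    have h3 : BdO 3 V ((n : ℚ)⁻¹ • (fun l => (Int.castAddHom ℚ) ((n • c') l))) :=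
      Bd.smul (R := ℚ) _ h2
    have hnQ : (n : ℚ) ≠ 0 := by exact_mod_cast hn
    have h4 : ((n : ℚ)⁻¹ • (fun l => (Int.castAddHom ℚ) ((n • c') l)) : Cc ℚ X) =
        fun l => ((c' l : ℤ) : ℚ) := by
      funext l
      change (n : ℚ)⁻¹ * (((n * c' l : ℤ)) : ℚ) = ((c' l : ℤ) : ℚ)
      rw [Int.cast_mul, inv_mul_cancel_left₀ hnQ]
    rw [h4] at h3
    have h5 : BdO 3 V ((m : ℚ) • c) := Bd.of_sub hb h3
    have h6 : BdO 3 V ((m : ℚ)⁻¹ • ((m : ℚ) • c)) := Bd.smul (R := ℚ) _ h5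
    have hmQ : (m : ℚ) ≠ 0 := by exact_mod_cast hm.ne'
    rwa [inv_smul_smul₀ hmQ] at h6
  · -- rank one mod p
    intro p hp a b
    have : Fact p.Prime := ⟨hp⟩
    obtain ⟨ca, hca, rfl⟩ := cls_surj a
    obtain ⟨cb, hcb, rfl⟩ := cls_surj b
    obtain ⟨g, hgc, hgu⟩ := hg p V hV hVc
    obtain ⟨ta, hta⟩ := hgu _ (map_CyO (Int.castAddHom (ZMod p)) hca)
    obtain ⟨tb, htb⟩ := hgu _ (map_CyO (Int.castAddHom (ZMod p)) hcb)
    -- the choice of the coefficients
    obtain ⟨s, t, hst, hrel⟩ : ∃ s t : ℤ, ¬ ((p : ℤ) ∣ s ∧ (p : ℤ) ∣ t) ∧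
        (s : ZMod p) * ta + (t : ZMod p) * tb = 0 := by
      by_cases h0 : ta = 0 ∧ tb = 0
      · refine ⟨1, 0, fun h => ?_, ?_⟩
        · have h1 := h.1
          have h2 : (p : ℤ) ∣ 1 := h1
          have h3 : p ∣ 1 := by exact_mod_cast h2
          exact hp.one_lt.ne' (Nat.dvd_one.1 h3)
        · rw [h0.1, h0.2, mul_zero, mul_zero, add_zero]
      · refine ⟨(tb.val : ℤ), -(ta.val : ℤ), fun h => h0 ?_, ?_⟩
        · have h1 := h.1
          have h2 := (dvd_neg.1 h.2)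
          rw [← ZMod.intCast_zmod_eq_zero_iff_dvd, Int.cast_natCast, ZMod.natCast_zmod_val] at h1 h2
          exact ⟨h2, h1⟩
        · rw [Int.cast_neg, Int.cast_natCast, Int.cast_natCast, ZMod.natCast_zmod_val,
            ZMod.natCast_zmod_val]
          ring
    -- the combination
    have hcomb : CyO 3 V (s • ca + t • cb) := Cyc.add (Cyc.smul s hca) (Cyc.smul t hcb)
    have h1 : BdO 3 V ((s : ZMod p) • ((fun l => (Int.castAddHom (ZMod p)) (ca l)) - ta • g) +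
        (t : ZMod p) • ((fun l => (Int.castAddHom (ZMod p)) (cb l)) - tb • g)) :=
      Bd.add (Bd.smul (R := ZMod p) _ hta) (Bd.smul (R := ZMod p) _ htb)
    have h2 : ((s : ZMod p) • ((fun l => (Int.castAddHom (ZMod p)) (ca l)) - ta • g) +
        (t : ZMod p) • ((fun l => (Int.castAddHom (ZMod p)) (cb l)) - tb • g) : Cc (ZMod p) X) =
        fun l => (((s • ca + t • cb : Cc ℤ X) l : ℤ) : ZMod p) := by
      funext l
      change (s : ZMod p) * (((ca l : ℤ) : ZMod p) - ta * g l) +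
        (t : ZMod p) * (((cb l : ℤ) : ZMod p) - tb * g l) =
        ((s * ca l + t * cb l : ℤ) : ZMod p)
      rw [Int.cast_add, Int.cast_mul, Int.cast_mul]
      linear_combination (- g l) * hrel
    rw [h2] at h1
    obtain ⟨c', hc', hb'⟩ := hDVU X p 3 V hp.pos _ hcomb h1
    refine ⟨s, t, cls ℤ c' hc', hst, ?_⟩
    have h3 : cls ℤ (s • ca + t • cb) hcomb = cls ℤ ((p : ℤ) • c') (Cyc.smul (p : ℤ) hc') :=
      (cls_eq (R := ℤ) hcomb (Cyc.smul (p : ℤ) hc')).2 hb'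
    exact h3

end BBH
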