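import Pool.Agent.BBH.StmtsH

/-!
# Module LFT: cocycles mod `p` of degree three lift to integral cocycles
-/

set_option autoImplicit false

namespace BBH

open Set Topology CTO

theorem t_LFT : M_LFT := by
  intro hD X _ _ hX p W hp hW c' hc'
  have : NeZero p := ⟨hp.ne'⟩
  have hpz : (p : ℤ) ≠ 0 := by exact_mod_cast hp.ne'
  obtain ⟨a, ha⟩ : ∃ a : Cc ℤ X, a = fun l => ((c' l).val : ℤ) := ⟨_, rfl⟩
  have hred : ∀ l, ((a l : ℤ) : ZMod p) = c' l := by
    intro l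
    rw [ha]
    simp
  have ha0 : ∀ l, c' l = 0 → a l = 0 := by
    intro l hl
    rw [ha]
    simp [hl]
  have hadeg : Dg X 3 a := fun l hl => hc'.deg l fun h => hl (ha0 l h)
  have harel : Zr Wᶜ a := by
    obtain ⟨ε, hε, h⟩ := hc'.rel
    exact ⟨ε, hε, fun l hl => ha0 l (h l hl)⟩
  have hdd : ∀ l, ((dd a l : ℤ) : ZMod p) = dd c' l := by
    intro l
    have h1 := dd_map (Int.castAddHom (ZMod p)) a l
    have h2 : (fun l => Int.castAddHom (ZMod p) (a l)) = c' := by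
      funext l
      exact hred l
    rw [h2] at h1
    rw [h1]
    rfl
  obtain ⟨ε, hε, hcyc⟩ := hc'.cyc
  have hdiv : ∀ l ∈ Small univ ε, (p : ℤ) ∣ dd a l := by
    intro l hl
    rw [← ZMod.intCast_zmod_eq_zero_iff_dvd, hdd, hcyc l hl]
  obtain ⟨e, he⟩ : ∃ e : Cc ℤ X, e = fun l => dd a l / p * (if (p : ℤ) ∣ dd a l then 1 else 0) :=
    ⟨_, rfl⟩
  have he0 : ∀ l, dd a l = 0 → e l = 0 := by
    intro l hl
    rw [he]
    simp [hl]
  have hep : ∀ l ∈ Small univ ε, ((p : ℤ) • e) l = dd a l := by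
    intro l hl
    rw [Pi.smul_apply, he]
    simp only [if_pos (hdiv l hl), mul_one, smul_eq_mul]
    exact Int.mul_ediv_cancel' (hdiv l hl)
  have h31 : (3 : ℤ) + 1 = 4 := by norm_num
  have hedeg : Dg X 4 e := by
    intro l hl
    have h1 := hadeg.dd l fun h => hl (he0 l h)
    rwa [h31] at h1
  have herel : Zr Wᶜ e := by
    obtain ⟨δ, hδ, h⟩ := harel.dd
    exact ⟨δ, hδ, fun l hl => he0 l (h l hl)⟩
  have hecyc : Zr univ (dd e) := by
    refine ⟨ε, hε, fun l hl => ?_⟩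
    have h1 := dd_congr (Small.cl univ ε) (c := (p : ℤ) • e) (e := dd a) hep l hl
    rw [dd_dd, Pi.zero_apply, dd_smul, Pi.smul_apply, smul_eq_mul] at h1
    exact (mul_eq_zero.1 h1).resolve_left hpz
  obtain ⟨f, hf1, hf2, hf3⟩ := hD ℤ X 3 hX 4 univ Wᶜ (by norm_num) (subset_univ _) e
    ⟨hedeg, herel, hecyc⟩
  have h41 : (4 : ℤ) - 1 = 3 := by norm_num
  rw [h41] at hf1
  refine ⟨a - (p : ℤ) • f, ⟨hadeg.sub (hf1.smul _), harel.sub (hf2.smul _), ?_⟩, ?_⟩
  · have h1 : Zr univ (dd a - (p : ℤ) • e) := by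
      refine ⟨ε, hε, fun l hl => ?_⟩
      rw [Pi.sub_apply, hep l hl, sub_self]
    have h2 := h1.add (hf3.smul (p : ℤ))
    have h3 : dd a - (p : ℤ) • e + (p : ℤ) • (e - dd f) = dd (a - (p : ℤ) • f) := by
      rw [dd_sub, dd_smul, smul_sub]
      abel
    rwa [h3] at h2
  · funext l
    rw [Pi.sub_apply, Pi.smul_apply, smul_eq_mul]
    push_cast
    rw [hred l, ZMod.natCast_self, zero_mul, sub_zero]

end BBH
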