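import Pool.Agent.BBH.StmtsH

/-!
# Module LTZ: local triviality for integral coefficients
-/

set_option autoImplicit false

namespace BBH

open Set Topology CTO

namespace LTZ

/-- the rational cochain of an integral cocycle is a cocycle -/
theorem cyO_rat {X : Type} [MetricSpace X] {q : ℤ} {V : Set X} {c : Cc ℤ X} (h : CyO q V c) :
    CyO q V (fun l => (c l : ℚ) : Cc ℚ X) := by
  refine ⟨fun l hl => h.deg l (fun h0 => hl (by simp [h0])), ?_, ?_⟩
  · obtain ⟨ε, hε, hz⟩ := h.rel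
    exact ⟨ε, hε, fun l hl => by simp [hz l hl]⟩
  · obtain ⟨ε, hε, hz⟩ := h.cyc
    refine ⟨ε, hε, fun l hl => ?_⟩
    have h1 := dd_map (Int.castAddHom ℚ) c l
    have h2 : (fun l => (Int.castAddHom ℚ) (c l)) = (fun l => (c l : ℚ)) := rfl
    rw [h2] at h1
    rw [h1, hz l hl, map_zero]

/-- a finitely generated torsion group is killed by a positive integer -/
theorem exists_kill {A : Type} [AddCommGroup A] (I : Submodule ℤ A) (hI : I.FG)
    (ht : ∀ a ∈ I, ∃ m : ℕ, 0 < m ∧ (m : ℤ) • a = 0) :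
    ∃ n : ℕ, 0 < n ∧ ∀ a ∈ I, (n : ℤ) • a = 0 := by
  classical
  obtain ⟨S, hS⟩ := hI
  have hm : ∀ s : A, ∃ m : ℕ, 0 < m ∧ (s ∈ S → (m : ℤ) • s = 0) := by
    intro s
    by_cases hs : s ∈ S
    · obtain ⟨m, h1, h2⟩ := ht s (by rw [← hS]; exact Submodule.subset_span hs)
      exact ⟨m, h1, fun _ => h2⟩
    · exact ⟨1, one_pos, fun h => absurd h hs⟩
  choose m hm0 hm using hm
  refine ⟨∏ s ∈ S, m s, Finset.prod_pos fun s _ => hm0 s, fun a ha => ?_⟩
  rw [← hS] at ha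
  induction ha using Submodule.span_induction with
  | mem s hs =>
    have hs' : s ∈ S := hs
    rw [← Finset.mul_prod_erase S m hs', Nat.cast_mul, mul_comm, mul_smul, hm s hs', smul_zero]
  | zero => rw [smul_zero]
  | add a b _ _ ha hb => rw [smul_add, ha, hb, add_zero]
  | smul r a _ ha => rw [smul_comm, ha, smul_zero]

end LTZ

theorem t_LTZ : M_LTZ := by
  intro hTOR hSZN hFIO X _ _ hX q hQ hP x U hU hxU
  obtain ⟨ε, hε, hεU⟩ := Metric.isOpen_iff.1 hU x hxU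
  have hcl : closure (Metric.ball x (ε / 2)) ⊆ U := by
    refine Metric.closure_ball_subset_closedBall.trans (fun y hy => hεU ?_)
    rw [Metric.mem_closedBall] at hy
    rw [Metric.mem_ball]
    linarith
  obtain ⟨V₁, hV₁, hV₁o, hxV₁, hV₁c⟩ := hQ x (Metric.ball x (ε / 2)) Metric.isOpen_ball
    (Metric.mem_ball_self (half_pos hε))
  have hsub : Metric.ball x (ε / 2) ⊆ U := subset_closure.trans hcl
  have hV₁U : V₁ ⊆ U := hV₁.trans hsub
  have hfg := hFIO.1 ℤ ℤ X hX q V₁ U hV₁o hU ((closure_mono hV₁).trans hcl) hV₁U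
  obtain ⟨n, hn, hkill⟩ := LTZ.exists_kill _ hfg (by
    rintro a ⟨b, rfl⟩
    obtain ⟨c, hc, rfl⟩ := cls_surj b
    have h1 := hV₁c _ (LTZ.cyO_rat hc)
    obtain ⟨m, hm, hb⟩ := hTOR X q U c (CyO.mono hc hV₁U) (BdO.mono h1 hsub)
    refine ⟨m, hm, ?_⟩
    have h2 := (cls_eq_zero (R := ℤ) ((CyO.mono hc hV₁U).smul (m : ℤ))).2 hb
    rw [cls_smul] at h2
    exact h2)
  obtain ⟨V, hV, hVo, hxV, hVc⟩ := hSZN X q hP n hn x V₁ hV₁o hxV₁
  refine ⟨V, hV.trans hV₁U, hVo, hxV, fun c hc => ?_⟩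
  obtain ⟨c', hc', hb⟩ := hVc c hc
  have h3 : (n : ℤ) • ext ℤ ℤ hV₁U (cls ℤ c' hc') = 0 := hkill _ ⟨_, rfl⟩
  rw [ext_cls, ← cls_smul, cls_eq_zero] at h3
  exact Bd.of_sub (BdO.mono hb hV₁U) h3

end BBH
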