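import Pool.Agent.BBH.StmtsH

/-!
# BBH, module NCT: no top-dimensional cohomology in contractible spaces
-/

set_option autoImplicit false

namespace BBH

open Set Topology CTO

namespace NCT

/-- A contractible space contracts in itself in the sense of `Ctr`. -/
theorem ctr_univ (X : Type) [TopologicalSpace X] [ContractibleSpace X] :
    Ctr (univ : Set X) univ := by
  obtain ⟨w, ⟨H⟩⟩ := id_nullhomotopic X
  refine ⟨w, fun q => H (projIcc (0 : ℝ) 1 zero_le_one q.2, q.1), mem_univ _, ?_,
    fun _ _ => mem_univ _, ?_, ?_⟩
  · apply Continuous.continuousOn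
    exact H.continuous.comp ((continuous_projIcc.comp continuous_snd).prodMk continuous_fst)
  · intro x _
    have h0 : projIcc (0 : ℝ) 1 zero_le_one 0 = (0 : unitInterval) := by
      simp [projIcc_left]
    show H (projIcc (0 : ℝ) 1 zero_le_one 0, x) = x
    rw [h0, H.apply_zero]
    rfl
  · intro x _
    have h1 : projIcc (0 : ℝ) 1 zero_le_one 1 = (1 : unitInterval) := by
      simp [projIcc_right]
    show H (projIcc (0 : ℝ) 1 zero_le_one 1, x) = w
    rw [h1, H.apply_one]
    rfl

end NCT

theorem t_NCT : M_NCT := by
  intro hCTR M X _ _ _ hV hX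
  apply hV
  intro c hc
  have h1 : Cyc 3 univ ∅ c := by
    have h := hc
    unfold CyO at h
    rwa [compl_univ] at h
  have h2 := hCTR M X univ univ isCompact_univ (Subset.refl _) (NCT.ctr_univ X) 3 (by norm_num)
    c h1
  unfold BdO
  rwa [compl_univ]

end BBH
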