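import Pool.Agent.BBH.StmtsH

/-!
# BBH, module ORA: uniqueness of orientations mod 2
-/

set_option autoImplicit false

namespace BBH

open Set Topology CTO

namespace ORA

variable {X : Type} [MetricSpace X]

theorem eq_mul {W : Set X} {s : Cc (ZMod 2) X →ₗ[ZMod 2] ZMod 2} {c g : Cc (ZMod 2) X}
    {t : ZMod 2} (hs : Kil 3 W s) (hc : CyO 3 W c) (hg : CyO 3 W g)
    (h : BdO 3 W (c - t • g)) : s c = t * s g := by
  have h1 : s (c - t • g) = 0 := hs _ (Cyc.sub hc (Cyc.smul t hg)) h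
  rw [map_sub, map_smul, smul_eq_mul] at h1
  exact sub_eq_zero.1 h1

theorem eq_one {W : Set X} {s : Cc (ZMod 2) X →ₗ[ZMod 2] ZMod 2} {g : Cc (ZMod 2) X}
    (hs : Kil 3 W s) (hg : CyO 3 W g)
    (h : ∀ c : Cc (ZMod 2) X, CyO 3 W c → ∃ t : ZMod 2, BdO 3 W (c - t • g))
    (hne : ∃ c, CyO 3 W c ∧ s c ≠ 0) : s g = 1 := by
  obtain ⟨c, hc, hsc⟩ := hne
  obtain ⟨t, ht⟩ := h c hc
  have h1 : s g ≠ 0 := by
    intro h0
    exact hsc (by rw [eq_mul hs hc hg ht, h0, mul_zero])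
  have h2 : ∀ z : ZMod 2, z ≠ 0 → z = 1 := by decide
  exact h2 _ h1

end ORA

theorem t_ORA : M_ORA := by
  intro hG X _ _ lpc shr ucl U s s' hU hs hs'
  refine hG (ZMod 2) X 3 shr U (fun c => s c = s' c) hU ?_ ?_ ?_
  · intro a b ha hb
    rw [map_add, map_add, ha, hb]
  · intro c hc hb
    rw [hs.1 c hc hb, hs'.1 c hc hb]
  · intro y hy
    have hWU : connectedComponentIn U y ⊆ U := connectedComponentIn_subset U y
    have hWo : IsOpen (connectedComponentIn U y) := hU.connectedComponentIn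
    have hWc : IsConnected (connectedComponentIn U y) := isConnected_connectedComponentIn_iff.2 hy
    have hyW : y ∈ connectedComponentIn U y := mem_connectedComponentIn hy
    obtain ⟨g, hg, hgen⟩ := ucl _ hWo hWc
    refine ⟨_, hWU, hWo, hyW, ?_⟩
    intro c hc
    obtain ⟨t, ht⟩ := hgen c hc
    have hk := hs.1.mono hWU
    have hk' := hs'.1.mono hWU
    rw [ORA.eq_mul hk hc hg ht, ORA.eq_mul hk' hc hg ht,
      ORA.eq_one hk hg hgen (hs.2 _ hWU hWo ⟨y, hyW⟩),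
      ORA.eq_one hk' hg hgen (hs'.2 _ hWU hWo ⟨y, hyW⟩)]

end BBH
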