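import Pool.Agent.BBH.StmtsH

/-!
# Module ORG: gluing of orientations mod 2
-/

set_option autoImplicit false

namespace BBH

open Set Topology CTO

namespace ORG

theorem Orr.mono {X : Type} [MetricSpace X] {U W : Set X}
    {s : Cc (ZMod 2) X →ₗ[ZMod 2] ZMod 2} (h : Orr U s) (hW : W ⊆ U) : Orr W s :=
  ⟨h.1.mono hW, fun V hV hVo hVn => h.2 V (hV.trans hW) hVo hVn⟩

/-- a functional that factors through a surjective linear map -/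
theorem factor {k T H : Type} [Field k] [AddCommGroup T] [Module k T] [AddCommGroup H]
    [Module k H] (ψ : T →ₗ[k] H) (σ : T →ₗ[k] k) (hψ : Function.Surjective ψ)
    (hk : ∀ t, ψ t = 0 → σ t = 0) : ∃ φ : H →ₗ[k] k, ∀ t, φ (ψ t) = σ t := by
  obtain ⟨g, hg⟩ := ψ.exists_rightInverse_of_surjective (LinearMap.range_eq_top.2 hψ)
  refine ⟨σ ∘ₗ g, fun t => ?_⟩
  have h1 : ψ (g (ψ t)) = ψ t := by
    have := LinearMap.congr_fun hg (ψ t)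
    simpa using this
  have h2 : σ (g (ψ t) - t) = 0 := hk _ (by rw [map_sub, h1, sub_self])
  rw [map_sub, sub_eq_zero] at h2
  exact h2

end ORG

theorem t_ORG : M_ORG := by
  intro hDIM hMVO hORA X _ _ hL hS hU U V s s' hUo hVo hs hs'
  obtain ⟨-, -, -, h4, h5⟩ := hMVO (ZMod 2) X 3 U V hUo hVo
  let ψ : (ZZ (ZMod 2) (ZMod 2) 3 univ Uᶜ) × (ZZ (ZMod 2) (ZMod 2) 3 univ Vᶜ)
      →ₗ[ZMod 2] HO (ZMod 2) (ZMod 2) 3 (U ∪ V) :=
    (ext (ZMod 2) (ZMod 2) (p := 3) (subset_union_left (s := U) (t := V)) ∘ₗ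
      (BB (ZMod 2) (ZMod 2) 3 univ Uᶜ).mkQ).coprod
    (ext (ZMod 2) (ZMod 2) (p := 3) (subset_union_right (s := U) (t := V)) ∘ₗ
      (BB (ZMod 2) (ZMod 2) 3 univ Vᶜ).mkQ)
  let σ : (ZZ (ZMod 2) (ZMod 2) 3 univ Uᶜ) × (ZZ (ZMod 2) (ZMod 2) 3 univ Vᶜ)
      →ₗ[ZMod 2] ZMod 2 :=
    (s ∘ₗ (ZZ (ZMod 2) (ZMod 2) 3 univ Uᶜ).subtype).coprod
      (s' ∘ₗ (ZZ (ZMod 2) (ZMod 2) 3 univ Vᶜ).subtype)
  have hψ : ∀ (c₁ c₂ : Cc (ZMod 2) X) (h₁ : CyO 3 U c₁) (h₂ : CyO 3 V c₂),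
      ψ (⟨c₁, h₁⟩, ⟨c₂, h₂⟩) = cls (ZMod 2) (c₁ + c₂)
        ((h₁.mono subset_union_left).add (h₂.mono subset_union_right)) := by
    intro c₁ c₂ h₁ h₂
    rfl
  have hσ : ∀ (c₁ c₂ : Cc (ZMod 2) X) (h₁ : CyO 3 U c₁) (h₂ : CyO 3 V c₂),
      σ (⟨c₁, h₁⟩, ⟨c₂, h₂⟩) = s c₁ + s' c₂ := by
    intro c₁ c₂ h₁ h₂
    rfl
  have hsurj : Function.Surjective ψ := by
    intro a
    obtain ⟨c, hc, rfl⟩ := cls_surj a
    obtain ⟨c₁, c₂, h₁, h₂, hb⟩ := h5 c hc (fun d hd => by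
      have h := hDIM (ZMod 2) X 3 hS (3 + 1) univ (U ∩ V)ᶜ (by norm_num) (subset_univ _)
      exact h d hd)
    refine ⟨(⟨c₁, h₁⟩, ⟨c₂, h₂⟩), ?_⟩
    rw [hψ]
    refine ((cls_eq _ hc).2 ?_)
    have h6 := hb.neg
    have h7 : -(c - c₁ - c₂) = c₁ + c₂ - c := by abel
    rw [h7] at h6
    exact h6
  have hker : ∀ t, ψ t = 0 → σ t = 0 := by
    rintro ⟨⟨c₁, h₁⟩, ⟨c₂, h₂⟩⟩ ht
    rw [hψ, cls_eq_zero] at ht
    obtain ⟨e, he, hb₁, hb₂⟩ := h4 c₁ c₂ h₁ h₂ ht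
    have h6 : s (c₁ - e) = 0 := hs.1 _ (h₁.sub (he.mono inter_subset_left)) hb₁
    have h7 : s' (c₂ + e) = 0 := hs'.1 _ (h₂.add (he.mono inter_subset_right)) hb₂
    have h8 : s e = s' e := hORA X hL hS hU (U ∩ V) s s' (hUo.inter hVo)
      (ORG.Orr.mono hs inter_subset_left) (ORG.Orr.mono hs' inter_subset_right) e he
    rw [map_sub, sub_eq_zero] at h6
    rw [map_add] at h7
    rw [hσ, h6, h8, add_comm]
    exact h7
  obtain ⟨φ, hφ⟩ := ORG.factor ψ σ hsurj hker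
  obtain ⟨s'', hs1, hs2⟩ := exists_total φ
  have hU'' : ∀ c, CyO 3 U c → s'' c = s c := by
    intro c hc
    have h0 : CyO 3 V (0 : Cc (ZMod 2) X) := Cyc.zero
    have h6 := hφ (⟨c, hc⟩, ⟨0, h0⟩)
    rw [hψ c 0 hc h0, hσ c 0 hc h0] at h6
    have h7 : s c + s' 0 = s c := by rw [map_zero, add_zero]
    rw [← h7, ← h6, hs2 c (hc.mono subset_union_left)]
    congr 1
    exact (cls_eq _ _).2 (by rw [add_zero, sub_self]; exact Bd.zero)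
  have hV'' : ∀ c, CyO 3 V c → s'' c = s' c := by
    intro c hc
    have h0 : CyO 3 U (0 : Cc (ZMod 2) X) := Cyc.zero
    have h6 := hφ (⟨0, h0⟩, ⟨c, hc⟩)
    rw [hψ 0 c h0 hc, hσ 0 c h0 hc] at h6
    have h7 : s 0 + s' c = s' c := by rw [map_zero, zero_add]
    rw [← h7, ← h6, hs2 c (hc.mono subset_union_right)]
    congr 1
    exact (cls_eq _ _).2 (by rw [zero_add, sub_self]; exact Bd.zero)
  refine ⟨s'', hs1, fun W hW hWo hWn => ?_⟩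
  obtain ⟨x, hx⟩ := hWn
  rcases hW hx with hxU | hxV
  · obtain ⟨c, hc, hne⟩ := hs.2 (W ∩ U) inter_subset_right (hWo.inter hUo) ⟨x, hx, hxU⟩
    exact ⟨c, hc.mono inter_subset_left, by rw [hU'' c (hc.mono inter_subset_right)]; exact hne⟩
  · obtain ⟨c, hc, hne⟩ := hs'.2 (W ∩ V) inter_subset_right (hWo.inter hVo) ⟨x, hx, hxV⟩
    exact ⟨c, hc.mono inter_subset_left, by rw [hV'' c (hc.mono inter_subset_right)]; exact hne⟩

end BBH
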