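import Pool.Agent.BBH.StmtsH

/-!
# Module ORI: existence of an orientation mod 2
-/

set_option autoImplicit false

namespace BBH

open Set Topology CTO

namespace ORI

/-- a good set has an orientation -/
theorem local_orr {X : Type} [MetricSpace X] (hSj : Sj (ZMod 2) X) {B : Set X}
    (hB : GB (ZMod 2) B) : ∃ s, Orr B s := by
  obtain ⟨hBo, hBc, hBn⟩ := hB
  have h0 : ¬ VanO (ZMod 2) 3 B := hBn B Subset.rfl hBo hBc.nonempty
  have h1 : ∃ c0 : Cc (ZMod 2) X, CyO 3 B c0 ∧ ¬ BdO 3 B c0 := by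
    by_contra hcon
    apply h0
    intro c hc
    by_contra hn
    exact hcon ⟨c, hc, hn⟩
  obtain ⟨c0, hc0, hn0⟩ := h1
  have h2 : cls (ZMod 2) c0 hc0 ≠ 0 := fun h => hn0 ((cls_eq_zero hc0).1 h)
  obtain ⟨φ, hφ⟩ : ∃ φ : HO (ZMod 2) (ZMod 2) 3 B →ₗ[ZMod 2] ZMod 2,
      φ (cls (ZMod 2) c0 hc0) ≠ 0 := by
    by_contra hcon
    push Not at hcon
    exact h2 ((Module.forall_dual_apply_eq_zero_iff (ZMod 2) _).1 hcon)
  obtain ⟨s, hs1, hs2⟩ := exists_total φ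
  refine ⟨s, hs1, fun V hV hVo hVn => ?_⟩
  obtain ⟨c', hc', hb⟩ := hSj B V hBo hBc hVo hV hVn c0 hc0
  refine ⟨c', hc', ?_⟩
  have h3 : s (c0 - c') = 0 := hs1 _ (hc0.sub (hc'.mono hV)) hb
  rw [map_sub, sub_eq_zero] at h3
  rw [← h3, hs2 c0 hc0]
  exact hφ

end ORI

theorem t_ORI : M_ORI := by
  intro hORG X _ _ hL hS hSj hU hloc
  have key : ∃ U : Set X, (univ : Set X) ⊆ U ∧ IsOpen U ∧ ∃ s, Orr U s := by
    refine isCompact_univ.induction_on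
      (p := fun S => ∃ U : Set X, S ⊆ U ∧ IsOpen U ∧ ∃ s, Orr U s) ?_ ?_ ?_ ?_
    · refine ⟨∅, Subset.rfl, isOpen_empty, 0, fun c _ _ => rfl, fun V hV _ hVn => ?_⟩
      exact absurd (hVn.mono hV) (by simp)
    · rintro S T hST ⟨U, hTU, hUo, hs⟩
      exact ⟨U, hST.trans hTU, hUo, hs⟩
    · rintro S T ⟨U, hSU, hUo, s, hs⟩ ⟨V, hTV, hVo, s', hs'⟩
      exact ⟨U ∪ V, union_subset_union hSU hTV, hUo.union hVo,
        hORG X hL hS hU U V s s' hUo hVo hs hs'⟩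
    · intro x _
      obtain ⟨B, hxB, hB⟩ := hloc x
      exact ⟨B, mem_nhdsWithin_of_mem_nhds (hB.1.mem_nhds hxB), B, Subset.rfl, hB.1,
        ORI.local_orr hSj hB⟩
  obtain ⟨U, hUU, _, s, hs⟩ := key
  obtain rfl : U = univ := univ_subset_iff.1 hUU
  exact ⟨s, hs⟩

end BBH
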