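import Pool.Agent.BBH.StmtsH

/-!
# SJZ: surjectivity in degree three for integral coefficients
-/

set_option autoImplicit false

namespace BBH

open Set Topology CTO

namespace SJZ

/-- the reduction of an integral cochain -/
theorem dd_red {X : Type} (p : ℕ) (c : Cc ℤ X) (l : List X) :
    dd (fun l => ((c l : ℤ) : ZMod p)) l = ((dd c l : ℤ) : ZMod p) :=
  dd_map (Int.castAddHom (ZMod p)) c l

/-- the reduction of an integral cocycle is a cocycle -/
theorem red_CyO {X : Type} [MetricSpace X] (p : ℕ) {q : ℤ} {V : Set X} {c : Cc ℤ X}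
    (hc : CyO q V c) : CyO q V (fun l => ((c l : ℤ) : ZMod p)) := by
  refine ⟨?_, ?_, ?_⟩
  · intro l hl
    refine hc.deg l fun h => hl ?_
    change ((c l : ℤ) : ZMod p) = 0
    rw [h, Int.cast_zero]
  · obtain ⟨ε, hε, h⟩ := hc.rel
    refine ⟨ε, hε, fun l hl => ?_⟩
    change ((c l : ℤ) : ZMod p) = 0
    rw [h l hl, Int.cast_zero]
  · obtain ⟨ε, hε, h⟩ := hc.cyc
    refine ⟨ε, hε, fun l hl => ?_⟩
    rw [dd_red, h l hl, Int.cast_zero]

/-- finitely generated subgroups that are divisible by all primes vanish -/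
theorem sub_zero_of (hFGD : S_FGD) {A : Type} [AddCommGroup A] [Module ℤ A]
    (I : Submodule ℤ A) (hfg : I.FG)
    (hdiv : ∀ p : ℕ, p.Prime → ∀ a ∈ I, ∃ b ∈ I, a = (p : ℤ) • b) : ∀ a ∈ I, a = 0 := by
  have hfin : @Module.Finite ℤ I _ _ I.module := Module.Finite.iff_fg.2 hfg
  have e : (I.module : Module ℤ I) = AddCommGroup.toIntModule I := Subsingleton.elim _ _
  have hfin2 : @Module.Finite ℤ I _ _ (AddCommGroup.toIntModule I) := e ▸ hfin
  intro a ha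
  have h := @hFGD I _ hfin2 (by
    intro p hp b
    obtain ⟨d, hd, hbd⟩ := hdiv p hp b.1 b.2
    refine ⟨⟨d, hd⟩, Subtype.ext ?_⟩
    rw [hbd]
    have h1 : ∀ n : ℤ, ∀ x : I, ((n • x : I) : A) = n • (x : A) := fun n x => by
      exact map_zsmul I.subtype.toAddMonoidHom n x
    exact (h1 p ⟨d, hd⟩).symm) ⟨a, ha⟩
  exact congrArg Subtype.val h

end SJZ

theorem t_SJZ : M_SJZ := by
  intro hGEN hTHK hFIO hLFT hDVU hFGD X _ _ hLP hX hS hSj V W hV hVc hW hWV hWne c hc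
  refine hGEN ℤ X 3 hS V (fun c => ∃ c' : Cc ℤ X, CyO 3 W c' ∧ BdO 3 V (c - c')) hV
    ?_ ?_ ?_ c hc
  · rintro a b ⟨a', ha, ha'⟩ ⟨b', hb, hb'⟩
    refine ⟨a' + b', Cyc.add ha hb, ?_⟩
    have h1 : BdO 3 V ((a - a') + (b - b')) := Bd.add ha' hb'
    have h2 : a + b - (a' + b') = (a - a') + (b - b') := by abel
    show BdO 3 V (a + b - (a' + b'))
    rw [h2]
    exact h1
  · intro a _ hb
    refine ⟨0, Cyc.zero, ?_⟩
    show BdO 3 V (a - 0)
    rw [sub_zero]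
    exact hb
  · intro y hy
    obtain ⟨w, hw⟩ := hWne
    have hPC : IsPathConnected V := hV.isConnected_iff_isPathConnected.1 hVc
    have hj : JoinedIn V y w := hPC.joinedIn y hy w (hWV hw)
    obtain ⟨γ, hγ⟩ := hj
    have hCcp : IsCompact (range γ) := isCompact_range γ.continuous
    have hCcn : IsConnected (range γ) := isConnected_range γ.continuous
    have hCV : range γ ⊆ V := by
      rintro _ ⟨t, rfl⟩
      exact hγ t
    have hyC : y ∈ range γ := ⟨0, γ.source⟩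
    have hwC : w ∈ range γ := ⟨1, γ.target⟩
    obtain ⟨U₁, hU₁, hCU₁, hU₁V⟩ := normal_exists_closure_subset hCcp.isClosed hV hCV
    obtain ⟨V', hV'U, hV'o, hV'c, hCV'⟩ := hTHK.2 X hLP (range γ) U₁ hU₁ hCcn hCU₁
    have hcl : closure V' ⊆ V := (closure_mono hV'U).trans hU₁V
    have hV'V : V' ⊆ V := subset_closure.trans hcl
    refine ⟨V', hV'V, hV'o, hCV' hyC, ?_⟩
    have hfg := hFIO.1 ℤ ℤ X hX 3 V' V hV'o hV hcl hV'V
    have hI := hfg.map (LinearMap.range (ext ℤ ℤ (p := 3) hWV)).mkQ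
    have hz := SJZ.sub_zero_of hFGD _ hI (by
      rintro p hp _ ⟨_, ⟨u, rfl⟩, rfl⟩
      obtain ⟨c, hc, rfl⟩ := cls_surj u
      have : Fact p.Prime := ⟨hp⟩
      obtain ⟨c', hc', hb'⟩ := hSj p V' (V' ∩ W) hV'o hV'c (hV'o.inter hW) inter_subset_left
        ⟨w, hCV' hwC, hw⟩ _ (SJZ.red_CyO p hc)
      obtain ⟨c₁, hc₁, hc₁'⟩ := hLFT X hS p (V' ∩ W) hp.pos (hV'o.inter hW) c' hc'
      have hd : CyO 3 V' (c - c₁) := Cyc.sub hc (CyO.mono hc₁ inter_subset_left)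
      have hbd : BdO 3 V' (fun l => (((c - c₁) l : ℤ) : ZMod p)) := by
        have h1 : (fun l => (((c - c₁) l : ℤ) : ZMod p)) =
            (fun l => ((c l : ℤ) : ZMod p)) - c' := by
          rw [← hc₁']
          funext l
          show ((c l - c₁ l : ℤ) : ZMod p) = _
          rw [Int.cast_sub]
          rfl
        rw [h1]
        exact hb'
      obtain ⟨c₂, hc₂, hb₂⟩ := hDVU X p 3 V' hp.pos (c - c₁) hd hbd
      refine ⟨_, ⟨_, ⟨cls ℤ c₂ hc₂, rfl⟩, rfl⟩, ?_⟩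
      have h2 : BdO 3 V (c - c₁ - (p : ℤ) • c₂) := BdO.mono hb₂ hV'V
      have h3 : cls ℤ (c - c₁) (CyO.mono hd hV'V) =
          cls ℤ ((p : ℤ) • c₂) (Cyc.smul (p : ℤ) (CyO.mono hc₂ hV'V)) :=
        (cls_eq (R := ℤ) _ _).2 h2
      have h4 : ext ℤ ℤ (p := 3) hV'V (cls ℤ c hc) -
          ext ℤ ℤ (p := 3) hWV (cls ℤ c₁ (CyO.mono hc₁ inter_subset_right)) =
          (p : ℤ) • ext ℤ ℤ (p := 3) hV'V (cls ℤ c₂ hc₂) := h3
      have h5 := congrArg (LinearMap.range (ext ℤ ℤ (p := 3) hWV)).mkQ h4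
      rw [map_sub, map_smul] at h5
      have h6 : (LinearMap.range (ext ℤ ℤ (p := 3) hWV)).mkQ
          (ext ℤ ℤ (p := 3) hWV (cls ℤ c₁ (CyO.mono hc₁ inter_subset_right))) = 0 := by
        rw [Submodule.mkQ_apply, Submodule.Quotient.mk_eq_zero]
        exact ⟨_, rfl⟩
      rw [h6, sub_zero] at h5
      exact h5)
    intro c hc
    have h1 := hz _ ⟨_, ⟨cls ℤ c hc, rfl⟩, rfl⟩
    rw [Submodule.mkQ_apply, Submodule.Quotient.mk_eq_zero] at h1
    obtain ⟨u, hu⟩ := h1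
    obtain ⟨c', hc', rfl⟩ := cls_surj u
    refine ⟨c', hc', ?_⟩
    have h2 : cls ℤ c (CyO.mono hc hV'V) = cls ℤ c' (CyO.mono hc' hWV) := hu.symm
    exact (cls_eq (R := ℤ) _ _).1 h2

end BBH
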