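import Pool.Agent.BBH.StmtsH

/-!
# BBH, module SZN: divisibility by `n` up to coboundaries, locally
-/

set_option autoImplicit false

namespace BBH

open Set Topology CTO

namespace SZN

/-- the reduction of an integral cochain -/
theorem dd_red {X : Type} (p : ℕ) (c : Cc ℤ X) (l : List X) :
    dd (fun l => ((c l : ℤ) : ZMod p)) l = ((dd c l : ℤ) : ZMod p) :=
  dd_map (Int.castAddHom (ZMod p)) c l

/-- the reduction of an integral cocycle -/
theorem cyO_red {X : Type} [MetricSpace X] (p : ℕ) {q : ℤ} {V : Set X} {c : Cc ℤ X}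
    (hc : CyO q V c) : CyO q V (fun l => ((c l : ℤ) : ZMod p)) := by
  refine ⟨?_, ?_, ?_⟩
  · intro l hl
    refine hc.deg l fun h => hl ?_
    change ((c l : ℤ) : ZMod p) = 0
    rw [h, Int.cast_zero]
  · obtain ⟨ε, hε, h⟩ := hc.rel
    refine ⟨ε, hε, fun l hl => ?_⟩
    change ((c l : ℤ) : ZMod p) = 0
    rw [h l hl, Int.cast_zero]
  · obtain ⟨ε, hε, h⟩ := hc.cyc
    refine ⟨ε, hε, fun l hl => ?_⟩
    rw [dd_red, h l hl, Int.cast_zero]

end SZN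

open SZN in
theorem t_SZN : M_SZN := by
  intro hDVU X _ q hLT n
  refine Nat.recOnMul (motive := fun n => 0 < n → ∀ (x : X) (U : Set X),
    IsOpen U → x ∈ U → ∃ V ⊆ U, IsOpen V ∧ x ∈ V ∧ ∀ c : Cc ℤ X, CyO q V c →
      ∃ c' : Cc ℤ X, CyO q U c' ∧ BdO q U (c - (n : ℤ) • c')) ?_ ?_ ?_ ?_ n
  · intro h
    exact absurd h (lt_irrefl 0)
  · intro _ x U hU hx
    refine ⟨U, Subset.rfl, hU, hx, fun c hc => ⟨c, hc, ?_⟩⟩
    rw [Nat.cast_one, one_smul, sub_self]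
    exact Bd.zero
  · intro p hp hp0 x U hU hx
    obtain ⟨V, hVU, hV, hxV, h⟩ := hLT p hp x U hU hx
    refine ⟨V, hVU, hV, hxV, fun c hc => ?_⟩
    exact hDVU X p q U hp0 c (hc.mono hVU) (h _ (cyO_red p hc))
  · intro a b iha ihb hab x U hU hx
    have ha : 0 < a := Nat.pos_of_ne_zero fun h => by simp [h] at hab
    have hb : 0 < b := Nat.pos_of_ne_zero fun h => by simp [h] at hab
    obtain ⟨V₁, hV₁U, hV₁, hxV₁, h₁⟩ := iha ha x U hU hx
    obtain ⟨V, hVV₁, hV, hxV, h⟩ := ihb hb x V₁ hV₁ hxV₁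
    refine ⟨V, hVV₁.trans hV₁U, hV, hxV, fun c hc => ?_⟩
    obtain ⟨c', hc', hb'⟩ := h c hc
    obtain ⟨c'', hc'', hb''⟩ := h₁ c' hc'
    refine ⟨c'', hc'', ?_⟩
    have h3 : c - ((a * b : ℕ) : ℤ) • c'' = (c - (b : ℤ) • c') + (b : ℤ) • (c' - (a : ℤ) • c'') := by
      rw [smul_sub, smul_smul, Nat.cast_mul, mul_comm (b : ℤ) (a : ℤ)]
      abel
    rw [h3]
    exact Bd.add (hb'.mono hV₁U) (Bd.smul (b : ℤ) hb'')

end BBH
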