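import Pool.Agent.BBH.StmtsH

/-!
# BBH, module TOR: a rational coboundary is a torsion class
-/

set_option autoImplicit false

namespace BBH

open Set Topology CTO

namespace TOR

theorem small_join {X : Type} [MetricSpace X] {A : Set X} {r : X → X} {ε : ℝ} (hε : 0 < ε)
    (hr : ∀ x, dist (r x) x < ε / 4) {l : List X} (hl : l ∈ Small A (ε / 4)) :
    l.map id ++ l.map r ∈ Small A ε := by
  have h4 : ∀ x ∈ l, ∃ a ∈ A, dist x a < ε / 4 := fun x hx =>
    Metric.mem_thickening_iff.1 (hl.1 x hx)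
  have hmem : ∀ z ∈ l.map id ++ l.map r, ∃ x ∈ l, dist z x < ε / 4 := by
    intro z hz
    rw [List.mem_append] at hz
    rcases hz with hz | hz
    · rw [List.map_id] at hz
      exact ⟨z, hz, by rw [dist_self]; positivity⟩
    · obtain ⟨x, hx, rfl⟩ := List.mem_map.1 hz
      exact ⟨x, hx, hr x⟩
  refine ⟨fun z hz => ?_, fun z hz w hw => ?_⟩
  · obtain ⟨x, hx, hzx⟩ := hmem z hz
    obtain ⟨a, ha, hxa⟩ := h4 x hx
    refine Metric.mem_thickening_iff.2 ⟨a, ha, ?_⟩
    have := dist_triangle z x a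
    linarith
  · obtain ⟨x, hx, hzx⟩ := hmem z hz
    obtain ⟨y, hy, hwy⟩ := hmem w hw
    have h1 := hl.2 x hx y hy
    have h2 := dist_triangle z x w
    have h3 := dist_triangle x y w
    rw [dist_comm w y] at hwy
    linarith

theorem small_map {X : Type} [MetricSpace X] {A : Set X} {r : X → X} {ε : ℝ} (hε : 0 < ε)
    (hr : ∀ x, dist (r x) x < ε / 4) {l : List X} (hl : l ∈ Small A (ε / 4)) :
    l.map r ∈ Small A ε :=
  Small.cl A ε _ (small_join hε hr hl) _ (List.subset_append_right _ _)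

theorem finite_lists {X : Type} {S : Set X} (hS : S.Finite) (n : ℕ) :
    {l : List X | l.length = n ∧ ∀ x ∈ l, x ∈ S}.Finite := by
  have : Finite S := hS
  refine ((List.finite_length_eq S n).image (List.map Subtype.val)).subset ?_
  rintro l ⟨hl, hS'⟩
  refine ⟨l.attachWith (· ∈ S) hS', ?_, ?_⟩
  · change (l.attachWith (· ∈ S) hS').length = n
    rw [List.length_attachWith, hl]
  · have h := List.attachWith_map_val (f := fun x : X => x) (p := (· ∈ S)) (l := l) hS'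
    rw [List.map_id'] at h
    exact h

theorem exists_denom {ι : Type} (T : Set ι) (hT : T.Finite) (f : ι → ℚ) :
    ∃ m : ℕ, 0 < m ∧ ∀ i ∈ T, ∃ z : ℤ, (m : ℚ) * f i = z := by
  classical
  refine ⟨∏ i ∈ hT.toFinset, (f i).den, Finset.prod_pos fun i _ => (f i).den_pos,
    fun i hi => ?_⟩
  obtain ⟨k, hk⟩ := Finset.dvd_prod_of_mem (fun i => (f i).den) (hT.mem_toFinset.2 hi)
  refine ⟨(k : ℤ) * (f i).num, ?_⟩
  rw [hk]
  push_cast
  rw [← Rat.mul_den_eq_num (f i)]
  ring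

end TOR

open TOR in
theorem t_TOR : M_TOR := by
  intro hFSL X _ _ q U c hc hb
  obtain ⟨b, hbdg, ⟨ε₃, h3, h3'⟩, ⟨ε₄, h4, h4'⟩⟩ := hb
  obtain ⟨ε₁, h1, h1'⟩ := hc.rel
  obtain ⟨ε₂, h2, h2'⟩ := hc.cyc
  obtain ⟨ε, hε, he1, he2, he3, he4⟩ : ∃ ε : ℝ, 0 < ε ∧ ε ≤ ε₁ ∧ ε ≤ ε₂ ∧ ε ≤ ε₃ ∧ ε ≤ ε₄ :=
    ⟨min (min ε₁ ε₂) (min ε₃ ε₄), lt_min (lt_min h1 h2) (lt_min h3 h4),
      (min_le_left _ _).trans (min_le_left _ _), (min_le_left _ _).trans (min_le_right _ _),
      (min_le_right _ _).trans (min_le_left _ _), (min_le_right _ _).trans (min_le_right _ _)⟩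
  have hε4 : 0 < ε / 4 := by positivity
  have hrel : ∀ l ∈ Small Uᶜ ε, c l = 0 := fun l hl => h1' l (Small.mono Subset.rfl he1 hl)
  have hcyc : ∀ l ∈ Small (univ : Set X) ε, dd c l = 0 := fun l hl =>
    h2' l (Small.mono Subset.rfl he2 hl)
  have hbrel : ∀ l ∈ Small Uᶜ ε, b l = 0 := fun l hl => h3' l (Small.mono Subset.rfl he3 hl)
  have hcb : ∀ l ∈ Small (univ : Set X) ε, (c l : ℚ) = dd b l := fun l hl =>
    sub_eq_zero.1 (h4' l (Small.mono Subset.rfl he4 hl))
  obtain ⟨r, hrf, hr⟩ := hFSL X (ε / 4) hε4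
  have hbd : BdO q U (c - pull r c) := by
    have h := bd_of_contig (f := id) (g := r) (A := univ) (A' := Uᶜ) (B := univ) (B' := Uᶜ)
      hc.deg hrel hcyc hε4 (fun l hl => small_join hε hr hl) (fun l hl => small_join hε hr hl)
    have h3 := h.neg
    rwa [neg_sub, pull_id] at h3
  have hT := finite_lists hrf q.toNat
  obtain ⟨m, hm, hmz⟩ := exists_denom _ hT b
  have hz : ∀ l : List X, ∃ z : ℤ, (m : ℚ) * b (l.map r) = z := by
    intro l
    by_cases h0 : b (l.map r) = 0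
    · exact ⟨0, by rw [h0]; simp⟩
    · refine hmz _ ⟨?_, fun x hx => ?_⟩
      · have := (hbdg _ h0).2
        omega
      · obtain ⟨y, -, rfl⟩ := List.mem_map.1 hx
        exact mem_range_self y
  choose e he using hz
  have hfun : (fun l => (e l : ℚ)) = (m : ℚ) • pull r b := by
    funext l
    rw [← he l]
    rfl
  have hzero : ∀ l, b (l.map r) = 0 → e l = 0 := by
    intro l hl
    have h := he l
    rw [hl, mul_zero] at h
    exact_mod_cast h.symm
  have hpull : BdO q U ((m : ℤ) • pull r c) := by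
    refine ⟨e, ?_, ?_, ?_⟩
    · intro l hl
      have h0 : b (l.map r) ≠ 0 := fun h => hl (hzero l h)
      obtain ⟨h3, h4⟩ := hbdg _ h0
      rw [List.length_map] at h4
      exact ⟨fun h => h3 (by rw [h]; rfl), h4⟩
    · exact ⟨ε / 4, hε4, fun l hl => hzero l (hbrel _ (small_map hε hr hl))⟩
    · refine ⟨ε / 4, hε4, fun l hl => ?_⟩
      have h3 : dd (fun l => (Int.castAddHom ℚ) (e l)) l = (Int.castAddHom ℚ) (dd e l) :=
        dd_map (Int.castAddHom ℚ) e l
      have h4 : (fun l => (Int.castAddHom ℚ) (e l)) = (m : ℚ) • pull r b := hfun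
      rw [h4, dd_smul, dd_pull, Pi.smul_apply] at h3
      have h5 : pull r (dd b) l = (c (l.map r) : ℚ) := (hcb _ (small_map hε hr hl)).symm
      rw [h5] at h3
      have h6 : ((dd e l : ℤ) : ℚ) = (m : ℚ) * (c (l.map r) : ℚ) := h3.symm
      have h7 : dd e l = (m : ℤ) * c (l.map r) := by exact_mod_cast h6
      show (m : ℤ) • c (l.map r) - dd e l = 0
      rw [h7, smul_eq_mul, sub_self]
  refine ⟨m, hm, ?_⟩
  have h5 : BdO q U ((m : ℤ) • (c - pull r c) + (m : ℤ) • pull r c) :=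
    Bd.add (hbd.smul (m : ℤ)) hpull
  rwa [← smul_add, sub_add_cancel] at h5

end BBH
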