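import Pool.Agent.BBH.Germ

/-!
# BBH: the cohomology modules

`H R M p A B` is the `R`-module `H^p(A, B; M)`; `cls c h` is the class of the cocycle `c`; `res` is the restriction
to a smaller pair.  `HO R M p V` is `H^p_c(V; M)` for an open set `V` and `ext` the extension by zero.
-/

set_option autoImplicit false
set_option linter.unusedSectionVars false

namespace BBH

open Set Topology

section

variable (R M : Type) {X : Type} [CommRing R] [AddCommGroup M] [Module R M] [MetricSpace X]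

/-- cocycles -/
def ZZ (p : ℤ) (A B : Set X) : Submodule R (Cc M X) where
  carrier := {c | Cyc p A B c}
  zero_mem' := Cyc.zero
  add_mem' := fun h h' => Cyc.add h h'
  smul_mem' := fun a _ h => Cyc.smul a h

/-- coboundaries, as a submodule of the cocycles -/
def BB (p : ℤ) (A B : Set X) : Submodule R (ZZ R M p A B) where
  carrier := {c | Bd p A B (c : Cc M X)}
  zero_mem' := Bd.zero
  add_mem' := fun h h' => Bd.add h h'
  smul_mem' := fun a _ h => Bd.smul a h

/-- `H^p(A, B; M)` -/
abbrev H (p : ℤ) (A B : Set X) : Type := (ZZ R M p A B) ⧸ (BB R M p A B)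

/-- restriction of cocycles -/
def resZ {p : ℤ} {A B A' B' : Set X} (hA : A' ⊆ A) (hB : B' ⊆ B) :
    ZZ R M p A B →ₗ[R] ZZ R M p A' B' :=
  Submodule.inclusion (fun _ h => Cyc.mono h hA hB)

/-- restriction to a smaller pair -/
def res {p : ℤ} {A B A' B' : Set X} (hA : A' ⊆ A) (hB : B' ⊆ B) :
    H R M p A B →ₗ[R] H R M p A' B' :=
  Submodule.mapQ _ _ (resZ R M hA hB) (fun _ h => Bd.mono h hA hB)

/-- the class of a cocycle -/
def cls {M X : Type} [AddCommGroup M] [Module R M] [MetricSpace X] {p : ℤ} {A B : Set X}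
    (c : Cc M X) (h : Cyc p A B c) : H R M p A B :=
  Submodule.Quotient.mk ⟨c, h⟩

end

section

variable {R M X : Type} [CommRing R] [AddCommGroup M] [Module R M] [MetricSpace X]
  {p : ℤ} {A B A' B' A'' B'' : Set X}

theorem cls_surj (a : H R M p A B) : ∃ (c : Cc M X) (h : Cyc p A B c), cls R c h = a := by
  obtain ⟨⟨c, h⟩, rfl⟩ := Submodule.Quotient.mk_surjective _ a
  exact ⟨c, h, rfl⟩

theorem cls_eq_zero {c : Cc M X} (h : Cyc p A B c) : cls R c h = 0 ↔ Bd p A B c := by
  rw [cls, Submodule.Quotient.mk_eq_zero]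
  exact Iff.rfl

theorem cls_eq {c c' : Cc M X} (h : Cyc p A B c) (h' : Cyc p A B c') :
    cls R c h = cls R c' h' ↔ Bd p A B (c - c') := by
  rw [cls, cls, Submodule.Quotient.eq]
  exact Iff.rfl

theorem cls_add {c c' : Cc M X} (h : Cyc p A B c) (h' : Cyc p A B c') :
    cls R (c + c') (h.add h') = cls R c h + cls R c' h' := rfl

theorem cls_sub {c c' : Cc M X} (h : Cyc p A B c) (h' : Cyc p A B c') :
    cls R (c - c') (h.sub h') = cls R c h - cls R c' h' := rfl

theorem cls_smul {c : Cc M X} (a : R) (h : Cyc p A B c) :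
    cls R (a • c) (h.smul a) = a • cls R c h := rfl

@[simp] theorem res_cls {c : Cc M X} (h : Cyc p A B c) (hA : A' ⊆ A) (hB : B' ⊆ B) :
    res R M hA hB (cls R c h) = cls R c (h.mono hA hB) := rfl

theorem res_res (hA : A' ⊆ A) (hB : B' ⊆ B) (hA' : A'' ⊆ A') (hB' : B'' ⊆ B')
    (a : H R M p A B) :
    res R M hA' hB' (res R M hA hB a) = res R M (hA'.trans hA) (hB'.trans hB) a := by
  obtain ⟨c, h, rfl⟩ := cls_surj a
  rfl

theorem res_self (a : H R M p A B) : res R M Subset.rfl Subset.rfl a = a := by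
  obtain ⟨c, h, rfl⟩ := cls_surj a
  rfl

/-- linear maps out of the cohomology -/
theorem exists_lift {N : Type} [AddCommGroup N] [Module R N] (f : ZZ R M p A B →ₗ[R] N)
    (hf : ∀ c : ZZ R M p A B, Bd p A B (c : Cc M X) → f c = 0) :
    ∃ F : H R M p A B →ₗ[R] N, ∀ c (h : Cyc p A B c), F (cls R c h) = f ⟨c, h⟩ :=
  ⟨Submodule.liftQ _ f (fun c hc => hf c hc), fun _ _ => rfl⟩

variable (R M) in
/-- `H^p_c(V; M)` -/
abbrev HO (p : ℤ) (V : Set X) : Type := H R M p univ Vᶜ

variable (R M) in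
/-- extension by zero -/
def ext {p : ℤ} {V W : Set X} (h : V ⊆ W) : HO R M p V →ₗ[R] HO R M p W :=
  res R M Subset.rfl (compl_subset_compl.2 h)

@[simp] theorem ext_cls {V W : Set X} {c : Cc M X} (h : CyO p V c) (hV : V ⊆ W) :
    ext R M hV (cls R c h) = cls R c (h.mono hV) := rfl

theorem ext_ext {V W U : Set X} (h : V ⊆ W) (h' : W ⊆ U) (a : HO R M p V) :
    ext R M h' (ext R M h a) = ext R M (h.trans h') a := by
  obtain ⟨c, h, rfl⟩ := cls_surj a
  rfl

theorem ext_self {V : Set X} (a : HO R M p V) : ext R M Subset.rfl a = a := by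
  obtain ⟨c, h, rfl⟩ := cls_surj a
  rfl

/-- a linear functional `s` on cochains vanishes on the coboundaries in `V`: it is a functional on `H^p_c(V)`
(the same `s` is its restriction to smaller open sets) -/
def Kil {k X : Type} [Field k] [MetricSpace X] (p : ℤ) (V : Set X) (s : Cc k X →ₗ[k] k) : Prop :=
  ∀ c, CyO p V c → BdO p V c → s c = 0

/-- the germ of the functional `s` at `x` is zero -/
def Zg {k X : Type} [Field k] [MetricSpace X] (p : ℤ) (s : Cc k X →ₗ[k] k) (x : X) : Prop :=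
  ∃ W : Set X, IsOpen W ∧ x ∈ W ∧ ∀ c, CyO p W c → s c = 0

theorem Kil.mono {k X : Type} [Field k] [MetricSpace X] {p : ℤ} {V W : Set X}
    {s : Cc k X →ₗ[k] k} (h : Kil p W s) (hV : V ⊆ W) : Kil p V s :=
  fun c hc hb => h c (hc.mono hV) (hb.mono hV)

end

end BBH
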