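import Pool.Agent.BBH.B_PNT
import Pool.Agent.BBH.B_CTR
import Pool.Agent.BBH.B_CON
import Pool.Agent.BBH.B_MVC
import Pool.Agent.BBH.B_MVO
import Pool.Agent.BBH.B_NBH
import Pool.Agent.BBH.B_CUT
import Pool.Agent.BBH.B_TRP
import Pool.Agent.BBH.B_VA1
import Pool.Agent.BBH.B_ARC
import Pool.Agent.BBH.B_FGU
import Pool.Agent.BBH.B_FGR
import Pool.Agent.BBH.B_FGC
import Pool.Agent.BBH.B_HUL
import Pool.Agent.BBH.B_FIN
import Pool.Agent.BBH.B_FIO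
import Pool.Agent.BBH.B_CMB
import Pool.Agent.BBH.B_DIM
import Pool.Agent.BBH.B_LPX
import Pool.Agent.BBH.B_OUT
import Pool.Agent.BBH.B_OUS
import Pool.Agent.BBH.C_UCA
import Pool.Agent.BBH.C_UCB
import Pool.Agent.BBH.C_UC
import Pool.Agent.BBH.C_GEN
import Pool.Agent.BBH.C_SRJ
import Pool.Agent.BBH.C_FDV
import Pool.Agent.BBH.C_EXJ
import Pool.Agent.BBH.C_NZA
import Pool.Agent.BBH.C_NZB
import Pool.Agent.BBH.C_NSB
import Pool.Agent.BBH.C_GNB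
import Pool.Agent.BBH.C_HAR
import Pool.Agent.BBH.C_HAS
import Pool.Agent.BBH.D_HPF
import Pool.Agent.BBH.D_LNA
import Pool.Agent.BBH.D_EXS
import Pool.Agent.BBH.D_TRN
import Pool.Agent.BBH.D_SLL
import Pool.Agent.BBH.D_ALX
import Pool.Agent.BBH.D_ZNZ
import Pool.Agent.BBH.D_DVP
import Pool.Agent.BBH.D_FGD
import Pool.Agent.BBH.D_PRM
import Pool.Agent.BBH.D_GNX
import Pool.Agent.BBH.E_GEQ
import Pool.Agent.BBH.E_LT0
import Pool.Agent.BBH.E_LT1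
import Pool.Agent.BBH.E_MOA
import Pool.Agent.BBH.E_MOC
import Pool.Agent.BBH.E_MOD
import Pool.Agent.BBH.E_MOE
import Pool.Agent.BBH.E_LT2
import Pool.Agent.BBH.E_NZK
import Pool.Agent.BBH.F_KA
import Pool.Agent.BBH.F_KB
import Pool.Agent.BBH.F_KC
import Pool.Agent.BBH.F_KD
import Pool.Agent.BBH.F_KE
import Pool.Agent.BBH.F_KF
import Pool.Agent.BBH.F_KG
import Pool.Agent.BBH.F_KH
import Pool.Agent.BBH.F_KEY
import Pool.Agent.BBH.G_ARI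
import Pool.Agent.BBH.G_LAM
import Pool.Agent.BBH.G_CFG
import Pool.Agent.BBH.G_THK
import Pool.Agent.BBH.G_STP
import Pool.Agent.BBH.G_DPL
import Pool.Agent.BBH.G_RKA
import Pool.Agent.BBH.G_RKB
import Pool.Agent.BBH.G_PRG
import Pool.Agent.BBH.G_FRS
import Pool.Agent.BBH.G_FRH
import Pool.Agent.BBH.G_LNL
import Pool.Agent.BBH.G_CNT
import Pool.Agent.BBH.G_LEC
import Pool.Agent.BBH.G_LED
import Pool.Agent.BBH.G_LEV
import Pool.Agent.BBH.G_ONE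
import Pool.Agent.BBH.H_DVU
import Pool.Agent.BBH.H_LFT
import Pool.Agent.BBH.H_FSL
import Pool.Agent.BBH.H_TOR
import Pool.Agent.BBH.H_RAT
import Pool.Agent.BBH.H_SZN
import Pool.Agent.BBH.H_LTZ
import Pool.Agent.BBH.H_SJZ
import Pool.Agent.BBH.H_ALZ
import Pool.Agent.BBH.H_HZ3
import Pool.Agent.BBH.H_ORA
import Pool.Agent.BBH.H_ORG
import Pool.Agent.BBH.H_ORI
import Pool.Agent.BBH.H_CLA
import Pool.Agent.BBH.H_NCT
import Pool.Agent.BBH.H_CMK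
import Pool.Agent.BBH.H_CMZ
import Pool.Agent.BBH.H_COR
import Pool.Agent.BBP.B_PTM
import Pool.Agent.BBP.B_PTA
import Pool.Agent.BBP.B_ARB
import Pool.Agent.BBP.B_GLU
import Pool.Agent.CTO.SHR
import Pool.Agent.CTO.OBS0
import Pool.Agent.CTO.GP
import Pool.Agent.CTO.APX4
import Pool.Agent.CTO.EXT4

/-!
# BBH: assembly
-/

set_option autoImplicit false

namespace BBH

open Set Topology CTO

theorem s_EXT4 : S_EXT4 := CTO.t_EXT4 (CTO.t_APX4 CTO.t_GP)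
theorem s_OBS0 : S_OBS0 := CTO.t_OBS0
theorem bbpPTA : BBP.S_PTA := BBP.t_PTA BBP.t_PTM
theorem bbpARB : BBP.S_ARB := BBP.t_ARB
theorem bbpGLU : BBP.S_GLU := BBP.t_GLU
theorem s_PNT : S_PNT := t_PNT
theorem s_CTR : S_CTR := t_CTR s_PNT
theorem s_CON : S_CON := t_CON
theorem s_MVC : S_MVC := t_MVC
theorem s_MVO : S_MVO := t_MVO
theorem s_NBH : S_NBH := t_NBH
theorem s_CUT : S_CUT := t_CUT
theorem s_TRP : S_TRP := t_TRP
theorem s_VA1 : S_VA1 := t_VA1 s_PNT s_MVC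
theorem s_ARC : S_ARC := t_ARC s_MVC s_VA1
theorem s_FGU : S_FGU := t_FGU
theorem s_FGR : S_FGR := t_FGR
theorem s_FGC : S_FGC := t_FGC s_CTR s_CON s_FGU
theorem s_HUL : S_HUL := t_HUL
theorem s_FIN : S_FIN := t_FIN s_FGR s_FGC s_HUL
theorem s_FIO : S_FIO := t_FIO s_FIN
theorem s_CMB : S_CMB := t_CMB
theorem s_DIM : S_DIM := t_DIM s_CMB
theorem s_LPX : S_LPX := t_LPX
theorem s_OUT : S_OUT := t_OUT
theorem s_OUS : S_OUS := t_OUS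
theorem s_UCA : S_UCA := t_UCA s_FIO
theorem s_UCB : S_UCB := t_UCB s_TRP
theorem s_UC : S_UC := t_UC s_UCA s_UCB
theorem s_GEN : S_GEN := t_GEN s_DIM s_MVO s_NBH
theorem s_SRJ : S_SRJ := t_SRJ s_UC s_GEN
theorem s_FDV : S_FDV := t_FDV s_FIO
theorem s_EXJ : S_EXJ := t_EXJ s_CUT
theorem s_NZA : S_NZA := t_NZA s_GEN s_TRP
theorem s_NZB : S_NZB := t_NZB
theorem s_NSB : S_NSB := t_NSB s_EXJ s_MVO
theorem s_GNB : S_GNB := t_GNB s_PNT s_CUT s_ARC s_NSB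
theorem s_HAR : S_HAR := t_HAR s_FDV s_OUS s_LPX s_EXJ s_NBH s_PNT
theorem s_HAS : S_HAS := t_HAS s_EXJ
theorem s_HPF : S_HPF := t_HPF
theorem s_LNA : S_LNA := t_LNA s_HPF
theorem s_EXS : S_EXS := t_EXS s_EXT4
theorem s_TRN : S_TRN := t_TRN
theorem s_SLL : S_SLL := t_SLL s_HPF
theorem s_ALX : S_ALX := t_ALX s_HPF s_LNA s_EXS s_TRN s_SLL
theorem s_ZNZ : S_ZNZ := t_ZNZ s_OBS0 s_ALX s_DIM
theorem s_DVP : S_DVP := t_DVP
theorem s_FGD : S_FGD := t_FGD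
theorem s_PRM : S_PRM := t_PRM s_NBH s_FIO s_ZNZ s_DVP s_FGD
theorem s_GNX : S_GNX := t_GNX s_LPX s_PRM s_SRJ s_NZA s_NZB s_GNB
theorem s_GEQ : S_GEQ := t_GEQ s_MVO s_NBH
theorem s_LT0 : S_LT0 := t_LT0 s_CON
theorem s_LT1 : S_LT1 := t_LT1 s_CTR s_CON s_OUT s_LPX
theorem s_MOA : S_MOA := t_MOA s_ARC s_CON
theorem s_MOC : S_MOC := t_MOC s_MOA
theorem s_MOD : S_MOD := t_MOD s_MOA bbpPTA
theorem s_MOE : S_MOE := t_MOE s_MOA
theorem s_LT2 : S_LT2 := t_LT2 s_UC s_FIO s_CTR s_LPX s_MOA s_MOC s_MOD s_MOE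
theorem s_NZK : S_NZK := t_NZK s_NZA s_GEQ s_LT0 s_LT1 s_LT2
theorem s_KA : S_KA := t_KA
theorem s_KB : S_KB := t_KB
theorem s_KC : S_KC := t_KC
theorem s_KD : S_KD := t_KD s_PNT
theorem s_KE : S_KE := t_KE
theorem s_KF : S_KF := t_KF s_CON s_KD s_KE
theorem s_KG : S_KG := t_KG s_CON s_KE
theorem s_KH : S_KH := t_KH
theorem s_KEY : S_KEY := t_KEY s_KA s_KB s_KC s_KF s_KG s_KH
theorem s_ARI : S_ARI := t_ARI
theorem s_LAM : S_LAM := t_LAM bbpPTA bbpARB bbpGLU s_ARI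
theorem s_CFG : S_CFG := t_CFG s_LAM
theorem s_THK : S_THK := t_THK
theorem s_STP : S_STP := t_STP s_NZB s_HAR
theorem s_DPL : S_DPL := t_DPL s_HAR s_HAS s_LPX s_CTR
theorem s_RKA : S_RKA := t_RKA s_PNT s_ARC
theorem s_RKB : S_RKB := t_RKB s_NBH s_FIN
theorem s_PRG : S_PRG := t_PRG
theorem s_FRS : S_FRS := t_FRS s_FDV
theorem s_FRH : S_FRH := t_FRH s_TRP s_FRS
theorem s_LNL : S_LNL := t_LNL
theorem s_CNT : S_CNT := t_CNT s_LNL s_FDV s_MVO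
theorem s_LEC : S_LEC := t_LEC s_DPL s_CFG s_ARC s_FRH s_THK s_OUT s_NSB s_RKA s_RKB s_FRS s_PRG
theorem s_LED : S_LED := t_LED s_CNT s_MVO s_KEY
theorem s_LEV : S_LEV := t_LEV s_STP s_LEC s_LED s_FRS
theorem s_ONE : S_ONE := t_ONE s_LEV s_LPX s_SRJ s_GNX s_NZK s_LT2 s_FDV s_NZB
theorem s_DVU : S_DVU := t_DVU
theorem s_LFT : S_LFT := t_LFT s_DIM
theorem s_FSL : S_FSL := t_FSL
theorem s_TOR : S_TOR := t_TOR s_FSL
theorem s_RAT : S_RAT := t_RAT s_FSL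
theorem s_SZN : S_SZN := t_SZN s_DVU
theorem s_LTZ : S_LTZ := t_LTZ s_TOR s_SZN s_FIO
theorem s_SJZ : S_SJZ := t_SJZ s_GEN s_THK s_FIO s_LFT s_DVU s_FGD
theorem s_ALZ : S_ALZ := t_ALZ
theorem s_HZ3 : S_HZ3 := t_HZ3 s_ALZ s_FIO s_RAT s_DVU
theorem s_ORA : S_ORA := t_ORA s_GEN
theorem s_ORG : S_ORG := t_ORG s_DIM s_MVO s_ORA
theorem s_ORI : S_ORI := t_ORI s_ORG
theorem s_CLA : S_CLA := t_CLA s_DIM
theorem s_NCT : S_NCT := t_NCT s_CTR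
theorem s_CMK : S_CMK := t_CMK s_LT0 s_LT1 s_LT2 s_GNX s_DIM s_ONE s_SRJ
theorem s_CMZ : S_CMZ := t_CMZ s_LPX s_LT0 s_LT1 s_LT2 s_LTZ s_GNX s_DIM s_ONE s_SRJ s_SJZ s_HZ3
theorem s_COR : S_COR := t_COR s_LPX s_ORI s_SRJ s_ONE s_NSB s_NCT s_CLA s_CMZ

/-- MAIN. Homogeneous compact ANRs of dimension 3 are cohomology 3-manifolds over `ℤ` and over all countable fields. -/
theorem main (X : Type) [MetricSpace X] [CompactSpace X] (hA : IsANR X) (hH : Homog X)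
    (h3 : CovDimLE X 3) (h2 : ¬ CovDimLE X 2) :
    CohMfd ℤ 3 X ∧ ∀ (k : Type) [Field k] [Countable k], CohMfd k 3 X := by
  have h3' : ShrLE X 3 := (CTO.t_SHR X 3).1 h3
  have h2' : ¬ ShrLE X 2 := fun h => h2 ((CTO.t_SHR X 2).2 h)
  exact ⟨(s_CMZ X hA hH h3' h2').2, fun k _ _ => s_CMK k X hA hH h3' h2'⟩

end BBH
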