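import Pool.Agent.BBH.Hmod

/-!
# BBH: maps and homotopies

`PMap f A A' B B'`: `f` is uniformly continuous at the points of `A` and maps `(A, A')` to `(B, B')`; `A'` need not be
closed.  (Adapted from `Pool/Agent/VC/MapX.lean`.)
-/

set_option autoImplicit false
set_option linter.unusedSectionVars false
set_option linter.unusedVariables false

namespace BBH

open Set Filter Topology

variable {M X Y V : Type} [AddCommGroup M]
variable [MetricSpace X] [MetricSpace Y] [MetricSpace V]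

/-! ### Uniform continuity at the points of a compact set -/

/-- Uniform continuity of `f` at the points of `A`. -/
def UAt (f : X → Y) (A : Set X) : Prop :=
  ∀ ε > 0, ∃ δ > 0, ∀ a ∈ A, ∀ x, dist x a < δ → dist (f x) (f a) < ε

theorem UAt.mono {f : X → Y} {A A' : Set X} (h : UAt f A) (hA : A' ⊆ A) : UAt f A' := by
  intro ε hε
  obtain ⟨δ, hδ, h'⟩ := h ε hε
  exact ⟨δ, hδ, fun a ha => h' a (hA ha)⟩

theorem uAt_of_CA {f : X → Y} {A : Set X} (hA : IsCompact A)
    (h : ∀ x ∈ A, ContinuousAt f x) : UAt f A := by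
  intro ε hε
  have h1 := hA.uniformContinuousAt_of_continuousAt f h (Metric.dist_mem_uniformity hε)
  obtain ⟨δ, hδ, h2⟩ := Metric.mem_uniformity_dist.1 h1
  refine ⟨δ, hδ, fun a ha x hx => ?_⟩
  rw [dist_comm] at hx
  have h3 : dist (f a) (f x) < ε := h2 hx ha
  rwa [dist_comm] at h3

/-- Two functions that are equal on `A` map small lists near `A` to joint small lists. -/
theorem UAt.small2 {f g : X → Y} {A : Set X} {B : Set Y} (hf : UAt f A) (hg : UAt g A)
    (hfg : EqOn f g A) (hB : MapsTo f A B) {ε : ℝ} (hε : 0 < ε) :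
    ∃ δ > 0, ∀ l ∈ Small A δ, l.map f ++ l.map g ∈ Small B ε := by
  obtain ⟨δ₁, h1, h1'⟩ := hf (ε / 2) (by positivity)
  obtain ⟨δ₂, h2, h2'⟩ := hg (ε / 2) (by positivity)
  have hm : 0 < min δ₁ δ₂ := lt_min h1 h2
  refine ⟨min δ₁ δ₂ / 2, by positivity, fun l hl => ?_⟩
  -- every member of the joint list is near `f a`, for any `a ∈ A` near a member of `l`
  have key : ∀ x ∈ l, ∀ a ∈ A, dist x a < min δ₁ δ₂ / 2 → ∀ y ∈ l,
      dist (f y) (f a) < ε / 2 ∧ dist (g y) (f a) < ε / 2 := by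
    intro x hx a ha hxa y hy
    have h3 : dist y a < min δ₁ δ₂ := by
      have := dist_triangle y x a
      have := hl.2 y hy x hx
      linarith
    refine ⟨h1' a ha y (lt_of_lt_of_le h3 (min_le_left _ _)), ?_⟩
    rw [hfg ha]
    exact h2' a ha y (lt_of_lt_of_le h3 (min_le_right _ _))
  have mem : ∀ y ∈ l.map f ++ l.map g, ∃ x ∈ l, y = f x ∨ y = g x := by
    intro y hy
    rcases List.mem_append.1 hy with h | h
    · obtain ⟨x, hx, rfl⟩ := List.mem_map.1 h
      exact ⟨x, hx, Or.inl rfl⟩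
    · obtain ⟨x, hx, rfl⟩ := List.mem_map.1 h
      exact ⟨x, hx, Or.inr rfl⟩
  refine ⟨fun y hy => ?_, fun y hy z hz => ?_⟩
  · obtain ⟨x, hx, h⟩ := mem y hy
    obtain ⟨a, ha, hxa⟩ := Metric.mem_thickening_iff.1 (hl.1 x hx)
    have h3 := key x hx a ha hxa x hx
    refine Metric.mem_thickening_iff.2 ⟨f a, hB ha, ?_⟩
    rcases h with rfl | rfl
    · linarith [h3.1]
    · linarith [h3.2]
  · obtain ⟨x, hx, h⟩ := mem y hy
    obtain ⟨x', hx', h'⟩ := mem z hz
    obtain ⟨a, ha, hxa⟩ := Metric.mem_thickening_iff.1 (hl.1 x hx)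
    have h3 := key x hx a ha hxa x hx
    have h4 := key x hx a ha hxa x' hx'
    have h5 : dist y (f a) < ε / 2 := by
      rcases h with rfl | rfl
      · exact h3.1
      · exact h3.2
    have h6 : dist z (f a) < ε / 2 := by
      rcases h' with rfl | rfl
      · exact h4.1
      · exact h4.2
    have := dist_triangle_right y z (f a)
    linarith

theorem UAt.small {f : X → Y} {A : Set X} {B : Set Y} (hf : UAt f A) (hB : MapsTo f A B)
    {ε : ℝ} (hε : 0 < ε) : ∃ δ > 0, ∀ l ∈ Small A δ, l.map f ∈ Small B ε := by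
  obtain ⟨δ, hδ, h⟩ := hf.small2 hf (fun _ _ => rfl) hB hε
  exact ⟨δ, hδ, fun l hl => Small.cl B ε _ (h l hl) _ (List.subset_append_left _ _)⟩

theorem UAt.pull_Z {f : X → Y} {A : Set X} {B : Set Y} (hf : UAt f A) (hB : MapsTo f A B)
    {c : Cc M Y} (hc : Zr B c) : Zr A (pull f c) := by
  obtain ⟨ε, hε, hc⟩ := hc
  obtain ⟨δ, hδ, h⟩ := hf.small hB hε
  exact ⟨δ, hδ, fun l hl => hc _ (h l hl)⟩

theorem UAt.pr_Z {f g : X → Y} {A : Set X} {B : Set Y} (hf : UAt f A) (hg : UAt g A)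
    (hfg : EqOn f g A) (hB : MapsTo f A B) {c : Cc M Y} (hc : Zr B c) : Zr A (pr f g c) := by
  obtain ⟨ε, hε, hc⟩ := hc
  obtain ⟨δ, hδ, h⟩ := hf.small2 hg hfg hB hε
  exact ⟨δ, hδ, fun l hl => pr_van f g fun l' hl' => hc _ (Small.cl B ε _ (h l hl) _ hl')⟩

/-! ### Induced maps -/

/-- `f` is continuous at the points of the compact set `A` and maps `(A, A')` to `(B, B')`. -/
structure PMap (f : X → Y) (A A' : Set X) (B B' : Set Y) : Prop where
  uat : UAt f A
  sub : A' ⊆ A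
  maps : MapsTo f A B
  maps' : MapsTo f A' B'

theorem PMap.of_CA {f : X → Y} {A A' : Set X} {B B' : Set Y} (hA : IsCompact A)
    (hf : ∀ x ∈ A, ContinuousAt f x) (hs : A' ⊆ A) (h : MapsTo f A B) (h' : MapsTo f A' B') : PMap f A A' B B' :=
  ⟨uAt_of_CA hA hf, hs, h, h'⟩

theorem PMap.of_continuous {f : X → Y} {A A' : Set X} {B B' : Set Y} (hA : IsCompact A)
    (hf : Continuous f) (hs : A' ⊆ A) (h : MapsTo f A B) (h' : MapsTo f A' B') :
    PMap f A A' B B' := PMap.of_CA hA (fun _ _ => hf.continuousAt) hs h h'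

theorem UAt.comp {f : X → Y} {g : Y → V} {A : Set X} {B : Set Y} (hf : UAt f A) (hg : UAt g B)
    (h : MapsTo f A B) : UAt (g ∘ f) A := by
  intro ε hε
  obtain ⟨δ, hδ, h1⟩ := hg ε hε
  obtain ⟨δ', hδ', h2⟩ := hf δ hδ
  exact ⟨δ', hδ', fun a ha x hx => h1 _ (h ha) _ (h2 a ha x hx)⟩

theorem PMap.comp {f : X → Y} {g : Y → V} {A A' : Set X} {B B' : Set Y} {C C' : Set V}
    (hf : PMap f A A' B B') (hg : PMap g B B' C C') : PMap (g ∘ f) A A' C C' :=
  ⟨hf.uat.comp hg.uat hf.maps, hf.sub, hg.maps.comp hf.maps, hg.maps'.comp hf.maps'⟩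

theorem UAt.id (A : Set X) : UAt (id : X → X) A := fun ε hε => ⟨ε, hε, fun _ _ _ h => h⟩

theorem PMap.id {A A' : Set X} (h : A' ⊆ A) : PMap (id : X → X) A A' A A' :=
  ⟨UAt.id A, h, fun _ h => h, fun _ h => h⟩

theorem cyc_pull {p : ℤ} {f : X → Y} {A A' : Set X} {B B' : Set Y} {c : Cc M Y}
    (hf : PMap f A A' B B') (h : Cyc p B B' c) : Cyc p A A' (pull f c) :=
  ⟨h.deg.pull f, (hf.uat.mono hf.sub).pull_Z hf.maps' h.rel, by
    rw [dd_pull]; exact hf.uat.pull_Z hf.maps h.cyc⟩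

theorem bd_pull {p : ℤ} {f : X → Y} {A A' : Set X} {B B' : Set Y} {c : Cc M Y}
    (hf : PMap f A A' B B') (h : Bd p B B' c) : Bd p A A' (pull f c) := by
  obtain ⟨b, h1, h2, h3⟩ := h
  refine ⟨pull f b, h1.pull f, (hf.uat.mono hf.sub).pull_Z hf.maps' h2, ?_⟩
  rw [dd_pull, ← pull_sub]
  exact hf.uat.pull_Z hf.maps h3

/-- Contiguity at a fixed scale. -/
theorem bd_of_contig {p : ℤ} {f g : X → Y} {A A' : Set X} {B B' : Set Y} {c : Cc M Y} {ε δ : ℝ}
    (hd : Dg Y p c) (hc' : ∀ l ∈ Small B' ε, c l = 0) (hc : ∀ l ∈ Small B ε, dd c l = 0)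
    (hδ : 0 < δ) (h : ∀ l ∈ Small A δ, l.map f ++ l.map g ∈ Small B ε)
    (h' : ∀ l ∈ Small A' δ, l.map f ++ l.map g ∈ Small B' ε) :
    Bd p A A' (pull g c - pull f c) := by
  refine ⟨pr f g c, hd.pr f g, ⟨δ, hδ, fun l hl => pr_van f g fun l' hl' =>
    hc' _ (Small.cl B' ε _ (h' l hl) _ hl')⟩, δ, hδ, fun l hl => ?_⟩
  have h1 := prism_apply f g c l
  have h2 : pr f g (dd c) l = 0 := pr_van f g fun l' hl' =>
    hc _ (Small.cl B ε _ (h l hl) _ hl')
  rw [h2, add_zero] at h1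
  simp only [Pi.sub_apply, pull_apply]
  rw [h1]
  exact sub_self _

/-- The induced map depends only on the restriction to `A`. -/
theorem bd_of_eqOn {p : ℤ} {f g : X → Y} {A A' : Set X} {B B' : Set Y} {c : Cc M Y}
    (hf : PMap f A A' B B') (hg : PMap g A A' B B') (hfg : EqOn f g A) (hc : Cyc p B B' c) :
    Bd p A A' (pull g c - pull f c) := by
  obtain ⟨ε₁, h1, h1'⟩ := hc.rel
  obtain ⟨ε₂, h2, h2'⟩ := hc.cyc
  have hm : 0 < min ε₁ ε₂ := lt_min h1 h2
  obtain ⟨δ₁, h3, h3'⟩ := hf.uat.small2 hg.uat hfg hf.maps hm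
  obtain ⟨δ₂, h4, h4'⟩ := (hf.uat.mono hf.sub).small2 (hg.uat.mono hf.sub) (hfg.mono hf.sub)
    hf.maps' hm
  refine bd_of_contig (ε := min ε₁ ε₂) (δ := min δ₁ δ₂) hc.deg
    (fun l hl => h1' l (Small.mono Subset.rfl (min_le_left _ _) hl))
    (fun l hl => h2' l (Small.mono Subset.rfl (min_le_right _ _) hl)) (lt_min h3 h4)
    (fun l hl => h3' l (Small.mono Subset.rfl (min_le_left _ _) hl))
    (fun l hl => h4' l (Small.mono Subset.rfl (min_le_right _ _) hl))

/-! ### Homotopies -/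

/-- Homotopy invariance. `F` is continuous at the points of `A × [0,1]`. -/
theorem bd_of_homotopy {p : ℤ} {F : X × ℝ → Y} {A A' : Set X} {B B' : Set Y} {c : Cc M Y}
    (hF : UAt F (A ×ˢ Icc (0 : ℝ) 1)) (hs : A' ⊆ A)
    (hB : MapsTo F (A ×ˢ Icc (0 : ℝ) 1) B) (hB' : MapsTo F (A' ×ˢ Icc (0 : ℝ) 1) B')
    (hc : Cyc p B B' c) :
    Bd p A A' (pull (fun x => F (x, 1)) c - pull (fun x => F (x, 0)) c) := by
  obtain ⟨ε₁, h1, h1'⟩ := hc.rel
  obtain ⟨ε₂, h2, h2'⟩ := hc.cyc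
  have hm : 0 < min ε₁ ε₂ := lt_min h1 h2
  obtain ⟨δ, hδ, h3⟩ := hF (min ε₁ ε₂ / 2) (by positivity)
  obtain ⟨n, hn⟩ := exists_nat_gt (1 / δ)
  have hn0 : (0 : ℝ) < n := lt_trans (by positivity) hn
  have hn1 : 1 / (n : ℝ) < δ := by
    rw [div_lt_iff₀ hn0]
    rw [div_lt_iff₀ hδ] at hn
    linarith
  -- the points near `A`
  have key : ∀ (S : Set X), S ⊆ A → ∀ (T : Set Y), MapsTo F (S ×ˢ Icc (0 : ℝ) 1) T →
      ∀ k : ℕ, k + 1 ≤ n → ∀ l ∈ Small S (δ / 2),
      l.map (fun x => F (x, (k : ℝ) / n)) ++ l.map (fun x => F (x, ((k + 1 : ℕ) : ℝ) / n)) ∈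
        Small T (min ε₁ ε₂) := by
    intro S hS T hT k hk l hl
    have hk0 : (0 : ℝ) ≤ (k : ℝ) / n := by positivity
    have hk2 : ((k + 1 : ℕ) : ℝ) / n ≤ 1 := by
      rw [div_le_one hn0]
      exact_mod_cast hk
    have hk3 : ((k + 1 : ℕ) : ℝ) / n = (k : ℝ) / n + 1 / n := by
      push_cast
      ring
    have hk1 : (k : ℝ) / n ≤ 1 := by
      have : 0 < 1 / (n : ℝ) := by positivity
      linarith
    have near : ∀ x ∈ l, ∀ a ∈ S, dist x a < δ / 2 → ∀ y ∈ l,
        dist (F (y, (k : ℝ) / n)) (F (a, (k : ℝ) / n)) < min ε₁ ε₂ / 2 ∧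
        dist (F (y, ((k + 1 : ℕ) : ℝ) / n)) (F (a, (k : ℝ) / n)) < min ε₁ ε₂ / 2 := by
      intro x hx a ha hxa y hy
      have h4 : dist y a < δ := by
        have := dist_triangle y x a
        have := hl.2 y hy x hx
        linarith
      have ha' : ((a, (k : ℝ) / n) : X × ℝ) ∈ A ×ˢ Icc (0 : ℝ) 1 := ⟨hS ha, hk0, hk1⟩
      refine ⟨h3 _ ha' _ ?_, h3 _ ha' _ ?_⟩
      · rw [Prod.dist_eq]
        refine max_lt h4 ?_
        rw [dist_self]
        exact hδ
      · rw [Prod.dist_eq]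
        refine max_lt h4 ?_
        rw [hk3, Real.dist_eq]
        have : (k : ℝ) / n + 1 / n - (k : ℝ) / n = 1 / n := by ring
        rw [this, abs_of_pos (by positivity)]
        exact hn1
    have mem : ∀ y ∈ l.map (fun x => F (x, (k : ℝ) / n)) ++
        l.map (fun x => F (x, ((k + 1 : ℕ) : ℝ) / n)), ∃ x ∈ l,
        y = F (x, (k : ℝ) / n) ∨ y = F (x, ((k + 1 : ℕ) : ℝ) / n) := by
      intro y hy
      rcases List.mem_append.1 hy with h | h
      · obtain ⟨x, hx, rfl⟩ := List.mem_map.1 h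
        exact ⟨x, hx, Or.inl rfl⟩
      · obtain ⟨x, hx, rfl⟩ := List.mem_map.1 h
        exact ⟨x, hx, Or.inr rfl⟩
    refine ⟨fun y hy => ?_, fun y hy z hz => ?_⟩
    · obtain ⟨x, hx, h⟩ := mem y hy
      obtain ⟨a, ha, hxa⟩ := Metric.mem_thickening_iff.1 (hl.1 x hx)
      have h4 := near x hx a ha hxa x hx
      refine Metric.mem_thickening_iff.2 ⟨F (a, (k : ℝ) / n), hT ⟨ha, hk0, hk1⟩, ?_⟩
      rcases h with rfl | rfl
      · linarith [h4.1]
      · linarith [h4.2]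
    · obtain ⟨x, hx, h⟩ := mem y hy
      obtain ⟨x', hx', h'⟩ := mem z hz
      obtain ⟨a, ha, hxa⟩ := Metric.mem_thickening_iff.1 (hl.1 x hx)
      have h4 := near x hx a ha hxa x hx
      have h5 := near x hx a ha hxa x' hx'
      have h6 : dist y (F (a, (k : ℝ) / n)) < min ε₁ ε₂ / 2 := by
        rcases h with rfl | rfl
        · exact h4.1
        · exact h4.2
      have h7 : dist z (F (a, (k : ℝ) / n)) < min ε₁ ε₂ / 2 := by
        rcases h' with rfl | rfl
        · exact h5.1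
        · exact h5.2
      have := dist_triangle_right y z (F (a, (k : ℝ) / n))
      linarith
  have step : ∀ k : ℕ, k ≤ n → Bd p A A'
      (pull (fun x => F (x, (k : ℝ) / n)) c - pull (fun x => F (x, 0)) c) := by
    intro k
    induction k with
    | zero =>
      intro _
      simp only [Nat.cast_zero, zero_div]
      rw [sub_self]
      exact Bd.zero
    | succ k ih =>
      intro hk
      refine Bd.trans ?_ (ih (by omega))
      exact bd_of_contig (ε := min ε₁ ε₂) (δ := δ / 2) hc.deg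
        (fun l hl => h1' l (Small.mono Subset.rfl (min_le_left _ _) hl))
        (fun l hl => h2' l (Small.mono Subset.rfl (min_le_right _ _) hl)) (by positivity)
        (key A Subset.rfl B hB k hk) (key A' hs B' hB' k hk)
  have := step n le_rfl
  rwa [div_self hn0.ne'] at this

/-! ### Extending functions from compact sets -/

/-- A nearest point function of a compact set. -/
theorem exists_nearest {A : Set X} (hA : IsCompact A) (hne : A.Nonempty) :
    ∃ r : X → X, (∀ x, r x ∈ A) ∧ (∀ x, ∀ a ∈ A, dist x (r x) ≤ dist x a) := by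
  have : ∀ x, ∃ y ∈ A, Metric.infDist x A = dist x y := fun x => hA.exists_infDist_eq_dist hne x
  choose r hr hr' using this
  exact ⟨r, hr, fun x a ha => by rw [← hr' x]; exact Metric.infDist_le_dist_of_mem ha⟩

/-- A continuous function on a compact set extends to a function that is uniformly continuous at
the points of this set, with values in the image of the set. -/
theorem exists_extend {A : Set X} (hA : IsCompact A) (hne : A.Nonempty) {φ : X → Y}
    (hφ : ContinuousOn φ A) : ∃ f : X → Y, EqOn f φ A ∧ UAt f A ∧ ∀ x, f x ∈ φ '' A := by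
  obtain ⟨r, hr, hr'⟩ := exists_nearest hA hne
  have hu : ∀ ε > 0, ∃ δ > 0, ∀ a ∈ A, ∀ b ∈ A, dist a b < δ → dist (φ a) (φ b) < ε := by
    intro ε hε
    have := hA.uniformContinuousOn_of_continuous hφ
    rw [Metric.uniformContinuousOn_iff] at this
    exact this ε hε
  have hd : ∀ x, ∀ a ∈ A, dist (r x) a ≤ 2 * dist x a := by
    intro x a ha
    have h1 := dist_triangle_left (r x) a x
    have h2 := hr' x a ha
    linarith
  classical
  refine ⟨fun x => if x ∈ A then φ x else φ (r x), fun a ha => if_pos ha, ?_, fun x => ?_⟩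
  · intro ε hε
    obtain ⟨δ, hδ, h⟩ := hu ε hε
    refine ⟨δ / 2, by positivity, fun a ha x hx => ?_⟩
    beta_reduce
    rw [if_pos ha]
    by_cases hxA : x ∈ A
    · rw [if_pos hxA]
      exact h x hxA a ha (by linarith)
    · rw [if_neg hxA]
      exact h _ (hr x) a ha (by linarith [hd x a ha])
  · by_cases hxA : x ∈ A
    · simp only [if_pos hxA]
      exact ⟨x, hxA, rfl⟩
    · simp only [if_neg hxA]
      exact ⟨r x, hr x, rfl⟩

/-- Homotopy invariance, for homotopies that are defined on `A × [0,1]`. -/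
theorem bd_of_homotopyOn {p : ℤ} {φ : X × ℝ → Y} {f g : X → Y} {A A' : Set X} {B B' : Set Y}
    {c : Cc M Y} (hA : IsCompact A) (hφ : ContinuousOn φ (A ×ˢ Icc (0 : ℝ) 1))
    (hf : PMap f A A' B B') (hg : PMap g A A' B B') (hf0 : ∀ a ∈ A, φ (a, 0) = f a)
    (hg1 : ∀ a ∈ A, φ (a, 1) = g a) (hB : MapsTo φ (A ×ˢ Icc (0 : ℝ) 1) B)
    (hB' : MapsTo φ (A' ×ˢ Icc (0 : ℝ) 1) B') (hc : Cyc p B B' c) :
    Bd p A A' (pull g c - pull f c) := by
  rcases A.eq_empty_or_nonempty with rfl | hne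
  · exact Bd.of_Zr (Zr.empty ((hc.deg.pull g).sub (hc.deg.pull f)))
  · obtain ⟨F, hF1, hF2, hF3⟩ := exists_extend (hA.prod isCompact_Icc)
      (hne.prod ⟨0, by simp⟩) hφ
    have e0 : ∀ a ∈ A, F (a, 0) = f a := fun a ha => by
      rw [hF1 ⟨ha, by simp⟩, hf0 a ha]
    have e1 : ∀ a ∈ A, F (a, 1) = g a := fun a ha => by
      rw [hF1 ⟨ha, by simp⟩, hg1 a ha]
    have hs := hf.sub
    have hFB : MapsTo F (A ×ˢ Icc (0 : ℝ) 1) B := fun x hx => by rw [hF1 hx]; exact hB hx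
    have hFB' : MapsTo F (A' ×ˢ Icc (0 : ℝ) 1) B' := fun x hx => by
      rw [hF1 ⟨hs hx.1, hx.2⟩]; exact hB' hx
    have hat : ∀ t ∈ Icc (0 : ℝ) 1, UAt (fun x => F (x, t)) A := by
      intro t ht ε hε
      obtain ⟨δ, hδ, h⟩ := hF2 ε hε
      refine ⟨δ, hδ, fun a ha x hx => h (a, t) ⟨ha, ht⟩ (x, t) ?_⟩
      rw [Prod.dist_eq]
      refine max_lt hx ?_
      rw [dist_self]
      exact hδ
    have hP : ∀ t ∈ Icc (0 : ℝ) 1, PMap (fun x => F (x, t)) A A' B B' := fun t ht =>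
      ⟨hat t ht, hs, fun a ha => hFB ⟨ha, ht⟩, fun a ha => hFB' ⟨ha, ht⟩⟩
    have h1 := bd_of_homotopy hF2 hs hFB hFB' hc
    have h2 := bd_of_eqOn hf (hP 0 (by simp)) (fun a ha => (e0 a ha).symm) hc
    have h3 := bd_of_eqOn (hP 1 (by simp)) hg e1 hc
    exact (h3.trans h1).trans h2


end BBH
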