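import Pool.Agent.BBH.Maps
import Pool.Agent.BBP.StmtsA

/-!
# BBH, block B: basic cohomology

Module `X` proves `theorem t_X : M_X` (or `t_X : S_X` if there is no `M_X`) in the namespace `BBH`, in the file
`Pool/Agent/BBH/B_X.lean`, importing this file.  The files `Core.lean`, `Germ.lean`, `Hmod.lean`, `Maps.lean` (same directory)
contain the definitions and many lemmas: READ THEM FIRST (`Zr.union`, `Zr.inter`, `Zr.nhds`, `les_mid`, `les_right`,
`les_left`, `les_conn`, `cyc_pull`, `bd_pull`, `bd_of_eqOn`, `bd_of_homotopyOn`, `exists_lift`, …).  Similar proofs with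
coefficients mod 2 are in `Pool/Agent/VC/` and `Pool/Agent/TI/Dim.lean`; they may be copied (mind the signs).
`CyO p V c`, `BdO p V c` are `Cyc p univ Vᶜ c`, `Bd p univ Vᶜ c`.
-/

set_option autoImplicit false

namespace BBH

open Set Topology CTO

/-! ## 1. Points, contractible and connected sets -/

/-- PNT. A point. If `l ∈ Small {x} ε` then `x :: l ∈ Small {x} ε`; so `dd c (x :: l) = 0` gives `c l = dd (sh c x) l`. For `p ≥ 1`
`sh c x` has degree `p - 1`. For `p = 0` evaluate at `l = [y]`: `sh c x` is `c [x]` at `[]`. Compare `van_point`, `ext_point` in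
`Pool/Agent/TI/Dim.lean`. -/
def S_PNT : Prop := ∀ (M X : Type) [AddCommGroup M] [MetricSpace X] (x : X),
  (∀ p : ℤ, 1 ≤ p → Van M p {x} ∅) ∧
  ∀ c : Cc M X, Cyc 0 {x} ∅ c → Zr {x} (c - c0 fun _ => c [x])

/-- `K` contracts in `K'` -/
def Ctr {X : Type} [TopologicalSpace X] (K K' : Set X) : Prop :=
  ∃ (w : X) (F : X × ℝ → X), w ∈ K' ∧ ContinuousOn F (K ×ˢ Icc (0 : ℝ) 1) ∧
    MapsTo F (K ×ˢ Icc (0 : ℝ) 1) K' ∧ (∀ x ∈ K, F (x, 0) = x) ∧ ∀ x ∈ K, F (x, 1) = w

/-- CTR. `bd_of_homotopyOn` for `F`, the identity and the constant map `w` gives `Bd p K ∅ (pull (fun _ => w) c - c)`. By S_PNT `c - dd b`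
vanishes near `{w}`, so `pull (fun _ => w) c = dd (pull (fun _ => w) b)` (everywhere: the lists with all members equal to `w` are in
`Small {w} ε`). -/
def S_CTR : Prop := ∀ (M X : Type) [AddCommGroup M] [MetricSpace X] (K K' : Set X),
  IsCompact K → K ⊆ K' → Ctr K K' → ∀ p : ℤ, 1 ≤ p → ∀ c : Cc M X, Cyc p K' ∅ c → Bd p K ∅ c

def M_CTR : Prop := S_PNT → S_CTR

/-- CON. `c [y] - c [x] = dd c [x, y] = 0` for `x, y` near each other and near `A`; so `x ↦ c [x]` is locally constant on `A`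
(and constant `= m` as `A` is preconnected), and `c [y] = m` for `y` near `A`. -/
def S_CON : Prop := ∀ (M X : Type) [AddCommGroup M] [MetricSpace X] (A : Set X),
  IsPreconnected A → ∀ c : Cc M X, Cyc 0 A ∅ c → ∃ m : M, Zr A (c - c0 fun _ => m)

/-! ## 2. Mayer-Vietoris -/

/-- MVC. Mayer-Vietoris for compact sets. `c - dd b₁` vanishes near `A`, `c - dd b₂` near `B`: `e = b₁ - b₂`. Given `e₁`, `e₂` and `f` of degree
`p - 2` such that `w = e - e₁ - e₂ - dd f` vanishes near `A ∩ B`; `Zr.inter`: `w = w₁ + w₂`, `w₁ = ind K w` vanishes near `A`, `w₂` near `B`. Let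
`b = b₁ - e₁ - w₁ = b₂ + e₂ + dd f + w₂`: `c - dd b = (c - dd b₁) + dd e₁ + dd w₁` vanishes near `A`, and `= (c - dd b₂) - dd e₂ - dd w₂`
near `B`; `Zr.union`. -/
def S_MVC : Prop := ∀ (M X : Type) [AddCommGroup M] [MetricSpace X] (p : ℤ) (A B : Set X)
  (c : Cc M X), IsCompact A → IsClosed B → Bd p A ∅ c → Bd p B ∅ c →
  ∃ e : Cc M X, Cyc (p - 1) (A ∩ B) ∅ e ∧ ∀ e₁ e₂ : Cc M X, Cyc (p - 1) A ∅ e₁ →
    Cyc (p - 1) B ∅ e₂ → Bd (p - 1) (A ∩ B) ∅ (e - e₁ - e₂) → Bd p (A ∪ B) ∅ c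

/-- MVO. Mayer-Vietoris for open sets `U`, `V` of a compact space, `MVr p U V c d`: `d` is a representative of the image of `c` under the
connecting homomorphism. (1) `Zr.inter` for `Uᶜ ∩ Vᶜ = (U ∪ V)ᶜ`: `c = c₁ + c₂`; `d = dd c₁`, which vanishes near `Uᶜ` and, as `dd c₁ = dd c - dd c₂`, near
`Vᶜ` (`Zr.union`, `(U ∩ V)ᶜ = Uᶜ ∪ Vᶜ`). (2) `c - dd b` vanishes near `univ`, `b` near `(U ∪ V)ᶜ`, `b = b₁ + b₂` by `Zr.inter`; `e = c₁ - dd b₁`
vanishes near `Uᶜ` and, as `e = (c - dd b) - (c - c₁ - c₂) - c₂ + dd b₂`, near `Vᶜ`, and `d - dd e` vanishes near `univ`. (3) `d - dd b₁`, `d - dd b₂` vanish near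
`univ`, `b₁` near `Uᶜ`, `b₂` near `Vᶜ`: `c = b₁ - b₂`, `c₁ = b₁`, `c₂ = - b₂`. (4) `c₁ + c₂ - dd b` vanishes near `univ`, `b = b₁ + b₂`; `e = c₁ - dd b₁`
vanishes near `Uᶜ`, and near `Vᶜ` as `e = - (c₂ - dd b₂)` near `univ`. (5) `c₁ - e`, `c₂ + e` where `e` comes from `BdO (p + 1) (U ∩ V) d`. -/
def MVr {M X : Type} [AddCommGroup M] [MetricSpace X] (p : ℤ) (U V : Set X) (c d : Cc M X) :
    Prop :=
  ∃ c₁ c₂ : Cc M X, Dg X p c₁ ∧ Dg X p c₂ ∧ Zr Uᶜ c₁ ∧ Zr Vᶜ c₂ ∧ Zr univ (c - c₁ - c₂) ∧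
    Zr univ (d - dd c₁)

def S_MVO : Prop := ∀ (M X : Type) [AddCommGroup M] [MetricSpace X] [CompactSpace X] (p : ℤ)
  (U V : Set X), IsOpen U → IsOpen V →
  (∀ c : Cc M X, CyO p (U ∪ V) c → ∃ d, CyO (p + 1) (U ∩ V) d ∧ MVr p U V c d) ∧
  (∀ c d : Cc M X, CyO p (U ∪ V) c → CyO (p + 1) (U ∩ V) d → MVr p U V c d →
    BdO p (U ∪ V) c → BdO (p + 1) (U ∩ V) d) ∧
  (∀ d : Cc M X, CyO (p + 1) (U ∩ V) d → BdO (p + 1) U d → BdO (p + 1) V d →
    ∃ c, CyO p (U ∪ V) c ∧ MVr p U V c d) ∧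
  (∀ c₁ c₂ : Cc M X, CyO p U c₁ → CyO p V c₂ → BdO p (U ∪ V) (c₁ + c₂) →
    ∃ e, CyO p (U ∩ V) e ∧ BdO p U (c₁ - e) ∧ BdO p V (c₂ + e)) ∧
  (∀ c : Cc M X, CyO p (U ∪ V) c → (∀ d : Cc M X, CyO (p + 1) (U ∩ V) d →
    BdO (p + 1) (U ∩ V) d) → ∃ c₁ c₂, CyO p U c₁ ∧ CyO p V c₂ ∧ BdO p (U ∪ V) (c - c₁ - c₂))

/-- MVT. Triviality on unions. Let `c` be a cocycle in `V₁ ∪ V₂`, `d` from S_MVO (1) for `V₁`, `V₂`, a cocycle in `V₁ ∩ V₂`; it is a coboundary in
`U₁ ∩ U₂`; `MVr` for `V₁`, `V₂` implies `MVr` for `U₁`, `U₂`, so (as in S_MVO (5)) `c` is in `U₁ ∪ U₂` the sum of cocycles in `U₁` and `U₂` up to a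
coboundary; these are coboundaries in `W`. -/
def S_MVT : Prop := ∀ (M X : Type) [AddCommGroup M] [MetricSpace X] [CompactSpace X] (p : ℤ)
  (V₁ V₂ U₁ U₂ W : Set X), IsOpen V₁ → IsOpen V₂ → IsOpen U₁ → IsOpen U₂ → IsOpen W →
  V₁ ⊆ U₁ → V₂ ⊆ U₂ → U₁ ⊆ W → U₂ ⊆ W →
  (∀ d : Cc M X, CyO (p + 1) (V₁ ∩ V₂) d → BdO (p + 1) (U₁ ∩ U₂) d) →
  (∀ c : Cc M X, CyO p U₁ c → BdO p W c) → (∀ c : Cc M X, CyO p U₂ c → BdO p W c) →
  ∀ c : Cc M X, CyO p (V₁ ∪ V₂) c → BdO p W c

def M_MVT : Prop := S_MVO → S_MVT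

/-! ## 3. Continuity -/

/-- NBH. Continuity. (1) `Zr.nhds` for `Vᶜ` gives `r`; `W = {x | r / 2 < infDist x Vᶜ}` (if `V = univ` take `W = univ`); `Wᶜ` is in the `r`-thickening.
(2) The closed sets `(U i)ᶜ` decrease to `(⋃ i, U i)ᶜ`; by compactness some `(U i)ᶜ` is in the `r`-thickening of the intersection (if the intersection
is empty, some `(U i)ᶜ` is empty). (3) compactness: `N = thickening (r / 2) K`. (4) as (2). -/
def S_NBH : Prop := ∀ (M X : Type) [AddCommGroup M] [MetricSpace X] [CompactSpace X]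
  (c : Cc M X),
  (∀ V : Set X, IsOpen V → Zr Vᶜ c → ∃ W : Set X, IsOpen W ∧ closure W ⊆ V ∧ Zr Wᶜ c) ∧
  (∀ U : ℕ → Set X, Monotone U → (∀ i, IsOpen (U i)) → Zr (⋃ i, U i)ᶜ c → ∃ i, Zr (U i)ᶜ c) ∧
  (∀ K : Set X, IsCompact K → Zr K c → ∃ N : Set X, IsOpen N ∧ K ⊆ N ∧ Zr (closure N) c) ∧
  (∀ K : ℕ → Set X, Antitone K → (∀ i, IsClosed (K i)) → Zr (⋂ i, K i) c → ∃ i, Zr (K i) c)

/-- CUT. Cutting off. Let `K = {l | ∀ x ∈ l, x ∈ N}` with `closure N ⊆ B`; `c' = ind K c`: it equals `c` on lists in `N`, so near `D`, and it is zero on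
the lists near `Bᶜ` (the distance of `closure N` and `Bᶜ` is positive). -/
def S_CUT : Prop := ∀ (M X : Type) [AddCommGroup M] [MetricSpace X] [CompactSpace X] (p : ℤ)
  (c : Cc M X) (D B : Set X), IsClosed D → IsOpen B → D ⊆ B → Dg X p c →
  ∃ c' : Cc M X, Dg X p c' ∧ Zr Bᶜ c' ∧ Zr D (c - c') ∧ ∀ A : Set X, Zr A c → Zr A c'

/-- TRP. Transport by a homeomorphism of a compact space (uniformly continuous in both directions): `cyc_pull` and `bd_pull` for `h` and `h.symm`,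
`pull_pull`, `pull_id`. -/
def S_TRP : Prop := ∀ (M X : Type) [AddCommGroup M] [MetricSpace X] [CompactSpace X]
  (h : X ≃ₜ X) (p : ℤ) (V : Set X) (c : Cc M X),
  (CyO p V c ↔ CyO p (h ⁻¹' V) (pull h c)) ∧ (BdO p V c ↔ BdO p (h ⁻¹' V) (pull h c))

/-! ## 4. Dimension one, arcs -/

/-- VA1. Compact sets with an injective continuous real function. Port of `Dim.slice_vanish` in `Pool/Agent/TI/Dim.lean` with signs: every slice `A ∩ f ⁻¹' {t}`
is empty or a point, so `c` is a coboundary on it (S_PNT) and on `A ∩ f ⁻¹' [t - r, t + r]` (`Zr.nhds` and compactness); Lebesgue number; glue the pieces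
`A ∩ f ⁻¹' [s i, s (i+1)]` one after the other with S_MVC: the intersection with the union of the former ones is a slice, `e` is there (for
`p = 1`, S_PNT) a constant cochain `c0 fun _ => m`, a cocycle everywhere (`e₁`), or (for `p ≥ 2`) a coboundary. -/
def S_VA1 : Prop := ∀ (M X : Type) [AddCommGroup M] [MetricSpace X] (A : Set X) (f : X → ℝ),
  IsCompact A → ContinuousOn f A → InjOn f A → ∀ p : ℤ, 1 ≤ p → Van M p A ∅

def M_VA1 : Prop := S_PNT → S_MVC → S_VA1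

/-- ARC. Closed subsets of arcs and finite unions of arcs. (1) The inverse `f : A → [0, 1]` of the parametrisation is continuous on the compact set
`A`; S_VA1 for `F` and `f`. (2) Induction on `n` with S_MVC: the intersection of the last arc with the union of the others is a closed subset of an arc,
without cohomology in the degree `p - 1 ≥ 1`. (3) S_MVC in the same way. -/
def S_ARC : Prop := (∀ (M X : Type) [AddCommGroup M] [MetricSpace X] (A F : Set X) (a b : X),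
    BBP.Arc A a b → IsClosed F → F ⊆ A → ∀ p : ℤ, 1 ≤ p → Van M p F ∅) ∧
  (∀ (M X : Type) [AddCommGroup M] [MetricSpace X] (n : ℕ) (A : Fin n → Set X)
    (a b : Fin n → X), (∀ i, BBP.Arc (A i) (a i) (b i)) → ∀ p : ℤ, 2 ≤ p →
    Van M p (⋃ i, A i) ∅) ∧
  ∀ (M X : Type) [AddCommGroup M] [MetricSpace X] (D A : Set X) (a b : X), IsCompact D →
    BBP.Arc A a b → ∀ p : ℤ, 2 ≤ p → Van M p D ∅ → Van M p (D ∪ A) ∅

def M_ARC : Prop := S_MVC → S_VA1 → S_ARC

/-! ## 5. Finite generation -/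

/-- FGU. Mayer-Vietoris for finite generation. `F : H^p(A ∪ B) → H^p(A) × H^p(B)` (restrictions); its range is f. g. (Noetherian). Kernel: let `T` be the submodule
of the triples `(c, b₁, b₂)` of cochains with `Cyc p (A ∪ B) ∅ c`, `Dg X (p - 1) b₁, b₂`, `Zr A (c - dd b₁)`, `Zr B (c - dd b₂)`; `φ : T → H^p(A ∪ B)`, `(c, b₁, b₂) ↦ [c]` has
the kernel of `F` as range; `ψ : T → H^{p-1}(A ∩ B)`, `↦ [b₁ - b₂]`. `ker ψ ⊆ ker φ`: see the proof of S_MVC (with `e₁ = e₂ = 0`). So the range of `φ` is a quotient of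
the range of `ψ`, which is f. g.; `Module.Finite` by `Submodule.fg_of_fg_map_of_fg_inf_ker` or similar. -/
def S_FGU : Prop := ∀ (R M X : Type) [CommRing R] [IsNoetherianRing R] [AddCommGroup M]
  [Module R M] [MetricSpace X] (p : ℤ) (A B : Set X), IsCompact A → IsClosed B →
  Module.Finite R (H R M p A ∅) → Module.Finite R (H R M p B ∅) →
  Module.Finite R (H R M (p - 1) (A ∩ B) ∅) → Module.Finite R (H R M p (A ∪ B) ∅)

/-- FGR. Relative groups. The map `H^p(A, B) → H^p(A)` has f. g. range; its kernel is (exactness, `les_left`) the range of the map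
`H^{p-1}(B) → H^p(A, B)`, `[b] ↦ [dd b]` (`exists_lift`, `les_conn`, `les_conn_bd`). -/
def S_FGR : Prop := ∀ (R M X : Type) [CommRing R] [IsNoetherianRing R] [AddCommGroup M]
  [Module R M] [MetricSpace X] (p : ℤ) (A B : Set X), B ⊆ A →
  Module.Finite R (H R M p A ∅) → Module.Finite R (H R M (p - 1) B ∅) →
  Module.Finite R (H R M p A B)

/-- FGC. Finite unions of compact convex sets. Induction on `n` for all `p` at the same time, with S_FGU: the intersection of the last set with the union of the others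
is a union of `n` compact convex sets. `n = 0`: `Van.empty`. One convex compact set `C`: for `p ≥ 1` S_CTR (`F (x, t) = (1 - t) • x + t • w`), for `p < 0` `Van.neg`, and for
`p = 0` S_CON: the map `M → H^0(C)`, `m ↦ [c0 fun _ => m]` is onto (`dd (c0 fun _ => m) = 0`). -/
def S_FGC : Prop := ∀ (R M E : Type) [CommRing R] [IsNoetherianRing R] [AddCommGroup M]
  [Module R M] [Module.Finite R M] [NormedAddCommGroup E] [NormedSpace ℝ E] (n : ℕ)
  (C : Fin n → Set E), (∀ i, IsCompact (C i)) → (∀ i, Convex ℝ (C i)) → ∀ p : ℤ,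
  Module.Finite R (H R M p (⋃ i, C i) ∅)

def M_FGC : Prop := S_CTR → S_CON → S_FGU → S_FGC

/-- HUL. Compact convex sets near an ANR. `e : X → E` an isometric embedding into a Banach space (see `Pool/Agent/CTO/HOM.lean`), `Ω`, `r` from `IsANR`. By compactness there is `δ > 0`
such that for `x ∈ K` `ball (e x) δ ⊆ Ω` and `r` maps it to `K'` (`r` is continuous, `r (e x) = x ∈ interior K'`), and for `x ∈ L` to `L'`. Cover `K` by
finitely many `Ki = K ∩ closedBall (x i) (δ / 4)`, `x i ∈ K`; `C i` = the closure of the convex hull of `e '' Ki` (compact: `TotallyBounded.convexHull`, `E` complete),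
contained in `closedBall (e (x i)) (δ / 4)`; `J = {i | (Ki ∩ L).Nonempty}`: then `C i ⊆ ball (e y) δ` for `y ∈ Ki ∩ L`. (`K` may be empty.) -/
def S_HUL : Prop := ∀ (X : Type) [MetricSpace X] [CompactSpace X], IsANR X →
  ∀ K K' L L' : Set X, IsClosed K → IsClosed L → K ⊆ interior K' → L ⊆ interior L' → L ⊆ K →
  ∃ (E : Type) (_ : NormedAddCommGroup E) (_ : NormedSpace ℝ E) (e : X → E) (r : E → X)
    (Ω : Set E) (n : ℕ) (C : Fin n → Set E) (J : Set (Fin n)), Continuous e ∧ IsOpen Ω ∧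
    ContinuousOn r Ω ∧ (∀ x, r (e x) = x) ∧ (∀ i, IsCompact (C i)) ∧ (∀ i, Convex ℝ (C i)) ∧
    (⋃ i, C i) ⊆ Ω ∧ MapsTo e K (⋃ i, C i) ∧ MapsTo e L (⋃ i ∈ J, C i) ∧
    MapsTo r (⋃ i, C i) K' ∧ MapsTo r (⋃ i ∈ J, C i) L'

/-- FIN. Restriction maps have f. g. range. `P = ⋃ i, C i`, `Q = ⋃ i ∈ J, C i` from S_HUL; `H^p(P, Q)` is f. g. (S_FGC for `P` and for `Q` (reindex `J` by `Fin m`), S_FGR). The
linear map `e* : H^p(P, Q) → H^p(K, L)` (`Submodule.mapQ` or `exists_lift`, with `cyc_pull`, `bd_pull`) has f. g. range, and the range of `res` is contained in it: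
`cls c = e* (cls (pull r c))`, because `pull e (pull r c) = c`. `r` is `UAt` on `P` as it is continuous on the open set `Ω ⊇ P`, `P` compact (`uAt_of_CA`). -/
def S_FIN : Prop := ∀ (R M X : Type) [CommRing R] [IsNoetherianRing R] [AddCommGroup M]
  [Module R M] [Module.Finite R M] [MetricSpace X] [CompactSpace X], IsANR X →
  ∀ (p : ℤ) (K K' L L' : Set X), IsClosed K → IsClosed L → K ⊆ interior K' →
  L ⊆ interior L' → L ⊆ K → L' ⊆ K' → ∀ (h : K ⊆ K') (h' : L ⊆ L'),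
  (LinearMap.range (res R M (p := p) h h')).FG

def M_FIN : Prop := S_FGR → S_FGC → S_HUL → S_FIN

/-- FIO. The same for open sets. (1) S_FIN with `K = K' = univ`, `L = Vᶜ`, `L' = Wᶜ` (`L ⊆ interior L'` iff `closure W ⊆ V`). (2) Let `W n = {x | dist x₀ x < 1 / (n + 1)}`; the ranges of
`H^p_c(W n) → H^p_c(V)` form, for `n ≥ n₀` with `closure (W n₀) ⊆ V`, a decreasing sequence of subspaces of a finite dimensional space, so it is stationary, `= L` for `n ≥ n₁`.
`W = W n₁`; every open `W' ∋ x₀` contains some `W n`. -/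
def S_FIO : Prop := (∀ (R M X : Type) [CommRing R] [IsNoetherianRing R] [AddCommGroup M]
    [Module R M] [Module.Finite R M] [MetricSpace X] [CompactSpace X], IsANR X →
    ∀ (p : ℤ) (W V : Set X), IsOpen W → IsOpen V → closure W ⊆ V → ∀ h : W ⊆ V,
    (LinearMap.range (ext R M (p := p) h)).FG) ∧
  ∀ (k X : Type) [Field k] [MetricSpace X] [CompactSpace X], IsANR X →
    ∀ (p : ℤ) (V : Set X) (x₀ : X), IsOpen V → x₀ ∈ V → ∃ W ⊆ V, IsOpen W ∧ x₀ ∈ W ∧
    ∀ W' ⊆ W, IsOpen W' → x₀ ∈ W' → ∀ c : Cc k X, CyO p W c →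
    ∃ c', CyO p W' c' ∧ BdO p V (c - c')

def M_FIO : Prop := S_FIN → S_FIO

/-! ## 6. Dimension -/

/-- CMB. Complexes of small dimension, combinatorial. Induction on `m` and, inside, on the number of vertices `s`. If `m = 0` all lists in `K` are empty, `b = 0`. If `s = ∅` the same. Otherwise
let `v ∈ s`. `Kv = {l ∈ K | v :: l ∈ K}` (all `l ∈ K` with `v ∈ l` are in `Kv`), `K' = {l ∈ K | v ∉ l}`, `Lk = Kv ∩ K'`: the lists in `Lk` have at most `m - 1` different members (not `v`). `L' = {l ∈ L | v ∉ l}`.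
(i) On `Kv`: `c = dd b₁` with `b₁ = sh c v` (as `dd c (v :: l) = 0`), of degree `q - 1 ≥ 0`. `b₁ = 0` on the lists `l` with `v :: l ∈ L`. On `Q' = L' ∩ Lk` `dd b₁ = c = 0`, and `b₁ = 0` on
`Lk_L = {l ∈ L' | v :: l ∈ L} ⊆ Q'`; induction (`m - 1`, `q - 1`) for the pair `(Q', Lk_L)` gives `e` with `b₁ = dd e` on `Q'`, `e = 0` on `Lk_L`; make `e = 0` outside of `Q'` (`ind`). Then
`b₁ = dd e` on `L ∩ Kv`: its lists are in `Q'` or satisfy `v :: l ∈ L` (if `v ∈ l` or not), and in the second case `b₁ l = 0` and `dd e l = 0` as `e = 0` on all sublists. So `b₁' = b₁ - dd e` is zero on `L ∩ Kv`, and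
`c = dd b₁'` on `Kv`. (ii) On `K'`: induction (fewer vertices) for `(K', L')` gives `b₂`, `c = dd b₂` on `K'`, `b₂ = 0` on `L'`. (iii) On `Lk` `b₁' - b₂` is a cocycle that is zero on `L' ∩ Lk`: induction (`m - 1`) for the pair
`(Lk, L' ∩ Lk)` gives `e₂`, `b₁' - b₂ = dd e₂` on `Lk`, `e₂ = 0` on `L' ∩ Lk`; make `e₂ = 0` outside of `Lk`. (iv) `b l = b₁' l` if `v :: l ∈ K`, `b l = (b₂ + dd e₂) l` otherwise. On `K'` it is `b₂ + dd e₂`
(also on `Lk`), on `Kv` it is `b₁'`; `dd_congr`; it is zero on `L`. -/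
def S_CMB : Prop := ∀ (M V : Type) [AddCommGroup M] [DecidableEq V] (m : ℕ) (s : Finset V)
  (K L : Set (List V)), Cl K → Cl L → L ⊆ K →
  (∀ l ∈ K, l.toFinset.card ≤ m ∧ ∀ v ∈ l, v ∈ s) → ∀ q : ℤ, m ≤ q → ∀ c : Cc M V, Dg V q c →
  (∀ l ∈ K, dd c l = 0) → (∀ l ∈ L, c l = 0) →
  ∃ b : Cc M V, Dg V (q - 1) b ∧ (∀ l ∈ L, b l = 0) ∧ ∀ l ∈ K, c l = dd b l

/-- DIM. No cohomology above the dimension. Let `ε` be such that `c = 0` on `Small B ε`, `dd c = 0` on `Small A ε`. Selection (compare `Pool/Agent/BBP/A_SEL.lean`): a cover by balls of radius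
`ε / 8`, an open shrinking `V i` (`i : Fin k`) with at most `n + 1` sets at every point, a Lebesgue number `lam`, `i x` with `ball x lam ⊆ V (i x)`, points `q i ∈ V i`; `r x = q (i x)`,
`dist (r x) x < ε / 2`. If the list `l` has diameter `< lam` then its head is in `V (i y)` for all `y ∈ l`, so `(l.map i).toFinset.card ≤ n + 1`. With `δ ≤ min lam (ε / 4)`: `l ++ l.map r ∈ Small A ε` for `l ∈ Small A δ`, also for `B`; by
`bd_of_contig` it is enough that `pull r c = pull i (pull q c)` is a coboundary. `K = {t | ∃ l ∈ Small A δ, t ⊆ l.map i}`, `L = {t | ∃ l ∈ Small B δ, t ⊆ l.map i}`; S_CMB (`m = n + 1`) for `pull q c` gives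
`b`; then `pull i b`. (If `X` is empty everything is trivial.) -/
def S_DIM : Prop := ∀ (M X : Type) [AddCommGroup M] [MetricSpace X] [CompactSpace X] (n : ℕ),
  ShrLE X n → ∀ (p : ℤ) (A B : Set X), (n : ℤ) < p → B ⊆ A → Van M p A B

def M_DIM : Prop := S_CMB → S_DIM

/-! ## 7. Topology -/

/-- LPX. Compact ANRs are locally path connected: `BBP.t_LCA` (file `Pool/Agent/BBP/A_LCA.lean`): every point `x` has arbitrarily small open neighbourhoods `W1 ⊆ W` all of whose points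
are joined to `x` in `W`; compare `Pool/Agent/BBP/B_LPC.lean`. (2) with `W1` from `BBP.t_LCA` for `W`, and `V` an open set with `x ∈ V`, `closure V ⊆ W1`. -/
def S_LPX : Prop := ∀ (X : Type) [MetricSpace X] [CompactSpace X], IsANR X →
  LocallyPathConnectedSpace X ∧ ∀ (x : X) (W : Set X), IsOpen W → x ∈ W →
    ∃ V : Set X, IsOpen V ∧ x ∈ V ∧ closure V ⊆ W ∧ Ctr (closure V) W

/-- OUT. The outside. `B` connected open, `J ⊆ B` compact, `B \ J` connected, `w ∈ B \ J`, `J ⊆ N` open. Let `Ki` be the closed `1/(i+1)`-neighbourhoods of `J` (for large `i` they are in `B`), `Wi` the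
connected component of `w` in the open set `B \ Ki` (open, `X` is locally connected). `⋃ Wi = B \ J`: a path in `B \ J` (connected, open, locally path connected) from `w` to `y` misses `Ki` for large
`i`. Let `R` be a compact set with `J ⊆ interior R`, `R ⊆ N ∩ B`. Its frontier is compact and contained in `B \ J`, so in `Wi` for large `i`; let also `Ki ⊆ interior R`. Any other component `P` of `B \ Ki` is disjoint from
the frontier of `R`; if it is disjoint from `R` then it is closed in `B` (`closure P ∩ B ⊆ P ∪ Ki`), so `P = B`, impossible; so `P ⊆ interior R`. So `B \ Wi ⊆ R`, and `B \ Wi` is compact (closed in `B`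
and contained in the compact set `R ⊆ B`; or `= R \ Wi`). (For the last claim: `K = Ki`.) -/
def S_OUT : Prop := ∀ (X : Type) [MetricSpace X] [CompactSpace X],
  LocallyPathConnectedSpace X → ∀ (B J N : Set X) (w : X), IsOpen B → IsConnected B →
  IsCompact J → J.Nonempty → J ⊆ B → IsConnected (B \ J) → w ∈ B \ J → IsOpen N → J ⊆ N →
  ∃ K W : Set X, IsCompact K ∧ J ⊆ interior K ∧ K ⊆ B ∩ N ∧ w ∈ W ∧ IsOpen W ∧
    IsConnected W ∧ W ⊆ B \ K ∧ closure W ∩ (B \ K) ⊆ W ∧ IsCompact (B \ W) ∧ B \ W ⊆ N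

/-- OUS. The sequence in the proof of S_OUT for `J = {x}`. -/
def S_OUS : Prop := ∀ (X : Type) [MetricSpace X] [CompactSpace X],
  LocallyPathConnectedSpace X → ∀ (B N : Set X) (x : X), IsOpen B → IsConnected B →
  x ∈ B → IsConnected (B \ {x}) → IsOpen N → x ∈ N →
  ∃ W : ℕ → Set X, Monotone W ∧ (∀ i, IsOpen (W i)) ∧ (∀ i, IsConnected (W i)) ∧
    (⋃ i, W i) = B \ {x} ∧ (∀ i, IsCompact (B \ W i)) ∧ (∀ i, B \ W i ⊆ N) ∧
    ∀ i, x ∈ interior (B \ W i)

end BBH
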