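import Pool.Agent.BBH.StmtsB
import Pool.Agent.BBH.Fun

/-!
# BBH, block C: unique continuation

Module `X` proves `theorem t_X : M_X` (or `t_X : S_X`) in the namespace `BBH`, in the file `Pool/Agent/BBH/C_X.lean`.
`Fun.lean` contains definitions (`LT`, `GB`, `GN`, `NZat`, `Sj`, `UCat`) and lemmas.
-/

set_option autoImplicit false

namespace BBH

open Set Topology CTO

/-! ## 1. Unique continuation -/

/-- UCA. Unique continuation at some point. Let `Bs i` be a countable base of the topology. For `i, j` with `closure (Bs i) ⊆ Bs j` the range of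
`ext : HO (Bs i) → HO (Bs j)` is finite dimensional (S_FIO (1)); so there are finitely many `a m ∈ CyO p (Bs i)` such that every `c ∈ CyO p (Bs i)` is a linear combination of them
up to `BdO p (Bs j)`, and for `s` with `Kil p (Bs j) s` the values `s c`, `c ∈ CyO p (Bs i)`, are determined by the vector `v m = s (a m)`. There are countably many vectors `v` (`k` is countable);
for every `v` that occurs choose such a functional `s i j v`. The set `E i j v = closure {y ∈ Bs i | ¬ Zg p (s i j v) y}` is closed, its frontier is closed and nowhere dense; by Baire's theorem some `x` is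
in none of these countably many frontiers. Let `V, s` be as in `UCat`; choose `x ∈ Bs j ⊆ V` and `x ∈ Bs i`, `closure (Bs i) ⊆ Bs j`, and `v` for `s`; `s` and `s i j v` agree on `CyO p (Bs i)`,
so they have the same points with nonzero germ in `Bs i` (use small `W ⊆ Bs i`; `CyO.mono`). `x ∈ E i j v`, so `x` is in the interior `O` of `E i j v`; the set of the `y ∈ Bs i` with zero germ is open, so all points of `O ∩ Bs i` have nonzero
germs. -/
def S_UCA : Prop := ∀ (k X : Type) [Field k] [Countable k] [MetricSpace X] [CompactSpace X]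
  [Nonempty X], IsANR X → ∀ p : ℤ, ∃ x : X, UCat k p x

def M_UCA : Prop := S_FIO → S_UCA

/-- UCB. Transport. Let `h x = y`, and `V ∋ y`, `s` as in `UCat` for `y`; `s' c = s (pull h.symm c)` (a linear map), `V' = h ⁻¹' V`. By S_TRP (for `h.symm`: `h.symm ⁻¹' (h ⁻¹' V) = V`)
`Kil p V' s'`, and `Zg p s' z ↔ Zg p s (h z)` for all `z`. -/
def S_UCB : Prop := ∀ (k X : Type) [Field k] [MetricSpace X] [CompactSpace X], Homog X →
  ∀ p : ℤ, (∃ x : X, UCat k p x) → ∀ y : X, UCat k p y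

def M_UCB : Prop := S_TRP → S_UCB

/-- UC. Unique continuation. `{y ∈ V | Zg p s y}` is open, and so is `{y ∈ V | ¬ Zg p s y}` by `UCat`; `V` is preconnected. -/
def S_UC : Prop := ∀ (k X : Type) [Field k] [Countable k] [MetricSpace X] [CompactSpace X],
  IsANR X → Homog X → ∀ (p : ℤ) (V : Set X) (s : Cc k X →ₗ[k] k), IsOpen V →
  IsPreconnected V → Kil p V s → (∃ y ∈ V, Zg p s y) → ∀ y ∈ V, Zg p s y

def M_UC : Prop := S_UCA → S_UCB → S_UC

/-! ## 2. Degree three -/

/-- GEN. In the top degree `n` the cohomology with compact supports is generated by small sets. S_NBH (1): `c ∈ CyO n W'`, `closure W' ⊆ V`; cover the compact set `closure W'` by finitely many sets `W y` as in the hypothesis; `c ∈ CyO n` of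
their union. Induction on the number of sets with S_MVO (5) (`CyO (n + 1) ⊆ BdO (n + 1)` by S_DIM); use `Q` for `BdO n V`. -/
def S_GEN : Prop := ∀ (M X : Type) [AddCommGroup M] [MetricSpace X] [CompactSpace X] (n : ℕ),
  ShrLE X n → ∀ (V : Set X) (Q : Cc M X → Prop), IsOpen V →
  (∀ a b, Q a → Q b → Q (a + b)) → (∀ c, CyO n V c → BdO n V c → Q c) →
  (∀ y ∈ V, ∃ W ⊆ V, IsOpen W ∧ y ∈ W ∧ ∀ c : Cc M X, CyO n W c → Q c) →
  ∀ c : Cc M X, CyO n V c → Q c

def M_GEN : Prop := S_DIM → S_MVO → S_NBH → S_GEN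

/-- SRJ. Surjectivity (`Sj`). Suppose that `c ∈ CyO 3 V` is not the image of any `c' ∈ CyO 3 W`: its class is not in the range `R` of `ext : HO W → HO V`; there is a linear `φ : HO V → k` with `φ = 0` on `R`, `φ (class of c) ≠ 0`
(`Submodule.exists_le_ker_of_notMem` or similar); `exists_total` gives `s`; `s = 0` on `CyO 3 W`, so `Zg 3 s y` for `y ∈ W`, so for all `y ∈ V` (S_UC), so `s c = 0` by S_GEN with `Q e := s e = 0`
(shrink `W` in `Zg` to a subset of `V`): contradiction. -/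
def S_SRJ : Prop := ∀ (k X : Type) [Field k] [Countable k] [MetricSpace X] [CompactSpace X],
  IsANR X → Homog X → ShrLE X 3 → Sj k X

def M_SRJ : Prop := S_UC → S_GEN → S_SRJ

/-- FDV. `H^3_c(V)` is finite dimensional for connected `V`: let `W` be open, nonempty, `closure W ⊆ V`; the range of `ext` is f. g. (S_FIO) and everything (`Sj`). -/
def S_FDV : Prop := ∀ (k X : Type) [Field k] [MetricSpace X] [CompactSpace X],
  IsANR X → Sj k X → ∀ V : Set X, IsOpen V → IsConnected V → Module.Finite k (HO k k 3 V)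

def M_FDV : Prop := S_FIO → S_FDV

/-- EXJ. Exactness for a compact subset `J` of the open set `B`. (1) `les_left` for `Bᶜ ⊆ Bᶜ ∪ J ⊆ univ` gives `b ∈ Cyc p (Bᶜ ∪ J) Bᶜ` with `Bd (p + 1) univ (Bᶜ ∪ J) (c - dd b)`; `b` is a coboundary near `J`, `b - dd f` vanishes near `J`, `f'` from S_CUT
for `f`: `b - dd f'` vanishes near `J` and near `Bᶜ`, and `dd b = dd (b - dd f')`. Note `(B \ J)ᶜ = Bᶜ ∪ J`. (2) `c - dd f` vanishes near `J`, `f'` from S_CUT: `c' = c - dd f'`. (3) `c'` from S_CUT for `c`; `dd c'` vanishes near `J` and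
near `Bᶜ`. -/
def S_EXJ : Prop := ∀ (M X : Type) [AddCommGroup M] [MetricSpace X] [CompactSpace X] (p : ℤ)
  (B J : Set X), IsOpen B → IsCompact J → J ⊆ B →
  (Van M p J ∅ → ∀ c : Cc M X, CyO (p + 1) (B \ J) c → BdO (p + 1) B c →
    BdO (p + 1) (B \ J) c) ∧
  (∀ c : Cc M X, CyO p B c → Bd p J ∅ c → ∃ c', CyO p (B \ J) c' ∧ BdO p B (c - c')) ∧
  ∀ c : Cc M X, Cyc p J ∅ c → ∃ c', Dg X p c' ∧ Zr Bᶜ c' ∧ Zr J (c - c') ∧
    CyO (p + 1) (B \ J) (dd c') ∧ BdO (p + 1) B (dd c')

def M_EXJ : Prop := S_CUT → S_EXJ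

/-- NZA. (1) If no point `y ∈ V` has `NZat k y` then for every `y ∈ V` there is an open `W ∋ y`, `W ⊆ V`, with `VanO k 3 W`; S_GEN with `Q c := BdO 3 V c`: `VanO k 3 V`. (2) transport by homeomorphisms (S_TRP). -/
def S_NZA : Prop := ∀ (k X : Type) [Field k] [MetricSpace X] [CompactSpace X], Homog X →
  ShrLE X 3 → (∃ V : Set X, IsOpen V ∧ ¬ VanO k 3 V) → ∀ x : X, NZat k x

def M_NZA : Prop := S_GEN → S_TRP → S_NZA

/-- NZB. Good sets exist. `U` from `NZat`; `B` = the connected component of `x` in `U ∩ N` (open). If `V ⊆ B` is open, nonempty and `VanO k 3 V`, then by `Sj` every `c ∈ CyO 3 B` is equivalent to a `c' ∈ CyO 3 V`, so `VanO k 3 B`,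
against `NZat`. -/
def S_NZB : Prop := ∀ (k X : Type) [Field k] [MetricSpace X] [CompactSpace X],
  LocallyPathConnectedSpace X → Sj k X → (∀ x : X, NZat k x) → ∀ (x : X) (N : Set X),
  IsOpen N → x ∈ N → ∃ B ⊆ N, x ∈ B ∧ GB k B

/-- NSB. Compact sets `J` with `H^2(J) = 0` do not separate good sets. Suppose `B \ J = P ∪ Q`, disjoint, open, nonempty. Let `z ∈ CyO 3 B`, not in `BdO 3 B`. By `Sj` there are `a ∈ CyO 3 P`, `b ∈ CyO 3 Q` with `z - a, z - b ∈ BdO 3 B`, so `a - b ∈ BdO 3 B`; by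
S_EXJ (1) `a - b ∈ BdO 3 (B \ J)`; S_MVO (4) for `U = P`, `V = Q` (`P ∩ Q = ∅`, `CyO 3 ∅ e` means that `e` vanishes near `univ`) gives `a ∈ BdO 3 P ⊆ BdO 3 B`, so `z ∈ BdO 3 B`: contradiction. -/
def S_NSB : Prop := ∀ (k X : Type) [Field k] [MetricSpace X] [CompactSpace X], Sj k X →
  ∀ B J : Set X, GB k B → IsCompact J → J ⊆ B → Van k 2 J ∅ → IsPreconnected (B \ J)

def M_NSB : Prop := S_EXJ → S_MVO → S_NSB

/-- GNB. Good sets are not separated by points and arcs. `B' ⊆ B` is again good (`GB k B'`). Points: S_PNT and S_NSB; `B' \ {y}` is nonempty: if `B' = {y}`, then `{y}` is open and closed, `c ∈ CyO 3 {y}` is a coboundary near `{y}` by S_PNT,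
`c - dd f` vanishes near `{y}`; cut `f` off (S_CUT): `VanO k 3 {y}`, impossible. Arcs: S_ARC (2). -/
def S_GNB : Prop := ∀ (k X : Type) [Field k] [MetricSpace X] [CompactSpace X], Sj k X →
  ∀ B : Set X, GB k B → GN B

def M_GNB : Prop := S_PNT → S_CUT → S_ARC → S_NSB → S_GNB

/-- HAR. Hartogs. `W i` from S_OUS (`B \ {x}` is connected: S_NSB and S_PNT, nonempty as otherwise `VanO k 3 B`, see S_GNB). `HO (W i)` is finite dimensional (S_FDV) and `ext : HO (W i) → HO (W (i+1))` is onto (`Sj`); so `finrank` decreases and is constant for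
`i ≥ i₀`, and then all `ext : HO (W i₀) → HO (W j)`, `j ≥ i₀`, are injective. `D = B \ W i₀`, `B \ D = W i₀`. If `c ∈ CyO 3 (W i₀)` is in `BdO 3 B` then by S_EXJ (1) for `J = {x}` it is in `BdO 3 (B \ {x})`; `B \ {x} = ⋃ W j`, so by
S_NBH (2) in `BdO 3 (W j)` for some `j ≥ i₀`, so in `BdO 3 (W i₀)`. -/
def S_HAR : Prop := ∀ (k X : Type) [Field k] [MetricSpace X] [CompactSpace X], IsANR X →
  Sj k X → ∀ (B N : Set X) (x : X), GB k B → GN B → x ∈ B → IsOpen N → x ∈ N →
  ∃ D : Set X, IsCompact D ∧ D ⊆ B ∩ N ∧ x ∈ interior D ∧ IsConnected (B \ D) ∧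
    ∀ c : Cc k X, CyO 3 (B \ D) c → BdO 3 B c → BdO 3 (B \ D) c

def M_HAR : Prop := S_FDV → S_OUS → S_LPX → S_EXJ → S_NBH → S_PNT → S_HAR

/-- HAS. `H^2(D) = 0`. Let `c ∈ Cyc 2 D ∅`; `c'` from S_EXJ (3) (`J = D`, `p = 2`): `dd c' ∈ CyO 3 (B \ D) ∩ BdO 3 B`, so `dd c' ∈ BdO 3 (B \ D)`: `dd c' - dd e` vanishes near `univ`, `e` near `(B \ D)ᶜ`. `c' - e ∈ CyO 2 B`, so
`c' - e ∈ BdO 2 B'`, `c' - e - dd f` vanishes near `univ`; near `D`: `c = c'`, `e = 0`. -/
def S_HAS : Prop := ∀ (M X : Type) [AddCommGroup M] [MetricSpace X] [CompactSpace X]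
  (B B' D : Set X), IsOpen B → B ⊆ B' → IsCompact D → D ⊆ B →
  (∀ c : Cc M X, CyO 3 (B \ D) c → BdO 3 B c → BdO 3 (B \ D) c) →
  (∀ c : Cc M X, CyO 2 B c → BdO 2 B' c) → Van M 2 D ∅

def M_HAS : Prop := S_EXJ → S_HAS

end BBH
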