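import Pool.Agent.BBH.StmtsC
import Pool.Agent.CTO.Stmts2

/-!
# BBH, block D: Alexandroff's theorem in dimension three

A compact ANR of covering dimension 3 has `H^3_c(V; ℤ/p) ≠ 0` for some prime `p` and some open `V`.
The map `f : L → ℝ³ \ 0` that does not extend to `K` (`CTO.S_OBS0`) is treated as a line bundle with two sections: `S² = ℂP¹`,
`hp : ℂ² → ℝ³` is the Hopf map.  If the integral class in `H^3(K, L)` is zero, the line bundle extends to `K`, and then the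
two sections extend without common zeros because `dim X ≤ 3 < 4` (`CTO.S_EXT4`).
Module `X` proves `theorem t_X : M_X` (or `t_X : S_X`) in the namespace `BBH`, in the file `Pool/Agent/BBH/D_X.lean`.
The theorems of `Pool/Agent/CTO/` (`CTO.t_EXT4` etc.) may be imported; they are hypotheses here when they are needed.
-/

set_option autoImplicit false

namespace BBH

open Set Topology CTO

/-- the Hopf map -/
noncomputable def hp (v : ℂ × ℂ) : R3 :=
  !₂[2 * (v.1 * (starRingEnd ℂ) v.2).re, 2 * (v.1 * (starRingEnd ℂ) v.2).im,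
    ‖v.1‖ ^ 2 - ‖v.2‖ ^ 2]

/-- the hermitian product -/
noncomputable def ip (v w : ℂ × ℂ) : ℂ :=
  (starRingEnd ℂ) v.1 * w.1 + (starRingEnd ℂ) v.2 * w.2

/-- HPF. Facts on the Hopf map. (5): if `‖v.1‖² = (‖h‖ + h 2) / 2 ≠ 0`, `λ = w.1 / v.1` works (`w.1 * conj w.2 = v.1 * conj v.2` and `‖w.1‖ = ‖v.1‖`), otherwise `v.1 = w.1 = 0` and `‖v.2‖ = ‖w.2‖`. (4) `v.1 = sqrt ((‖y‖ + y 2) / 2)`, `v.2 = conj ((y 0 + i y 1) / 2) / v.1`
(or `(0, sqrt ‖y‖)` if `v.1 = 0`). (6) `ip v u • v = (‖v.1‖² u.1 + (v.1 * conj v.2) u.2, conj (v.1 * conj v.2) u.1 + ‖v.2‖² u.2)` and for a unit vector `v` `‖v.1‖² = (1 + h 2) / 2`, `‖v.2‖² = (1 - h 2) / 2`, `v.1 * conj v.2 = (h 0 + i h 1) / 2`.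
(7) with `‖ip v w‖² = (1 + ⟪hp v, hp w⟫) / 2 = 1 - ‖hp v - hp w‖² / 4` and `λ = ip w v / ‖ip w v‖` (so that `ip v (λ • w) > 0`): `‖(λ • w - v).1‖² + ‖(λ • w - v).2‖² = 2 - 2 ‖ip v w‖`. -/
def S_HPF : Prop := Continuous hp ∧ (∀ v, ‖hp v‖ = ‖v.1‖ ^ 2 + ‖v.2‖ ^ 2) ∧
  (∀ (z : ℂ) (v : ℂ × ℂ), hp (z • v) = (‖z‖ ^ 2) • hp v) ∧ (∀ y, ∃ v, hp v = y) ∧
  (∀ v w, hp v = hp w → ∃ z : ℂ, ‖z‖ = 1 ∧ w = z • v) ∧
  (∃ Q : R3 × (ℂ × ℂ) → ℂ × ℂ, Continuous Q ∧ ∀ v u : ℂ × ℂ, ‖v.1‖ ^ 2 + ‖v.2‖ ^ 2 = 1 →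
    Q (hp v, u) = ip v u • v) ∧
  ∀ η : ℝ, 0 < η → ∃ δ : ℝ, 0 < δ ∧ ∀ v w : ℂ × ℂ, ‖v.1‖ ^ 2 + ‖v.2‖ ^ 2 = 1 →
    ‖w.1‖ ^ 2 + ‖w.2‖ ^ 2 = 1 → ‖hp v - hp w‖ < δ → ∃ z : ℂ, ‖z‖ = 1 ∧ ‖z • w - v‖ < η

/-- the data of the line bundle: `v x` a unit vector in the line of `x`, `t x y` the phase of `ip (v x) (v y)` in full turns, `c` the integral
cocycle, `ε` the scale -/
structure Lin {X : Type} [MetricSpace X] (L : Set X) (v : X → ℂ × ℂ) (t : X → X → ℝ)
    (c : X → X → X → ℤ) (ε : ℝ) : Prop where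
  pos : 0 < ε
  unit : ∀ x, ‖(v x).1‖ ^ 2 + ‖(v x).2‖ ^ 2 = 1
  ph : ∀ x y, ip (v x) (v y) = ‖ip (v x) (v y)‖ * Complex.exp (2 * Real.pi * t x y * Complex.I)
  uat : UAt (fun x => hp (v x)) L
  ne : ∀ x y, [x, y] ∈ Small L ε → ip (v x) (v y) ≠ 0
  sm : ∀ x y z, [x, y, z] ∈ Small L ε → |t y z - t x z + t x y - c x y z| ≤ 1 / 16
  cy : ∀ x y z w, [x, y, z, w] ∈ Small L ε → c y z w - c x z w + c x y w - c x y z = 0

/-- LNA. The data exist. `exists_extend` (Maps.lean) for `x ↦ (1 / ‖f x‖) • f x` on `L`: `f'`, uniformly continuous at `L`, with values of norm 1; `v x` with `hp (v x) = f' x` (S_HPF (4), unit by (2)); `t x y = Complex.arg (ip (v x) (v y)) / (2 π)`,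
`c x y z = round (t y z - t x z + t x y)` (the nearest integer). If `x, y, z` are close to each other and near `L`, the points `hp (v x)`, … are close to each other, so by (7) there are `z₁ z₂` of norm 1 with `z₁ • v y`, `z₂ • v z` close to `v x`; the number
`ip (v x) (v y) * ip (v y) (v z) * ip (v z) (v x)` does not change when the vectors are multiplied by numbers of norm 1, so it is close to `1`, and `ip (v x) (v y) ≠ 0`. Its phase is `exp (2 π i (t y z - t x z + t x y))` (`ip w v = conj (ip v w)`), so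
`t y z - t x z + t x y` is close to an integer. `cy`: the alternating sum of the four real numbers `t - t + t` is `0`, so the integer is `≤ 4 / 16` in absolute value. -/
def S_LNA : Prop := ∀ (X : Type) [MetricSpace X] [CompactSpace X] (L : Set X) (f : X → R3),
  IsClosed L → L.Nonempty → ContinuousOn f L → (∀ x ∈ L, f x ≠ 0) →
  ∃ (v : X → ℂ × ℂ) (t : X → X → ℝ) (c : X → X → X → ℤ) (ε : ℝ), Lin L v t c ε ∧
    ∀ x ∈ L, f x = ‖f x‖ • hp (v x)

def M_LNA : Prop := S_HPF → S_LNA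

/-- the functions `φ j`, `j < n`, are a partition of unity; `g j k` are transition functions for the cover by the sets `{φ j ≠ 0}` over `K` -/
structure Trn {X : Type} [MetricSpace X] {n : ℕ} (K : Set X) (φ : Fin n → X → ℝ)
    (g : Fin n → Fin n → X → ℂ) : Prop where
  con : ∀ j, Continuous (φ j)
  nn : ∀ j x, 0 ≤ φ j x
  sum : ∀ x, ∑ j, φ j x = 1
  cg : ∀ j k, ContinuousOn (g j k) {x | x ∈ K ∧ φ j x ≠ 0 ∧ φ k x ≠ 0}
  ne : ∀ j k, ∀ x ∈ K, g j k x ≠ 0
  mul : ∀ i j k, ∀ x ∈ K, φ i x ≠ 0 → φ j x ≠ 0 → φ k x ≠ 0 → g i j x * g j k x = g i k x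

/-- `F` is a pair of sections without common zeros over `S` -/
structure Sct {X : Type} [MetricSpace X] {n : ℕ} (S : Set X) (φ : Fin n → X → ℝ)
    (g : Fin n → Fin n → X → ℂ) (F : Fin n → X → ℂ × ℂ) : Prop where
  con : ∀ j, ContinuousOn (F j) {x | x ∈ S ∧ φ j x ≠ 0}
  ne : ∀ j, ∀ x ∈ S, φ j x ≠ 0 → F j x ≠ 0
  tr : ∀ j k, ∀ x ∈ S, φ j x ≠ 0 → φ k x ≠ 0 → F k x = g j k x • F j x

/-- EXS. Sections extend from `L` to `K` if `dim X ≤ 3`. The closed sets `K j = {x ∈ K | 1 / n ≤ φ j x}` cover `K`. Extend successively over `L ∪ K 0`, `L ∪ K 0 ∪ K 1`, …: let `F` be a section over the closed set `S` (`L ⊆ S ⊆ K`); `F i` on the closed set `S ∩ K i` is continuous without zeros;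
`CTO.S_EXT4` (identify `ℂ × ℂ` with `R4` by real and imaginary parts) extends it to `F'` on `X`. Put `F' j x = F j x` for `x ∈ S` and `F' j x = g i j x • F' x` for `x ∈ K i`, `φ j x ≠ 0`: the two definitions agree on `S ∩ K i`; continuity: both sets are closed relative to
`{x | φ j x ≠ 0}`. `g i i = 1` on `K ∩ {φ i ≠ 0}` by `mul`. -/
def S_EXS : Prop := ∀ (X : Type) [MetricSpace X] [CompactSpace X], ShrLE X 3 →
  ∀ (n : ℕ) (K L : Set X) (φ : Fin n → X → ℝ) (g : Fin n → Fin n → X → ℂ)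
    (F : Fin n → X → ℂ × ℂ), IsClosed K → IsClosed L → L ⊆ K → Trn K φ g → Sct L φ g F →
  ∃ F' : Fin n → X → ℂ × ℂ, Sct K φ g F' ∧ ∀ j, ∀ x ∈ L, φ j x ≠ 0 → F' j x = F j x

def M_EXS : Prop := S_EXT4 → S_EXS

/-- the transition functions of the cocycle `C` -/
noncomputable def trn {X : Type} {n : ℕ} (q : Fin n → X) (φ : Fin n → X → ℝ)
    (C : X → X → X → ℤ) (j k : Fin n) (x : X) : ℂ :=
  Complex.exp (2 * Real.pi * (∑ m, φ m x * C (q j) (q k) (q m) : ℝ) * Complex.I)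

/-- TRN. `trn q φ C` are transition functions: with `τ j k x = ∑ m, φ m x * C (q j) (q k) (q m)`: for `x` with `φ i x, φ j x, φ k x ≠ 0` and every `m` with `φ m x ≠ 0` the list `[q i, q j, q k, q m]` is in `Small K ε` (all points are in `ball x (ε / 4)`), so
`τ j k x - τ i k x + τ i j x = ∑ m, φ m x * C (q i) (q j) (q k) = C (q i) (q j) (q k)`, an integer. -/
def S_TRN : Prop := ∀ (X : Type) [MetricSpace X] (n : ℕ) (K : Set X) (φ : Fin n → X → ℝ)
  (q : Fin n → X) (C : X → X → X → ℤ) (ε : ℝ), 0 < ε → (∀ j, Continuous (φ j)) →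
  (∀ j x, 0 ≤ φ j x) → (∀ x, ∑ j, φ j x = 1) → (∀ j x, φ j x ≠ 0 → dist x (q j) < ε / 4) →
  (∀ x y z w, [x, y, z, w] ∈ Small K ε → C y z w - C x z w + C x y w - C x y z = 0) →
  Trn K φ (trn q φ C)

/-- SLL. The sections over `L`. For `x ∈ L`, `φ j x ≠ 0` (and arbitrary otherwise): `F j x = exp (2 π i ∑ m, φ m x * (t x (q m) + c x (q j) (q m) - κ (q j) (q m))) • v x`. For `x ∈ L` all the points `q j` with `φ j x ≠ 0` are in `ball x (ε / 4)`, so lists of `x` and such points are in `Small L ε`.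
`tr`: by `Lin.cy` for `[x, q j, q k, q m]`: `c x k m - c x j m = c j k m - c x j k`, and `c j k m = C j k m + κ k m - κ j m + κ j k` (short: `j` for `q j`), so the exponent for `k` minus the exponent for `j` is `∑ m, φ m x * (C j k m + κ j k - c x j k)`, i.e.
`τ j k x` plus an integer. Continuity at `x₀ ∈ L`, `φ j x₀ ≠ 0`: write `F j x = exp (2 π i ψ x) • w x`, `w x = exp (2 π i t x (q j)) • v x = (1 / ‖ip (v x) (v (q j))‖) • (ip (v x) (v (q j)) • v x)` (by `Lin.ph`): by S_HPF (6) it is a continuous function of `hp (v x)` (the norm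
of the vector `ip (v x) u • v x` determines `‖ip (v x) u‖`), and `x ↦ hp (v x)` is continuous on `L`. `ψ x = ∑ m, φ m x * (t (q j) (q m) - κ (q j) (q m) - σ x (q j) (q m))`, where `σ x y z = t y z - t x z + t x y - c x y z`, `|σ| ≤ 1 / 16`; the terms with `φ m x = 0` can be
neglected; for `φ m x ≠ 0`: `exp (2 π i σ x (q j) (q m))` is the phase of `B = ip (v x) (v (q j)) * ip (v (q j)) (v (q m)) * ip (v (q m)) (v x) = ip (v (q j)) (v (q m)) * ip (v (q m)) (ip (v x) (v (q j)) • v x)`, continuous in `x ∈ L` and nonzero, so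
`σ = arg B / (2 π)` is continuous there (`|σ| < 1 / 2`, positive real part); and `φ m x * σ` is continuous at the points with `φ m x = 0` as `σ` is bounded (put it `0` there). -/
def S_SLL : Prop := ∀ (X : Type) [MetricSpace X] [CompactSpace X] (L : Set X) (v : X → ℂ × ℂ)
  (t : X → X → ℝ) (c C : X → X → X → ℤ) (κ : X → X → ℤ) (ε : ℝ) (n : ℕ)
  (φ : Fin n → X → ℝ) (q : Fin n → X), IsClosed L → Lin L v t c ε → (∀ j, Continuous (φ j)) →
  (∀ j x, 0 ≤ φ j x) → (∀ x, ∑ j, φ j x = 1) → (∀ j x, φ j x ≠ 0 → dist x (q j) < ε / 4) →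
  (∀ x y z, [x, y, z] ∈ Small L ε → c x y z - C x y z = κ y z - κ x z + κ x y) →
  ∃ F : Fin n → X → ℂ × ℂ, Sct L φ (trn q φ C) F ∧
    ∀ j, ∀ x ∈ L, φ j x ≠ 0 → ∃ z : ℂ, ‖z‖ = 1 ∧ F j x = z • v x

def M_SLL : Prop := S_HPF → S_SLL

/-- ALX. If `H^3(K, L; ℤ) = 0` then `f` extends. `L` empty: trivial. `Lin` from S_LNA. Let `c2 : Cc ℤ X` be `c x y z` on `[x, y, z]` and `0` on the other lists: `Cyc 2 L ∅ c2` (`dd c2 [x, y, z, w] = c y z w - c x z w + c x y w - c x y z`). `dd c2 ∈ Cyc 3 K L` (`les_conn`) is a coboundary; `les_right`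
gives `C2 ∈ Cyc 2 K ∅` and `κ2` of degree 1 with `c2 - C2 - dd κ2` zero near `L` (`dd κ2 [x, y, z] = κ y z - κ x z + κ x y`). Let `ε` be small for all these conditions (`Lin` with a smaller `ε` is clear). A finite net `q j` of `X` with balls of radius `ε / 8`,
`h j x = max 0 (ε / 4 - dist x (q j))`, `φ j = h j / ∑ h` (if `h j x ≠ 0` then `dist x (q j) < ε / 4`; the sum is `≥ ε / 8`). S_TRN, S_SLL, S_EXS give `F'`. For `x ∈ K` let `G x = (1 / ‖hp (F' j x)‖) • hp (F' j x)` for any `j` with `φ j x ≠ 0`: independent of `j`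
(S_HPF (3)), continuous on `K` (the sets `{φ j ≠ 0}` are open), without zeros, and `= hp (v x)` on `L`. `log ‖f x‖` on `L` extends continuously to `l : X → ℝ` (Tietze); the extension is `exp (l x) • G x`. -/
def S_ALX : Prop := ∀ (X : Type) [MetricSpace X] [CompactSpace X], ShrLE X 3 →
  ∀ (K L : Set X) (f : X → R3), IsClosed K → IsClosed L → L ⊆ K → ContinuousOn f L →
  (∀ x ∈ L, f x ≠ 0) → Van ℤ 3 K L → Ext L K f

def M_ALX : Prop := S_HPF → S_LNA → S_EXS → S_TRN → S_SLL → S_ALX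

/-- ZNZ. An open set with `H^3_c(V; ℤ) ≠ 0`. `CTO.S_OBS0` gives `L, K, f`; by S_ALX there is `c ∈ Cyc 3 K L`, not a coboundary. `dd c ∈ Cyc 4 univ K` is a coboundary by S_DIM; `les_right` gives `c' ∈ Cyc 3 univ L` with `Bd 3 K L (c - c')`. `V = Lᶜ`. -/
def S_ZNZ : Prop := ∀ (X : Type) [MetricSpace X] [CompactSpace X], ShrLE X 3 → ¬ ShrLE X 2 →
  ∃ V : Set X, IsOpen V ∧ ¬ VanO ℤ 3 V

def M_ZNZ : Prop := S_OBS0 → S_ALX → S_DIM → S_ZNZ

/-- DVP. Divisibility. Let `c ∈ CyO q V` be integral. The reduction `l ↦ (c l : ZMod p)` is in `CyO q V`, so it is `dd b̄` near `univ`, `b̄` of degree `q - 1`, zero near `Vᶜ`. Lift `b̄` to an integral `b` with `b l = 0` if `b̄ l = 0` (`ZMod.val`). For `l` with `p ∣ (c - dd b) l` let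
`c' l = (c - dd b) l / p`, otherwise `c' l = 0`: `c - dd b - p • c'` vanishes near `univ` (`dd` commutes with the reduction: `dd_map`), `c' ∈ CyO q V` (`p • dd c' = 0` on small lists). -/
def S_DVP : Prop := ∀ (X : Type) [MetricSpace X] (p : ℕ) (q : ℤ) (V : Set X), 0 < p →
  VanO (ZMod p) q V → ∀ c : Cc ℤ X, CyO q V c → ∃ c' : Cc ℤ X, CyO q V c' ∧
    BdO q V (c - (p : ℤ) • c')

/-- FGD. Finitely generated divisible abelian groups are trivial: if `A ≠ 0` is f. g. there is a maximal subgroup (`A` is a Noetherian `ℤ`-module, `A ≠ ⊥`; or use the structure theorem `AddCommGroup.equiv_free_prod_directSum_zmod`), the quotient is a simple abelian group, `ℤ/p` for a prime `p`, but it is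
`p`-divisible: contradiction. -/
def S_FGD : Prop := ∀ (A : Type) [AddCommGroup A] [Module.Finite ℤ A],
  (∀ p : ℕ, p.Prime → ∀ a : A, ∃ b : A, a = (p : ℤ) • b) → ∀ a : A, a = 0

/-- PRM. A prime. Suppose `VanO (ZMod p) 3 V` for all primes `p` and all open `V`. Let `c ∈ CyO 3 V` be integral; `c ∈ CyO 3 W` with `closure W ⊆ V` (S_NBH (1) for `c`; `dd c` vanishes near `univ` anyway). The range `I` of `ext : HO ℤ ℤ 3 W → HO ℤ ℤ 3 V` is f. g. (S_FIO (1) with `R = M = ℤ`) and divisible by all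
primes by S_DVP for `W`; so `I = 0` (S_FGD) and `BdO 3 V c`. So `VanO ℤ 3 V` for all open `V`, against S_ZNZ. -/
def S_PRM : Prop := ∀ (X : Type) [MetricSpace X] [CompactSpace X], IsANR X → ShrLE X 3 →
  ¬ ShrLE X 2 → ∃ (p : ℕ) (V : Set X), p.Prime ∧ IsOpen V ∧ ¬ VanO (ZMod p) 3 V

def M_PRM : Prop := S_NBH → S_FIO → S_ZNZ → S_DVP → S_FGD → S_PRM

/-- GNX. Good sets for the arcs. `p`, `V` from S_PRM; `k = ZMod p` is a countable (finite) field (`Fact p.Prime`, `ZMod.instField`); S_SRJ, S_NZA, S_NZB, S_GNB. -/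
def S_GNX : Prop := ∀ (X : Type) [MetricSpace X] [CompactSpace X], IsANR X → Homog X →
  ShrLE X 3 → ¬ ShrLE X 2 → ∀ (x : X) (N : Set X), IsOpen N → x ∈ N → ∃ B ⊆ N, x ∈ B ∧ GN B

def M_GNX : Prop := S_LPX → S_PRM → S_SRJ → S_NZA → S_NZB → S_GNB → S_GNX

end BBH
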