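import Pool.Agent.BBH.StmtsC
import Pool.Agent.BBP.StmtsB

/-!
# BBH, block E: the local groups in the degrees 0, 1, 2

Module `X` proves `theorem t_X : M_X` (or `t_X : S_X`) in the namespace `BBH`, in the file `Pool/Agent/BBH/E_X.lean`.
`LT M p x` (Fun.lean): `H^p_c( ; M)` is locally trivial at `x`.
-/

set_option autoImplicit false

namespace BBH

open Set Topology CTO

/-- every point has small neighbourhoods that are not separated by arcs -/
def GNs (X : Type) [MetricSpace X] : Prop :=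
  ∀ (x : X) (N : Set X), IsOpen N → x ∈ N → ∃ B ⊆ N, x ∈ B ∧ GN B

/-- GEQ. Local triviality is global if the next group is zero. Proof as for S_GEN (`Pool/Agent/BBH/C_GEN.lean`): S_NBH (1): `c ∈ CyO q W'`, `closure W' ⊆ V`; cover the compact set `closure W'` by finitely many open `Vy ⊆ V` such that `CyO q Vy ⊆ BdO q V` (`LT` with `U = V`); induction on the number
of sets with S_MVO (5). -/
def S_GEQ : Prop := ∀ (M X : Type) [AddCommGroup M] [MetricSpace X] [CompactSpace X] (q : ℤ),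
  (∀ V : Set X, IsOpen V → VanO M (q + 1) V) → (∀ x : X, LT M q x) →
  ∀ V : Set X, IsOpen V → VanO M q V

def M_GEQ : Prop := S_MVO → S_NBH → S_GEQ

/-- LT0. Given `U ∋ x`, let `B ⊆ U` with `GN B`, `x ∈ B`; `B \ {x}` is nonempty, `w ∈ B \ {x}`, and `V ∋ x` open, `V ⊆ B`, `w ∉ closure V`. `c ∈ CyO 0 V` is near `B` a constant cochain `c0 fun _ => m` (S_CON for `A = B`) and `c [w] = 0`, so `m = 0`, `c` vanishes near `B` and near `Vᶜ`. -/
def S_LT0 : Prop := ∀ (M X : Type) [AddCommGroup M] [MetricSpace X] [CompactSpace X], GNs X →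
  ∀ x : X, LT M 0 x

def M_LT0 : Prop := S_CON → S_LT0

/-- LT1. Degree one. Given `U ∋ x`; S_LPX (2) with `W = univ`: `V₀ ∋ x` with `Ctr (closure V₀) univ`; `B ⊆ U ∩ V₀`, `x ∈ B`, `GN B`; `Ctr (closure B) univ`. S_OUT for `J = {x}`, `N = B` (`w ∈ B \ {x}` arbitrary) gives `K`, `W`; `V = interior K`. Let `c ∈ CyO 1 V`. By S_CTR `c - dd f` vanishes near `closure B`, `f`
of degree 0. `c` vanishes near `Vᶜ ⊇ W`, so `dd f` vanishes near `W`, and by S_CON `f - c0 (fun _ => m)` vanishes near `W`; replace `f` by this difference: `f` vanishes near `W`, `c - dd f` near `closure B`. Let `f' = ind {l | ∀ y ∈ l, y ∈ B} f`. Then `f'` vanishes near `Bᶜ` (points of `B` near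
`Bᶜ` are in `W`, as `B \ W` is compact: near `B \ W` the set `Bᶜ` is not met), and `c - dd f'` vanishes near `univ = (B \ W) ∪ W ∪ Bᶜ` (`Zr.union`, `dd_congr`): near `B \ W` small lists are in `B`, `f' = f`; near `W` and near `Bᶜ` both `c` and `f'` vanish (`f` near `W`). So `BdO 1 B c`, `BdO 1 U c`. -/
def S_LT1 : Prop := ∀ (M X : Type) [AddCommGroup M] [MetricSpace X] [CompactSpace X],
  IsANR X → GNs X → ∀ x : X, LT M 1 x

def M_LT1 : Prop := S_CTR → S_CON → S_OUT → S_LPX → S_LT1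

/-! ## Monodromy -/

/-- the 1-cochain `g` is `dd f` near the arc `A` from `a` to `b`, and `m = f b - f a` -/
def Mo {k X : Type} [Field k] [MetricSpace X] (A : Set X) (a b : X) (g : Cc k X) (m : k) :
    Prop := ∃ f : X → k, Zr A (g - dd (c0 f)) ∧ m = f b - f a

/-- MOA. Monodromy along arcs. (1) S_ARC (1) for `F = A`, `p = 1`, and `Dg.eq_c0`. (2) `dd (c0 (f - f'))` vanishes near `A`, `A` is connected: S_CON. (3), (4) clear. (5) `f w = g [a, w]`: for `w, w'` near `A` and close to each other `[a, w, w'] ∈ Small S ε`, so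
`g [w, w'] = g [a, w'] - g [a, w]`; `g [a, a] = dd g [a, a, a] = 0`. On the lists of other lengths both sides are `0`. -/
def S_MOA : Prop := ∀ (k X : Type) [Field k] [MetricSpace X] (A : Set X) (a b : X),
  BBP.Arc A a b →
  (∀ g : Cc k X, Cyc 1 A ∅ g → ∃ m, Mo A a b g m) ∧
  (∀ (g : Cc k X) (m m' : k), Mo A a b g m → Mo A a b g m' → m = m') ∧
  (∀ (g g' : Cc k X) (m m' : k), Mo A a b g m → Mo A a b g' m' → Mo A a b (g + g') (m + m')) ∧
  (∀ (g : Cc k X) (t m : k), Mo A a b g m → Mo A a b (t • g) (t * m)) ∧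
  (∀ (g g' : Cc k X) (m : k), Zr A (g - g') → Mo A a b g m → Mo A a b g' m) ∧
  ∀ (g : Cc k X) (S : Set X) (ε : ℝ), 0 < ε → Dg X 1 g → (∀ l ∈ Small S ε, dd g l = 0) →
    A ⊆ S → A ⊆ Metric.ball a (ε / 4) → Mo A a b g (g [a, b])

def M_MOA : Prop := S_ARC → S_CON → S_MOA

/-- a 1-cycle with coefficients in `k` made of finitely many arcs -/
structure ACy {k X : Type} [Field k] [MetricSpace X] {n : ℕ} (A : Fin n → Set X)
    (a b : Fin n → X) (z : Fin n → k) : Prop where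
  arc : ∀ i, BBP.Arc (A i) (a i) (b i)
  bd : ∀ f : X → k, ∑ i, z i * (f (b i) - f (a i)) = 0

/-- MOC. A primitive on the arcs. Let `ι` be the type of the triples `(A, a, b)` with `Arc A a b`, `A ⊆ O`, and `m : ι → k` the monodromies (S_MOA (1): `dd g` vanishes near `A`; unique by (2)). Linear maps `D : (ι →₀ k) → (X →₀ k)`, `single i 1 ↦ single b 1 - single a 1`, and `μ : (ι →₀ k) → k`, `single i 1 ↦ m i`.
`ker D ≤ ker μ`: for `w ∈ ker D` enumerate its support by `Fin n`: it is an `ACy` in `O`, so `μ w = 0`. So there is a linear `ψ` with `ψ ∘ D = μ` (extend from the range of `D`); `f x = ψ (single x 1)`. -/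
def S_MOC : Prop := ∀ (k X : Type) [Field k] [MetricSpace X] (O : Set X) (g : Cc k X),
  Dg X 1 g → Zr O (dd g) →
  (∀ (n : ℕ) (A : Fin n → Set X) (a b : Fin n → X) (z m : Fin n → k), ACy A a b z →
    (∀ i, A i ⊆ O) → (∀ i, Mo (A i) (a i) (b i) g (m i)) → ∑ i, z i * m i = 0) →
  ∃ f : X → k, ∀ (A : Set X) (a b : X), BBP.Arc A a b → A ⊆ O → Mo A a b g (f b - f a)

def M_MOC : Prop := S_MOA → S_MOC

/-- MOD. `g = dd f` near compact subsets. Let `dd g = 0` on `Small O ε`. For `y ∈ K` let `P y ⊆ O ∩ ball y (ε / 8)` be an open path connected neighbourhood of `y`; there is `δ > 0` such that any `u`, `v` at distance `< δ` and at distance `< δ` from `K` are in some `P y`. If `u ≠ v` there is an arc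
`A ⊆ P y ⊆ ball u (ε / 4)` from `u` to `v` (`BBP.S_PTA`), so `g [u, v] = f v - f u` (S_MOA (5), (2)); `g [u, u] = 0`. -/
def S_MOD : Prop := ∀ (k X : Type) [Field k] [MetricSpace X] [CompactSpace X],
  LocallyPathConnectedSpace X → ∀ (O K : Set X) (g : Cc k X) (f : X → k), IsOpen O →
  IsCompact K → K ⊆ O → Dg X 1 g → Zr O (dd g) →
  (∀ (A : Set X) (a b : X), BBP.Arc A a b → A ⊆ O → Mo A a b g (f b - f a)) →
  Zr K (g - dd (c0 f))

def M_MOD : Prop := S_MOA → BBP.S_PTA → S_MOD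

/-- MOE. The functional of a cycle. `Z = ⋃ i, A i`. Let `T` be the subspace of the pairs `(c, g)` with `CyO 2 Zᶜ c`, `Dg X 1 g`, `Zr K (c - dd g)`; then `g ∈ Cyc 1 Z ∅` (`c` vanishes near `Z`), the monodromies `m i` exist and are unique and linear in `g` (S_MOA), `μ (c, g) = ∑ i, z i * m i`. If `c = 0` near … : if `c` is such that
`(c, g) ∈ T` with `c = 0` then `g ∈ Cyc 1 K ∅`, so `g = dd f` near `Q ⊇ Z` with `f` of degree 0 (`Dg.eq_c0`) and `μ (c, g) = 0` by `ACy.bd`. So `μ` factors through the projection `T → Cc k X`, `(c, g) ↦ c`, and extends to `s : Cc k X → k`. If `c ∈ CyO 2 Zᶜ` is in `BdO 2 Zᶜ`, `c - dd b` vanishes near `univ` and `b`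
near `Z`, then `(c, b) ∈ T` and all monodromies of `b` are `0`: `s c = 0`. -/
def S_MOE : Prop := ∀ (k X : Type) [Field k] [MetricSpace X] [CompactSpace X] (K Q : Set X)
  (n : ℕ) (A : Fin n → Set X) (a b : Fin n → X) (z : Fin n → k), ACy A a b z → Q ⊆ K →
  (⋃ i, A i) ⊆ Q → (∀ g : Cc k X, Cyc 1 K ∅ g → Bd 1 Q ∅ g) →
  ∃ s : Cc k X →ₗ[k] k, Kil 2 (⋃ i, A i)ᶜ s ∧
    ∀ (c g : Cc k X) (m : Fin n → k), CyO 2 (⋃ i, A i)ᶜ c → Dg X 1 g → Zr K (c - dd g) →
      (∀ i, Mo (A i) (a i) (b i) g (m i)) → s c = ∑ i, z i * m i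

def M_MOE : Prop := S_MOA → S_MOE

/-- LT2. Degree two. Given `U ∋ x`. Choose: `B ∋ x` with `GN B`, and a point `w ∈ B`, `w ≠ x`. `K` a compact neighbourhood of `x` in `B`, `w ∉ K`, with `Ctr K univ` (S_LPX (2)), so `CyO 2 univ`-classes are coboundaries near `K` (S_CTR, `p = 2`): for `c` with `Cyc 2 univ ∅ c` there is `g` of degree 1 with
`Zr K (c - dd g)`. `Q ⊆ interior K` a compact neighbourhood of `x` with `Ctr Q K`: `Cyc 1 K ∅ g → Bd 1 Q ∅ g` (S_CTR). Open sets `x ∈ U' ⊆ closure U' ⊆ U₁ ⊆ closure U₁ ⊆ interior Q'`, `Q'` compact, `Q' ⊆ interior Q`, `U₁ ⊆ U`. S_FIO (2) for `V = U'`: `W ⊆ U'`, `x ∈ W` open, such that every `c ∈ CyO 2 W` is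
equivalent in `BdO 2 U'` to some `c' ∈ CyO 2 W'`, for every open `W' ∋ x`, `W' ⊆ W`. CLAIM: `CyO 2 W ⊆ BdO 2 U₁`. Let `c ∈ CyO 2 W`, `c - dd g` zero near `K`, `O = interior Q \ closure U'` (open); `c` vanishes near `Wᶜ ⊇ O`, so `Zr O (dd g)`. (A) Suppose all cycles in `O` have monodromy `0`: S_MOC gives `f`, S_MOD
for the compact set `C = Q' \ U₁ ⊆ O`: `e = g - dd (c0 f)` vanishes near `C`; `b = ind {l | ∀ y ∈ l, y ∈ Q'} e`: `b` vanishes near `U₁ᶜ` (`exists_thickening_inter`: points of `Q'` near `U₁ᶜ` are near `C`), and `c - dd b` vanishes near `closure U₁` (small lists are in `Q'`, `dd b = dd e = dd g = c`) and near `U₁ᶜ`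
(both vanish): `BdO 2 U₁ c`. (B) Otherwise there is a cycle `(A, a, b, z)` in `O` with monodromies `m i` of `g`, `∑ z i * m i ≠ 0`; `Z = ⋃ A i`; `s` from S_MOE. `V = B \ Z` is open and preconnected (`GN B`), `Kil 2 V s`. `w ∈ V` and `Zg 2 s w` (`Kᶜ` is an open neighbourhood; for `c' ∈ CyO 2 Kᶜ` use `g = 0`). By S_UC `Zg 2 s x`:
`s = 0` on `CyO 2 W'` for an open `W' ∋ x`, `W' ⊆ W`. Let `c' ∈ CyO 2 W'`, `c - c' - dd e` zero near `univ`, `e` of degree 1 and zero near `U'ᶜ ⊇ Z`; then `c' - dd (g - e)` vanishes near `K` and the monodromies of `g - e` are `m i` (S_MOA (5th item)): `0 = s c' = ∑ z i * m i`: contradiction. (`Z ⊆ Q`, `Z` is disjoint from `W`, `x ∉ Z`.) -/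
def S_LT2 : Prop := ∀ (k X : Type) [Field k] [Countable k] [MetricSpace X] [CompactSpace X],
  IsANR X → Homog X → GNs X → ∀ x : X, LT k 2 x

def M_LT2 : Prop := S_UC → S_FIO → S_CTR → S_LPX → S_MOA → S_MOC → S_MOD → S_MOE → S_LT2

/-- NZK. `H^3_c ≠ 0` for every countable field. Otherwise `VanO k 3 V` for all open `V` (S_NZA); S_DIM is not needed. By S_GEQ for `q = 2, 1, 0` (S_LT2, S_LT1, S_LT0) `VanO k 0 univ`: the cocycle `c0 fun _ => 1` would be zero near `univ` (`Dg (-1)` is zero), but `X` is nonempty. -/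
def S_NZK : Prop := ∀ (k X : Type) [Field k] [Countable k] [MetricSpace X] [CompactSpace X]
  [Nonempty X], IsANR X → Homog X → ShrLE X 3 → GNs X → ∀ x : X, NZat k x

def M_NZK : Prop := S_NZA → S_GEQ → S_LT0 → S_LT1 → S_LT2 → S_NZK

end BBH
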