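import Pool.Agent.BBH.StmtsC

/-!
# BBH, block F: the key lemma (twisted cohomology)

Module `X` proves `theorem t_X : M_X` (or `t_X : S_X`) in the namespace `BBH`, in the file `Pool/Agent/BBH/F_X.lean`.

Situation `Ky B B' D O N K W`: `N ⊆ K`, `O ⊆ D ⊆ B ⊆ B'`, `W` is a connected open subset of `B \ K` that contains the connected
set `B \ D`.  `θ ∈ CyO 2 N`, `Θ` of degree 1 vanishes near `Oᶜ` and `dd Θ = θ` near `univ`.  `s` is a functional on `H^3_c(B)` with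
`s (θ ∪ g) = 0` for all `g ∈ Cyc 1 K ∅`.  Conclusion (S_KEY): `θ` is a coboundary in every open set that contains `B \ W`.
The twisted cochains are the pairs `(c₀, c₁)` with the coboundary `(dd c₀ + Θ ∪ c₁, dd c₁)`.
Useful: `dd_cup` (for `p = 1`: `dd (cup Θ c) = cup (dd Θ) c + (-1)^1 • cup Θ (dd c)`, for `p = 0` with `(-1)^0`), `Zr.cup_left`,
`Zr.cup_right`, `Zr.univ_of`, `Zr.union`, `CyO.of_Zr`, `BdO.of_Zr`, `Dg.cup`, `exists_total`, `exists_fun`.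
-/

set_option autoImplicit false

namespace BBH

open Set Topology CTO

/-- the situation of the key lemma -/
structure Ky (k : Type) {X : Type} [Field k] [MetricSpace X] (B B' D O N K W : Set X) :
    Prop where
  opB : IsOpen B
  conB : IsConnected B
  opB' : IsOpen B'
  subB : B ⊆ B'
  tr : ∀ c : Cc k X, CyO 2 B c → BdO 2 B' c
  cD : IsCompact D
  subD : D ⊆ B
  conD : IsConnected (B \ D)
  inj : ∀ c : Cc k X, CyO 3 (B \ D) c → BdO 3 B c → BdO 3 (B \ D) c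
  opO : IsOpen O
  subO : O ⊆ D
  opN : IsOpen N
  subN : N ⊆ K
  opW : IsOpen W
  conW : IsConnected W
  subW : W ⊆ B \ K
  outW : B \ D ⊆ W

/-- `Θ` is a primitive of `θ` with support in `O` -/
structure Pri {k X : Type} [Field k] [MetricSpace X] (O N : Set X) (θ Θ : Cc k X) : Prop where
  cy : CyO 2 N θ
  deg : Dg X 1 Θ
  zer : Zr Oᶜ Θ
  eq : Zr univ (θ - dd Θ)

/-- KA. (1) `cup Θ η` has degree 3 and vanishes near `Wᶜ`; `dd (cup Θ η) = cup (dd Θ) η - cup Θ (dd η)`: `dd Θ` vanishes near `Nᶜ`, `η` near `Wᶜ`, and `N` and `W` are disjoint; `dd η` vanishes near `univ`. (2) `η ∈ CyO 2 B`, so `η - dd h` vanishes near `univ` for some `h` of degree 1 (`tr`; `h`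
vanishes near `B'ᶜ`, not needed); `Cyc 1 K ∅ h` (`η` vanishes near `Wᶜ ⊇ K`), so `s (cup θ h) = 0`. `cup Θ h` has degree 2 and vanishes near `Oᶜ`, `O ⊆ B`: `dd (cup Θ h) ∈ CyO 3 B ∩ BdO 3 B`, `s (dd (cup Θ h)) = 0`. `dd (cup Θ h) = cup (dd Θ) h - cup Θ (dd h)`, and `cup (dd Θ) h - cup θ h`,
`cup Θ (dd h) - cup Θ η` vanish near `univ` (so `s` is zero on them, they are in `CyO 3 B ∩ BdO 3 B`). So `s (cup Θ η) = s (cup θ h) = 0`. -/
def S_KA : Prop := ∀ (k X : Type) [Field k] [MetricSpace X] (B B' D O N K W : Set X)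
  (θ Θ : Cc k X) (s : Cc k X →ₗ[k] k), Ky k B B' D O N K W → Pri O N θ Θ → Kil 3 B s →
  (∀ g : Cc k X, Cyc 1 K ∅ g → s (cup θ g) = 0) →
  ∀ η : Cc k X, CyO 2 W η → CyO 3 W (cup Θ η) ∧ s (cup Θ η) = 0

/-- a functional on the twisted cohomology of `W` that extends `s`; (a), (b), (c) -/
structure TwP {k X : Type} [Field k] [MetricSpace X] (W : Set X) (Θ : Cc k X)
    (s : Cc k X →ₗ[k] k) (P : (Cc k X × Cc k X) →ₗ[k] k) : Prop where
  a : ∀ c, CyO 3 W c → P (c, 0) = s c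
  b : ∀ b₀ b₁ : Cc k X, Dg X 2 b₀ → Dg X 2 b₁ → Zr Wᶜ b₀ → Zr Wᶜ b₁ →
    P (dd b₀ + cup Θ b₁, dd b₁) = 0
  c : ∀ z₀ z₁ : Cc k X, Dg X 3 z₀ → Dg X 3 z₁ → Zr univ z₀ → Zr univ z₁ → P (z₀, z₁) = 0

/-- KB. Existence of `P`. Let `A` be the space of the tuples `(c, b₀, b₁, z₀, z₁)` with `CyO 3 W c`, `b₀, b₁` as in (b), `z₀, z₁` as in (c), `F : A → Cc k X × Cc k X`, `F = (c + dd b₀ + cup Θ b₁ + z₀, dd b₁ + z₁)`, `σ : A → k`, `σ = s c`. `ker F ≤ ker σ`: `dd b₁ = - z₁` vanishes near `univ`, so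
`b₁ ∈ CyO 2 W` and `s (cup Θ b₁) = 0`; `c = - dd b₀ - cup Θ b₁ - z₀`, `dd b₀, z₀ ∈ CyO 3 W ∩ BdO 3 W`, so `s c = 0`. So there is `P` with `P ∘ F = σ` (factor through the range of `F` and extend). -/
def S_KB : Prop := ∀ (k X : Type) [Field k] [MetricSpace X] (W : Set X) (Θ : Cc k X)
  (s : Cc k X →ₗ[k] k), Dg X 1 Θ → Kil 3 W s →
  (∀ η : Cc k X, CyO 2 W η → CyO 3 W (cup Θ η) ∧ s (cup Θ η) = 0) →
  ∃ P : (Cc k X × Cc k X) →ₗ[k] k, TwP W Θ s P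

/-- KC. Normalisation outside of `D`. `W₀ = B \ D` (open, connected, nonempty, `⊆ W`). The linear map `c ↦ P (0, c)` on `CyO 3 W₀` kills `BdO 3 W₀`: `c = dd b + z`, `b` of degree 2 zero near `W₀ᶜ`, `z` zero near `univ`; `P (0, dd b) = P (dd 0 + cup Θ b, dd b) - P (cup Θ b, 0)`, and `cup Θ b` vanishes near
`univ` (`Θ` near `Oᶜ`, `b` near `W₀ᶜ`, `O` and `W₀` are disjoint): all terms are zero by (b), (c). `ext : HO W₀ → HO B` is bijective (`inj`, `Sj`); so (`exists_lift`, `exists_total`) there is `p` with `Kil 3 B p` and `p c = P (0, c)` for `c ∈ CyO 3 W₀`. `P' = P - p ∘ snd`. -/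
def S_KC : Prop := ∀ (k X : Type) [Field k] [MetricSpace X] (B B' D O N K W : Set X)
  (θ Θ : Cc k X) (s : Cc k X →ₗ[k] k) (P : (Cc k X × Cc k X) →ₗ[k] k), Sj k X →
  Ky k B B' D O N K W → Pri O N θ Θ → TwP W Θ s P →
  ∃ P' : (Cc k X × Cc k X) →ₗ[k] k, TwP W Θ s P' ∧ ∀ c, CyO 3 (B \ D) c → P' (0, c) = 0

/-- KD. Local triviality of `Θ`. `dd Θ` vanishes near `Nᶜ`, `y ∈ W ⊆ Nᶜ`; so `Cyc 1 {y} ∅ Θ`, and by S_PNT `Θ - dd f` vanishes near `{y}`, `f = c0 u` (`Dg.eq_c0`); `Zr.nhds`; `V` a small connected open neighbourhood of `y` (locally connected). -/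
def S_KD : Prop := ∀ (k X : Type) [Field k] [MetricSpace X], LocallyPathConnectedSpace X →
  ∀ (B B' D O N K W : Set X) (θ Θ : Cc k X), Ky k B B' D O N K W → Pri O N θ Θ →
  ∀ y ∈ W, ∃ V ⊆ W, IsOpen V ∧ IsConnected V ∧ y ∈ V ∧ ∃ u : X → k, Zr V (Θ - dd (c0 u))

def M_KD : Prop := S_PNT → S_KD

/-- KE. The functional `q c = P (- cup (c0 u) c, c)`. (0) `cup (c0 fun _ => a) c = a • c` for `c` of degree `≥ 0` (evaluate: `sh (c0 f) x` is supported on `[]`, its cup product with anything is `0`). (1) Let `c ∈ CyO 3 V` be in `BdO 3 V`: `c = dd b + z`, `b` of degree 2 zero near `Vᶜ`, `z` zero near `univ`. With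
`b₀ = - cup (c0 u) b`: `dd b₀ = - cup (dd (c0 u)) b - cup (c0 u) (dd b)`, so `(dd b₀ + cup Θ b, dd b) = (- cup (c0 u) (dd b) + cup (Θ - dd (c0 u)) b, dd b)`, and `cup (Θ - dd (c0 u)) b` vanishes near `univ` (`Zr V`, `Zr Vᶜ`). So `q (dd b) = 0` by (b), (c), and `q z = 0` by (c). (2) `cup (c0 u - c0 u' - c0 (fun _ => a)) c` vanishes
near `univ`; `P (a • c, 0) = a * s c` by (a) (`CyO 3 W c`). -/
def S_KE : Prop := ∀ (k X : Type) [Field k] [MetricSpace X] (W : Set X) (Θ : Cc k X)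
  (s : Cc k X →ₗ[k] k) (P : (Cc k X × Cc k X) →ₗ[k] k), Dg X 1 Θ → TwP W Θ s P →
  ∀ V ⊆ W, IsOpen V → ∀ u : X → k, Zr V (Θ - dd (c0 u)) →
  (∀ c, CyO 3 V c → BdO 3 V c → P (-cup (c0 u) c, c) = 0) ∧
  ∀ (u' : X → k) (a : k), Zr V (c0 u - c0 u' - c0 fun _ => a) → ∀ c, CyO 3 V c →
    P (-cup (c0 u) c, c) = P (-cup (c0 u') c, c) - a * s c

/-- good points -/
def Gd {k X : Type} [Field k] [MetricSpace X] (W : Set X) (Θ : Cc k X)
    (P : (Cc k X × Cc k X) →ₗ[k] k) (y : X) : Prop :=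
  ∃ V ⊆ W, IsOpen V ∧ IsConnected V ∧ y ∈ V ∧ ∃ u : X → k, Zr V (Θ - dd (c0 u)) ∧
    ∀ c, CyO 3 V c → P (-cup (c0 u) c, c) = 0

/-- KF. All points of `W` are good. Points of `B \ D`: `V = B \ D`, `u = 0` (`Θ` vanishes near `Oᶜ`). The set of good points is open. It is closed in `W`: let `y ∈ W` be in its closure, `(V, u)` from S_KD for `y`, `z ∈ V` a good point with `(Vz, uz)`, `V' ⊆ V ∩ Vz` a connected open neighbourhood of `z`. `dd (c0 u - c0 uz)` vanishes near `V'`,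
so by S_CON `c0 u - c0 uz - c0 (fun _ => a)` vanishes near `V'` for some `a`, and by S_KE (2) for `V'` `P (- cup (c0 u) c, c) = - a * s c` for `c ∈ CyO 3 V'`. Let `u' = u - a`: by S_KE (2) for `V`, `u'`, `u`, `- a` `P (- cup (c0 u') c, c) = P (- cup (c0 u) c, c) + a * s c` for `c ∈ CyO 3 V`, so it is `0` for
`c ∈ CyO 3 V'`, and by S_KE (1) for `u'` (`dd (c0 u') = dd (c0 u)`) and `Sj` (`c - c' ∈ BdO 3 V`, `c' ∈ CyO 3 V'`) for all `c ∈ CyO 3 V`. So `y` is good. `W` is connected (`IsPreconnected.subset_of_closure_inter_subset`). -/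
def S_KF : Prop := ∀ (k X : Type) [Field k] [MetricSpace X], LocallyPathConnectedSpace X →
  Sj k X → ∀ (B B' D O N K W : Set X) (θ Θ : Cc k X) (s : Cc k X →ₗ[k] k)
    (P : (Cc k X × Cc k X) →ₗ[k] k), Ky k B B' D O N K W → Pri O N θ Θ → TwP W Θ s P →
  (∀ c, CyO 3 (B \ D) c → P (0, c) = 0) → ∀ y ∈ W, Gd W Θ P y

def M_KF : Prop := S_CON → S_KD → S_KE → S_KF

/-- KG. The primitive on `W`. Let `(V y, u y)` be as in `Gd` for `y ∈ W`, and `(B \ D, 0)` for `y ∈ B \ D`. If `z ∈ V ∩ V'` for two good pairs `(V, u)`, `(V', u')` then `u z = u' z`: on a connected open neighbourhood `V'' ⊆ V ∩ V'` of `z` `c0 u - c0 u' - c0 (fun _ => a)` vanishes (S_CON), so by S_KE (2) `a * s c = 0` for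
`c ∈ CyO 3 V''`; if `a ≠ 0` then `s = 0` on `CyO 3 V''`, so by `Sj` `s = 0` on `CyO 3 B`: contradiction; so `a = 0` and `u z = u' z` (evaluate at `[z]`). `U y = u y y` for `y ∈ W`, `0` otherwise. On `V y` `U = u y`; let `V' ∋ y` be open with `closure V'` at positive distance from `(V y)ᶜ` (a small ball):
near `V'` `U = u y`, so `Zr V' (Θ - dd (c0 U))`. -/
def S_KG : Prop := ∀ (k X : Type) [Field k] [MetricSpace X], LocallyPathConnectedSpace X →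
  Sj k X → ∀ (B B' D O N K W : Set X) (θ Θ : Cc k X) (s : Cc k X →ₗ[k] k)
    (P : (Cc k X × Cc k X) →ₗ[k] k), Ky k B B' D O N K W → Pri O N θ Θ → TwP W Θ s P →
  Kil 3 B s → (∃ c, CyO 3 B c ∧ s c ≠ 0) →
  (∀ c, CyO 3 (B \ D) c → P (0, c) = 0) → (∀ y ∈ W, Gd W Θ P y) →
  ∃ U : X → k, (∀ y ∈ W, ∃ V : Set X, IsOpen V ∧ y ∈ V ∧ Zr V (Θ - dd (c0 U))) ∧
    (∀ y ∈ B \ D, U y = 0) ∧ ∀ y ∉ W, U y = 0

def M_KG : Prop := S_CON → S_KE → S_KG

/-- KH. End of the proof. `e = Θ - dd (c0 U)`: `θ - dd e = θ - dd Θ` vanishes near `univ`. `e` vanishes near `N'ᶜ`: by `Zr.local` (`N'ᶜ` is compact) it is enough to find for every `y ∈ N'ᶜ` an open `V ∋ y` with `Zr V e`. If `y ∈ D` then `y ∈ B`, `y ∉ N' ⊇ B \ W`, so `y ∈ W`. If `y ∉ D`: `V` a small ball with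
`closure V` at positive distance from the closed set `D`; outside of `D` `U = 0` (points of `B \ D`, and points not in `B ⊇ W`), so `c0 U` vanishes near `V`, and `Θ` vanishes near `V ⊆ Oᶜ`. -/
def S_KH : Prop := ∀ (k X : Type) [Field k] [MetricSpace X] [CompactSpace X]
  (B B' D O N K W N' : Set X) (θ Θ : Cc k X) (U : X → k), Ky k B B' D O N K W →
  Pri O N θ Θ → (∀ y ∈ W, ∃ V : Set X, IsOpen V ∧ y ∈ V ∧ Zr V (Θ - dd (c0 U))) →
  (∀ y ∈ B \ D, U y = 0) → (∀ y ∉ W, U y = 0) → IsOpen N' → B \ W ⊆ N' → BdO 2 N' θ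

/-- KEY. The key lemma. `Θ` from `BdO 2 O₁ θ`; S_KA, S_KB, S_KC, S_KF, S_KG, S_KH. -/
def S_KEY : Prop := ∀ (k X : Type) [Field k] [MetricSpace X] [CompactSpace X],
  LocallyPathConnectedSpace X → Sj k X →
  ∀ (B B' D O N K W N' : Set X) (θ : Cc k X) (s : Cc k X →ₗ[k] k), Ky k B B' D O N K W →
  CyO 2 N θ → BdO 2 O θ → Kil 3 B s → (∃ c, CyO 3 B c ∧ s c ≠ 0) →
  (∀ g : Cc k X, Cyc 1 K ∅ g → s (cup θ g) = 0) → IsOpen N' → B \ W ⊆ N' → BdO 2 N' θ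

def M_KEY : Prop := S_KA → S_KB → S_KC → S_KF → S_KG → S_KH → S_KEY

end BBH
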