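import Pool.Agent.BBH.StmtsD
import Pool.Agent.BBH.StmtsE
import Pool.Agent.BBH.StmtsF

/-!
# BBH, block G: the local groups in degree three have dimension at most one

Module `X` proves `theorem t_X : M_X` (or `t_X : S_X`) in the namespace `BBH`, in the file `Pool/Agent/BBH/G_X.lean`.
The finished files of `Pool/Agent/BBP/` (`BBP.t_PTA`, `BBP.t_ARB`, `BBP.t_GLU`: look for the files) may be imported.
-/

set_option autoImplicit false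

namespace BBH

open Set Topology CTO

/-! ## 1. Arcs -/

/-- ARI. Arcs have no interior. Suppose that `U` is not empty, `α` a parametrisation of `A`. `α` is a homeomorphism of `[0, 1]` onto `A`, so there are `0 ≤ s < t ≤ 1` with `α '' Ioo s t ⊆ U`, and `α '' Ioo s' t'` is open in `X` for
`s ≤ s' < t' ≤ t` (it is open in `A`, so of the form `G ∩ A`, and equals `G ∩ U`). For `m = (s + t) / 2` the connected open set `B' = α '' Ioo s t ⊆ O` minus the point `α m` is the union of the two disjoint nonempty open sets `α '' Ioo s m`, `α '' Ioo m t`: against `GN O`. -/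
def S_ARI : Prop := ∀ (X : Type) [MetricSpace X] (O A U : Set X) (a b : X), GN O →
  BBP.Arc A a b → IsOpen U → U ⊆ A → U ⊆ O → U = ∅

/-- LAM. An arc with the ends in `D₀`, otherwise outside of `D₀`, not contained in `Dp`. `a₁ ∈ V₀`, `p₁ ∈ O \ Dp`; `O` is path connected (`IsOpen.isConnected_iff_isPathConnected`), so by `BBP.S_PTA` there is an arc `Σ ⊆ O` from `a₁` to `p₁`. `P` = the path component of `p₁` in the open set
`O \ Dp` (open, path connected). By S_ARI there are `p₂ ∈ P \ Σ` and `a₂ ∈ V₀ \ Σ`. `O \ Σ` is open and preconnected (`GN O` with `n = 1`), so `JoinedIn (O \ Σ) p₂ a₂`. On a path in `P` from `p₂` to `p₁ ∈ Σ` let `q` be the first point in `Σ`: `q ∈ P ∩ Σ` and `JoinedIn ({q} ∪ (O \ Σ)) q a₂`. `BBP.S_PTA`: an arc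
`B ⊆ {q} ∪ (O \ Σ)` from `q` to `a₂`. `q ∉ Dp ⊇ D₀`. `BBP.S_ARB` (first hit, `N = D₀`): `B' ⊆ B` from `q` to `w`, `B' ∩ D₀ = {w}`; a subarc of `Σ` from `q` to `a₁` and in it `C'` from `q` to `w'`, `C' ∩ D₀ = {w'}`. `C' ∩ B' = {q}`. `BBP.S_GLU` (2): `La = C' ∪ B'` is an arc from `w'` to `w`. -/
def S_LAM : Prop := ∀ (X : Type) [MetricSpace X] [CompactSpace X],
  LocallyPathConnectedSpace X → ∀ (O Dp D₀ V₀ : Set X), GN O → IsCompact Dp → Dp ⊆ O →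
  (O \ Dp).Nonempty → IsCompact D₀ → D₀ ⊆ Dp → IsOpen V₀ → V₀.Nonempty → V₀ ⊆ D₀ →
  ∃ (La : Set X) (P Q : X), BBP.Arc La P Q ∧ La ⊆ O ∧ D₀ ∩ La = {P, Q} ∧ ¬ La ⊆ Dp

def M_LAM : Prop := BBP.S_PTA → BBP.S_ARB → BBP.S_GLU → S_ARI → S_LAM

/-- the configuration: `As = D₀ ∪` two arcs, `Ap = Dp ∪` the same arcs, `Ga` the middle arc from `x` to `y` -/
structure Cfg {X : Type} [MetricSpace X] (O Dp D₀ La As Ap Ga : Set X) (P Q x y : X) :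
    Prop where
  arc : BBP.Arc La P Q
  int : D₀ ∩ La = {P, Q}
  sub : Dp ∪ La ⊆ O
  cAs : IsCompact As
  conAs : IsConnected As
  D₀As : D₀ ⊆ As
  AsAp : As ⊆ Ap
  cAp : IsCompact Ap
  cGa : IsCompact Ga
  conGa : IsConnected Ga
  ne : x ≠ y
  xAs : x ∈ As
  yAs : y ∈ As
  inter : Ap ∩ Ga = {x, y}
  uJ : As ∪ Ga = D₀ ∪ La
  uJp : Ap ∪ Ga = Dp ∪ La

/-- CFG. `α` a parametrisation of `La`, `α t₀ ∉ Dp`; `0 < t₀ < 1` as `α 0, α 1 ∈ D₀ ⊆ Dp`; `Dp` is closed, so there are `0 < a < b < 1` with `α '' Icc a b` disjoint from `Dp`. `Ga = α '' Icc a b`, `x = α a`, `y = α b`, `As = D₀ ∪ α '' Icc 0 a ∪ α '' Icc b 1`,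
`Ap = Dp ∪ α '' Icc 0 a ∪ α '' Icc b 1`. Connected: `α 0, α 1 ∈ D₀`. -/
def S_CFG : Prop := ∀ (X : Type) [MetricSpace X] [CompactSpace X],
  LocallyPathConnectedSpace X → ∀ (O Dp D₀ V₀ : Set X), GN O → IsCompact Dp → Dp ⊆ O →
  (O \ Dp).Nonempty → IsCompact D₀ → IsConnected D₀ → D₀ ⊆ Dp → IsOpen V₀ → V₀.Nonempty →
  V₀ ⊆ D₀ → ∃ (La As Ap Ga : Set X) (P Q x y : X), Cfg O Dp D₀ La As Ap Ga P Q x y

def M_CFG : Prop := S_LAM → S_CFG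

/-- THK. Thickenings. `V = Vx ∪ Vy`; `Ap \ V` and `Ga` are disjoint compact sets, contained in disjoint open sets `P₁`, `P₂` (`SeparatedNhds.of_isCompact_isCompact`); `Pa = (P₁ ∪ V) ∩ O`, `Pg = P₂ ∩ O`. (2) `LocallyConnectedSpace`: the connected component (`connectedComponentIn`) of a point of
`C` in `U`. -/
def S_THK : Prop := (∀ (X : Type) [MetricSpace X] (Ap Ga O Vx Vy : Set X) (x y : X),
    IsCompact Ap → IsCompact Ga → Ap ∩ Ga = {x, y} → IsOpen O → Ap ∪ Ga ⊆ O → IsOpen Vx →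
    x ∈ Vx → IsOpen Vy → y ∈ Vy → ∃ Pa Pg : Set X, IsOpen Pa ∧ IsOpen Pg ∧ Ap ⊆ Pa ∧ Ga ⊆ Pg ∧
      Pa ⊆ O ∧ Pg ⊆ O ∧ Pa ∩ Pg ⊆ Vx ∪ Vy) ∧
  ∀ (X : Type) [MetricSpace X], LocallyPathConnectedSpace X → ∀ C U : Set X, IsOpen U →
    IsConnected C → C ⊆ U → ∃ V ⊆ U, IsOpen V ∧ IsConnected V ∧ C ⊆ V

/-! ## 2. The neighbourhoods -/

/-- the situation: `O₂ ⊆ O₁ ⊆ D ⊆ B ⊆ B'` -/
structure Stp (k : Type) {X : Type} [Field k] [MetricSpace X] (B B' D O₁ O₂ : Set X) :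
    Prop where
  gb : GB k B
  gn : GN B
  opB' : IsOpen B'
  subB : B ⊆ B'
  tr : ∀ c : Cc k X, CyO 2 B c → BdO 2 B' c
  cD : IsCompact D
  subD : D ⊆ B
  conD : IsConnected (B \ D)
  inj : ∀ c : Cc k X, CyO 3 (B \ D) c → BdO 3 B c → BdO 3 (B \ D) c
  op1 : IsOpen O₁
  sub1 : O₁ ⊆ D
  op2 : IsOpen O₂
  con2 : IsConnected O₂
  sub2 : O₂ ⊆ O₁
  tr2 : ∀ c : Cc k X, CyO 2 O₂ c → BdO 2 O₁ c

/-- STP. `LT k 2 x` for `U = univ` gives an open `V ∋ x` with `CyO 2 V ⊆ BdO 2 univ`; `B' = univ`. `GNs` gives `B₁ ⊆ N ∩ V`, `x ∈ B₁`, `GN B₁`; S_NZB gives `B ⊆ B₁`, `x ∈ B`, `GB k B`; `GN B` as `GN` is hereditary for connected open subsets. `D` from S_HAR (`N = univ`), `O₁ = interior D ∋ x`;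
`LT k 2 x` for `U = O₁` gives `V₂`; `O₂` = the connected component of `x` in `V₂`. -/
def S_STP : Prop := ∀ (k X : Type) [Field k] [MetricSpace X] [CompactSpace X],
  LocallyPathConnectedSpace X → IsANR X → Sj k X → GNs X → (∀ x : X, NZat k x) →
  (∀ x : X, LT k 2 x) → ∀ (x : X) (N : Set X), IsOpen N → x ∈ N →
  ∃ B B' D O₁ O₂ : Set X, B ⊆ N ∧ x ∈ B ∧ Stp k B B' D O₁ O₂

def M_STP : Prop := S_NZB → S_HAR → S_STP

/-- DPL. `x ∈ O₂`. `GB k O₂`, `GN O₂` are inherited from `B`. `Dp` from S_HAR for `O₂` (`N = univ`); `O₂ \ Dp` is connected, so nonempty; `Van k 2 Dp ∅` by S_HAS (with `B = O₂`, `B' = O₁`, `tr2`). S_LPX (2) for `interior Dp` gives an open `V ∋ x` with `closure V ⊆ interior Dp`, `Ctr (closure V) (interior Dp)`,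
so `Ctr (closure V) Dp`; by S_CTR `Cyc 1 Dp ∅ g → Bd 1 (closure V) ∅ g`. `V₀` = the connected component of `x` in `V`, `D₀ = closure V₀`. -/
def S_DPL : Prop := ∀ (k X : Type) [Field k] [MetricSpace X] [CompactSpace X],
  LocallyPathConnectedSpace X → IsANR X → Sj k X → ∀ B B' D O₁ O₂ : Set X,
  Stp k B B' D O₁ O₂ → ∃ Dp D₀ V₀ : Set X, GN O₂ ∧ IsCompact Dp ∧ Dp ⊆ O₂ ∧
    (O₂ \ Dp).Nonempty ∧ Van k 2 Dp ∅ ∧ IsCompact D₀ ∧ IsConnected D₀ ∧ D₀ ⊆ Dp ∧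
    IsOpen V₀ ∧ IsConnected V₀ ∧ V₀ ⊆ D₀ ∧ ∀ g : Cc k X, Cyc 1 Dp ∅ g → Bd 1 D₀ ∅ g

def M_DPL : Prop := S_HAR → S_HAS → S_LPX → S_CTR → S_DPL

/-! ## 3. Ranks -/

/-- RKA. The restriction `H^1(Dp ∪ La) → H^1(D₀ ∪ La)` has rank at most one. (i) Claim: if `Zr D₀ (g - dd b₁)`, `Zr La (g - dd b₂)`, `b₁, b₂` of degree 0, and `(b₁ - b₂) [P] = (b₁ - b₂) [Q]`, then `Bd 1 (D₀ ∪ La) ∅ g`. Let `m` be this value; replace `b₂` by `b₂ + c0 (fun _ => m)`; `e = b₁ - b₂`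
is a cocycle near `P` and near `Q` with `e [P] = e [Q] = 0`, so by S_PNT (2) it vanishes near `{P}` and near `{Q}`, i.e. near `D₀ ∩ La` (`Zr.union`); `Zr.inter`: `e = w₁ + w₂`, `w₁` zero near `D₀`, `w₂` near `La`; `b = b₁ - w₁ = b₂ + w₂`; `Zr.union`. (ii) every `g ∈ Cyc 1 (Dp ∪ La) ∅` has such `b₁`
(hypothesis) and `b₂` (S_ARC (1), `F = La`); let `φ` be the number `(b₁ - b₂) [P] - (b₁ - b₂) [Q]`. If `φ = 0` for all choices, `g1 = 0`. Otherwise let `g1` have `b₁'`, `b₂'` with `φ' ≠ 0`, and `t = φ / φ'`: (i) for `g - t • g1`, `b₁ - t • b₁'`, `b₂ - t • b₂'`. -/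
def S_RKA : Prop := ∀ (k X : Type) [Field k] [MetricSpace X] (Dp D₀ La : Set X) (P Q : X),
  IsCompact D₀ → D₀ ⊆ Dp → BBP.Arc La P Q → D₀ ∩ La = {P, Q} →
  (∀ g : Cc k X, Cyc 1 Dp ∅ g → Bd 1 D₀ ∅ g) →
  ∃ g1 : Cc k X, ∀ g : Cc k X, Cyc 1 (Dp ∪ La) ∅ g → ∃ t : k, Bd 1 (D₀ ∪ La) ∅ (g - t • g1)

def M_RKA : Prop := S_PNT → S_ARC → S_RKA

/-- RKB. From `J` to a neighbourhood of `J`. `K₀` compact with `J ⊆ interior K₀`, `K₀ ⊆ interior K`. By S_FIN (`L = L' = ∅`) the range `R` of `res : H^1(K) → H^1(K₀)` is finite dimensional. Let `Z` be the space of the `g` with `Cyc 1 K ∅ g`, `ZJ` its subspace of the `g` with `Bd 1 J ∅ g`. The image of `ZJ` in `R` is spanned by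
the classes of finitely many `g i ∈ ZJ`, `g i - dd (f i)` vanishes near `J`, so near an open set `N i ⊇ J` (S_NBH (3)); `N₀ = interior K₀ ∩ ⋂ i, N i`. Every `g ∈ ZJ` is a linear combination of the `g i` up to `Bd 1 K₀ ∅`, so `Bd 1 N₀ ∅ g`. If `ZJ = Z` let `g0 = 0`. Otherwise `g0 ∈ Z \ ZJ`,
`Bd 1 J ∅ (g0 - t₀ • g1)`, `t₀ ≠ 0`; if `Bd 1 J ∅ (g - t • g1)` then `g - (t / t₀) • g0 ∈ ZJ`. -/
def S_RKB : Prop := ∀ (k X : Type) [Field k] [MetricSpace X] [CompactSpace X], IsANR X →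
  ∀ (K J : Set X) (g1 : Cc k X), IsCompact K → IsCompact J → J ⊆ interior K →
  (∀ g : Cc k X, Cyc 1 K ∅ g → ∃ t : k, Bd 1 J ∅ (g - t • g1)) →
  ∃ (N₀ : Set X) (g0 : Cc k X), IsOpen N₀ ∧ J ⊆ N₀ ∧ Cyc 1 K ∅ g0 ∧
    ∀ g : Cc k X, Cyc 1 K ∅ g → ∃ t : k, Bd 1 N₀ ∅ (g - t • g0)

def M_RKB : Prop := S_NBH → S_FIN → S_RKB

/-- PRG. The pairing. `g - t • g0 - dd b` vanishes near `N₀`, `b` of degree 0. `cup θ (g - t • g0 - dd b)` vanishes near `N₀` (`Zr.cup_right`) and near `Nᶜ` (`Zr.cup_left`), so near `univ`; `dd (cup θ b) = cup (dd θ) b + cup θ (dd b)` (`dd_cup` for `p = 2`), `dd θ` vanishes near `univ`, `cup θ b` has degree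
2 and vanishes near `Nᶜ ⊇ Bᶜ`. So `cup θ g - t • cup θ g0` is in `BdO 3 B`. `cup θ g, cup θ g0 ∈ CyO 3 B`: `dd (cup θ g) = cup (dd θ) g + cup θ (dd g)`, `dd g` vanishes near `K ⊇ N` and `θ` near `Nᶜ`. -/
def S_PRG : Prop := ∀ (k X : Type) [Field k] [MetricSpace X] (B K N N₀ : Set X)
  (g g0 : Cc k X) (t : k), N ⊆ B → N ⊆ K → N ⊆ N₀ → Cyc 1 K ∅ g → Cyc 1 K ∅ g0 →
  Bd 1 N₀ ∅ (g - t • g0) → ∀ (θ : Cc k X) (s : Cc k X →ₗ[k] k), CyO 2 N θ → Kil 3 B s →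
  s (cup θ g) = t * s (cup θ g0)

/-- FRS. `ext` is onto by `Sj` (and `cls_surj`, `cls_eq`), `HO k k 3 W` is finite dimensional (S_FDV): `LinearMap.finrank_le_finrank_of_surjective` or similar. -/
def S_FRS : Prop := ∀ (k X : Type) [Field k] [MetricSpace X] [CompactSpace X], IsANR X →
  Sj k X → ∀ V W : Set X, IsOpen V → IsConnected V → IsOpen W → IsConnected W → W ⊆ V →
  Module.finrank k (HO k k 3 V) ≤ Module.finrank k (HO k k 3 W)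

def M_FRS : Prop := S_FDV → S_FRS

/-- FRH. Let `v₀ ∈ V₀`, `h v₀ = x` (homogeneity), `V₁ = h.symm ⁻¹' V₀` (open, connected, `x ∈ V₁`); by S_TRP for `h.symm` `HO V₀` and `HO V₁` are isomorphic (`c ↦ pull h.symm c`, inverse `pull h`; `exists_lift` or `Submodule.mapQ`), so they have the same `finrank`. `Vx` = the connected component of `x` in `V₁ ∩ N`;
S_FRS. -/
def S_FRH : Prop := ∀ (k X : Type) [Field k] [MetricSpace X] [CompactSpace X],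
  LocallyPathConnectedSpace X → IsANR X → Homog X → Sj k X → ∀ V₀ : Set X, IsOpen V₀ →
  IsConnected V₀ → ∀ (x : X) (N : Set X), IsOpen N → x ∈ N → ∃ Vx ⊆ N, IsOpen Vx ∧
    IsConnected Vx ∧ x ∈ Vx ∧
    Module.finrank k (HO k k 3 V₀) ≤ Module.finrank k (HO k k 3 Vx)

def M_FRH : Prop := S_TRP → S_FRS → S_FRH

/-- LNL. Linear algebra. `W = π (ker f)`. The surjection `Z → V → V / W` vanishes on `ker f`, so `finrank (V / W) ≤ finrank (range f) ≤ finrank (ker g) = finrank A - finrank D`; `finrank W = finrank V - finrank (V / W) ≥ finrank D ≥ 2`; take two linearly independent vectors of `W`. -/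
def S_LNL : Prop := ∀ (k Z A V D : Type) [Field k] [AddCommGroup Z] [Module k Z]
  [AddCommGroup A] [Module k A] [Module.Finite k A] [AddCommGroup V] [Module k V]
  [Module.Finite k V] [AddCommGroup D] [Module k D] (π : Z →ₗ[k] V) (f : Z →ₗ[k] A)
  (g : A →ₗ[k] D), Function.Surjective π → Function.Surjective g → (∀ z, g (f z) = 0) →
  Module.finrank k A ≤ Module.finrank k V → 2 ≤ Module.finrank k D →
  ∃ z₁ z₂ : Z, f z₁ = 0 ∧ f z₂ = 0 ∧ ∀ a b : k, a • π z₁ + b • π z₂ = 0 → a = 0 ∧ b = 0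

/-- CNT. The count. `P = HO (Na ∩ Ng ∩ Vx)`, `P' = HO (Na ∩ Ng ∩ Vy)`, `A = HO Na`, `G = HO Ng` (degree 3), `Z = {(u, v) ∈ P × P' | u + v = 0 in G}` (a submodule), `π : Z → HO Vx`, `(u, v) ↦ u`, `f : Z → A`, `(u, v) ↦ u + v`, `g = ext : HO Na → HO B`. `π` is onto: `P → HO Vx` is onto by `Sj` (`Vx` connected),
and for every `u` there is a `v` with `v = - u` in `G` as `P' → G` is onto by `Sj` (`Ng` connected). `g` is onto by `Sj`; `g (f (u, v)) = 0` as `u + v = 0` in `G` (`Ng ⊆ B`). S_LNL (S_FDV) gives `z₁, z₂`; `z i = (u i, v i)`, `d i` = the sum of representatives of `u i` and `v i`: `CyO 3 (Na ∩ Ng) (d i)`, `BdO 3 Na (d i)` (`f = 0`),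
`BdO 3 Ng (d i)`. If `a • d₁ + b • d₂ ∈ BdO 3 (Vx ∪ Vy)` then by S_MVO (4) for `Vx`, `Vy` (`c₁ = a • u₁ + b • u₂ ∈ CyO 3 Vx`, `c₂` similarly; `CyO 3 ∅ e` implies `Zr univ e`) `c₁ ∈ BdO 3 Vx`, i.e. `a • π z₁ + b • π z₂ = 0`. -/
def S_CNT : Prop := ∀ (k X : Type) [Field k] [MetricSpace X] [CompactSpace X], IsANR X →
  Sj k X → ∀ B Na Ng Vx Vy : Set X, IsOpen B → IsConnected B → IsOpen Na → IsConnected Na →
  IsOpen Ng → IsConnected Ng → IsOpen Vx → IsConnected Vx → IsOpen Vy → Na ⊆ B → Ng ⊆ B →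
  Na ∩ Ng ⊆ Vx ∪ Vy → Vx ∩ Vy = ∅ → (Na ∩ Ng ∩ Vx).Nonempty → (Na ∩ Ng ∩ Vy).Nonempty →
  Module.finrank k (HO k k 3 Na) ≤ Module.finrank k (HO k k 3 Vx) →
  2 ≤ Module.finrank k (HO k k 3 B) →
  ∃ d₁ d₂ : Cc k X, CyO 3 (Na ∩ Ng) d₁ ∧ CyO 3 (Na ∩ Ng) d₂ ∧ BdO 3 Na d₁ ∧ BdO 3 Na d₂ ∧
    BdO 3 Ng d₁ ∧ BdO 3 Ng d₂ ∧
    ∀ a b : k, BdO 3 (Vx ∪ Vy) (a • d₁ + b • d₂) → a = 0 ∧ b = 0

def M_CNT : Prop := S_LNL → S_FDV → S_MVO → S_CNT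

/-! ## 4. Assembly -/

/-- the final configuration -/
structure Fic (k : Type) {X : Type} [Field k] [MetricSpace X]
    (B B' D O₁ K W Na Ng Pa Pg Vx Vy : Set X) (g0 : Cc k X) : Prop where
  ky : Ky k B B' D O₁ (Na ∪ Ng) K W
  NB : Na ∪ Ng ⊆ B
  opNa : IsOpen Na
  conNa : IsConnected Na
  opNg : IsOpen Ng
  conNg : IsConnected Ng
  NaPa : Na ⊆ Pa
  NgPg : Ng ⊆ Pg
  opPa : IsOpen Pa
  opPg : IsOpen Pg
  out : B \ W ⊆ Pa ∪ Pg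
  opVx : IsOpen Vx
  conVx : IsConnected Vx
  opVy : IsOpen Vy
  int : Pa ∩ Pg ⊆ Vx ∪ Vy
  dis : Vx ∩ Vy = ∅
  neX : (Na ∩ Ng ∩ Vx).Nonempty
  neY : (Na ∩ Ng ∩ Vy).Nonempty
  rk : Module.finrank k (HO k k 3 Na) ≤ Module.finrank k (HO k k 3 Vx)
  one : ∀ g : Cc k X, Cyc 1 K ∅ g → ∃ t : k, ∀ (θ : Cc k X) (s : Cc k X →ₗ[k] k),
    CyO 2 (Na ∪ Ng) θ → Kil 3 B s → s (cup θ g) = t * s (cup θ g0)
  bd : ∀ c : Cc k X, CyO 2 (Na ∪ Ng) c → BdO 2 O₁ c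

/-- LEC. The choices. `Dp, D₀, V₀` from S_DPL, `La, As, Ap, Ga, P, Q, x, y` from S_CFG for `O = O₂`. `J = D₀ ∪ La`, `Jp = Dp ∪ La = Ap ∪ Ga`: compact, `⊆ O₂ ⊆ O₁ ⊆ D ⊆ B`; `Van k 2 Jp ∅` by S_ARC (3). Disjoint open `Ox ∋ x`, `Oy ∋ y`; `Vx ⊆ Ox` from S_FRH, `Vy = Oy`.
`Pa, Pg ⊆ O₂` from S_THK (1). S_OUT for `B`, `J := Jp`, `N := Pa ∪ Pg`, `w ∈ B \ D` (`B \ Jp` is preconnected by S_NSB and nonempty): `K`, `W`. `K ⊆ O₂ ⊆ D`, so `B \ D ⊆ B \ K` is connected, meets `W`, and `W` is open and relatively closed in `B \ K`: `B \ D ⊆ W`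
(`IsPreconnected.subset_of_closure_inter_subset`). `g1` from S_RKA (`Cyc 1 K ∅ g` implies `Cyc 1 (Dp ∪ La) ∅ g`), `N₀, g0` from S_RKB for `K`, `J` (`J ⊆ Jp ⊆ interior K`). `Na` from S_THK (2) for `C = As`, `U = Pa ∩ N₀ ∩ interior K`, `Ng` for `Ga`, `U = Pg ∩ N₀ ∩ interior K`. `x ∈ Na ∩ Ng ∩ Vx`, `y ∈ Na ∩ Ng ∩ Vy`.
`rk`: `V₀ ⊆ D₀ ⊆ As ⊆ Na`, S_FRS: `finrank (HO Na) ≤ finrank (HO V₀) ≤ finrank (HO Vx)`. `one`: S_PRG. `bd`: `CyO 2 O₂ ⊆ BdO 2 O₁`. -/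
def S_LEC : Prop := ∀ (k X : Type) [Field k] [MetricSpace X] [CompactSpace X],
  LocallyPathConnectedSpace X → IsANR X → Homog X → Sj k X → ∀ B B' D O₁ O₂ : Set X,
  Stp k B B' D O₁ O₂ → ∃ (K W Na Ng Pa Pg Vx Vy : Set X) (g0 : Cc k X),
    Fic k B B' D O₁ K W Na Ng Pa Pg Vx Vy g0

def M_LEC : Prop := S_DPL → S_CFG → S_ARC → S_FRH → S_THK → S_OUT → S_NSB → S_RKA → S_RKB →
  S_FRS → S_PRG → S_LEC

/-- LED. The contradiction. Suppose `2 ≤ finrank`. `d₁, d₂` from S_CNT; S_MVO (3) (`p = 2`, `U = Na`, `V = Ng`) gives `θ i ∈ CyO 2 (Na ∪ Ng)` with `MVr 2 Na Ng (θ i) (d i)`. `s` with `Kil 3 B s` and `s c ≠ 0` for some `c ∈ CyO 3 B` (a nonzero linear functional on `HO k k 3 B`, `exists_total`). Choose `(a, b) ≠ (0, 0)` with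
`a * s (cup θ₁ g0) + b * s (cup θ₂ g0) = 0`; `θ = a • θ₁ + b • θ₂`, `d = a • d₁ + b • d₂` (`cup` is linear in the first variable). S_KEY (`O = O₁`, `N = Na ∪ Ng`, `N' = Pa ∪ Pg`; `s (cup θ g) = t * s (cup θ g0) = 0`): `BdO 2 (Pa ∪ Pg) θ`. `MVr 2 Pa Pg θ d` (add the decompositions; `Zr.anti`). S_MVO (2)
for `Pa`, `Pg`: `BdO 3 (Pa ∩ Pg) d`, so `BdO 3 (Vx ∪ Vy) d`, so `a = b = 0`. -/
def S_LED : Prop := ∀ (k X : Type) [Field k] [MetricSpace X] [CompactSpace X],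
  LocallyPathConnectedSpace X → IsANR X → Sj k X →
  ∀ (B B' D O₁ K W Na Ng Pa Pg Vx Vy : Set X) (g0 : Cc k X),
  Fic k B B' D O₁ K W Na Ng Pa Pg Vx Vy g0 → Module.finrank k (HO k k 3 B) ≤ 1

def M_LED : Prop := S_CNT → S_MVO → S_KEY → S_LED

/-- LEV. `x ∈ V`; S_STP for `N = V`, S_LEC, S_LED, S_FRS for `B ⊆ V`. -/
def S_LEV : Prop := ∀ (k X : Type) [Field k] [MetricSpace X] [CompactSpace X],
  LocallyPathConnectedSpace X → IsANR X → Homog X → Sj k X → GNs X → (∀ x : X, NZat k x) →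
  (∀ x : X, LT k 2 x) → ∀ V : Set X, IsOpen V → IsConnected V →
  Module.finrank k (HO k k 3 V) ≤ 1

def M_LEV : Prop := S_STP → S_LEC → S_LED → S_FRS → S_LEV

/-- ONE. For countable fields: (1) `finrank ≤ 1` and generation by one element for all connected open sets; (2) good sets: `B` from S_NZB. `Sj` from S_SRJ, `LocallyPathConnectedSpace` from S_LPX, `GNs` from S_GNX, `NZat` from S_NZK, `LT k 2` from S_LT2, S_LEV, finite dimension from S_FDV. (2), injectivity: `HO V` and `HO W` have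
dimension exactly 1 (not `VanO`), `ext` is onto by `Sj`, so bijective. -/
def S_ONE : Prop := ∀ (k X : Type) [Field k] [Countable k] [MetricSpace X] [CompactSpace X],
  IsANR X → Homog X → ShrLE X 3 → ¬ ShrLE X 2 →
  (∀ V : Set X, IsOpen V → IsConnected V →
    ∃ g : Cc k X, CyO 3 V g ∧ ∀ c : Cc k X, CyO 3 V c → ∃ t : k, BdO 3 V (c - t • g)) ∧
  ∀ (x : X) (N : Set X), IsOpen N → x ∈ N → ∃ B ⊆ N, x ∈ B ∧ GB k B ∧
    ∀ V W : Set X, W ⊆ B → V ⊆ W → IsOpen V → IsConnected V → IsOpen W → IsConnected W →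
      ∀ c : Cc k X, CyO 3 V c → BdO 3 W c → BdO 3 V c

def M_ONE : Prop := S_LEV → S_LPX → S_SRJ → S_GNX → S_NZK → S_LT2 → S_FDV → S_NZB → S_ONE

end BBH
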