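import Pool.Agent.BBH.StmtsG

/-!
# BBH, block H: integral coefficients, the fundamental class mod 2, corollaries

Module `X` proves `theorem t_X : M_X` (or `t_X : S_X`) in the namespace `BBH`, in the file `Pool/Agent/BBH/H_X.lean`.
-/

set_option autoImplicit false

namespace BBH

open Set Topology CTO

/-! ## 1. Integral cochains -/

/-- DVU. Divisibility (as `Pool/Agent/BBH/D_DVP.lean`). The reduction `l ↦ (c l : ZMod p)` is `dd b'` near `univ`, `b'` of degree `q - 1`, zero near `Vᶜ`. Lift `b'` to an integral `b` with `b l = 0` if `b' l = 0` (`ZMod.val`). For `l` with `p ∣ (c - dd b) l`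
let `c' l = (c - dd b) l / p`, otherwise `c' l = 0`: `c - dd b - p • c'` vanishes near `univ`; `c' ∈ CyO q V` (`p • dd c' = 0` on small lists). -/
def S_DVU : Prop := ∀ (X : Type) [MetricSpace X] (p : ℕ) (q : ℤ) (V : Set X), 0 < p →
  ∀ c : Cc ℤ X, CyO q V c → BdO q V (fun l => (c l : ZMod p)) →
  ∃ c' : Cc ℤ X, CyO q V c' ∧ BdO q V (c - (p : ℤ) • c')

/-- LFT. Lifting. `a l = (c' l).val`, an integral cochain of degree 3 that vanishes near `Wᶜ`; `dd a` is divisible by `p` on small lists: `e l = (dd a) l / p` there (and `0` on the lists where `dd a` is not divisible), `e ∈ CyO 4 W` (`p • dd e = 0`). By S_DIM `e - dd f` vanishes near `univ`, `f` of degree 3 zero near `Wᶜ`;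
`c = a - p • f`. -/
def S_LFT : Prop := ∀ (X : Type) [MetricSpace X] [CompactSpace X], ShrLE X 3 →
  ∀ (p : ℕ) (W : Set X), 0 < p → IsOpen W → ∀ c' : Cc (ZMod p) X, CyO 3 W c' →
  ∃ c : Cc ℤ X, CyO 3 W c ∧ (fun l => (c l : ZMod p)) = c'

def M_LFT : Prop := S_DIM → S_LFT

/-- FSL. Finite selections. Let `c - pull r c` be as in `bd_of_contig` for `f = id`, `g = r`. A finite `ε`-net `t` of `X` (compact), `r x ∈ t` with `dist (r x) x < ε`. -/
def S_FSL : Prop := ∀ (X : Type) [MetricSpace X] [CompactSpace X] (ε : ℝ), 0 < ε →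
  ∃ r : X → X, (range r).Finite ∧ ∀ x, dist (r x) x < ε

/-- TOR. A rational coboundary is a torsion class. `c - dd b` vanishes near `univ`, `b` rational of degree `q - 1`, zero near `Uᶜ`. `r` from S_FSL for small `ε`: `c - pull r c ∈ BdO q U` (`bd_of_contig` with `f = id`, `g = r`, integral); `b' = pull r b` vanishes near `Uᶜ` (lists near `Uᶜ` go to lists near `Uᶜ`), `pull r c - dd b'` vanishes
near `univ`, and `b'` has finitely many values (the lists of length `q` with members in the finite set `range r`; `Dg`), so there is `m > 0` such that `m • b'` is integral, `= e`. `m • c = m • (c - pull r c) + (m • pull r c - dd e) + dd e`. -/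
def S_TOR : Prop := ∀ (X : Type) [MetricSpace X] [CompactSpace X] (q : ℤ) (U : Set X)
  (c : Cc ℤ X), CyO q U c → BdO q U (fun l => (c l : ℚ)) →
  ∃ m : ℕ, 0 < m ∧ BdO q U ((m : ℤ) • c)

def M_TOR : Prop := S_FSL → S_TOR

/-- RAT. A multiple of a rational cocycle is integral. As in S_TOR: `c - pull r c ∈ BdO q U`, `m • pull r c` is integral. -/
def S_RAT : Prop := ∀ (X : Type) [MetricSpace X] [CompactSpace X] (q : ℤ) (U : Set X)
  (c : Cc ℚ X), CyO q U c → ∃ (m : ℕ) (c' : Cc ℤ X), 0 < m ∧ CyO q U c' ∧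
    BdO q U ((m : ℚ) • c - fun l => (c' l : ℚ))

def M_RAT : Prop := S_FSL → S_RAT

/-! ## 2. Degree two -/

/-- SZN. Induction on the prime factorisation of `n` (`Nat.recOnMul` or `induction_on_primes`) for all `x`, `U`. `n = 1`: `V = U`, `c' = c`. `n = p`: `V` from `LT (ZMod p) q x`; the reduction of `c` is in `BdO q U`; S_DVU for `U`. `n = a * b`: `V₁` for `a`, `U`; `V` for `b`, `V₁`: `c - b • c' ∈ BdO q V₁`, `c' - a • c'' ∈ BdO q U`. -/
def S_SZN : Prop := ∀ (X : Type) [MetricSpace X] (q : ℤ),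
  (∀ p : ℕ, p.Prime → ∀ x : X, LT (ZMod p) q x) → ∀ n : ℕ, 0 < n → ∀ (x : X) (U : Set X),
  IsOpen U → x ∈ U → ∃ V ⊆ U, IsOpen V ∧ x ∈ V ∧ ∀ c : Cc ℤ X, CyO q V c →
    ∃ c' : Cc ℤ X, CyO q U c' ∧ BdO q U (c - (n : ℤ) • c')

def M_SZN : Prop := S_DVU → S_SZN

/-- LTZ. Let `x ∈ U' ⊆ closure U' ⊆ U`, `V₁ ⊆ U'` from `LT ℚ q x` for `U'`. The range `I` of `ext : HO ℤ ℤ q V₁ → HO ℤ ℤ q U` is f. g. (S_FIO (1), `R = M = ℤ`; `closure V₁ ⊆ U`) and all its elements are torsion (S_TOR; `BdO q U' ⊆ BdO q U`), so `n • I = 0` for some `n > 0`. `V ⊆ V₁` from S_SZN for `V₁`, `n`: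
for `c ∈ CyO q V` `c - n • c' ∈ BdO q V₁`, `c' ∈ CyO q V₁`, and `n • c' ∈ BdO q U`. -/
def S_LTZ : Prop := ∀ (X : Type) [MetricSpace X] [CompactSpace X], IsANR X → ∀ q : ℤ,
  (∀ x : X, LT ℚ q x) → (∀ p : ℕ, p.Prime → ∀ x : X, LT (ZMod p) q x) → ∀ x : X, LT ℤ q x

def M_LTZ : Prop := S_TOR → S_SZN → S_FIO → S_LTZ

/-! ## 3. Degree three -/

/-- surjectivity for general coefficients -/
def SjM (M X : Type) [AddCommGroup M] [MetricSpace X] : Prop :=
  ∀ V W : Set X, IsOpen V → IsConnected V → IsOpen W → W ⊆ V → W.Nonempty →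
    ∀ c : Cc M X, CyO 3 V c → ∃ c' : Cc M X, CyO 3 W c' ∧ BdO 3 V (c - c')

/-- SJZ. S_GEN (`n = 3`) for `Q c := ∃ c' : Cc ℤ X, CyO 3 W c' ∧ BdO 3 V (c - c')`. Let `y ∈ V`, `w ∈ W`, `C` the range of a path in `V` from `y` to `w` (compact, connected), `U₁` open, `C ⊆ U₁`, `closure U₁ ⊆ V`, `V'` connected open with `C ⊆ V' ⊆ U₁` (S_THK (2)). Claim: `Q c` for all `c ∈ CyO 3 V'`. Let `A = HO ℤ ℤ 3 V`, `R` the range of
`ext : HO ℤ ℤ 3 W → A`, `I` the image in `A ⧸ R` of the range of `ext : HO ℤ ℤ 3 V' → A`: f. g. by S_FIO (1) as `closure V' ⊆ V`. `I` is divisible by every prime `p`: let `c ∈ CyO 3 V'`; by `Sj (ZMod p) X` for the reduction of `c`, `V'` and `V' ∩ W` (nonempty) and S_LFT there is `c₁ ∈ CyO 3 (V' ∩ W)` such that the reduction of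
`c - c₁` is in `BdO 3 V'`; S_DVU: `c - c₁ - p • c₂ ∈ BdO 3 V'`, `c₂ ∈ CyO 3 V'`. By S_FGD `I = 0`. -/
def S_SJZ : Prop := ∀ (X : Type) [MetricSpace X] [CompactSpace X],
  LocallyPathConnectedSpace X → IsANR X → ShrLE X 3 →
  (∀ (p : ℕ) [Fact p.Prime], Sj (ZMod p) X) → SjM ℤ X

def M_SJZ : Prop := S_GEN → S_THK → S_FIO → S_LFT → S_DVU → S_FGD → S_SJZ

/-- ALZ. Structure theorem (`Module.equiv_free_prod_directSum` or `AddCommGroup.equiv_free_prod_directSum_zmod`): `A` is the sum of `ℤ ^ r` and finitely many `ZMod (p i ^ e i)`. `r ≥ 1` as `A` is not torsion. `r ≥ 2` contradicts the hypothesis for `p = 2` and two basis vectors; a nontrivial summand `ZMod (p ^ e)` contradicts it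
for `p`, `a` = a basis vector, `b` = the generator of the summand. -/
def S_ALZ : Prop := ∀ (A : Type) [AddCommGroup A] [Module.Finite ℤ A],
  (∃ a : A, ∀ n : ℤ, n ≠ 0 → n • a ≠ 0) →
  (∀ p : ℕ, p.Prime → ∀ a b : A, ∃ (s t : ℤ) (e : A), ¬ ((p : ℤ) ∣ s ∧ (p : ℤ) ∣ t) ∧
    s • a + t • b = (p : ℤ) • e) → Nonempty (A ≃ₗ[ℤ] ℤ)

/-- HZ3. `H^3_c(V; ℤ) = ℤ`. S_ALZ for `A = HO ℤ ℤ 3 V`. Finite: `W` open, nonempty, `closure W ⊆ V`; S_FIO (1) and `SjM`. Not torsion: let `c` be a rational cocycle in `V`, not in `BdO 3 V`; S_RAT: `m • c ~ c'`; if `n • c' ∈ BdO 3 V` with `n ≠ 0` then (rationally) `c' ∈ BdO 3 V`, `c ∈ BdO 3 V`. The last condition: let `ca, cb` be integral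
cocycles, `g` from the hypothesis for `p`; the reductions are `ta • g`, `tb • g` up to `BdO 3 V`. If `ta = tb = 0`: `s = 1, t = 0`; otherwise `s, t` are lifts of `tb`, `- ta`; S_DVU for `s • ca + t • cb`. -/
def S_HZ3 : Prop := ∀ (X : Type) [MetricSpace X] [CompactSpace X], IsANR X → SjM ℤ X →
  (∀ (p : ℕ) [Fact p.Prime] (V : Set X), IsOpen V → IsConnected V →
    ∃ g : Cc (ZMod p) X, CyO 3 V g ∧
      ∀ c : Cc (ZMod p) X, CyO 3 V c → ∃ t : ZMod p, BdO 3 V (c - t • g)) →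
  ∀ V : Set X, IsOpen V → IsConnected V → ¬ VanO ℚ 3 V → Nonempty (HO ℤ ℤ 3 V ≃ₗ[ℤ] ℤ)

def M_HZ3 : Prop := S_ALZ → S_FIO → S_RAT → S_DVU → S_HZ3

/-! ## 4. The fundamental class mod 2 -/

/-- `s` is an orientation of `U` mod 2 -/
def Orr {X : Type} [MetricSpace X] (U : Set X) (s : Cc (ZMod 2) X →ₗ[ZMod 2] ZMod 2) : Prop :=
  Kil 3 U s ∧ ∀ V ⊆ U, IsOpen V → V.Nonempty → ∃ c, CyO 3 V c ∧ s c ≠ 0

/-- connected open sets have at most one nonzero class mod 2 -/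
def Ucl (X : Type) [MetricSpace X] : Prop :=
  ∀ V : Set X, IsOpen V → IsConnected V → ∃ g : Cc (ZMod 2) X, CyO 3 V g ∧
    ∀ c : Cc (ZMod 2) X, CyO 3 V c → ∃ t : ZMod 2, BdO 3 V (c - t • g)

/-- ORA. Uniqueness. S_GEN for `Q c := s c = s' c`. For `y ∈ U` let `W ∋ y`, `W ⊆ U` be open and connected (locally connected), `g` from `Ucl`: `s c = t * s g`, `s' c = t * s' g`, `s g ≠ 0`, `s' g ≠ 0`, so both are `1`. -/
def S_ORA : Prop := ∀ (X : Type) [MetricSpace X] [CompactSpace X],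
  LocallyPathConnectedSpace X → ShrLE X 3 → Ucl X →
  ∀ (U : Set X) (s s' : Cc (ZMod 2) X →ₗ[ZMod 2] ZMod 2), IsOpen U → Orr U s → Orr U s' →
  ∀ c, CyO 3 U c → s c = s' c

def M_ORA : Prop := S_GEN → S_ORA

/-- ORG. Gluing. `s = s'` on `CyO 3 (U ∩ V)` by S_ORA (`Orr` is inherited by subsets). Let `T` be the module of the pairs `(c₁, c₂)`, `CyO 3 U c₁`, `CyO 3 V c₂`, `ψ : T → HO (U ∪ V)`, `(c₁, c₂) ↦ [c₁ + c₂]`, `σ (c₁, c₂) = s c₁ + s' c₂`. `ψ` is onto by S_MVO (5) and S_DIM (degree 4). `ker ψ ≤ ker σ`: S_MVO (4) gives `e`,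
`s c₁ = s e`, `s' c₂ = - s' e = - s e`. So `σ = φ ∘ ψ`, and `exists_total` gives `s''`, equal to `s` on `CyO 3 U` and to `s'` on `CyO 3 V`. -/
def S_ORG : Prop := ∀ (X : Type) [MetricSpace X] [CompactSpace X],
  LocallyPathConnectedSpace X → ShrLE X 3 → Ucl X →
  ∀ (U V : Set X) (s s' : Cc (ZMod 2) X →ₗ[ZMod 2] ZMod 2), IsOpen U → IsOpen V → Orr U s →
  Orr V s' → ∃ s'', Orr (U ∪ V) s''

def M_ORG : Prop := S_DIM → S_MVO → S_ORA → S_ORG

/-- ORI. Existence. Every `x` has a neighbourhood `B` with `GB (ZMod 2) B`; a nonzero linear functional on `HO (ZMod 2) (ZMod 2) 3 B` (`exists_total`) gives `Orr B s`, by `Sj`: for `V ⊆ B` open, nonempty, `CyO 3 V` generates `CyO 3 B` up to `BdO 3 B`. `IsCompact.induction_on` for `univ` and the property `∃ U ⊇ S` open, `∃ s, Orr U s` of `S`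
(for `∅`: `U = ∅`, `s = 0`), with S_ORG. -/
def S_ORI : Prop := ∀ (X : Type) [MetricSpace X] [CompactSpace X],
  LocallyPathConnectedSpace X → ShrLE X 3 → Sj (ZMod 2) X → Ucl X →
  (∀ x : X, ∃ B, x ∈ B ∧ GB (ZMod 2) B) → ∃ s, Orr (univ : Set X) s

def M_ORI : Prop := S_ORG → S_ORI

/-! ## 5. Corollaries -/

/-- CLA. Closed sets. `c ∈ Cyc 3 A ∅`; `dd c ∈ Cyc 4 univ A` (`les_conn`) is a coboundary by S_DIM; `les_right` gives `c' ∈ Cyc 3 univ ∅` with `Bd 3 A ∅ (c - c')`. `SjM` for `V = univ`, `W = Aᶜ`: `c''` with `BdO 3 univ (c' - c'')`, `c''` vanishes near `A`. -/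
def S_CLA : Prop := ∀ (M X : Type) [AddCommGroup M] [MetricSpace X] [CompactSpace X],
  ShrLE X 3 → IsConnected (univ : Set X) → SjM M X → ∀ A : Set X, IsClosed A → A ≠ univ →
  Van M 3 A ∅

def M_CLA : Prop := S_DIM → S_CLA

/-- NCT. If `X` is contractible then `Ctr univ univ` (from the homotopy of the identity to a constant map), so S_CTR for `p = 3`. -/
def S_NCT : Prop := ∀ (M X : Type) [AddCommGroup M] [MetricSpace X] [CompactSpace X],
  ¬ VanO M 3 (univ : Set X) → ¬ ContractibleSpace X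

def M_NCT : Prop := S_CTR → S_NCT

/-- cohomology `n`-manifolds over `R` (without the condition on the dimension) -/
def CohMfd (R : Type) [CommRing R] (n : ℤ) (X : Type) [MetricSpace X] : Prop :=
  ∀ (x : X) (N : Set X), IsOpen N → x ∈ N →
    (∃ V ⊆ N, IsOpen V ∧ x ∈ V ∧ ∀ p : ℤ, p ≠ n → ∀ c : Cc R X, CyO p V c → BdO p N c) ∧
    ∃ B ⊆ N, IsOpen B ∧ x ∈ B ∧ ∀ V ⊆ B, IsOpen V → IsConnected V →
      Nonempty (HO R R n V ≃ₗ[R] R) ∧ ∀ (W : Set X) (h : W ⊆ V), IsOpen W → IsConnected W →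
        Function.Bijective (ext R R (p := n) h)

/-- CMK. Fields. `LT k 0, 1, 2 x` (S_LT0, S_LT1, S_LT2; `GNs` from S_GNX) and `VanO` in the degrees `≥ 4` (S_DIM) and `< 0` (`Van.neg`): one `V` for `p = 0, 1, 2` by intersection (`CyO.mono`). `B` from S_ONE (2): for connected `V ⊆ B` the module `HO k k 3 V` is generated by one element (S_ONE (1)) and not zero (`GB`), so isomorphic
to `k`; `ext` is onto (S_SRJ) and injective (S_ONE (2)). -/
def S_CMK : Prop := ∀ (k X : Type) [Field k] [Countable k] [MetricSpace X] [CompactSpace X],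
  IsANR X → Homog X → ShrLE X 3 → ¬ ShrLE X 2 → CohMfd k 3 X

def M_CMK : Prop := S_LT0 → S_LT1 → S_LT2 → S_GNX → S_DIM → S_ONE → S_SRJ → S_CMK

/-- CMZ. Integers. `LT ℤ 0, 1 x` (S_LT0, S_LT1 for `M = ℤ`), `LT ℤ 2 x` (S_LTZ; S_LT2 for `ℚ` and `ZMod p`). `B` from S_ONE (2) for `ℚ` (`GB ℚ B`). `SjM ℤ X` from S_SJZ and S_SRJ; `HO ℤ ℤ 3 V ≃ ℤ` from S_HZ3 and S_ONE (1) for `ZMod p`; `ext` is onto by `SjM`, and a surjective linear map between modules isomorphic to `ℤ`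
is bijective (Noetherian, `OrzechProperty`). -/
def S_CMZ : Prop := ∀ (X : Type) [MetricSpace X] [CompactSpace X],
  IsANR X → Homog X → ShrLE X 3 → ¬ ShrLE X 2 → SjM ℤ X ∧ CohMfd ℤ 3 X

def M_CMZ : Prop := S_LPX → S_LT0 → S_LT1 → S_LT2 → S_LTZ → S_GNX → S_DIM → S_ONE → S_SRJ →
  S_SJZ → S_HZ3 → S_CMZ

/-- COR. The fundamental class mod 2 and its consequences. `s` from S_ORI (S_SRJ, S_ONE for `ZMod 2`, S_LPX). (1) `s c ≠ 0` for some `c ∈ CyO 3 univ` (`X` is nonempty), so `¬ BdO 3 univ c`. (2) S_NCT. (3) `GB (ZMod 2) univ` from `Orr`; S_NSB for `B = univ`. (4) S_CLA for `ZMod 2`, similarly every countable field: `SjM k X` is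
`Sj k X`. -/
def S_COR : Prop := ∀ (X : Type) [MetricSpace X] [CompactSpace X] [Nonempty X],
  IsANR X → Homog X → ShrLE X 3 → ¬ ShrLE X 2 → ¬ VanO (ZMod 2) 3 (univ : Set X) ∧
  ¬ ContractibleSpace X ∧ (ConnectedSpace X →
    (∀ A : Set X, IsClosed A → Van (ZMod 2) 2 A ∅ → IsPreconnected Aᶜ) ∧
    (∀ A : Set X, IsClosed A → A ≠ univ → Van ℤ 3 A ∅ ∧
      ∀ (k : Type) [Field k] [Countable k], Van k 3 A ∅) ∧
    Nonempty (HO (ZMod 2) (ZMod 2) 3 (univ : Set X) ≃ₗ[ZMod 2] ZMod 2))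

def M_COR : Prop := S_LPX → S_ORI → S_SRJ → S_ONE → S_NSB → S_NCT → S_CLA → S_CMZ → S_COR

end BBH
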